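import Mathlib

/-! A positive proportion of elliptic curves, part A1: this file joins several modules to save build time. -/

set_option autoImplicit false

section S_H76_PP_Df0

set_option autoImplicit false

open NumberField IsDedekindDomain
open scoped Matrix

namespace H76PP

section Boxes

variable (K : Type) [Field K] [NumberField K]

/-- The integers of `K` all of whose conjugates have absolute value at most `T`. -/
def bx (T : ℝ) : Set (𝓞 K) := {a | ∀ s : K →+* ℂ, ‖s (a : K)‖ ≤ T}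

/-- The pairs `(A, B)` of integers of `K` of height at most `X`. -/
def Bx (X : ℝ) : Set (𝓞 K × 𝓞 K) := {p | p.1 ∈ bx K (X ^ 2) ∧ p.2 ∈ bx K (X ^ 3)}

end Boxes

section Primes

variable {K : Type} [Field K] [NumberField K]

/-- The norm of a prime. -/
noncomputable def Nv (v : HeightOneSpectrum (𝓞 K)) : ℕ := Ideal.absNorm v.asIdeal

/-- Minus the discriminant of `x^3 + A x + B`. -/
def dsc {R : Type*} [CommRing R] (A B : R) : R := 4 * A ^ 3 + 27 * B ^ 2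

/-- The family of pairs `(A, B)`. -/
structure Fam (q₀ : HeightOneSpectrum (𝓞 K)) (T : Finset (HeightOneSpectrum (𝓞 K))) (A B : 𝓞 K) :
    Prop where
  ne : A ≠ 0
  irr : ∀ t : 𝓞 K, t ^ 3 + A * t + B ∉ q₀.asIdeal
  typ : ∀ v ∈ T, ∃ t : 𝓞 K, t ^ 3 + A * t + B ∈ v.asIdeal ∧
    ∀ s : 𝓞 K, -3 * t ^ 2 - 4 * A - s ^ 2 ∉ v.asIdeal
  two : ∀ v : HeightOneSpectrum (𝓞 K), (2 : 𝓞 K) ∈ v.asIdeal → B ∉ v.asIdeal
  three : ∀ v : HeightOneSpectrum (𝓞 K), (3 : 𝓞 K) ∈ v.asIdeal → A ∉ v.asIdeal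
  sqf : ∀ v : HeightOneSpectrum (𝓞 K), (6 : 𝓞 K) ∉ v.asIdeal → dsc A B ∉ v.asIdeal ^ 2

/-- The residue condition on a pair of symmetric `3 × 3` matrices. -/
def Rs {k : Type*} [Field k] (M N : Matrix (Fin 3) (Fin 3) k) : Prop :=
  ∃ (a b t : k) (e : Fin 3 → k), e ≠ 0 ∧
    (∀ x : k, (x • M - N).det = M.det * (x ^ 3 + a * x + b)) ∧
    N.mulVec e = t • M.mulVec e ∧ ¬ IsSquare (-3 * t ^ 2 - 4 * a) ∧
    e ⬝ᵥ M.mulVec e ≠ 0 ∧ IsSquare ((e ⬝ᵥ M.mulVec e) * (3 * t ^ 2 + a))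

noncomputable instance (v : HeightOneSpectrum (𝓞 K)) : Field (𝓞 K ⧸ v.asIdeal) :=
  letI := v.isMaximal
  Ideal.Quotient.field v.asIdeal

/-- Reduction of matrices modulo a prime. -/
noncomputable def rd (v : HeightOneSpectrum (𝓞 K)) (M : Matrix (Fin 3) (Fin 3) (𝓞 K)) :
    Matrix (Fin 3) (Fin 3) (𝓞 K ⧸ v.asIdeal) := M.map (Ideal.Quotient.mk v.asIdeal)

/-- The data attached to a bad pair `(A, B)`. -/
structure Dat (X C₂ : ℝ) (T : Finset (HeightOneSpectrum (𝓞 K))) (A B : 𝓞 K)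
    (l : Fin 3 → ℝ) (M N : Matrix (Fin 3) (Fin 3) (𝓞 K)) : Prop where
  pos : 0 < l 0
  le01 : l 0 ≤ l 1
  le12 : l 1 ≤ l 2
  prod : l 0 * l 1 * l 2 ≤ C₂
  symM : M.IsSymm
  symN : N.IsSymm
  detM : M.det ≠ 0
  bdM : ∀ (s : K →+* ℂ) (i j : Fin 3), ‖s (M i j : K)‖ ≤ l i * l j
  bdN : ∀ (s : K →+* ℂ) (i j : Fin 3), ‖s (N i j : K)‖ ≤ 2 * X * (l i * l j)
  char : ∀ x : 𝓞 K, (x • M - N).det = M.det * (x ^ 3 + A * x + B)
  red : M 0 0 = 0 → N 0 0 ≠ 0
  fix : ∀ Q : Matrix (Fin 3) (Fin 3) (𝓞 K), Qᵀ * M * Q = M → Qᵀ * N * Q = N →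
    (∃ e : Fin 3 → 𝓞 K, e ≠ 0 ∧ Q.mulVec e = e) → Q = 1
  res : ∀ v ∈ T, M.det ∉ v.asIdeal → Rs (rd v M) (rd v N)

end Primes

/-- `L = K(θ)`, `θ` a root of the irreducible polynomial `x^3 + A x + B`. -/
structure Cub (K L : Type) [Field K] [Field L] [Algebra K L] (A B : K) (θ : L) : Prop where
  root : θ ^ 3 + algebraMap K L A * θ + algebraMap K L B = 0
  li : ∀ c₀ c₁ c₂ : K, algebraMap K L c₀ + algebraMap K L c₁ * θ + algebraMap K L c₂ * θ ^ 2 = 0 →
    c₀ = 0 ∧ c₁ = 0 ∧ c₂ = 0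
  sp : ∀ x : L, ∃ c₀ c₁ c₂ : K,
    x = algebraMap K L c₀ + algebraMap K L c₁ * θ + algebraMap K L c₂ * θ ^ 2

end H76PP

end S_H76_PP_Df0

section S_H76_PP_E0

set_option autoImplicit false

open NumberField IsDedekindDomain
open scoped Matrix

namespace H76PP

section

variable {K L : Type} [Field K] [Field L] [Algebra K L] {A B : K} {θ : L}

/-- The basis `1, θ, θ^2`. -/
noncomputable def Cub.basis (h : Cub K L A B θ) : Module.Basis (Fin 3) K L :=
  Module.Basis.mk (v := ![1, θ, θ ^ 2]) (by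
    rw [Fintype.linearIndependent_iff]
    intro g hg
    rw [Fin.sum_univ_three] at hg
    simp only [Matrix.cons_val_zero, Matrix.cons_val_one, Matrix.cons_val_two, Matrix.head_cons,
      Matrix.tail_cons, Algebra.smul_def, mul_one] at hg
    obtain ⟨h0, h1, h2⟩ := h.li _ _ _ hg
    intro i
    fin_cases i
    · exact h0
    · exact h1
    · exact h2) (by
    intro x _
    obtain ⟨c₀, c₁, c₂, rfl⟩ := h.sp x
    have h0 : (1 : L) ∈ Submodule.span K (Set.range ![1, θ, θ ^ 2]) :=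
      Submodule.subset_span ⟨0, rfl⟩
    have h1 : θ ∈ Submodule.span K (Set.range ![1, θ, θ ^ 2]) :=
      Submodule.subset_span ⟨1, rfl⟩
    have h2 : θ ^ 2 ∈ Submodule.span K (Set.range ![1, θ, θ ^ 2]) :=
      Submodule.subset_span ⟨2, rfl⟩
    have e0 := Submodule.smul_mem _ c₀ h0
    have e1 := Submodule.smul_mem _ c₁ h1
    have e2 := Submodule.smul_mem _ c₂ h2
    rw [Algebra.smul_def] at e0 e1 e2
    rw [mul_one] at e0
    exact Submodule.add_mem _ (Submodule.add_mem _ e0 e1) e2)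

lemma Cub.basis_coe (h : Cub K L A B θ) : ⇑h.basis = ![1, θ, θ ^ 2] := Module.Basis.coe_mk _ _

/-- The coordinates with respect to `1, θ, θ^2`. -/
noncomputable def Cub.co (h : Cub K L A B θ) (i : Fin 3) : L →ₗ[K] K := h.basis.coord i

lemma Cub.eq_co (h : Cub K L A B θ) (x : L) :
    x = algebraMap K L (h.co 0 x) + algebraMap K L (h.co 1 x) * θ +
      algebraMap K L (h.co 2 x) * θ ^ 2 := by
  have h1 := h.basis.sum_repr x
  rw [Fin.sum_univ_three, h.basis_coe] at h1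
  simp only [Matrix.cons_val_zero, Matrix.cons_val_one, Matrix.cons_val_two, Matrix.head_cons,
      Matrix.tail_cons, Algebra.smul_def, mul_one] at h1
  exact h1.symm

lemma Cub.co_mk (h : Cub K L A B θ) (c : Fin 3 → K) (i : Fin 3) :
    h.co i (algebraMap K L (c 0) + algebraMap K L (c 1) * θ + algebraMap K L (c 2) * θ ^ 2) =
      c i := by
  set x := algebraMap K L (c 0) + algebraMap K L (c 1) * θ + algebraMap K L (c 2) * θ ^ 2 with hx
  have h1 := h.eq_co x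
  have h2 : algebraMap K L (h.co 0 x - c 0) + algebraMap K L (h.co 1 x - c 1) * θ +
      algebraMap K L (h.co 2 x - c 2) * θ ^ 2 = 0 := by
    rw [map_sub, map_sub, map_sub]
    linear_combination hx - h1
  obtain ⟨e0, e1, e2⟩ := h.li _ _ _ h2
  fin_cases i
  · exact sub_eq_zero.1 e0
  · exact sub_eq_zero.1 e1
  · exact sub_eq_zero.1 e2

lemma Cub.co_mk' (h : Cub K L A B θ) (c₀ c₁ c₂ : K) :
    h.co 0 (algebraMap K L c₀ + algebraMap K L c₁ * θ + algebraMap K L c₂ * θ ^ 2) = c₀ ∧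
    h.co 1 (algebraMap K L c₀ + algebraMap K L c₁ * θ + algebraMap K L c₂ * θ ^ 2) = c₁ ∧
    h.co 2 (algebraMap K L c₀ + algebraMap K L c₁ * θ + algebraMap K L c₂ * θ ^ 2) = c₂ :=
  ⟨h.co_mk ![c₀, c₁, c₂] 0, h.co_mk ![c₀, c₁, c₂] 1, h.co_mk ![c₀, c₁, c₂] 2⟩

lemma Cub.ext_co (h : Cub K L A B θ) {x y : L} (h0 : h.co 0 x = h.co 0 y)
    (h1 : h.co 1 x = h.co 1 y) (h2 : h.co 2 x = h.co 2 y) : x = y := by
  rw [h.eq_co x, h.eq_co y, h0, h1, h2]

theorem Cub.finrank (h : Cub K L A B θ) : Module.finrank K L = 3 := by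
  rw [Module.finrank_eq_card_basis h.basis, Fintype.card_fin]

/-- The coordinates of a product. -/
theorem Cub.co_mul (h : Cub K L A B θ) (x y : L) :
    h.co 0 (x * y) = h.co 0 x * h.co 0 y - B * (h.co 1 x * h.co 2 y + h.co 2 x * h.co 1 y) ∧
    h.co 1 (x * y) = h.co 0 x * h.co 1 y + h.co 1 x * h.co 0 y -
      A * (h.co 1 x * h.co 2 y + h.co 2 x * h.co 1 y) - B * (h.co 2 x * h.co 2 y) ∧
    h.co 2 (x * y) = h.co 0 x * h.co 2 y + h.co 1 x * h.co 1 y + h.co 2 x * h.co 0 y -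
      A * (h.co 2 x * h.co 2 y) := by
  have hr := h.root
  have e : x * y = algebraMap K L (h.co 0 x * h.co 0 y -
        B * (h.co 1 x * h.co 2 y + h.co 2 x * h.co 1 y)) +
      algebraMap K L (h.co 0 x * h.co 1 y + h.co 1 x * h.co 0 y -
        A * (h.co 1 x * h.co 2 y + h.co 2 x * h.co 1 y) - B * (h.co 2 x * h.co 2 y)) * θ +
      algebraMap K L (h.co 0 x * h.co 2 y + h.co 1 x * h.co 1 y + h.co 2 x * h.co 0 y -
        A * (h.co 2 x * h.co 2 y)) * θ ^ 2 := by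
    conv_lhs => rw [h.eq_co x, h.eq_co y]
    simp only [map_add, map_sub, map_mul]
    generalize algebraMap K L (h.co 0 x) = a0
    generalize algebraMap K L (h.co 1 x) = a1
    generalize algebraMap K L (h.co 2 x) = a2
    generalize algebraMap K L (h.co 0 y) = b0
    generalize algebraMap K L (h.co 1 y) = b1
    generalize algebraMap K L (h.co 2 y) = b2
    linear_combination (a1 * b2 + a2 * b1 + a2 * b2 * θ) * hr
  have e2 := congrArg (fun z => (h.co 0 z, h.co 1 z, h.co 2 z)) e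
  simp only [Prod.mk.injEq] at e2
  obtain ⟨i0, i1, i2⟩ := h.co_mk' (h.co 0 x * h.co 0 y -
        B * (h.co 1 x * h.co 2 y + h.co 2 x * h.co 1 y))
      (h.co 0 x * h.co 1 y + h.co 1 x * h.co 0 y -
        A * (h.co 1 x * h.co 2 y + h.co 2 x * h.co 1 y) - B * (h.co 2 x * h.co 2 y))
      (h.co 0 x * h.co 2 y + h.co 1 x * h.co 1 y + h.co 2 x * h.co 0 y -
        A * (h.co 2 x * h.co 2 y))
  exact ⟨e2.1.trans i0, e2.2.1.trans i1, e2.2.2.trans i2⟩

lemma Cub.co_one (h : Cub K L A B θ) : h.co 0 1 = 1 ∧ h.co 1 1 = 0 ∧ h.co 2 1 = 0 := by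
  have := h.co_mk' 1 0 0
  simpa using this

lemma Cub.co_theta (h : Cub K L A B θ) : h.co 0 θ = 0 ∧ h.co 1 θ = 1 ∧ h.co 2 θ = 0 := by
  have := h.co_mk' 0 1 0
  simpa using this

lemma Cub.co_theta_sq (h : Cub K L A B θ) :
    h.co 0 (θ ^ 2) = 0 ∧ h.co 1 (θ ^ 2) = 0 ∧ h.co 2 (θ ^ 2) = 1 := by
  have := h.co_mk' 0 0 1
  simpa using this

/-- The matrix of the multiplication by `x`. -/
theorem Cub.leftMul (h : Cub K L A B θ) (x : L) : Algebra.leftMulMatrix h.basis x =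
    !![h.co 0 x, -B * h.co 2 x, -B * h.co 1 x;
      h.co 1 x, h.co 0 x - A * h.co 2 x, -A * h.co 1 x - B * h.co 2 x;
      h.co 2 x, h.co 1 x, h.co 0 x - A * h.co 2 x] := by
  have key : ∀ i j, Algebra.leftMulMatrix h.basis x i j = h.co i (x * h.basis j) := by
    intro i j
    rw [Algebra.leftMulMatrix_eq_repr_mul]
    rfl
  obtain ⟨a0, a1, a2⟩ := h.co_theta
  obtain ⟨b0, b1, b2⟩ := h.co_theta_sq
  obtain ⟨c0, c1, c2⟩ := h.co_mul x θ
  obtain ⟨d0, d1, d2⟩ := h.co_mul x (θ ^ 2)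
  rw [a0, a1, a2] at c0 c1 c2
  rw [b0, b1, b2] at d0 d1 d2
  ext i j
  rw [key, h.basis_coe]
  fin_cases i <;> fin_cases j <;> simp [c0, c1, c2, d0, d1, d2] <;> ring

theorem Cub.trace (h : Cub K L A B θ) (x : L) :
    Algebra.trace K L x = 3 * h.co 0 x - 2 * A * h.co 2 x := by
  rw [Algebra.trace_eq_matrix_trace h.basis, h.leftMul, Matrix.trace_fin_three]
  simp
  ring

theorem Cub.norm (h : Cub K L A B θ) (x : L) :
    Algebra.norm K x = (!![h.co 0 x, -B * h.co 2 x, -B * h.co 1 x;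
      h.co 1 x, h.co 0 x - A * h.co 2 x, -A * h.co 1 x - B * h.co 2 x;
      h.co 2 x, h.co 1 x, h.co 0 x - A * h.co 2 x]).det := by
  rw [Algebra.norm_eq_matrix_det h.basis, h.leftMul]

/-- The norm of `x - θ`. -/
theorem Cub.norm_sub (h : Cub K L A B θ) (x : K) :
    Algebra.norm K (algebraMap K L x - θ) = x ^ 3 + A * x + B := by
  obtain ⟨a0, a1, a2⟩ := h.co_theta
  obtain ⟨b0, b1, b2⟩ := h.co_mk' x 0 0
  have hx : algebraMap K L x + algebraMap K L 0 * θ + algebraMap K L 0 * θ ^ 2 =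
      algebraMap K L x := by simp
  rw [hx] at b0 b1 b2
  rw [h.norm, Matrix.det_fin_three]
  simp only [map_sub, a0, a1, a2, b0, b1, b2, Matrix.of_apply, Matrix.cons_val', Matrix.cons_val_zero,
    Matrix.cons_val_one, Matrix.cons_val_two, Matrix.head_cons, Matrix.tail_cons,
    Matrix.head_fin_const, Matrix.empty_val', Matrix.cons_val_fin_one]
  simp
  ring

end

end H76PP

end S_H76_PP_E0

section S_H76_PP_La

set_option autoImplicit false
open scoped Classical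

open NumberField IsDedekindDomain

namespace H76PP

variable (K : Type) [Field K] [NumberField K]

private lemma La_emb (x : K) :
    ((Algebra.trace ℚ K x : ℚ) : ℂ) = ∑ s : K →+* ℂ, s x := by
  have h := trace_eq_sum_embeddings (K := ℚ) (L := K) ℂ (x := x)
  rw [← (RingHom.equivRatAlgHom K ℂ).sum_comp] at h
  simpa [RingHom.equivRatAlgHom_apply] using h

private lemma La_repr (a : 𝓞 K) (i : Module.Free.ChooseBasisIndex ℤ (𝓞 K)) :
    (((RingOfIntegers.basis K).repr a i : ℤ) : ℂ) =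
      ∑ s : K →+* ℂ, s (a : K) * s ((integralBasis K).traceDual i) := by
  have h1 : (integralBasis K).repr (a : K) i =
      Algebra.trace ℚ K ((a : K) * (integralBasis K).traceDual i) := by
    have h2 := Module.Basis.traceDual_repr_apply (K := ℚ) (L := K) (integralBasis K).traceDual
      (a : K) i
    rw [Module.Basis.traceDual_traceDual] at h2
    rw [h2, Algebra.traceForm_apply]
  have h3 := integralBasis_repr_apply K a i
  have h4 : (((RingOfIntegers.basis K).repr a i : ℤ) : ℚ) =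
      Algebra.trace ℚ K ((a : K) * (integralBasis K).traceDual i) := by
    rw [← h1]
    exact h3.symm
  have h5 := La_emb K ((a : K) * (integralBasis K).traceDual i)
  rw [← h4] at h5
  simp only [map_mul] at h5
  rw [← h5]
  push_cast
  rfl

theorem coord : ∃ C : ℝ, 1 ≤ C ∧
    (∀ (a : 𝓞 K) (T : ℝ), a ∈ bx K T → ∀ i, |((RingOfIntegers.basis K).repr a i : ℝ)| ≤ C * T) ∧
    ∀ (a : 𝓞 K) (T : ℝ), (∀ i, |((RingOfIntegers.basis K).repr a i : ℝ)| ≤ T) →
      a ∈ bx K (C * T) := by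
  set c : (K →+* ℂ) → Module.Free.ChooseBasisIndex ℤ (𝓞 K) → ℝ := fun s i =>
    ‖s ((RingOfIntegers.basis K i : 𝓞 K) : K)‖ + ‖s ((integralBasis K).traceDual i)‖ with hc
  have hc0 : ∀ s i, 0 ≤ c s i := fun s i => add_nonneg (norm_nonneg _) (norm_nonneg _)
  have hs0 : 0 ≤ ∑ s, ∑ i, c s i :=
    Finset.sum_nonneg fun s _ => Finset.sum_nonneg fun i _ => hc0 s i
  refine ⟨1 + ∑ s, ∑ i, c s i, by linarith, ?_, ?_⟩
  · intro a T ha i
    obtain ⟨s₀⟩ : Nonempty (K →+* ℂ) := inferInstance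
    have hT : 0 ≤ T := (norm_nonneg _).trans (ha s₀)
    have h1 : |((RingOfIntegers.basis K).repr a i : ℝ)| =
        ‖(((RingOfIntegers.basis K).repr a i : ℤ) : ℂ)‖ := by
      rw [Complex.norm_intCast]
    rw [h1, La_repr]
    refine (norm_sum_le _ _).trans ?_
    have h2 : ∀ s ∈ (Finset.univ : Finset (K →+* ℂ)),
        ‖s (a : K) * s ((integralBasis K).traceDual i)‖ ≤ T * ∑ i, c s i := by
      intro s _
      rw [norm_mul]
      refine mul_le_mul (ha s) ?_ (norm_nonneg _) hT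
      refine le_trans ?_ (Finset.single_le_sum (fun j _ => hc0 s j) (Finset.mem_univ i))
      exact le_add_of_nonneg_left (norm_nonneg _)
    refine (Finset.sum_le_sum h2).trans ?_
    rw [← Finset.mul_sum]
    nlinarith
  · intro a T ha s
    obtain ⟨i₀⟩ : Nonempty (Module.Free.ChooseBasisIndex ℤ (𝓞 K)) :=
      (RingOfIntegers.basis K).index_nonempty
    have hT : 0 ≤ T := (abs_nonneg _).trans (ha i₀)
    have h1 : s (a : K) = ∑ i, (((RingOfIntegers.basis K).repr a i : ℤ) : ℂ) *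
        s ((RingOfIntegers.basis K i : 𝓞 K) : K) := by
      have h2 := (RingOfIntegers.basis K).sum_repr a
      have h3 := congrArg (fun x : 𝓞 K => s (x : K)) h2
      simp only [zsmul_eq_mul, map_sum, map_mul, map_intCast] at h3
      exact h3.symm
    rw [h1]
    refine (norm_sum_le _ _).trans ?_
    have h2 : ∀ i ∈ (Finset.univ : Finset (Module.Free.ChooseBasisIndex ℤ (𝓞 K))),
        ‖(((RingOfIntegers.basis K).repr a i : ℤ) : ℂ) *
          s ((RingOfIntegers.basis K i : 𝓞 K) : K)‖ ≤ T * c s i := by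
      intro i _
      rw [norm_mul, Complex.norm_intCast]
      exact mul_le_mul (ha i) (le_add_of_nonneg_right (norm_nonneg _)) (norm_nonneg _) hT
    refine (Finset.sum_le_sum h2).trans ?_
    rw [← Finset.mul_sum]
    have h3 : ∑ i, c s i ≤ ∑ s, ∑ i, c s i :=
      Finset.single_le_sum (f := fun s => ∑ i, c s i)
        (fun s _ => Finset.sum_nonneg fun i _ => hc0 s i) (Finset.mem_univ s)
    nlinarith

end H76PP

end S_H76_PP_La

section S_H76_PP_Lb

set_option autoImplicit false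
open scoped Classical

open NumberField IsDedekindDomain

namespace H76PP

variable (K : Type) [Field K] [NumberField K]

theorem Lb_inj : Function.Injective
    (fun (a : 𝓞 K) => (fun i => (RingOfIntegers.basis K).repr a i)) := by
  intro a b h
  apply (RingOfIntegers.basis K).repr.injective
  ext i
  exact congrFun h i

theorem Lb_card :
    Fintype.card (Module.Free.ChooseBasisIndex ℤ (𝓞 K)) = Module.finrank ℚ K := by
  rw [← Module.finrank_eq_card_chooseBasisIndex, RingOfIntegers.rank]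

/-- integer vectors in a box -/
noncomputable def Lb_set (M : ℤ) : Finset (Module.Free.ChooseBasisIndex ℤ (𝓞 K) → ℤ) :=
  Fintype.piFinset (fun _ => Finset.Icc (-M) M)

theorem Lb_setcard {M : ℤ} (hM : 0 ≤ M) :
    ((Lb_set K M).card : ℝ) = (2 * (M : ℝ) + 1) ^ (Module.finrank ℚ K) := by
  have h1 : (((M + 1 - -M).toNat : ℕ) : ℝ) = 2 * (M : ℝ) + 1 := by
    have h2 : (((M + 1 - -M).toNat : ℕ) : ℤ) = 2 * M + 1 := by
      rw [Int.toNat_of_nonneg (by omega)]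
      ring
    exact_mod_cast h2
  unfold Lb_set
  rw [Fintype.card_piFinset, Finset.prod_const, Finset.card_univ, Lb_card, Int.card_Icc,
    Nat.cast_pow, h1]

theorem Lb_box {C : ℝ} (hC : ∀ (a : 𝓞 K) (T : ℝ), a ∈ bx K T →
    ∀ i, |((RingOfIntegers.basis K).repr a i : ℝ)| ≤ C * T) {T : ℝ} {a : 𝓞 K} (ha : a ∈ bx K T) :
    (fun i => (RingOfIntegers.basis K).repr a i) ∈ Lb_set K ⌊C * T⌋ := by
  unfold Lb_set
  rw [Fintype.mem_piFinset]
  intro i
  have h := abs_le.1 (hC a T ha i)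
  rw [Finset.mem_Icc]
  constructor
  · have h2 : -((RingOfIntegers.basis K).repr a i) ≤ ⌊C * T⌋ := by
      refine Int.le_floor.2 ?_
      rw [Int.cast_neg]
      linarith [h.1]
    omega
  · exact Int.le_floor.2 h.2

theorem bx_finite (T : ℝ) : (bx K T).Finite := by
  obtain ⟨C, hC1, hC, -⟩ := coord K
  refine Set.Finite.subset (Set.Finite.preimage ((Lb_inj K).injOn)
    (Finset.finite_toSet (Lb_set K ⌊C * T⌋))) ?_
  intro a ha
  exact Finset.mem_coe.2 (Lb_box K hC ha)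

theorem bx_lower : ∃ c : ℝ, 0 < c ∧ ∀ T : ℝ, 0 ≤ T →
    c * T ^ (Module.finrank ℚ K) ≤ ((bx K T).ncard : ℝ) := by
  obtain ⟨C, hC1, -, hC⟩ := coord K
  have hC0 : 0 < C := by linarith
  refine ⟨(1 / C) ^ (Module.finrank ℚ K), by positivity, fun T hT => ?_⟩
  obtain ⟨t, ht⟩ : ∃ t : ℝ, t = T / C := ⟨_, rfl⟩
  have ht0 : 0 ≤ t := by rw [ht]; positivity
  have hCt : C * t = T := by rw [ht]; field_simp
  have hM0 : 0 ≤ ⌊t⌋ := Int.floor_nonneg.2 ht0
  have h1 : ∀ m ∈ Lb_set K ⌊t⌋, (RingOfIntegers.basis K).equivFun.symm m ∈ bx K T := by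
    intro m hm
    rw [← hCt]
    apply hC
    intro i
    have h2 : (RingOfIntegers.basis K).repr ((RingOfIntegers.basis K).equivFun.symm m) i = m i := by
      have h3 := congrFun ((RingOfIntegers.basis K).equivFun.apply_symm_apply m) i
      rwa [Module.Basis.equivFun_apply] at h3
    rw [h2]
    unfold Lb_set at hm
    rw [Fintype.mem_piFinset] at hm
    have h4 := Finset.mem_Icc.1 (hm i)
    have h5 : ((⌊t⌋ : ℤ) : ℝ) ≤ t := Int.floor_le t
    have h6 : ((-⌊t⌋ : ℤ) : ℝ) ≤ (m i : ℝ) := by exact_mod_cast h4.1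
    have h7 : ((m i : ℤ) : ℝ) ≤ ((⌊t⌋ : ℤ) : ℝ) := by exact_mod_cast h4.2
    rw [Int.cast_neg] at h6
    rw [abs_le]
    constructor
    · linarith
    · linarith
  have h2 : (Lb_set K ⌊t⌋).card ≤ (bx K T).ncard := by
    rw [← Set.ncard_coe_finset]
    refine Set.ncard_le_ncard_of_injOn (fun m => (RingOfIntegers.basis K).equivFun.symm m) ?_ ?_
      (bx_finite K T)
    · intro m hm
      exact h1 m (Finset.mem_coe.1 hm)
    · intro m _ m' _ h
      exact (RingOfIntegers.basis K).equivFun.symm.injective h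
  have h3 : ((Lb_set K ⌊t⌋).card : ℝ) ≤ ((bx K T).ncard : ℝ) := by exact_mod_cast h2
  rw [Lb_setcard K hM0] at h3
  refine le_trans ?_ h3
  rw [← mul_pow]
  have h4 : 1 / C * T = t := by rw [ht]; ring
  rw [h4]
  refine pow_le_pow_left₀ ht0 ?_ _
  have h5 := Int.lt_floor_add_one t
  have h6 : (0 : ℝ) ≤ (⌊t⌋ : ℝ) := by exact_mod_cast hM0
  linarith

theorem bx_upper : ∃ C : ℝ, 1 ≤ C ∧ ∀ T : ℝ, 1 ≤ T →
    ((bx K T).ncard : ℝ) ≤ C * T ^ (Module.finrank ℚ K) := by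
  obtain ⟨C, hC1, hC, -⟩ := coord K
  refine ⟨(3 * C) ^ (Module.finrank ℚ K), one_le_pow₀ (by linarith), fun T hT => ?_⟩
  have hCT : 1 ≤ C * T := by
    have := mul_le_mul hC1 hT zero_le_one (by linarith)
    linarith
  have hM0 : 0 ≤ ⌊C * T⌋ := Int.floor_nonneg.2 (by linarith)
  have h1 : (bx K T).ncard ≤ (Lb_set K ⌊C * T⌋).card := by
    rw [← Set.ncard_coe_finset]
    exact Set.ncard_le_ncard_of_injOn (fun (a : 𝓞 K) => (fun i => (RingOfIntegers.basis K).repr a i))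
      (fun a ha => Finset.mem_coe.2 (Lb_box K hC ha)) ((Lb_inj K).injOn)
      (Finset.finite_toSet (Lb_set K ⌊C * T⌋))
  have h2 : ((bx K T).ncard : ℝ) ≤ ((Lb_set K ⌊C * T⌋).card : ℝ) := by exact_mod_cast h1
  refine h2.trans ?_
  rw [Lb_setcard K hM0, ← mul_pow]
  have h3 : (0 : ℝ) ≤ (⌊C * T⌋ : ℝ) := by exact_mod_cast hM0
  have h4 := Int.floor_le (C * T)
  refine pow_le_pow_left₀ (by linarith) ?_ _
  linarith

end H76PP

end S_H76_PP_Lb

section S_H76_PP_Le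

set_option autoImplicit false
open scoped Classical

open NumberField IsDedekindDomain

namespace H76PP

variable (K : Type) [Field K] [NumberField K]

variable {K}

theorem bx_mono {T T' : ℝ} (h : T ≤ T') : bx K T ⊆ bx K T' := fun _ ha s => (ha s).trans h

theorem Le_nonneg {T : ℝ} {a : 𝓞 K} (ha : a ∈ bx K T) : 0 ≤ T := by
  obtain ⟨s⟩ : Nonempty (K →+* ℂ) := inferInstance
  exact (norm_nonneg _).trans (ha s)

theorem bx_zero_mem {T : ℝ} (h : 0 ≤ T) : (0 : 𝓞 K) ∈ bx K T := by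
  intro s
  simpa using h

theorem bx_add {T T' : ℝ} {a b : 𝓞 K} (ha : a ∈ bx K T) (hb : b ∈ bx K T') :
    a + b ∈ bx K (T + T') := by
  intro s
  have h1 : ((a + b : 𝓞 K) : K) = (a : K) + (b : K) := by push_cast; rfl
  rw [h1, map_add]
  exact (norm_add_le _ _).trans (add_le_add (ha s) (hb s))

theorem bx_neg {T : ℝ} {a : 𝓞 K} (ha : a ∈ bx K T) : -a ∈ bx K T := by
  intro s
  have h1 : ((-a : 𝓞 K) : K) = -(a : K) := by push_cast; rfl
  rw [h1, map_neg, norm_neg]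
  exact ha s

theorem bx_sub {T T' : ℝ} {a b : 𝓞 K} (ha : a ∈ bx K T) (hb : b ∈ bx K T') :
    a - b ∈ bx K (T + T') := by
  rw [sub_eq_add_neg]
  exact bx_add ha (bx_neg hb)

theorem bx_mul {T T' : ℝ} {a b : 𝓞 K} (ha : a ∈ bx K T) (hb : b ∈ bx K T') :
    a * b ∈ bx K (T * T') := by
  intro s
  have h1 : ((a * b : 𝓞 K) : K) = (a : K) * (b : K) := by push_cast; rfl
  rw [h1, map_mul, norm_mul]
  exact mul_le_mul (ha s) (hb s) (norm_nonneg _) (Le_nonneg ha)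

theorem exists_bx (a : 𝓞 K) : ∃ T : ℝ, a ∈ bx K T := by
  refine ⟨∑ s : K →+* ℂ, ‖s (a : K)‖, fun s => ?_⟩
  exact Finset.single_le_sum (f := fun s : K →+* ℂ => ‖s (a : K)‖)
    (fun _ _ => norm_nonneg _) (Finset.mem_univ s)

theorem bx_norm {T : ℝ} {a : 𝓞 K} (ha : a ∈ bx K T) :
    (((Algebra.norm ℤ a).natAbs : ℕ) : ℝ) ≤ T ^ (Module.finrank ℚ K) := by
  have h1 : (algebraMap ℚ ℂ) (Algebra.norm ℚ (a : K)) = ∏ s : K →ₐ[ℚ] ℂ, s (a : K) :=
    Algebra.norm_eq_prod_embeddings ℚ ℂ (a : K)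
  have h2 : ((Algebra.norm ℤ a : ℤ) : ℚ) = Algebra.norm ℚ (a : K) := Algebra.coe_norm_int a
  rw [← h2] at h1
  have h3 : (((Algebra.norm ℤ a).natAbs : ℕ) : ℝ) =
      ‖(algebraMap ℚ ℂ) ((Algebra.norm ℤ a : ℤ) : ℚ)‖ := by
    rw [map_intCast, Complex.norm_intCast, Nat.cast_natAbs, Int.cast_abs]
  rw [h3, h1, norm_prod]
  have h4 : ∏ s : K →ₐ[ℚ] ℂ, ‖s (a : K)‖ ≤ ∏ _s : K →ₐ[ℚ] ℂ, T :=
    Finset.prod_le_prod (fun _ _ => norm_nonneg _) fun s _ => ha (s : K →+* ℂ)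
  refine h4.trans (le_of_eq ?_)
  rw [Finset.prod_const, Finset.card_univ, AlgHom.card]

theorem Le_norm_ne {a : 𝓞 K} (h0 : a ≠ 0) : 0 < (Algebra.norm ℤ a).natAbs := by
  rw [← Ideal.absNorm_span_singleton, Nat.pos_iff_ne_zero, Ne, Ideal.absNorm_eq_zero_iff,
    Ideal.span_singleton_eq_bot]
  exact h0

theorem one_le_of_mem {T : ℝ} {a : 𝓞 K} (ha : a ∈ bx K T) (h0 : a ≠ 0) : 1 ≤ T := by
  by_contra hT
  rw [not_le] at hT
  have h1 := bx_norm ha
  have h2 : (1 : ℝ) ≤ (((Algebra.norm ℤ a).natAbs : ℕ) : ℝ) := by exact_mod_cast Le_norm_ne h0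
  have hn0 : Module.finrank ℚ K ≠ 0 := Module.finrank_pos.ne'
  exact absurd (h2.trans h1) (not_le.2 (pow_lt_one₀ (Le_nonneg ha) hT hn0))

theorem Le_dvd {T : ℝ} {a : 𝓞 K} (ha : a ∈ bx K T) (h0 : a ≠ 0) {b : Ideal (𝓞 K)} (hb : a ∈ b) :
    (Ideal.absNorm b : ℝ) ≤ T ^ (Module.finrank ℚ K) := by
  have h1 : Ideal.absNorm b ≤ (Algebra.norm ℤ a).natAbs := by
    refine Nat.le_of_dvd (Le_norm_ne h0) ?_
    rw [← Ideal.absNorm_span_singleton]
    exact Ideal.absNorm_dvd_absNorm_of_le ((Ideal.span_singleton_le_iff_mem b).2 hb)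
  have h2 : (Ideal.absNorm b : ℝ) ≤ (((Algebra.norm ℤ a).natAbs : ℕ) : ℝ) := by exact_mod_cast h1
  exact h2.trans (bx_norm ha)

theorem not_mem_of_lt {T : ℝ} {a : 𝓞 K} (ha : a ∈ bx K T) (h0 : a ≠ 0)
    {v : HeightOneSpectrum (𝓞 K)} (h : T ^ (Module.finrank ℚ K) < (Nv v : ℝ)) : a ∉ v.asIdeal := by
  intro hb
  exact absurd (Le_dvd ha h0 hb) (not_le.2 h)

theorem not_mem_sq_of_lt {T : ℝ} {a : 𝓞 K} (ha : a ∈ bx K T) (h0 : a ≠ 0)
    {v : HeightOneSpectrum (𝓞 K)} (h : T ^ (Module.finrank ℚ K) < (Nv v : ℝ) ^ 2) :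
    a ∉ v.asIdeal ^ 2 := by
  intro hb
  have h1 := Le_dvd ha h0 hb
  rw [map_pow, Nat.cast_pow] at h1
  exact absurd h1 (not_le.2 h)

end H76PP

end S_H76_PP_Le

section S_H76_PP_Lc

set_option autoImplicit false
open scoped Classical

open NumberField IsDedekindDomain

namespace H76PP

variable (K : Type) [Field K] [NumberField K]

/-- distinct elements of a residue class differ in some coordinate -/
theorem Lc_sep {C : ℝ} (hC1 : 1 ≤ C)
    (hC3 : ∀ (a : 𝓞 K) (T : ℝ), (∀ i, |((RingOfIntegers.basis K).repr a i : ℝ)| ≤ T) →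
      a ∈ bx K (C * T)) {b : Ideal (𝓞 K)} {r : ℝ}
    (hrn : r ^ (Module.finrank ℚ K) = (Ideal.absNorm b : ℝ)) {β : 𝓞 K} (hβ : β ∈ b)
    (h0 : β ≠ 0) : ∃ i, r / C ≤ |((RingOfIntegers.basis K).repr β i : ℝ)| := by
  by_contra hcon
  push Not at hcon
  have hn0 : 0 < Module.finrank ℚ K := Module.finrank_pos
  have hcard : Fintype.card (Module.Free.ChooseBasisIndex ℤ (𝓞 K)) = Module.finrank ℚ K := by
    rw [← Module.finrank_eq_card_chooseBasisIndex, RingOfIntegers.rank]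
  have hne : Nonempty (Module.Free.ChooseBasisIndex ℤ (𝓞 K)) := by
    rw [← Fintype.card_pos_iff, hcard]
    exact hn0
  obtain ⟨i, _, hi⟩ := Finset.exists_max_image
    (Finset.univ : Finset (Module.Free.ChooseBasisIndex ℤ (𝓞 K)))
    (fun i => |((RingOfIntegers.basis K).repr β i : ℝ)|) Finset.univ_nonempty
  have h1 := bx_norm (hC3 β _ fun j => hi j (Finset.mem_univ j))
  have hC0 : 0 < C := by linarith
  have h2 : C * |((RingOfIntegers.basis K).repr β i : ℝ)| < r := by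
    have h3 := hcon i
    rw [lt_div_iff₀ hC0] at h3
    linarith
  have h4 : (C * |((RingOfIntegers.basis K).repr β i : ℝ)|) ^ (Module.finrank ℚ K) <
      r ^ (Module.finrank ℚ K) :=
    pow_lt_pow_left₀ h2 (mul_nonneg hC0.le (abs_nonneg _)) hn0.ne'
  have h5 : Ideal.absNorm b ≤ (Algebra.norm ℤ β).natAbs := by
    rw [← Ideal.absNorm_span_singleton]
    refine Nat.le_of_dvd ?_ (Ideal.absNorm_dvd_absNorm_of_le
      ((Ideal.span_singleton_le_iff_mem b).2 hβ))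
    rw [Nat.pos_iff_ne_zero, Ne, Ideal.absNorm_eq_zero_iff, Ideal.span_singleton_eq_bot]
    exact h0
  have h6 : (Ideal.absNorm b : ℝ) ≤ ((Algebra.norm ℤ β).natAbs : ℕ) := by exact_mod_cast h5
  rw [← hrn] at h6
  exact absurd (h6.trans h1) (not_le.2 h4)

theorem Lc_icc {x : ℝ} (hx : 0 ≤ x) : ((Finset.Icc ⌊-x⌋ ⌊x⌋).card : ℝ) ≤ 2 * x + 2 := by
  rw [Int.card_Icc]
  have h1 : ⌊-x⌋ ≤ ⌊x⌋ := Int.floor_mono (by linarith)
  have h2 : (((⌊x⌋ + 1 - ⌊-x⌋).toNat : ℤ) : ℝ) = ((⌊x⌋ + 1 - ⌊-x⌋ : ℤ) : ℝ) := by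
    rw [Int.toNat_of_nonneg (by omega)]
  have h3 : (((⌊x⌋ + 1 - ⌊-x⌋).toNat : ℕ) : ℝ) = ((⌊x⌋ + 1 - ⌊-x⌋ : ℤ) : ℝ) := by
    rw [← h2]
    norm_cast
  rw [h3]
  push_cast
  have h4 := Int.floor_le x
  have h5 := Int.lt_floor_add_one (-x)
  linarith

theorem Lc_pow {x : ℝ} (hx : 0 ≤ x) (n : ℕ) : (x + 2) ^ n ≤ 2 ^ n * (x ^ n + 2 ^ n) := by
  rcases le_total x 2 with h | h
  · have h1 : (x + 2) ^ n ≤ (2 * 2) ^ n := pow_le_pow_left₀ (by linarith) (by linarith) n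
    rw [mul_pow] at h1
    have h2 : 0 ≤ x ^ n := pow_nonneg hx n
    have h3 : (0 : ℝ) < 2 ^ n := by positivity
    nlinarith
  · have h1 : (x + 2) ^ n ≤ (2 * x) ^ n := pow_le_pow_left₀ (by linarith) (by linarith) n
    rw [mul_pow] at h1
    have h3 : (0 : ℝ) < 2 ^ n := by positivity
    nlinarith

theorem coset_upper : ∃ C : ℝ, 1 ≤ C ∧ ∀ b : Ideal (𝓞 K), b ≠ ⊥ → ∀ (a₀ : 𝓞 K) (T : ℝ), 0 ≤ T →
    ({a : 𝓞 K | a ∈ bx K T ∧ a - a₀ ∈ b}.ncard : ℝ) ≤
      C * (T ^ (Module.finrank ℚ K) / (Ideal.absNorm b : ℝ) + 1) := by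
  obtain ⟨C, hC1, hC2, hC3⟩ := coord K
  obtain ⟨n, hn⟩ : ∃ n, n = Module.finrank ℚ K := ⟨_, rfl⟩
  have hn0 : 0 < n := by
    rw [hn]
    exact Module.finrank_pos
  have hcard : Fintype.card (Module.Free.ChooseBasisIndex ℤ (𝓞 K)) = n := by
    rw [← Module.finrank_eq_card_chooseBasisIndex, RingOfIntegers.rank, hn]
  rw [← hn]
  have hC0 : 0 < C := by linarith
  refine ⟨(4 * C ^ 2) ^ n + 4 ^ n, ?_, ?_⟩
  · have h1 : (1 : ℝ) ≤ 4 ^ n := one_le_pow₀ (by norm_num)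
    have h2 : 0 ≤ (4 * C ^ 2) ^ n := by positivity
    linarith
  intro b hb a₀ T hT
  have hN1 : 0 < Ideal.absNorm b := by
    rw [Nat.pos_iff_ne_zero, Ne, Ideal.absNorm_eq_zero_iff]
    exact hb
  have hN0 : (0 : ℝ) < Ideal.absNorm b := by exact_mod_cast hN1
  obtain ⟨r, hr0, hrn⟩ : ∃ r : ℝ, 0 < r ∧ r ^ n = (Ideal.absNorm b : ℝ) :=
    ⟨(Ideal.absNorm b : ℝ) ^ ((n : ℝ)⁻¹), Real.rpow_pos_of_pos hN0 _,
      Real.rpow_inv_natCast_pow hN0.le hn0.ne'⟩
  obtain ⟨ρ, hρ⟩ : ∃ ρ, ρ = r / C := ⟨_, rfl⟩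
  have hρ0 : 0 < ρ := by
    rw [hρ]
    exact div_pos hr0 hC0
  obtain ⟨y, hy⟩ : ∃ y, y = C * T / ρ := ⟨_, rfl⟩
  have hy0 : 0 ≤ y := by
    rw [hy]
    positivity
  have hle : {a : 𝓞 K | a ∈ bx K T ∧ a - a₀ ∈ b}.ncard ≤
      (Fintype.piFinset (fun _ : Module.Free.ChooseBasisIndex ℤ (𝓞 K) =>
        Finset.Icc ⌊-y⌋ ⌊y⌋)).card := by
    rw [← Set.ncard_coe_finset]
    refine Set.ncard_le_ncard_of_injOn
      (fun a i => ⌊((RingOfIntegers.basis K).repr a i : ℝ) / ρ⌋) ?_ ?_ (Finset.finite_toSet _)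
    · intro a ha
      rw [Finset.mem_coe, Fintype.mem_piFinset]
      intro i
      have h1 := abs_le.1 (hC2 a T ha.1 i)
      rw [Finset.mem_Icc]
      constructor
      · apply Int.floor_mono
        rw [hy, ← neg_div]
        exact div_le_div_of_nonneg_right h1.1 hρ0.le
      · apply Int.floor_mono
        rw [hy]
        exact div_le_div_of_nonneg_right h1.2 hρ0.le
    · intro a ha a' ha' haa
      by_contra hne
      have h1 : a - a' ∈ b := by
        have h2 := b.sub_mem ha.2 ha'.2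
        rwa [sub_sub_sub_cancel_right] at h2
      have hrn' : r ^ (Module.finrank ℚ K) = (Ideal.absNorm b : ℝ) := by
        rw [← hn]
        exact hrn
      obtain ⟨i, hi⟩ := Lc_sep K hC1 hC3 hrn' h1 (sub_ne_zero.2 hne)
      have h3 : ⌊((RingOfIntegers.basis K).repr a i : ℝ) / ρ⌋ =
          ⌊((RingOfIntegers.basis K).repr a' i : ℝ) / ρ⌋ := congrFun haa i
      have h4 := Int.abs_sub_lt_one_of_floor_eq_floor h3
      rw [← sub_div, abs_div, abs_of_pos hρ0, div_lt_one hρ0] at h4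
      rw [map_sub, Finsupp.sub_apply, Int.cast_sub, ← hρ] at hi
      exact absurd h4 (not_lt.2 hi)
  have hle2 : ({a : 𝓞 K | a ∈ bx K T ∧ a - a₀ ∈ b}.ncard : ℝ) ≤ (2 * y + 2) ^ n := by
    have h1 : ((Fintype.piFinset (fun _ : Module.Free.ChooseBasisIndex ℤ (𝓞 K) =>
        Finset.Icc ⌊-y⌋ ⌊y⌋)).card : ℝ) = ((Finset.Icc ⌊-y⌋ ⌊y⌋).card : ℝ) ^ n := by
      rw [Fintype.card_piFinset, Finset.prod_const, Finset.card_univ, hcard]
      push_cast
      rfl
    have h2 : ({a : 𝓞 K | a ∈ bx K T ∧ a - a₀ ∈ b}.ncard : ℝ) ≤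
        ((Fintype.piFinset (fun _ : Module.Free.ChooseBasisIndex ℤ (𝓞 K) =>
        Finset.Icc ⌊-y⌋ ⌊y⌋)).card : ℝ) := by exact_mod_cast hle
    refine h2.trans ?_
    rw [h1]
    exact pow_le_pow_left₀ (Nat.cast_nonneg _) (Lc_icc hy0) n
  refine hle2.trans ((Lc_pow (by linarith) n).trans ?_)
  have h1 : (2 * y) ^ n = (2 * C ^ 2) ^ n * (T ^ n / (Ideal.absNorm b : ℝ)) := by
    rw [← hrn, ← div_pow, ← mul_pow, hy, hρ]
    congr 1
    field_simp
  have h2 : (4 * C ^ 2) ^ n = 2 ^ n * (2 * C ^ 2) ^ n := by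
    rw [← mul_pow]
    congr 1
    ring
  have h3 : (4 : ℝ) ^ n = 2 ^ n * 2 ^ n := by
    rw [← mul_pow]
    norm_num
  rw [h1, h2, h3]
  have h4 : 0 ≤ T ^ n / (Ideal.absNorm b : ℝ) := by positivity
  have h5 : 0 ≤ (2 : ℝ) ^ n * (2 * C ^ 2) ^ n := by positivity
  have h6 : 0 ≤ (2 : ℝ) ^ n * 2 ^ n := by positivity
  nlinarith [mul_nonneg h6 h4]

end H76PP

end S_H76_PP_Lc

section S_H76_PP_Ld

set_option autoImplicit false
open scoped Classical

open NumberField IsDedekindDomain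

namespace H76PP

variable (K : Type) [Field K] [NumberField K]

theorem coset_lower : ∃ c : ℝ, 0 < c ∧ ∀ b : Ideal (𝓞 K), b ≠ ⊥ → ∃ T₀ : ℝ, ∀ T : ℝ, T₀ ≤ T →
    ∀ a₀ : 𝓞 K, c * (T ^ (Module.finrank ℚ K) / (Ideal.absNorm b : ℝ)) ≤
      ({a : 𝓞 K | a ∈ bx K T ∧ a - a₀ ∈ b}.ncard : ℝ) := by
  obtain ⟨c₁, hc₁, hlow⟩ := bx_lower K
  set n := Module.finrank ℚ K with hn
  refine ⟨c₁ / 4 ^ n, by positivity, fun b hb => ?_⟩
  haveI hfin : Finite (𝓞 K ⧸ b) := Ideal.finiteQuotientOfFreeOfNeBot b hb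
  haveI : Fintype (𝓞 K ⧸ b) := Fintype.ofFinite _
  have hcard : Ideal.absNorm b = Fintype.card (𝓞 K ⧸ b) := by
    rw [Ideal.absNorm_apply, Submodule.cardQuot_apply, Nat.card_eq_fintype_card]
  have hNpos : (0 : ℝ) < (Ideal.absNorm b : ℝ) := by
    rw [hcard]
    exact_mod_cast Fintype.card_pos
  have hrep : ∀ q : 𝓞 K ⧸ b, ∃ r : 𝓞 K, Ideal.Quotient.mk b r = q :=
    fun q => Ideal.Quotient.mk_surjective q
  choose r hr using hrep
  choose Tq hTq using fun q => exists_bx (K := K) (r q)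
  obtain ⟨B, hB⟩ : ∃ B : ℝ, ∀ q, Tq q ≤ B :=
    ⟨∑ q, |Tq q|, fun q => (le_abs_self _).trans
      (Finset.single_le_sum (f := fun q => |Tq q|) (fun i _ => abs_nonneg _) (Finset.mem_univ q))⟩
  refine ⟨max 1 (2 * B), fun T hT a₀ => ?_⟩
  have hT1 : 1 ≤ T := (le_max_left _ _).trans hT
  have hTB : 2 * B ≤ T := (le_max_right _ _).trans hT
  set S : Finset (𝓞 K) := (bx_finite K (T / 4)).toFinset with hSdef
  have hS : c₁ * (T / 4) ^ n ≤ (S.card : ℝ) := by
    have h1 := hlow (T / 4) (by positivity)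
    rw [Set.ncard_eq_toFinset_card _ (bx_finite K (T / 4))] at h1
    exact h1
  -- a class with many elements
  obtain ⟨q, -, hq⟩ : ∃ q ∈ (Finset.univ : Finset (𝓞 K ⧸ b)), (S.card : ℝ) / (Ideal.absNorm b : ℝ) ≤
      ((S.filter (fun a => Ideal.Quotient.mk b a = q)).card : ℝ) := by
    apply Finset.exists_le_of_sum_le (Finset.univ_nonempty)
    rw [Finset.sum_const, Finset.card_univ, ← hcard, nsmul_eq_mul,
      mul_div_cancel₀ _ hNpos.ne']
    have h2 : S.card = ∑ q : 𝓞 K ⧸ b, (S.filter (fun a => Ideal.Quotient.mk b a = q)).card :=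
      Finset.card_eq_sum_card_fiberwise (fun a _ => Finset.mem_coe.2 (Finset.mem_univ _))
    rw [h2]
    push_cast
    exact le_rfl
  set F := S.filter (fun a => Ideal.Quotient.mk b a = q) with hF
  have hSpos : (0 : ℝ) < (S.card : ℝ) := lt_of_lt_of_le (by positivity) hS
  have hFpos : (0 : ℝ) < (F.card : ℝ) := lt_of_lt_of_le (div_pos hSpos hNpos) hq
  obtain ⟨a₁, ha₁⟩ : F.Nonempty := Finset.card_pos.1 (by exact_mod_cast hFpos)
  have ha₁' := Finset.mem_filter.1 ha₁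
  have ha₁S : a₁ ∈ bx K (T / 4) := (Set.Finite.mem_toFinset _).1 ha₁'.1
  set r₀ := r (Ideal.Quotient.mk b a₀) with hr₀
  have hr₀' : r₀ ∈ bx K (T / 2) := by
    refine bx_mono ?_ (hTq (Ideal.Quotient.mk b a₀))
    have := hB (Ideal.Quotient.mk b a₀)
    linarith
  have hsub : (F.image (fun a => a - a₁ + r₀) : Set (𝓞 K)) ⊆
      {a : 𝓞 K | a ∈ bx K T ∧ a - a₀ ∈ b} := by
    intro x hx
    rw [Finset.mem_coe, Finset.mem_image] at hx
    obtain ⟨a, ha, rfl⟩ := hx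
    have ha' := Finset.mem_filter.1 ha
    have haS : a ∈ bx K (T / 4) := (Set.Finite.mem_toFinset _).1 ha'.1
    refine ⟨?_, ?_⟩
    · have h3 := bx_add (bx_sub haS ha₁S) hr₀'
      have h4 : T / 4 + T / 4 + T / 2 = T := by ring
      rw [h4] at h3
      exact h3
    · rw [← Ideal.Quotient.eq_zero_iff_mem]
      have h5 : Ideal.Quotient.mk b r₀ = Ideal.Quotient.mk b a₀ := hr _
      rw [map_sub, map_add, map_sub, ha'.2, ha₁'.2, h5]
      ring
  have hfinset : {a : 𝓞 K | a ∈ bx K T ∧ a - a₀ ∈ b}.Finite :=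
    (bx_finite K T).subset (fun a ha => ha.1)
  have hle : F.card ≤ {a : 𝓞 K | a ∈ bx K T ∧ a - a₀ ∈ b}.ncard := by
    have h6 := Set.ncard_le_ncard hsub hfinset
    rw [Set.ncard_coe_finset, Finset.card_image_of_injective] at h6
    · exact h6
    · intro x y hxy
      have h7 : x - a₁ + r₀ = y - a₁ + r₀ := hxy
      exact sub_left_injective (add_right_cancel h7)
  calc c₁ / 4 ^ n * (T ^ n / (Ideal.absNorm b : ℝ))
      = (c₁ * (T / 4) ^ n) / (Ideal.absNorm b : ℝ) := by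
        rw [div_pow]
        ring
    _ ≤ (S.card : ℝ) / (Ideal.absNorm b : ℝ) := by
        gcongr
    _ ≤ (F.card : ℝ) := hq
    _ ≤ _ := by exact_mod_cast hle

end H76PP

end S_H76_PP_Ld

section S_H76_PP_Lf

set_option autoImplicit false
open scoped Classical

open NumberField IsDedekindDomain

namespace H76PP

variable (K : Type) [Field K] [NumberField K]

theorem count_ideal : ∃ C : ℝ, 1 ≤ C ∧ ∀ (ι : Type) [Fintype ι] (m : Ideal (𝓞 K)), m ≠ ⊥ →
    ∀ (S : Set (ι → 𝓞 K ⧸ m)) (t : ι → ℝ), (∀ i, 0 ≤ t i) →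
      ({x : ι → 𝓞 K | (∀ i, x i ∈ bx K (t i)) ∧
        (fun i => Ideal.Quotient.mk m (x i)) ∈ S}.ncard : ℝ) ≤
      (S.ncard : ℝ) * ∏ i, (C * (t i ^ (Module.finrank ℚ K) / (Ideal.absNorm m : ℝ) + 1)) := by
  obtain ⟨C, hC1, hC⟩ := coset_upper K
  refine ⟨C, hC1, fun ι _ m hm S t ht => ?_⟩
  have hfq : Finite (𝓞 K ⧸ m) := Ideal.finiteQuotientOfFreeOfNeBot m hm
  have hSf : S.Finite := S.toFinite
  have hAf : ∀ (y : 𝓞 K ⧸ m) (i : ι),
      {a : 𝓞 K | a ∈ bx K (t i) ∧ Ideal.Quotient.mk m a = y}.Finite :=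
    fun y i => (bx_finite K (t i)).subset fun a ha => ha.1
  have hAc : ∀ (y : 𝓞 K ⧸ m) (i : ι),
      (({a : 𝓞 K | a ∈ bx K (t i) ∧ Ideal.Quotient.mk m a = y}.ncard : ℕ) : ℝ) ≤
      C * (t i ^ (Module.finrank ℚ K) / (Ideal.absNorm m : ℝ) + 1) := by
    intro y i
    obtain ⟨a₀, rfl⟩ := Ideal.Quotient.mk_surjective y
    have h := hC m hm a₀ (t i) (ht i)
    have he : {a : 𝓞 K | a ∈ bx K (t i) ∧ Ideal.Quotient.mk m a = Ideal.Quotient.mk m a₀} =
        {a : 𝓞 K | a ∈ bx K (t i) ∧ a - a₀ ∈ m} := by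
      ext a
      constructor
      · rintro ⟨h1, h2⟩
        exact ⟨h1, Ideal.Quotient.eq.1 h2⟩
      · rintro ⟨h1, h2⟩
        exact ⟨h1, Ideal.Quotient.eq.2 h2⟩
    rw [he]
    exact h
  have hsub : {x : ι → 𝓞 K | (∀ i, x i ∈ bx K (t i)) ∧
      (fun i => Ideal.Quotient.mk m (x i)) ∈ S} ⊆
      ((hSf.toFinset.biUnion fun y => Fintype.piFinset fun i => (hAf (y i) i).toFinset :
        Finset (ι → 𝓞 K)) : Set (ι → 𝓞 K)) := by
    rintro x ⟨h1, h2⟩
    rw [Finset.mem_coe, Finset.mem_biUnion]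
    refine ⟨_, hSf.mem_toFinset.2 h2, ?_⟩
    rw [Fintype.mem_piFinset]
    intro i
    rw [Set.Finite.mem_toFinset]
    exact ⟨h1 i, rfl⟩
  have h1 := Set.ncard_le_ncard hsub (Finset.finite_toSet _)
  rw [Set.ncard_coe_finset] at h1
  have h2 := h1.trans (Finset.card_biUnion_le (s := hSf.toFinset)
    (t := fun y => Fintype.piFinset fun i => (hAf (y i) i).toFinset))
  have h3 : ∀ y ∈ hSf.toFinset,
      ((Fintype.piFinset fun i => (hAf (y i) i).toFinset).card : ℝ) ≤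
      ∏ i, (C * (t i ^ (Module.finrank ℚ K) / (Ideal.absNorm m : ℝ) + 1)) := by
    intro y _
    rw [Fintype.card_piFinset]
    push_cast
    refine Finset.prod_le_prod (fun i _ => Nat.cast_nonneg _) fun i _ => ?_
    rw [← Set.ncard_eq_toFinset_card _ (hAf (y i) i)]
    exact hAc (y i) i
  have h4 := Finset.sum_le_sum h3
  rw [Finset.sum_const, ← Set.ncard_eq_toFinset_card _ hSf, nsmul_eq_mul] at h4
  have h5 : ({x : ι → 𝓞 K | (∀ i, x i ∈ bx K (t i)) ∧
      (fun i => Ideal.Quotient.mk m (x i)) ∈ S}.ncard : ℝ) ≤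
      ∑ y ∈ hSf.toFinset, ((Fintype.piFinset fun i => (hAf (y i) i).toFinset).card : ℝ) := by
    exact_mod_cast h2
  exact h5.trans h4

end H76PP

end S_H76_PP_Lf

section S_H76_PP_Lg

set_option autoImplicit false
open scoped Classical

open NumberField IsDedekindDomain

namespace H76PP

variable (K : Type) [Field K] [NumberField K]

theorem count_primes : ∃ C : ℝ, 1 ≤ C ∧ ∀ (ι : Type) [Fintype ι]
    (T : Finset (HeightOneSpectrum (𝓞 K))) (S : ∀ v : HeightOneSpectrum (𝓞 K),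
      Set (ι → 𝓞 K ⧸ v.asIdeal)) (t : ι → ℝ), (∀ i, 0 ≤ t i) →
      ({x : ι → 𝓞 K | (∀ i, x i ∈ bx K (t i)) ∧
        ∀ v ∈ T, (fun i => Ideal.Quotient.mk v.asIdeal (x i)) ∈ S v}.ncard : ℝ) ≤
      (∏ v ∈ T, ((S v).ncard : ℝ)) *
        ∏ i, (C * (t i ^ (Module.finrank ℚ K) / (∏ v ∈ T, (Nv v : ℝ)) + 1)) := by
  obtain ⟨C, hC1, hC⟩ := count_ideal K
  refine ⟨C, hC1, ?_⟩
  intro ι _ T S t ht
  have hle : ∀ v ∈ T, (∏ w ∈ T, w.asIdeal) ≤ v.asIdeal := fun v hv =>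
    Ideal.prod_le_inf.trans (Finset.inf_le hv)
  have hm : (∏ w ∈ T, w.asIdeal) ≠ ⊥ := by
    have : (∏ w ∈ T, w.asIdeal) ≠ 0 := Finset.prod_ne_zero_iff.mpr (fun v _ => v.ne_bot)
    exact this
  have hnorm : (Ideal.absNorm (∏ w ∈ T, w.asIdeal) : ℝ) = ∏ v ∈ T, (Nv v : ℝ) := by
    rw [map_prod]
    push_cast
    rfl
  have hmem : ∀ a : 𝓞 K, (∀ v ∈ T, a ∈ v.asIdeal) → a ∈ ∏ w ∈ T, w.asIdeal := by
    intro a ha
    rw [← Ideal.dvd_span_singleton]
    refine Finset.prod_dvd_of_coprime ?_ ?_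
    · intro v _ w _ hvw
      have := v.isMaximal
      have := w.isMaximal
      refine Ideal.isCoprime_of_isMaximal ?_
      intro h
      exact hvw (HeightOneSpectrum.ext h)
    · intro v hv
      exact Ideal.dvd_span_singleton.mpr (ha v hv)
  set Sm : Set (ι → 𝓞 K ⧸ (∏ w ∈ T, w.asIdeal)) :=
    {y | ∀ v (hv : v ∈ T), (fun i => Ideal.Quotient.factor (hle v hv) (y i)) ∈ S v} with hSm
  have hset : {x : ι → 𝓞 K | (∀ i, x i ∈ bx K (t i)) ∧
        ∀ v ∈ T, (fun i => Ideal.Quotient.mk v.asIdeal (x i)) ∈ S v} =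
      {x : ι → 𝓞 K | (∀ i, x i ∈ bx K (t i)) ∧
        (fun i => Ideal.Quotient.mk (∏ w ∈ T, w.asIdeal) (x i)) ∈ Sm} := by
    ext x
    simp only [Set.mem_setOf_eq, hSm, Ideal.Quotient.factor_mk]
  have hcard : Sm.ncard ≤ ∏ v ∈ T, (S v).ncard := by
    have hfin : ∀ v : HeightOneSpectrum (𝓞 K), Finite (𝓞 K ⧸ v.asIdeal) := fun v =>
      Ideal.finiteQuotientOfFreeOfNeBot v.asIdeal v.ne_bot
    have hfin2 : ∀ v : HeightOneSpectrum (𝓞 K), Finite (ι → 𝓞 K ⧸ v.asIdeal) := fun v => by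
      have := hfin v
      infer_instance
    have hfin3 : ∀ v : HeightOneSpectrum (𝓞 K), Finite (S v) := fun v => by
      have := hfin2 v
      infer_instance
    let f : Sm → ((v : T) → S (v : HeightOneSpectrum (𝓞 K))) := fun y v =>
      ⟨fun i => Ideal.Quotient.factor (hle v.1 v.2) (y.1 i), y.2 v.1 v.2⟩
    have hf : Function.Injective f := by
      intro y y' h
      apply Subtype.ext
      funext i
      obtain ⟨a, ha⟩ := Ideal.Quotient.mk_surjective (y.1 i)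
      obtain ⟨b, hb⟩ := Ideal.Quotient.mk_surjective (y'.1 i)
      rw [← ha, ← hb, Ideal.Quotient.eq]
      apply hmem
      intro v hv
      have h1 := congrFun h ⟨v, hv⟩
      have h2 := congrFun (congrArg Subtype.val h1) i
      simp only [f] at h2
      rw [← ha, ← hb, Ideal.Quotient.factor_mk, Ideal.Quotient.factor_mk, Ideal.Quotient.eq] at h2
      exact h2
    have h1 : Nat.card Sm ≤ Nat.card ((v : T) → S (v : HeightOneSpectrum (𝓞 K))) :=
      Nat.card_le_card_of_injective f hf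
    rw [Nat.card_pi] at h1
    calc Sm.ncard = Nat.card Sm := (Nat.card_coe_set_eq Sm).symm
      _ ≤ ∏ v : T, Nat.card (S (v : HeightOneSpectrum (𝓞 K))) := h1
      _ = ∏ v : T, (S (v : HeightOneSpectrum (𝓞 K))).ncard := by
        refine Finset.prod_congr rfl ?_
        intro v _
        exact Nat.card_coe_set_eq _
      _ = ∏ v ∈ T, (S v).ncard := Finset.prod_coe_sort T (fun v => (S v).ncard)
  rw [hset]
  have key := hC ι (∏ w ∈ T, w.asIdeal) hm Sm t ht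
  rw [hnorm] at key
  refine key.trans ?_
  refine mul_le_mul_of_nonneg_right ?_ ?_
  · exact_mod_cast hcard
  · refine Finset.prod_nonneg ?_
    intro i _
    have h1 : 0 ≤ ∏ v ∈ T, (Nv v : ℝ) := Finset.prod_nonneg (fun v _ => Nat.cast_nonneg _)
    have h2 : 0 ≤ t i ^ (Module.finrank ℚ K) := pow_nonneg (ht i) _
    have h3 : 0 ≤ t i ^ (Module.finrank ℚ K) / (∏ v ∈ T, (Nv v : ℝ)) := div_nonneg h2 h1
    have h4 : 0 ≤ C := by linarith
    exact mul_nonneg h4 (by linarith)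

end H76PP

end S_H76_PP_Lg

section S_H76_PP_R0

set_option autoImplicit false

open scoped Matrix

namespace H76PP

/-- The value of the quadratic form with matrix `G` at an integer vector. -/
noncomputable def qf {N : ℕ} (G : Matrix (Fin N) (Fin N) ℝ) (x : Fin N → ℤ) : ℝ :=
  (fun i => (x i : ℝ)) ⬝ᵥ G.mulVec (fun i => (x i : ℝ))

end H76PP

end S_H76_PP_R0

section S_H76_PP_Ra

set_option autoImplicit false

open scoped Matrix

namespace H76PP

theorem qf_pos {N : ℕ} {G : Matrix (Fin N) (Fin N) ℝ} (hG : G.PosDef) {x : Fin N → ℤ} (hx : x ≠ 0) :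
    0 < qf G x := by
  have h1 : (fun i => (x i : ℝ)) ≠ 0 := by
    intro h
    apply hx
    ext i
    have h2 := congrFun h i
    simpa using h2
  have h3 := hG.dotProduct_mulVec_pos h1
  unfold qf
  simpa using h3

theorem Ra_smul {N : ℕ} (G : Matrix (Fin N) (Fin N) ℝ) (c : ℝ) (y : Fin N → ℝ) :
    (c • y) ⬝ᵥ G.mulVec (c • y) = c ^ 2 * (y ⬝ᵥ G.mulVec y) := by
  rw [Matrix.mulVec_smul, smul_dotProduct, dotProduct_smul, smul_eq_mul, smul_eq_mul]
  ring

theorem Ra_lower {N : ℕ} {G : Matrix (Fin (N + 1)) (Fin (N + 1)) ℝ} (hG : G.PosDef) :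
    ∃ m : ℝ, 0 < m ∧ ∀ y : Fin (N + 1) → ℝ, m * ‖y‖ ^ 2 ≤ y ⬝ᵥ G.mulVec y := by
  have hc : Continuous fun y : Fin (N + 1) → ℝ => y ⬝ᵥ G.mulVec y := by
    unfold dotProduct Matrix.mulVec dotProduct
    fun_prop
  have hne : (Metric.sphere (0 : Fin (N + 1) → ℝ) 1).Nonempty := by
    refine ⟨fun _ => 1, ?_⟩
    rw [mem_sphere_zero_iff_norm, pi_norm_const, norm_one]
  obtain ⟨y₀, hy₀, hmin⟩ := (isCompact_sphere (0 : Fin (N + 1) → ℝ) 1).exists_isMinOn hne hc.continuousOn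
  have hy₀n : ‖y₀‖ = 1 := mem_sphere_zero_iff_norm.1 hy₀
  have hy₀0 : y₀ ≠ 0 := by
    intro h
    rw [h, norm_zero] at hy₀n
    exact zero_ne_one hy₀n
  have hpos : 0 < y₀ ⬝ᵥ G.mulVec y₀ := by
    have h3 := hG.dotProduct_mulVec_pos hy₀0
    simpa using h3
  refine ⟨y₀ ⬝ᵥ G.mulVec y₀, hpos, fun y => ?_⟩
  rcases eq_or_ne y 0 with rfl | hy
  · simp
  · have hyn : 0 < ‖y‖ := norm_pos_iff.2 hy
    have h1 : (‖y‖⁻¹ • y) ∈ Metric.sphere (0 : Fin (N + 1) → ℝ) 1 := by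
      rw [mem_sphere_zero_iff_norm, norm_smul, norm_inv, norm_norm, inv_mul_cancel₀ hyn.ne']
    have h2 := hmin h1
    simp only [Set.mem_setOf_eq] at h2
    rw [Ra_smul, inv_pow, inv_mul_eq_div, le_div_iff₀ (by positivity)] at h2
    exact h2

theorem Ra_finite {N : ℕ} {G : Matrix (Fin (N + 1)) (Fin (N + 1)) ℝ} (hG : G.PosDef) (R : ℝ) :
    {x : Fin (N + 1) → ℤ | qf G x ≤ R}.Finite := by
  obtain ⟨m, hm, hlow⟩ := Ra_lower hG
  refine Set.Finite.subset (Set.finite_Icc (fun _ => -⌈R / m⌉) (fun _ => ⌈R / m⌉)) ?_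
  intro x hx
  have h1 : ∀ i, |x i| ≤ ⌈R / m⌉ := by
    intro i
    have h2 : m * ‖(fun i => (x i : ℝ))‖ ^ 2 ≤ R := (hlow _).trans hx
    have h3 : |(x i : ℝ)| ≤ ‖(fun i => (x i : ℝ))‖ := norm_le_pi_norm (fun i => (x i : ℝ)) i
    have h4 : |(x i : ℝ)| ^ 2 ≤ R / m := by
      rw [le_div_iff₀ hm]
      have h5 : |(x i : ℝ)| ^ 2 ≤ ‖(fun i => (x i : ℝ))‖ ^ 2 := pow_le_pow_left₀ (abs_nonneg _) h3 2
      nlinarith
    have h6 : |x i| ≤ |x i| ^ 2 := by
      have h7 : 0 ≤ |x i| := abs_nonneg _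
      rcases h7.eq_or_lt with h8 | h8
      · rw [← h8]
        norm_num
      · nlinarith
    have h9 : ((|x i| : ℤ) : ℝ) ≤ R / m := by
      have h10 : ((|x i| : ℤ) : ℝ) ≤ ((|x i| ^ 2 : ℤ) : ℝ) := by exact_mod_cast h6
      refine h10.trans ?_
      push_cast
      exact h4
    have h11 : ((|x i| : ℤ) : ℝ) ≤ ((⌈R / m⌉ : ℤ) : ℝ) := h9.trans (Int.le_ceil _)
    exact_mod_cast h11
  rw [Set.mem_Icc]
  exact ⟨fun i => (abs_le.1 (h1 i)).1, fun i => (abs_le.1 (h1 i)).2⟩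

theorem exists_min {N : ℕ} {G : Matrix (Fin (N + 1)) (Fin (N + 1)) ℝ} (hG : G.PosDef) :
    ∃ x : Fin (N + 1) → ℤ, x ≠ 0 ∧ (∀ y : Fin (N + 1) → ℤ, y ≠ 0 → qf G x ≤ qf G y) ∧
      ∀ d : ℤ, (∀ i, d ∣ x i) → IsUnit d := by
  set x₀ : Fin (N + 1) → ℤ := fun _ => 1 with hx₀
  have hx₀0 : x₀ ≠ 0 := by
    intro h
    have := congrFun h 0
    simp [hx₀] at this
  have hfin : ({x : Fin (N + 1) → ℤ | x ≠ 0 ∧ qf G x ≤ qf G x₀}).Finite :=
    (Ra_finite hG (qf G x₀)).subset fun x hx => hx.2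
  obtain ⟨x, ⟨hx0, hxle⟩, hmin⟩ := Set.exists_min_image _ (qf G) hfin ⟨x₀, hx₀0, le_rfl⟩
  have hall : ∀ y : Fin (N + 1) → ℤ, y ≠ 0 → qf G x ≤ qf G y := by
    intro y hy
    rcases le_total (qf G y) (qf G x₀) with h1 | h1
    · exact hmin y ⟨hy, h1⟩
    · exact hxle.trans h1
  refine ⟨x, hx0, hall, fun d hd => ?_⟩
  choose y hy using hd
  have hy0 : y ≠ 0 := by
    intro h
    apply hx0
    ext i
    rw [hy i, h]
    simp
  have h1 : qf G x = (d : ℝ) ^ 2 * qf G y := by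
    unfold qf
    rw [← Ra_smul]
    have h2 : (fun i => (x i : ℝ)) = (d : ℝ) • fun i => (y i : ℝ) := by
      ext i
      rw [hy i]
      simp
    rw [h2]
  have h2 := qf_pos hG hy0
  have h3 := hall y hy0
  rw [h1] at h3
  have h4 : (d : ℝ) ^ 2 ≤ 1 := by
    by_contra hcon
    push Not at hcon
    nlinarith
  have h5 : d ^ 2 ≤ 1 := by exact_mod_cast h4
  have h6 : d ≠ 0 := by
    intro h
    apply hx0
    ext i
    rw [hy i, h]
    simp
  have h7 : |d| ≤ 1 := by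
    rw [← sq_le_one_iff_abs_le_one]
    exact h5
  rw [Int.isUnit_iff]
  have h8 := abs_le.1 h7
  omega

end H76PP

end S_H76_PP_Ra

section S_H76_PP_Rb

set_option autoImplicit false

open scoped Matrix

namespace H76PP

theorem unimod {N : ℕ} {x : Fin (N + 1) → ℤ} (hx : ∀ d : ℤ, (∀ i, d ∣ x i) → IsUnit d) :
    ∃ U : Matrix (Fin (N + 1)) (Fin (N + 1)) ℤ, IsUnit U.det ∧ U 0 = x := by
  have hx0 : x ≠ 0 := by
    rintro rfl
    have h1 := hx 0 (fun i => dvd_refl _)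
    exact not_isUnit_zero h1
  set b0 : Module.Basis (Fin (N + 1)) ℤ (Fin (N + 1) → ℤ) := Pi.basisFun ℤ (Fin (N + 1)) with hb0
  obtain ⟨n, snf⟩ := Submodule.smithNormalForm b0 (Submodule.span ℤ {x})
  have hn : n = 1 := by
    have h1 := Module.finrank_eq_card_basis snf.bN
    rw [Fintype.card_fin] at h1
    rw [← h1, ← (LinearEquiv.toSpanNonzeroSingleton ℤ _ x hx0).finrank_eq]
    exact Module.finrank_self ℤ
  subst hn
  have hxN : x ∈ Submodule.span ℤ {x} := Submodule.mem_span_singleton_self x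
  obtain ⟨c, hc⟩ : ∃ c : ℤ, x = c • (snf.bM (snf.f 0)) := by
    have h1 := snf.bN.sum_repr ⟨x, hxN⟩
    rw [Fin.sum_univ_one] at h1
    have h2 := congrArg Subtype.val h1
    have h3 := snf.snf 0
    refine ⟨(snf.bN.repr ⟨x, hxN⟩) 0 * snf.a 0, ?_⟩
    rw [mul_smul, ← h3]
    exact h2.symm
  have hcu : IsUnit c := by
    apply hx
    intro i
    refine ⟨snf.bM (snf.f 0) i, ?_⟩
    have h1 := congrFun hc i
    rw [Pi.smul_apply, smul_eq_mul] at h1
    exact h1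
  obtain ⟨u, hu⟩ := hcu
  let b : Module.Basis (Fin (N + 1)) ℤ (Fin (N + 1) → ℤ) :=
    (snf.bM.reindex (Equiv.swap (snf.f 0) 0)).unitsSMul fun i => if i = 0 then u else 1
  have hb : b 0 = x := by
    show ((snf.bM.reindex (Equiv.swap (snf.f 0) 0)).unitsSMul fun i => if i = 0 then u else 1) 0 = x
    rw [Module.Basis.unitsSMul_apply, Module.Basis.reindex_apply, if_pos rfl, Equiv.symm_swap,
      Equiv.swap_apply_right]
    refine Eq.trans ?_ hc.symm
    rw [← hu]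
    rfl
  refine ⟨Matrix.of fun i j => b i j, ?_, ?_⟩
  · have h1 := Module.Basis.isUnit_det b0 b
    rw [Module.Basis.det_apply] at h1
    rw [← Matrix.det_transpose]
    have h2 : b0.toMatrix b = (Matrix.of fun i j => b i j)ᵀ := by
      ext i j
      rw [Module.Basis.toMatrix_apply, Matrix.transpose_apply, Matrix.of_apply, hb0,
        Pi.basisFun_repr]
    rw [← h2]
    exact h1
  · exact hb

end H76PP

end S_H76_PP_Rb

section S_H76_PP_Rc

set_option autoImplicit false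

open scoped Matrix

namespace H76PP

/-- The Schur complement. -/
noncomputable def sch {N : ℕ} (G : Matrix (Fin (N + 1)) (Fin (N + 1)) ℝ) :
    Matrix (Fin N) (Fin N) ℝ :=
  Matrix.of fun i j => G i.succ j.succ - G i.succ 0 * G 0 j.succ / G 0 0

theorem Rc_pos {N : ℕ} {G : Matrix (Fin (N + 1)) (Fin (N + 1)) ℝ} (hG : G.PosDef) : 0 < G 0 0 :=
  hG.diag_pos

theorem Rc_symm {N : ℕ} {G : Matrix (Fin (N + 1)) (Fin (N + 1)) ℝ} (hG : G.PosDef)
    (i j : Fin (N + 1)) : G i j = G j i := by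
  have h := hG.isHermitian.apply i j
  simpa using h.symm

theorem Rc_cons {N : ℕ} {G : Matrix (Fin (N + 1)) (Fin (N + 1)) ℝ} (hG : G.PosDef) (c : ℝ)
    (v : Fin N → ℝ) :
    (Fin.cons c v : Fin (N + 1) → ℝ) ⬝ᵥ G.mulVec (Fin.cons c v : Fin (N + 1) → ℝ) =
      G 0 0 * (c + (∑ j, G 0 j.succ * v j) / G 0 0) ^ 2 + v ⬝ᵥ (sch G).mulVec v := by
  have hg := (Rc_pos hG).ne'
  have e1 : (Fin.cons c v : Fin (N + 1) → ℝ) ⬝ᵥ G.mulVec (Fin.cons c v : Fin (N + 1) → ℝ) =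
      c * (G 0 0 * c + ∑ j, G 0 j.succ * v j) +
        ∑ i : Fin N, v i * (G i.succ 0 * c + ∑ j, G i.succ j.succ * v j) := by
    unfold dotProduct Matrix.mulVec dotProduct
    rw [Fin.sum_univ_succ]
    simp only [Fin.cons_zero, Fin.cons_succ, Fin.sum_univ_succ]
  have e2 : v ⬝ᵥ (sch G).mulVec v = ∑ i : Fin N, v i * (∑ j, G i.succ j.succ * v j) -
      (∑ i : Fin N, v i * G i.succ 0) * ((∑ j, G 0 j.succ * v j) / G 0 0) := by
    unfold dotProduct Matrix.mulVec dotProduct sch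
    rw [Finset.sum_mul, ← Finset.sum_sub_distrib]
    refine Finset.sum_congr rfl fun i _ => ?_
    simp only [Matrix.of_apply]
    rw [mul_assoc, ← mul_sub]
    congr 1
    rw [Finset.sum_div, Finset.mul_sum, ← Finset.sum_sub_distrib]
    refine Finset.sum_congr rfl fun j _ => ?_
    ring
  have e3 : ∑ i : Fin N, v i * (G i.succ 0 * c + ∑ j, G i.succ j.succ * v j) =
      c * (∑ i : Fin N, v i * G i.succ 0) +
        ∑ i : Fin N, v i * (∑ j, G i.succ j.succ * v j) := by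
    rw [Finset.mul_sum, ← Finset.sum_add_distrib]
    refine Finset.sum_congr rfl fun i _ => ?_
    ring
  have e4 : ∑ i : Fin N, v i * G i.succ 0 = ∑ j, G 0 j.succ * v j := by
    refine Finset.sum_congr rfl fun i _ => ?_
    rw [Rc_symm hG i.succ 0, mul_comm]
  rw [e1, e2, e3, e4]
  field_simp
  ring

theorem sch_posDef {N : ℕ} {G : Matrix (Fin (N + 1)) (Fin (N + 1)) ℝ} (hG : G.PosDef) :
    (sch G).PosDef := by
  refine Matrix.PosDef.of_dotProduct_mulVec_pos ?_ ?_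
  · ext i j
    unfold sch
    simp only [Matrix.conjTranspose_apply, Matrix.of_apply, star_trivial]
    rw [Rc_symm hG j.succ i.succ, Rc_symm hG j.succ 0, Rc_symm hG 0 i.succ]
    ring
  · intro v hv
    have hg := (Rc_pos hG).ne'
    set c : ℝ := -((∑ j, G 0 j.succ * v j) / G 0 0) with hc
    have h1 := Rc_cons hG c v
    have h2 : (Fin.cons c v : Fin (N + 1) → ℝ) ≠ 0 := by
      intro h
      apply hv
      ext i
      have h3 := congrFun h i.succ
      simpa using h3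
    have h3 := hG.dotProduct_mulVec_pos h2
    rw [star_trivial] at h3 ⊢
    rw [h1, hc] at h3
    simpa using h3

theorem sch_det {N : ℕ} {G : Matrix (Fin (N + 1)) (Fin (N + 1)) ℝ} (hG : G.PosDef) :
    G.det = G 0 0 * (sch G).det := by
  have hg := (Rc_pos hG).ne'
  set B : Matrix (Fin (N + 1)) (Fin (N + 1)) ℝ := Matrix.of fun i j =>
    G i j - (Fin.cons 0 (fun i : Fin N => G i.succ 0 / G 0 0) : Fin (N + 1) → ℝ) i * G 0 j with hB
  have h0 : ∀ j, B 0 j = G 0 j := by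
    intro j
    simp [hB]
  have hs : ∀ (i : Fin N) j, B i.succ j = G i.succ j - G i.succ 0 / G 0 0 * G 0 j := by
    intro i j
    simp [hB]
  have h1 : G.det = B.det := by
    refine Matrix.det_eq_of_forall_row_eq_smul_add_const
      (Fin.cons 0 (fun i : Fin N => G i.succ 0 / G 0 0) : Fin (N + 1) → ℝ) 0 (by simp) ?_
    intro i j
    rw [h0]
    simp [hB]
  rw [h1, Matrix.det_succ_column_zero, Fin.sum_univ_succ, Finset.sum_eq_zero, add_zero]
  · rw [h0]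
    have h2 : B.submatrix (Fin.succAbove 0) Fin.succ = sch G := by
      ext i j
      rw [Matrix.submatrix_apply, Fin.succAbove_zero, hs]
      unfold sch
      rw [Matrix.of_apply]
      ring
    rw [h2]
    simp
  · intro i _
    rw [hs, div_mul_cancel₀ _ hg, sub_self]
    ring

theorem qf_cons {N : ℕ} {G : Matrix (Fin (N + 1)) (Fin (N + 1)) ℝ} (hG : G.PosDef) (c : ℤ)
    (v : Fin N → ℤ) : qf G (Fin.cons c v) =
      G 0 0 * ((c : ℝ) + (∑ j, G 0 j.succ * (v j : ℝ)) / G 0 0) ^ 2 + qf (sch G) v := by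
  unfold qf
  rw [← Rc_cons hG (c : ℝ) (fun j => (v j : ℝ))]
  have h : (fun i : Fin (N + 1) => (((Fin.cons c v : Fin (N + 1) → ℤ) i : ℤ) : ℝ)) =
      (Fin.cons (c : ℝ) (fun j => (v j : ℝ)) : Fin (N + 1) → ℝ) := by
    ext i
    refine Fin.cases ?_ (fun j => ?_) i
    · simp
    · simp
  rw [h]

theorem qf_single {N : ℕ} (G : Matrix (Fin (N + 1)) (Fin (N + 1)) ℝ) :
    qf G (Pi.single 0 1) = G 0 0 := by
  unfold qf
  have h : (fun i : Fin (N + 1) => (((Pi.single 0 1 : Fin (N + 1) → ℤ) i : ℤ) : ℝ)) =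
      Pi.single 0 1 := by
    ext i
    refine Fin.cases ?_ (fun j => ?_) i
    · simp
    · simp
  rw [h]
  simp

end H76PP

end S_H76_PP_Rc

section S_H76_PP_Rd

set_option autoImplicit false

open scoped Matrix

namespace H76PP

theorem Rd_qf {N : ℕ} (G : Matrix (Fin N) (Fin N) ℝ) (U : Matrix (Fin N) (Fin N) ℤ)
    (y : Fin N → ℤ) :
    qf (U.map (Int.cast : ℤ → ℝ) * G * (U.map (Int.cast : ℤ → ℝ))ᵀ) y = qf G (y ᵥ* U) := by
  unfold qf
  have h : (fun i => (((y ᵥ* U) i : ℤ) : ℝ)) =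
      (fun i => (y i : ℝ)) ᵥ* (U.map (Int.cast : ℤ → ℝ)) := by
    funext i
    simp [Matrix.vecMul, dotProduct]
  rw [h, ← Matrix.mulVec_mulVec, ← Matrix.mulVec_mulVec, Matrix.mulVec_transpose,
    Matrix.dotProduct_mulVec]

theorem Rd_det {N : ℕ} (U : Matrix (Fin N) (Fin N) ℤ) :
    (U.map (Int.cast : ℤ → ℝ)).det = (U.det : ℝ) := (Int.cast_det U).symm

theorem Rd_sq {N : ℕ} {U : Matrix (Fin N) (Fin N) ℤ} (hU : IsUnit U.det) :
    (U.det : ℝ) * (U.det : ℝ) = 1 := by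
  rcases Int.isUnit_iff.1 hU with h | h
  · rw [h]
    norm_num
  · rw [h]
    norm_num

theorem Rd_pd {N : ℕ} {G : Matrix (Fin N) (Fin N) ℝ} (hG : G.PosDef)
    {U : Matrix (Fin N) (Fin N) ℤ} (hU : IsUnit U.det) :
    (U.map (Int.cast : ℤ → ℝ) * G * (U.map (Int.cast : ℤ → ℝ))ᵀ).PosDef := by
  rw [← Matrix.conjTranspose_eq_transpose_of_trivial]
  refine hG.mul_mul_conjTranspose_same ?_
  rw [Matrix.vecMul_injective_iff_isUnit, Matrix.isUnit_iff_isUnit_det, Rd_det]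
  refine isUnit_iff_ne_zero.2 fun h => ?_
  have h1 := Rd_sq hU
  rw [h, mul_zero] at h1
  exact zero_ne_one h1

/-- the lifted matrix -/
def Rd_W {N : ℕ} (c : Fin N → ℤ) (V : Matrix (Fin N) (Fin N) ℤ) :
    Matrix (Fin (N + 1)) (Fin (N + 1)) ℤ :=
  Fin.cons (Pi.single 0 1) (fun i => Fin.cons (c i) (V i))

theorem Rd_W0 {N : ℕ} (c : Fin N → ℤ) (V : Matrix (Fin N) (Fin N) ℤ) :
    Rd_W c V 0 = Pi.single 0 1 := rfl

theorem Rd_Ws {N : ℕ} (c : Fin N → ℤ) (V : Matrix (Fin N) (Fin N) ℤ) (i : Fin N) :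
    Rd_W c V i.succ = Fin.cons (c i) (V i) := rfl

theorem Rd_Wdet {N : ℕ} (c : Fin N → ℤ) (V : Matrix (Fin N) (Fin N) ℤ) :
    (Rd_W c V).det = V.det := by
  rw [Matrix.det_succ_row_zero, Finset.sum_eq_single 0]
  · have h1 : Rd_W c V 0 0 = 1 := by
      rw [Rd_W0]
      exact Pi.single_eq_same 0 1
    have h2 : (Rd_W c V).submatrix Fin.succ (Fin.succAbove 0) = V := by
      ext i j
      rw [Matrix.submatrix_apply, Fin.succAbove_zero, Rd_Ws]
      rfl
    rw [h1, h2]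
    simp
  · intro j _ hj
    have h1 : Rd_W c V 0 j = 0 := by
      rw [Rd_W0]
      exact Pi.single_eq_of_ne hj 1
    rw [h1]
    ring
  · intro h
    exact absurd (Finset.mem_univ 0) h

theorem hermite (N : ℕ) : ∃ C : ℝ, 1 ≤ C ∧ ∀ G : Matrix (Fin N) (Fin N) ℝ, G.PosDef →
    ∃ U : Matrix (Fin N) (Fin N) ℤ, IsUnit U.det ∧ ∏ i, qf G (U i) ≤ C * G.det := by
  induction N with
  | zero =>
    refine ⟨1, le_rfl, fun G hG => ⟨1, ?_, ?_⟩⟩
    · rw [Matrix.det_one]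
      exact isUnit_one
    · rw [Matrix.det_isEmpty, mul_one, Finset.univ_eq_empty, Finset.prod_empty]
  | succ N ih =>
    obtain ⟨C, hC, ih⟩ := ih
    refine ⟨(4 / 3) ^ N * C, ?_, fun G hG => ?_⟩
    · have h1 : (1 : ℝ) ≤ (4 / 3) ^ N := one_le_pow₀ (by norm_num)
      have h2 := mul_le_mul h1 hC zero_le_one (by linarith)
      linarith
    obtain ⟨x, hx0, hmin, hprim⟩ := exists_min hG
    obtain ⟨U, hU, hUx⟩ := unimod hprim
    obtain ⟨G1, hG1⟩ : ∃ G1, G1 = U.map (Int.cast : ℤ → ℝ) * G * (U.map (Int.cast : ℤ → ℝ))ᵀ :=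
      ⟨_, rfl⟩
    have hpd : G1.PosDef := by
      rw [hG1]
      exact Rd_pd hG hU
    have hdet : G1.det = G.det := by
      rw [hG1, Matrix.det_mul, Matrix.det_mul, Matrix.det_transpose, Rd_det]
      linear_combination G.det * Rd_sq hU
    have hqf : ∀ y : Fin (N + 1) → ℤ, qf G1 y = qf G (y ᵥ* U) := by
      intro y
      rw [hG1, Rd_qf]
    have h00 : G1 0 0 = qf G x := by
      refine (qf_single G1).symm.trans ?_
      rw [hqf, Matrix.single_one_vecMul]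
      have h1 : U.row 0 = x := hUx
      rw [h1]
    have hg : 0 < G1 0 0 := by
      rw [h00]
      exact qf_pos hG hx0
    have hmin1 : ∀ y : Fin (N + 1) → ℤ, y ≠ 0 → G1 0 0 ≤ qf G1 y := by
      intro y hy
      rw [h00, hqf]
      apply hmin
      intro h0
      apply hy
      have h1 : (y ᵥ* U) ᵥ* U⁻¹ = 0 := by rw [h0, Matrix.zero_vecMul]
      rw [Matrix.vecMul_vecMul, Matrix.mul_nonsing_inv _ hU, Matrix.vecMul_one] at h1
      exact h1
    obtain ⟨V, hV, hVp⟩ := ih (sch G1) (sch_posDef hpd)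
    obtain ⟨c, hc⟩ : ∃ c : Fin N → ℤ, ∀ i, c i =
        -round ((∑ j, G1 0 j.succ * (V i j : ℝ)) / G1 0 0) := ⟨_, fun i => rfl⟩
    have hVi : ∀ i, V i ≠ 0 := by
      intro i hi
      have h1 : V.det = 0 := Matrix.det_eq_zero_of_row_eq_zero i (fun j => congrFun hi j)
      rw [h1] at hV
      exact not_isUnit_zero hV
    have key : ∀ i : Fin N, qf G1 (Rd_W c V i.succ) ≤ 4 / 3 * qf (sch G1) (V i) := by
      intro i
      have h1 := qf_cons hpd (c i) (V i)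
      have h2 : G1 0 0 ≤ qf G1 (Rd_W c V i.succ) := by
        apply hmin1
        rw [Rd_Ws]
        intro h0
        apply hVi i
        funext j
        have h3 := congrFun h0 j.succ
        rw [Fin.cons_succ] at h3
        exact h3
      have h4 : ((c i : ℝ) + (∑ j, G1 0 j.succ * (V i j : ℝ)) / G1 0 0) ^ 2 ≤ 1 / 4 := by
        have h5 := abs_sub_round ((∑ j, G1 0 j.succ * (V i j : ℝ)) / G1 0 0)
        have h6 : (c i : ℝ) + (∑ j, G1 0 j.succ * (V i j : ℝ)) / G1 0 0 =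
            (∑ j, G1 0 j.succ * (V i j : ℝ)) / G1 0 0 -
            (round ((∑ j, G1 0 j.succ * (V i j : ℝ)) / G1 0 0) : ℝ) := by
          rw [hc, Int.cast_neg]
          ring
        rw [h6, ← sq_abs]
        have h7 := pow_le_pow_left₀ (abs_nonneg _) h5 2
        have e : ((1 : ℝ) / 2) ^ 2 = 1 / 4 := by norm_num
        rwa [e] at h7
      rw [Rd_Ws] at h2 ⊢
      have h8 := mul_le_mul_of_nonneg_left h4 hg.le
      rw [h1] at h2 ⊢
      linarith
    have hq0 : ∀ i : Fin N, 0 ≤ qf G1 (Rd_W c V i.succ) := by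
      intro i
      refine (qf_pos hpd ?_).le
      rw [Rd_Ws]
      intro h0
      apply hVi i
      funext j
      have h3 := congrFun h0 j.succ
      rw [Fin.cons_succ] at h3
      exact h3
    refine ⟨Rd_W c V * U, ?_, ?_⟩
    · rw [Matrix.det_mul, Rd_Wdet]
      exact hV.mul hU
    · have h1 : ∀ i, qf G ((Rd_W c V * U) i) = qf G1 (Rd_W c V i) := by
        intro i
        rw [Matrix.mul_apply_eq_vecMul, hqf]
      rw [Finset.prod_congr rfl (fun i _ => h1 i), Fin.prod_univ_succ, Rd_W0, qf_single]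
      have h2 : ∏ i : Fin N, qf G1 (Rd_W c V i.succ) ≤ ∏ i : Fin N, (4 / 3 * qf (sch G1) (V i)) :=
        Finset.prod_le_prod (fun i _ => hq0 i) (fun i _ => key i)
      rw [Finset.prod_mul_distrib, Finset.prod_const, Finset.card_univ, Fintype.card_fin] at h2
      have h3 : (4 / 3 : ℝ) ^ N * ∏ i : Fin N, qf (sch G1) (V i) ≤
          (4 / 3) ^ N * (C * (sch G1).det) := mul_le_mul_of_nonneg_left hVp (by positivity)
      have h4 := mul_le_mul_of_nonneg_left (h2.trans h3) hg.le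
      refine h4.trans (le_of_eq ?_)
      rw [← hdet, sch_det hpd]
      ring

end H76PP

end S_H76_PP_Rd
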