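import Mathlib
import Pool.Agent.H76.PM.A1
import Pool.Agent.H76.PM.B1

/-! A positive proportion of elliptic curves, part B2: this file joins several modules to save build time. -/

set_option autoImplicit false

section S_H54_PP_D0

set_option autoImplicit false
open scoped Classical

open NumberField IsDedekindDomain H76PP
open scoped Matrix

namespace H54PP

section Sym

variable {R : Type*}

/-- The symmetric matrix with the six given entries. -/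
def sy (x : Fin 6 → R) : Matrix (Fin 3) (Fin 3) R :=
  !![x 0, x 1, x 2; x 1, x 3, x 4; x 2, x 4, x 5]

/-- The six entries of a symmetric matrix. -/
def en (M : Matrix (Fin 3) (Fin 3) R) : Fin 6 → R := ![M 0 0, M 0 1, M 0 2, M 1 1, M 1 2, M 2 2]

/-- The coefficients of the linear form `tr (adj (sy x) * sy y)` in `y`. -/
def cf [CommRing R] (x : Fin 6 → R) : Fin 6 → R :=
  ![x 3 * x 5 - x 4 ^ 2, 2 * (x 2 * x 4 - x 1 * x 5), 2 * (x 1 * x 4 - x 2 * x 3),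
    x 0 * x 5 - x 2 ^ 2, 2 * (x 1 * x 2 - x 0 * x 4), x 0 * x 3 - x 1 ^ 2]

/-- A unipotent matrix. -/
def pm [CommRing R] (a b c : R) : Matrix (Fin 3) (Fin 3) R := !![1, a, c; 0, 1, b; 0, 0, 1]

theorem en_sy (x : Fin 6 → R) : en (sy x) = x := by
  funext i
  fin_cases i <;> rfl

theorem sy_en {M : Matrix (Fin 3) (Fin 3) R} (h : M.IsSymm) : sy (en M) = M := by
  ext i j
  have h1 := h.apply
  fin_cases i <;> fin_cases j <;> first | rfl | exact h1 _ _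

theorem sy_symm (x : Fin 6 → R) : (sy x).IsSymm := by
  ext i j
  fin_cases i <;> fin_cases j <;> rfl

theorem pm_det [CommRing R] (a b c : R) : (pm a b c).det = 1 := by
  unfold pm
  rw [Matrix.det_fin_three]
  simp

end Sym

/-- The value of the constant `c₅` of the note. -/
noncomputable def c5 (C₂ : ℝ) : ℝ := 1 / (2 * (1 + C₂))

/-- The factor at `v`. -/
noncomputable def rho {K : Type} [Field K] [NumberField K] (v : HeightOneSpectrum (𝓞 K)) : ℝ :=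
  (1 + 1 / (Nv v : ℝ)) ^ 2 / 4

/-- The bounds for the six entries of `Pᵀ N P`. -/
noncomputable def tt (X τ G : ℝ) : Fin 6 → ℝ :=
  ![2 * X * τ ^ 2, 2 * X * G * τ, 2 * X * G, 2 * X * G ^ 2, 2 * X * G ^ 2 / τ,
    2 * X * G ^ 2 / τ ^ 2]

section Tgt

variable {K : Type} [Field K] [NumberField K]

/-- The conditions on the entries `m` of `Pᵀ M P`. -/
structure TgM (τ G : ℝ) (m : Fin 6 → 𝓞 K) : Prop where
  m0 : m 0 = 0
  m1 : m 1 = 0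
  n2 : m 2 ≠ 0
  n3 : m 3 ≠ 0
  b2 : m 2 ∈ bx K G
  b3 : m 3 ∈ bx K (G ^ 2)
  b4 : m 4 ∈ bx K (G ^ 2 / τ)
  b5 : m 5 ∈ bx K (G ^ 2 / τ ^ 2)

/-- The conditions on the entries `m`, `y` of `Pᵀ M P` and `Pᵀ N P`. -/
structure Tgt (X τ G : ℝ) (T : Finset (HeightOneSpectrum (𝓞 K))) (m y : Fin 6 → 𝓞 K) :
    Prop where
  tm : TgM τ G m
  tr : ∑ i, cf m i * y i = 0
  bd : ∀ i, y i ∈ bx K (tt X τ G i)
  rs : ∀ v ∈ T, (sy m).det ∉ v.asIdeal → Rs (rd v (sy m)) (rd v (sy y))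

end Tgt

section BadSets

variable (K : Type) [Field K] [NumberField K]

/-- The pairs `(A, B)` with data whose `l 0` satisfies `L`. -/
def Bd (X C₂ : ℝ) (T : Finset (HeightOneSpectrum (𝓞 K))) (L : ℝ → Prop) : Set (𝓞 K × 𝓞 K) :=
  {p | p ∈ Bx K X ∧ ∃ (l : Fin 3 → ℝ) (M N : Matrix (Fin 3) (Fin 3) (𝓞 K)),
    Dat X C₂ T p.1 p.2 l M N ∧ L (l 0)}

end BadSets

end H54PP

end S_H54_PP_D0

section S_H54_PP_Aa

set_option autoImplicit false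
open scoped Classical

open NumberField IsDedekindDomain H76PP
open scoped Matrix

namespace H54PP

theorem Aa_det {R : Type*} [CommRing R] (m : Fin 6 → R) : (sy m).det =
    m 0 * (m 3 * m 5 - m 4 ^ 2) - m 1 * (m 1 * m 5 - m 2 * m 4) +
      m 2 * (m 1 * m 4 - m 2 * m 3) := by
  rw [Matrix.det_fin_three]
  unfold sy
  simp only [Matrix.of_apply, Matrix.cons_val', Matrix.cons_val_zero, Matrix.cons_val_one,
    Matrix.cons_val]
  ring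

theorem Aa_sub {R : Type*} [CommRing R] (x : R) (m y : Fin 6 → R) :
    x • sy m - sy y = sy (fun i => x * m i - y i) := by
  ext i j
  fin_cases i <;> fin_cases j <;> rfl

theorem Aa_cf {R : Type*} [CommRing R] (m y : Fin 6 → R) :
    ∑ i, cf m i * y i = (m 3 * m 5 - m 4 ^ 2) * y 0 + 2 * (m 2 * m 4 - m 1 * m 5) * y 1 +
      2 * (m 1 * m 4 - m 2 * m 3) * y 2 + (m 0 * m 5 - m 2 ^ 2) * y 3 +
      2 * (m 1 * m 2 - m 0 * m 4) * y 4 + (m 0 * m 3 - m 1 ^ 2) * y 5 := by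
  rw [Fin.sum_univ_six]
  rfl

theorem det_exp {R : Type*} [CommRing R] (x : R) (m y : Fin 6 → R) :
    (x • sy m - sy y).det = (sy m).det * x ^ 3 - (∑ i, cf m i * y i) * x ^ 2 +
      (∑ i, cf y i * m i) * x - (sy y).det := by
  rw [Aa_sub, Aa_det, Aa_det, Aa_det, Aa_cf, Aa_cf]
  ring

theorem sum_cf_self {R : Type*} [CommRing R] (m : Fin 6 → R) :
    ∑ i, cf m i * m i = 3 * (sy m).det := by
  rw [Aa_det, Aa_cf]
  ring

theorem exists_cf {R : Type*} [CommRing R] [IsDomain R] [CharZero R] {m : Fin 6 → R}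
    (h : (sy m).det ≠ 0) : ∃ i, cf m i ≠ 0 := by
  by_contra hcon
  push Not at hcon
  have h1 := sum_cf_self m
  rw [Finset.sum_eq_zero (fun i _ => by rw [hcon i, zero_mul])] at h1
  rcases mul_eq_zero.1 h1.symm with h2 | h2
  · have h3 : ((3 : ℕ) : R) ≠ 0 := Nat.cast_ne_zero.2 (by norm_num)
    exact h3 (by exact_mod_cast h2)
  · exact h h2

theorem char_cf {R : Type*} [CommRing R] [IsDomain R] [CharZero R]
    {M N : Matrix (Fin 3) (Fin 3) R} (hM : M.IsSymm) (hN : N.IsSymm) {A B : R}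
    (h : ∀ x : R, (x • M - N).det = M.det * (x ^ 3 + A * x + B)) :
    ∑ i, cf (en M) i * en N i = 0 ∧ ∑ i, cf (en N) i * en M i = M.det * A ∧
      - N.det = M.det * B := by
  have h1 : ∀ x : R, (x • M - N).det = M.det * x ^ 3 - (∑ i, cf (en M) i * en N i) * x ^ 2 +
      (∑ i, cf (en N) i * en M i) * x - N.det := by
    intro x
    have h2 := det_exp x (en M) (en N)
    rw [sy_en hM, sy_en hN] at h2
    exact h2
  generalize (∑ i, cf (en M) i * en N i) = S₁ at h1 ⊢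
  generalize (∑ i, cf (en N) i * en M i) = S₂ at h1 ⊢
  have e0 := (h1 0).symm.trans (h 0)
  have e1 := (h1 1).symm.trans (h 1)
  have e2 := (h1 (-1)).symm.trans (h (-1))
  have h0 : - N.det = M.det * B := by linear_combination e0
  have hS1 : S₁ = 0 := by
    have h3 : 2 * S₁ = 0 := by linear_combination 2 * e0 - e1 - e2
    rcases mul_eq_zero.1 h3 with h4 | h4
    · exact absurd h4 two_ne_zero
    · exact h4
  refine ⟨hS1, ?_, h0⟩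
  have h3 : 2 * (S₂ - M.det * A) = 0 := by linear_combination e1 - e2
  rcases mul_eq_zero.1 h3 with h4 | h4
  · exact absurd h4 two_ne_zero
  · exact sub_eq_zero.1 h4

theorem char_unique {R : Type*} [CommRing R] [IsDomain R] [CharZero R]
    {M N : Matrix (Fin 3) (Fin 3) R} (hM : M.IsSymm) (hN : N.IsSymm) (hd : M.det ≠ 0)
    {A B A' B' : R} (h : ∀ x : R, (x • M - N).det = M.det * (x ^ 3 + A * x + B))
    (h' : ∀ x : R, (x • M - N).det = M.det * (x ^ 3 + A' * x + B')) : A = A' ∧ B = B' := by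
  obtain ⟨-, h1, h2⟩ := char_cf hM hN h
  obtain ⟨-, h1', h2'⟩ := char_cf hM hN h'
  exact ⟨mul_left_cancel₀ hd (h1.symm.trans h1'), mul_left_cancel₀ hd (h2.symm.trans h2')⟩

end H54PP

end S_H54_PP_Aa

section S_H54_PP_Ab

set_option autoImplicit false
open scoped Classical

open NumberField IsDedekindDomain H76PP
open scoped Matrix

namespace H54PP

theorem Rs_conj {k : Type*} [Field k] {M N P : Matrix (Fin 3) (Fin 3) k} (hP : P.det = 1)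
    (h : Rs M N) : Rs (Pᵀ * M * P) (Pᵀ * N * P) := by
  obtain ⟨a, b, t, e, he, hch, hev, hns, hne, hsq⟩ := h
  have hPT : Pᵀ.det = 1 := by rw [Matrix.det_transpose, hP]
  have hinv : P * P.adjugate = 1 := by rw [Matrix.mul_adjugate, hP, one_smul]
  obtain ⟨f, hf⟩ : ∃ f, f = P.adjugate.mulVec e := ⟨_, rfl⟩
  have hPf : P.mulVec f = e := by rw [hf, Matrix.mulVec_mulVec, hinv, Matrix.one_mulVec]
  have hf0 : f ≠ 0 := by
    intro h0
    rw [h0, Matrix.mulVec_zero] at hPf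
    exact he hPf.symm
  have hmv : ∀ L : Matrix (Fin 3) (Fin 3) k, (Pᵀ * L * P).mulVec f = Pᵀ.mulVec (L.mulVec e) := by
    intro L
    rw [← Matrix.mulVec_mulVec, hPf, ← Matrix.mulVec_mulVec]
  have hdot : ∀ L : Matrix (Fin 3) (Fin 3) k, f ⬝ᵥ (Pᵀ * L * P).mulVec f = e ⬝ᵥ L.mulVec e := by
    intro L
    rw [hmv, Matrix.dotProduct_mulVec, Matrix.vecMul_transpose, hPf]
  refine ⟨a, b, t, f, hf0, fun x => ?_, ?_, hns, ?_, ?_⟩
  · have h1 : x • (Pᵀ * M * P) - Pᵀ * N * P = Pᵀ * (x • M - N) * P := by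
      rw [Matrix.mul_sub, Matrix.sub_mul, Matrix.mul_smul, Matrix.smul_mul]
    rw [h1, Matrix.det_mul, Matrix.det_mul, hP, hPT, one_mul, mul_one, hch, Matrix.det_mul, Matrix.det_mul,
      hP, hPT, one_mul, mul_one]
  · rw [hmv, hmv, hev, Matrix.mulVec_smul]
  · rw [hdot]
    exact hne
  · rw [hdot]
    exact hsq

variable {K : Type} [Field K] [NumberField K]

theorem rd_conj (v : HeightOneSpectrum (𝓞 K)) (M P : Matrix (Fin 3) (Fin 3) (𝓞 K)) :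
    rd v (Pᵀ * M * P) = (rd v P)ᵀ * rd v M * rd v P := by
  unfold rd
  rw [Matrix.map_mul, Matrix.map_mul, Matrix.transpose_map]

theorem rd_det (v : HeightOneSpectrum (𝓞 K)) (M : Matrix (Fin 3) (Fin 3) (𝓞 K)) :
    (rd v M).det = Ideal.Quotient.mk v.asIdeal M.det := by
  rw [RingHom.map_det]
  rfl

theorem rd_det_ne {v : HeightOneSpectrum (𝓞 K)} {M : Matrix (Fin 3) (Fin 3) (𝓞 K)}
    (h : M.det ∉ v.asIdeal) : (rd v M).det ≠ 0 := by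
  rw [rd_det]
  intro h0
  exact h (Ideal.Quotient.eq_zero_iff_mem.1 h0)

theorem rd_sy (v : HeightOneSpectrum (𝓞 K)) (y : Fin 6 → 𝓞 K) :
    rd v (sy y) = sy (fun i => Ideal.Quotient.mk v.asIdeal (y i)) := by
  ext i j
  fin_cases i <;> fin_cases j <;> rfl

theorem Rs_rd_conj {v : HeightOneSpectrum (𝓞 K)} {M N P : Matrix (Fin 3) (Fin 3) (𝓞 K)}
    (hP : P.det = 1) (h : Rs (rd v M) (rd v N)) :
    Rs (rd v (Pᵀ * M * P)) (rd v (Pᵀ * N * P)) := by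
  have h1 : (rd v P).det = 1 := by
    rw [rd_det, hP]
    exact map_one _
  rw [rd_conj, rd_conj]
  exact Rs_conj h1 h

theorem finite_residue (v : HeightOneSpectrum (𝓞 K)) : Finite (𝓞 K ⧸ v.asIdeal) :=
  Ideal.finiteQuotientOfFreeOfNeBot v.asIdeal v.ne_bot

theorem card_residue (v : HeightOneSpectrum (𝓞 K)) : Nat.card (𝓞 K ⧸ v.asIdeal) = Nv v := by
  unfold Nv
  rw [Ideal.absNorm_apply, Submodule.cardQuot_apply]

theorem two_le_Nv (v : HeightOneSpectrum (𝓞 K)) : 2 ≤ Nv v := by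
  haveI := finite_residue v
  haveI : Nontrivial (𝓞 K ⧸ v.asIdeal) := Ideal.Quotient.nontrivial_iff.2 v.isPrime.ne_top
  rw [← card_residue]
  exact Finite.one_lt_card

theorem six_ne {v : HeightOneSpectrum (𝓞 K)} (h : (6 : 𝓞 K) ∉ v.asIdeal) :
    (6 : 𝓞 K ⧸ v.asIdeal) ≠ 0 := by
  intro h0
  apply h
  rw [← Ideal.Quotient.eq_zero_iff_mem, map_ofNat]
  exact h0

end H54PP

end S_H54_PP_Ab

section S_H54_PP_Ac

set_option autoImplicit false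
open scoped Classical

open NumberField IsDedekindDomain H76PP
open scoped Matrix

namespace H54PP

section

variable {K : Type} [Field K] [NumberField K]

/-- The admissible reductions of the five entries. -/
def Ac_S (m : Fin 6 → 𝓞 K) (i₀ : Fin 6) (v : HeightOneSpectrum (𝓞 K)) : Set (Fin 5 → 𝓞 K ⧸ v.asIdeal) :=
  (fun N : Matrix (Fin 3) (Fin 3) (𝓞 K ⧸ v.asIdeal) => fun j : Fin 5 => en N (i₀.succAbove j)) ''
    {N | N.IsSymm ∧ Rs (rd v (sy m)) N}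

theorem Ac_card (m : Fin 6 → 𝓞 K) (i₀ : Fin 6) (v : HeightOneSpectrum (𝓞 K)) (h6 : (6 : 𝓞 K) ∉ v.asIdeal)
    (hd : (sy m).det ∉ v.asIdeal) : ((Ac_S m i₀ v).ncard : ℝ) ≤ (Nv v : ℝ) ^ 5 * rho v := by
  have hfin := finite_residue v
  have hft : Fintype (𝓞 K ⧸ v.asIdeal) := Fintype.ofFinite _
  have h1 := Rs_count (six_ne h6) (M := rd v (sy m)) (by rw [rd_sy]; exact sy_symm _) (rd_det_ne hd)
  have hc : Fintype.card (𝓞 K ⧸ v.asIdeal) = Nv v := by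
    rw [← Nat.card_eq_fintype_card]
    exact card_residue v
  rw [hc] at h1
  have h2 : (Ac_S m i₀ v).ncard ≤ {N : Matrix (Fin 3) (Fin 3) (𝓞 K ⧸ v.asIdeal) | N.IsSymm ∧ Rs (rd v (sy m)) N}.ncard :=
    Set.ncard_image_le (Set.toFinite _)
  have h3 : 4 * (Ac_S m i₀ v).ncard ≤ Nv v ^ 3 * (Nv v + 1) ^ 2 := (Nat.mul_le_mul_left 4 h2).trans h1
  have h4 : 4 * ((Ac_S m i₀ v).ncard : ℝ) ≤ (Nv v : ℝ) ^ 3 * ((Nv v : ℝ) + 1) ^ 2 := by exact_mod_cast h3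
  have h5 : (0 : ℝ) < Nv v := by
    have := two_le_Nv v
    exact_mod_cast (by omega : 0 < Nv v)
  have h6 : (Nv v : ℝ) ^ 5 * rho v = (Nv v : ℝ) ^ 3 * ((Nv v : ℝ) + 1) ^ 2 / 4 := by
    unfold rho
    field_simp
  rw [h6]
  linarith

end

variable (K : Type) [Field K] [NumberField K]

theorem cnt_N : ∃ C : ℝ, 1 ≤ C ∧ ∀ (T : Finset (HeightOneSpectrum (𝓞 K))) (m : Fin 6 → 𝓞 K)
    (i₀ : Fin 6) (t : Fin 6 → ℝ), (∀ i, 0 ≤ t i) → cf m i₀ ≠ 0 →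
    (∀ v ∈ T, (6 : 𝓞 K) ∉ v.asIdeal ∧ (sy m).det ∉ v.asIdeal) →
    ({y : Fin 6 → 𝓞 K | (∀ i, y i ∈ bx K (t i)) ∧ ∑ i, cf m i * y i = 0 ∧
      ∀ v ∈ T, Rs (rd v (sy m)) (rd v (sy y))}.ncard : ℝ) ≤
    (∏ v ∈ T, (Nv v : ℝ)) ^ 5 * (∏ v ∈ T, rho v) *
      ∏ j : Fin 5, (C * (t (i₀.succAbove j) ^ (Module.finrank ℚ K) /
        (∏ v ∈ T, (Nv v : ℝ)) + 1)) := by
  obtain ⟨C, hC1, hC⟩ := count_primes K
  refine ⟨C, hC1, ?_⟩
  intro T m i₀ t ht hcf hT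
  have h0 := hC (Fin 5) T (Ac_S m i₀) (fun j => t (i₀.succAbove j)) (fun j => ht _)
  obtain ⟨A, hA⟩ : ∃ A : Set (Fin 6 → 𝓞 K), A = {y : Fin 6 → 𝓞 K | (∀ i, y i ∈ bx K (t i)) ∧
    ∑ i, cf m i * y i = 0 ∧ ∀ v ∈ T, Rs (rd v (sy m)) (rd v (sy y))} := ⟨_, rfl⟩
  obtain ⟨B, hB⟩ : ∃ B : Set (Fin 5 → 𝓞 K), B = {x : Fin 5 → 𝓞 K | (∀ i, x i ∈ bx K (t (i₀.succAbove i))) ∧
        ∀ v ∈ T, (fun i => Ideal.Quotient.mk v.asIdeal (x i)) ∈ Ac_S m i₀ v} := ⟨_, rfl⟩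
  rw [← hA]
  rw [← hB] at h0
  have hBf : B.Finite := by
    refine Set.Finite.subset (Set.Finite.pi' fun i : Fin 5 => bx_finite K (t (i₀.succAbove i))) ?_
    intro x hx
    rw [hB] at hx
    exact hx.1
  have hAB : A.ncard ≤ B.ncard := by
    refine Set.ncard_le_ncard_of_injOn (fun y => fun j => y (i₀.succAbove j)) ?_ ?_ hBf
    · intro y hy
      rw [hA] at hy
      rw [hB]
      refine ⟨fun i => hy.1 _, fun v hv => ⟨rd v (sy y), ⟨?_, hy.2.2 v hv⟩, ?_⟩⟩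
      · rw [rd_sy]
        exact sy_symm _
      · funext j
        show en (rd v (sy y)) (i₀.succAbove j) = _
        rw [rd_sy, en_sy]
    · intro y hy y' hy' h
      rw [hA] at hy hy'
      have h1 : ∀ j, y (i₀.succAbove j) = y' (i₀.succAbove j) := fun j => congrFun h j
      have h2 := hy.2.1
      have h3 := hy'.2.1
      rw [Fin.sum_univ_succAbove _ i₀] at h2 h3
      have h4 : ∑ j : Fin 5, cf m (i₀.succAbove j) * y (i₀.succAbove j) =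
          ∑ j : Fin 5, cf m (i₀.succAbove j) * y' (i₀.succAbove j) :=
        Finset.sum_congr rfl fun j _ => by rw [h1 j]
      have h5 : cf m i₀ * y i₀ = cf m i₀ * y' i₀ := by
        rw [h4] at h2
        linear_combination h2 - h3
      have h6 : y i₀ = y' i₀ := mul_left_cancel₀ hcf h5
      funext i
      rcases Fin.eq_self_or_eq_succAbove i₀ i with h7 | ⟨j, h7⟩
      · rw [h7]; exact h6
      · rw [h7]; exact h1 j
  have h1 : (A.ncard : ℝ) ≤ B.ncard := by exact_mod_cast hAB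
  refine h1.trans (h0.trans ?_)
  refine mul_le_mul_of_nonneg_right ?_ (Finset.prod_nonneg fun j _ => ?_)
  · rw [← Finset.prod_pow, ← Finset.prod_mul_distrib]
    exact Finset.prod_le_prod (fun v _ => Nat.cast_nonneg _) fun v hv => Ac_card m i₀ v (hT v hv).1 (hT v hv).2
  · have h2 : 0 ≤ t (i₀.succAbove j) := ht _
    have h3 : (0 : ℝ) ≤ ∏ v ∈ T, (Nv v : ℝ) := Finset.prod_nonneg fun v _ => Nat.cast_nonneg _
    have h4 : 0 ≤ t (i₀.succAbove j) ^ (Module.finrank ℚ K) / (∏ v ∈ T, (Nv v : ℝ)) := by positivity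
    exact mul_nonneg (by linarith) (by linarith)

end H54PP

end S_H54_PP_Ac

section S_H54_PP_Ba

set_option autoImplicit false
open scoped Classical

open NumberField IsDedekindDomain H76PP
open scoped Matrix

namespace H54PP

variable {K : Type} [Field K] [NumberField K]

theorem c5_pos {C₂ : ℝ} (h : 1 ≤ C₂) : 0 < c5 C₂ := by
  unfold c5
  have h1 : 0 < 2 * (1 + C₂) := by linarith
  exact div_pos one_pos h1

theorem c5_le {C₂ : ℝ} (h : 1 ≤ C₂) : c5 C₂ ≤ 1 / 4 := by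
  unfold c5
  exact one_div_le_one_div_of_le (by norm_num) (by linarith)

theorem c5_mul {C₂ : ℝ} (h : 1 ≤ C₂) : c5 C₂ * C₂ ≤ 1 / 2 := by
  unfold c5
  have h1 : 0 < 2 * (1 + C₂) := by linarith
  rw [div_mul_eq_mul_div, div_le_iff₀ h1]
  linarith

/-- the shape of the data -/
structure Shp (X C₂ : ℝ) (l : Fin 3 → ℝ) (M N : Matrix (Fin 3) (Fin 3) (𝓞 K)) : Prop where
  m00 : M 0 0 = 0
  m01 : M 0 1 = 0
  m02 : M 0 2 ≠ 0
  m11 : M 1 1 ≠ 0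
  n00 : N 0 0 ≠ 0
  one1 : 1 ≤ l 1
  one2 : 1 ≤ l 0 * l 2
  le1 : l 1 ≤ C₂
  le2 : l 0 * l 2 ≤ C₂
  big : 1 ≤ 2 * X * (l 0 * l 0)

private theorem Ba_det {R : Type*} [CommRing R] {M : Matrix (Fin 3) (Fin 3) R} (h : M.IsSymm)
    (h0 : M 0 0 = 0) (h1 : M 0 1 = 0) : M.det = -(M 0 2 * M 0 2 * M 1 1) := by
  have e10 : M 1 0 = 0 := (h.apply 0 1).trans h1
  have e20 : M 2 0 = M 0 2 := h.apply 0 2
  rw [Matrix.det_fin_three, h0, h1, e10, e20]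
  ring

theorem shape {X C₂ : ℝ} (hC : 1 ≤ C₂) {T : Finset (HeightOneSpectrum (𝓞 K))} {A B : 𝓞 K}
    {l : Fin 3 → ℝ} {M N : Matrix (Fin 3) (Fin 3) (𝓞 K)} (h : Dat X C₂ T A B l M N)
    (hl : l 0 < c5 C₂) : Shp X C₂ l M N := by
  have hc := c5_le hC
  have hm := c5_mul hC
  have p0 := h.pos
  have p1 : 0 < l 1 := p0.trans_le h.le01
  have p2 : 0 < l 2 := p1.trans_le h.le12
  have hM : ∀ i j, M i j ≠ 0 → 1 ≤ l i * l j := fun i j hij =>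
    one_le_of_mem (fun s => h.bdM s i j) hij
  have hN : ∀ i j, N i j ≠ 0 → 1 ≤ 2 * X * (l i * l j) := fun i j hij =>
    one_le_of_mem (fun s => h.bdN s i j) hij
  have m00 : M 0 0 = 0 := by
    by_contra h0
    have h1 := hM 0 0 h0
    nlinarith
  have n00 : N 0 0 ≠ 0 := h.red m00
  have hprod : (l 0 * l 1) * (l 0 * l 1) ≤ l 0 * C₂ := by
    have h1 : (l 0 * l 1) * (l 0 * l 1) ≤ l 0 * (l 0 * l 1 * l 2) := by
      have h2 : l 0 * (l 0 * l 1) * l 1 ≤ l 0 * (l 0 * l 1) * l 2 :=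
        mul_le_mul_of_nonneg_left h.le12 (by positivity)
      calc (l 0 * l 1) * (l 0 * l 1) = l 0 * (l 0 * l 1) * l 1 := by ring
        _ ≤ l 0 * (l 0 * l 1) * l 2 := h2
        _ = l 0 * (l 0 * l 1 * l 2) := by ring
    exact h1.trans (mul_le_mul_of_nonneg_left h.prod p0.le)
  have hlt : l 0 * C₂ < 1 := by
    have h1 : l 0 * C₂ ≤ c5 C₂ * C₂ := mul_le_mul_of_nonneg_right hl.le (by linarith)
    linarith
  have m01 : M 0 1 = 0 := by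
    by_contra h0
    have h1 := hM 0 1 h0
    nlinarith
  have hdet := h.detM
  rw [Ba_det h.symM m00 m01] at hdet
  have m02 : M 0 2 ≠ 0 := by
    intro h0
    apply hdet
    rw [h0, zero_mul, zero_mul, neg_zero]
  have m11 : M 1 1 ≠ 0 := by
    intro h0
    apply hdet
    rw [h0, mul_zero, neg_zero]
  have one2 := hM 0 2 m02
  have one1' := hM 1 1 m11
  have one1 : 1 ≤ l 1 := by
    by_contra h0
    rw [not_le] at h0
    nlinarith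
  have hp := h.prod
  refine ⟨m00, m01, m02, m11, n00, one1, one2, ?_, ?_, hN 0 0 n00⟩
  · have h1 : l 1 * 1 ≤ l 1 * (l 0 * l 2) := mul_le_mul_of_nonneg_left one2 p1.le
    calc l 1 = l 1 * 1 := (mul_one _).symm
      _ ≤ l 1 * (l 0 * l 2) := h1
      _ = l 0 * l 1 * l 2 := by ring
      _ ≤ C₂ := hp
  · have h1 : (l 0 * l 2) * 1 ≤ (l 0 * l 2) * l 1 :=
      mul_le_mul_of_nonneg_left one1 (by positivity)
    calc l 0 * l 2 = (l 0 * l 2) * 1 := (mul_one _).symm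
      _ ≤ (l 0 * l 2) * l 1 := h1
      _ = l 0 * l 1 * l 2 := by ring
      _ ≤ C₂ := hp

end H54PP

end S_H54_PP_Ba

section S_H54_PP_Bb

set_option autoImplicit false
open scoped Classical

open NumberField IsDedekindDomain H76PP
open scoped Matrix

namespace H54PP

variable {K : Type} [Field K] [NumberField K]

theorem quad_bd {M P : Matrix (Fin 3) (Fin 3) (𝓞 K)} {l : Fin 3 → ℝ} {κ : ℝ}
    (hκ : 0 ≤ κ) (hl : ∀ i, 0 ≤ l i) (s : K →+* ℂ)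
    (h : ∀ i j, ‖s (M i j : K)‖ ≤ κ * (l i * l j)) (i j : Fin 3) :
    ‖s ((Pᵀ * M * P) i j : K)‖ ≤
      κ * ((∑ u, ‖s (P u i : K)‖ * l u) * (∑ w, ‖s (P w j : K)‖ * l w)) := by
  have e : (Pᵀ * M * P) i j = ∑ w, ∑ u, P u i * M u w * P w j := by
    rw [Matrix.mul_apply]
    refine Finset.sum_congr rfl fun w _ => ?_
    rw [Matrix.mul_apply, Finset.sum_mul]
    rfl
  have h3 : ‖s ((Pᵀ * M * P) i j : K)‖ ≤
      ∑ w, ∑ u, ‖s (P u i : K)‖ * (κ * (l u * l w)) * ‖s (P w j : K)‖ := by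
    change ‖s (algebraMap (𝓞 K) K ((Pᵀ * M * P) i j))‖ ≤ _
    rw [e, map_sum, map_sum]
    refine (norm_sum_le _ _).trans (Finset.sum_le_sum fun w _ => ?_)
    rw [map_sum, map_sum]
    refine (norm_sum_le _ _).trans (Finset.sum_le_sum fun u _ => ?_)
    rw [map_mul, map_mul, map_mul, map_mul, norm_mul, norm_mul]
    exact mul_le_mul_of_nonneg_right (mul_le_mul_of_nonneg_left (h u w) (norm_nonneg _))
      (norm_nonneg _)
  refine h3.trans (le_of_eq ?_)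
  simp only [Fin.sum_univ_three]
  ring

/-- the bounds for the lengths of the columns of `P` -/
noncomputable def rr (τ G : ℝ) : Fin 3 → ℝ := ![τ, G, G / τ]

theorem rad {C₂ τ : ℝ} (hC : 1 ≤ C₂) (hτ0 : 0 < τ) (hτ1 : τ ≤ 1) {l : Fin 3 → ℝ}
    (h0 : τ / 2 < l 0) (h0' : l 0 ≤ τ) (h1 : 0 ≤ l 1) (h1' : l 1 ≤ C₂) (h2 : 0 ≤ l 2)
    (h2' : l 0 * l 2 ≤ C₂) {a b c : 𝓞 K} (ha : a ∈ bx K (1 / τ)) (hb : b ∈ bx K (1 / τ))
    (hc : c ∈ bx K (1 / τ ^ 2)) (s : K →+* ℂ) (i : Fin 3) :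
    ∑ u, ‖s (pm a b c u i : K)‖ * l u ≤ rr τ (3 * C₂ + 1) i := by
  have e1 : ‖s (((1 : 𝓞 K)) : K)‖ = 1 := by
    change ‖s (algebraMap (𝓞 K) K 1)‖ = 1
    rw [map_one, map_one, norm_one]
  have e0 : ‖s (((0 : 𝓞 K)) : K)‖ = 0 := by
    change ‖s (algebraMap (𝓞 K) K 0)‖ = 0
    rw [map_zero, map_zero, norm_zero]
  have ha' : ‖s (a : K)‖ ≤ 1 / τ := ha s
  have hb' : ‖s (b : K)‖ ≤ 1 / τ := hb s
  have hc' : ‖s (c : K)‖ ≤ 1 / τ ^ 2 := hc s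
  have hl0 : 0 ≤ l 0 := by linarith
  have hl2 : l 2 ≤ 2 * C₂ / τ := by
    rw [le_div_iff₀ hτ0]
    nlinarith
  rw [Fin.sum_univ_three]
  fin_cases i
  · change ‖s ((1 : 𝓞 K) : K)‖ * l 0 + ‖s ((0 : 𝓞 K) : K)‖ * l 1 +
      ‖s ((0 : 𝓞 K) : K)‖ * l 2 ≤ τ
    rw [e1, e0]
    linarith
  · change ‖s (a : K)‖ * l 0 + ‖s ((1 : 𝓞 K) : K)‖ * l 1 +
      ‖s ((0 : 𝓞 K) : K)‖ * l 2 ≤ 3 * C₂ + 1
    rw [e1, e0]
    have h3 : ‖s (a : K)‖ * l 0 ≤ 1 / τ * τ := mul_le_mul ha' h0' hl0 (by positivity)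
    have h4 : 1 / τ * τ = 1 := by field_simp
    linarith
  · change ‖s (c : K)‖ * l 0 + ‖s (b : K)‖ * l 1 + ‖s ((1 : 𝓞 K) : K)‖ * l 2 ≤ (3 * C₂ + 1) / τ
    rw [e1]
    have h3 : ‖s (c : K)‖ * l 0 ≤ 1 / τ ^ 2 * τ := mul_le_mul hc' h0' hl0 (by positivity)
    have h5 : ‖s (b : K)‖ * l 1 ≤ 1 / τ * C₂ := mul_le_mul hb' h1' h1 (by positivity)
    have h4 : (3 * C₂ + 1) / τ = 1 / τ ^ 2 * τ + 1 / τ * C₂ + 2 * C₂ / τ := by
      field_simp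
      ring
    rw [h4]
    linarith

theorem Bb_pm (a b c : 𝓞 K) (u i : Fin 3) :
    pm (a : K) (b : K) (c : K) u i = algebraMap (𝓞 K) K ((pm a b c : Matrix (Fin 3) (Fin 3) (𝓞 K)) u i) := by
  fin_cases u <;> fin_cases i <;> first
    | rfl
    | exact (map_one (algebraMap (𝓞 K) K)).symm
    | exact (map_zero (algebraMap (𝓞 K) K)).symm

theorem quad_pm {C₂ τ κ : ℝ} (hC : 1 ≤ C₂) (hτ0 : 0 < τ) (hτ1 : τ ≤ 1) (hκ : 0 ≤ κ)
    {l : Fin 3 → ℝ} (h0 : τ / 2 < l 0) (h0' : l 0 ≤ τ) (h1 : 0 ≤ l 1) (h1' : l 1 ≤ C₂)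
    (h2 : 0 ≤ l 2) (h2' : l 0 * l 2 ≤ C₂) {a b c : 𝓞 K} (ha : a ∈ bx K (1 / τ))
    (hb : b ∈ bx K (1 / τ)) (hc : c ∈ bx K (1 / τ ^ 2)) {M : Matrix (Fin 3) (Fin 3) (𝓞 K)}
    (h : ∀ (s : K →+* ℂ) (i j : Fin 3), ‖s (M i j : K)‖ ≤ κ * (l i * l j)) (i j : Fin 3) :
    ((pm a b c)ᵀ * M * pm a b c) i j ∈ bx K (κ * (rr τ (3 * C₂ + 1) i * rr τ (3 * C₂ + 1) j)) := by
  intro s
  have hl : ∀ i, 0 ≤ l i := by
    intro i
    fin_cases i
    · change 0 ≤ l 0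
      linarith
    · exact h1
    · exact h2
  have hn : ∀ i, 0 ≤ ∑ u, ‖s (algebraMap (𝓞 K) K ((pm a b c : Matrix (Fin 3) (Fin 3) (𝓞 K)) u i))‖ *
      l u := fun i =>
    Finset.sum_nonneg fun u _ => mul_nonneg (norm_nonneg _) (hl u)
  have hr := rad hC hτ0 hτ1 h0 h0' h1 h1' h2 h2' ha hb hc s
  simp only [Bb_pm] at hr
  refine (quad_bd hκ hl s (h s) i j).trans ?_
  exact mul_le_mul_of_nonneg_left (mul_le_mul (hr i) (hr j) (hn j) ((hn i).trans (hr i))) hκ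

end H54PP

end S_H54_PP_Bb

section S_H54_PP_Bc

set_option autoImplicit false
open scoped Classical

open NumberField IsDedekindDomain H76PP
open scoped Matrix

namespace H54PP

theorem conj_symm {R : Type*} [CommRing R] {M : Matrix (Fin 3) (Fin 3) R} (hM : M.IsSymm)
    (P : Matrix (Fin 3) (Fin 3) R) : (Pᵀ * M * P).IsSymm := by
  show (Pᵀ * M * P)ᵀ = Pᵀ * M * P
  rw [Matrix.transpose_mul, Matrix.transpose_mul, Matrix.transpose_transpose, hM.eq,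
    ← Matrix.mul_assoc]

theorem conj_det {R : Type*} [CommRing R] (M : Matrix (Fin 3) (Fin 3) R)
    {P : Matrix (Fin 3) (Fin 3) R} (hP : P.det = 1) : (Pᵀ * M * P).det = M.det := by
  rw [Matrix.det_mul, Matrix.det_mul, Matrix.det_transpose, hP, one_mul, mul_one]

theorem conj_char {R : Type*} [CommRing R] {M N P : Matrix (Fin 3) (Fin 3) R} (hP : P.det = 1)
    {A B : R} (h : ∀ x : R, (x • M - N).det = M.det * (x ^ 3 + A * x + B)) (x : R) :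
    (x • (Pᵀ * M * P) - Pᵀ * N * P).det = (Pᵀ * M * P).det * (x ^ 3 + A * x + B) := by
  have h1 : x • (Pᵀ * M * P) - Pᵀ * N * P = Pᵀ * (x • M - N) * P := by
    rw [Matrix.mul_sub, Matrix.sub_mul, Matrix.mul_smul, Matrix.smul_mul]
  rw [h1, conj_det _ hP, conj_det _ hP, h]

lemma Bc_ent {R : Type*} [CommRing R] {M : Matrix (Fin 3) (Fin 3) R} (hM : M.IsSymm)
    (a b c : R) : ((pm a b c)ᵀ * M * pm a b c) 0 0 = M 0 0 ∧
      ((pm a b c)ᵀ * M * pm a b c) 0 1 = M 0 1 + a * M 0 0 ∧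
      ((pm a b c)ᵀ * M * pm a b c) 0 2 = M 0 2 + b * M 0 1 + c * M 0 0 ∧
      ((pm a b c)ᵀ * M * pm a b c) 1 1 = M 1 1 + 2 * a * M 0 1 + a ^ 2 * M 0 0 := by
  have h1 : M 1 0 = M 0 1 := hM.apply 0 1
  refine ⟨?_, ?_, ?_, ?_⟩ <;>
    simp [pm, Matrix.mul_apply, Fin.sum_univ_three, h1] <;> ring

variable {K : Type} [Field K] [NumberField K]

theorem to_tgt {X C₂ τ : ℝ} (hC : 1 ≤ C₂) (hτ : τ ≤ c5 C₂)
    {T : Finset (HeightOneSpectrum (𝓞 K))} {A B : 𝓞 K} {l : Fin 3 → ℝ}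
    {M N : Matrix (Fin 3) (Fin 3) (𝓞 K)} (h : Dat X C₂ T A B l M N) (hl : l 0 < c5 C₂)
    (h0 : τ / 2 < l 0) (h0' : l 0 ≤ τ) {a b c : 𝓞 K} (ha : a ∈ bx K (1 / τ))
    (hb : b ∈ bx K (1 / τ)) (hc : c ∈ bx K (1 / τ ^ 2)) :
    Tgt X τ (3 * C₂ + 1) T (en ((pm a b c)ᵀ * M * pm a b c)) (en ((pm a b c)ᵀ * N * pm a b c)) := by
  have S := shape hC h hl
  have hτ0 : 0 < τ := lt_of_lt_of_le h.pos h0'
  have hτ1 : τ ≤ 1 := (hτ.trans (c5_le hC)).trans (by norm_num)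
  have hl1 : 0 ≤ l 1 := h.pos.le.trans h.le01
  have hl2 : 0 ≤ l 2 := hl1.trans h.le12
  have hX : 0 ≤ 2 * X := by
    have h1 : 0 < l 0 * l 0 := mul_pos h.pos h.pos
    by_contra hcon
    push Not at hcon
    have h2 := mul_neg_of_neg_of_pos hcon h1
    linarith [S.big]
  have hM' := conj_symm h.symM (pm a b c)
  have hN' := conj_symm h.symN (pm a b c)
  have hQM := quad_pm (κ := 1) hC hτ0 hτ1 zero_le_one h0 h0' hl1 S.le1 hl2 S.le2 ha hb hc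
    (M := M) (fun s i j => by rw [one_mul]; exact h.bdM s i j)
  have hQN := quad_pm (κ := 2 * X) hC hτ0 hτ1 hX h0 h0' hl1 S.le1 hl2 S.le2 ha hb hc
    (M := N) (fun s i j => h.bdN s i j)
  have hτne := hτ0.ne'
  obtain ⟨e00, e01, e02, e11⟩ := Bc_ent h.symM a b c
  rw [S.m00] at e00 e01 e02 e11
  rw [S.m01] at e01 e02 e11
  refine ⟨⟨?_, ?_, ?_, ?_, ?_, ?_, ?_, ?_⟩, ?_, ?_, ?_⟩
  · exact e00
  · show ((pm a b c)ᵀ * M * pm a b c) 0 1 = 0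
    rw [e01]
    ring
  · show ((pm a b c)ᵀ * M * pm a b c) 0 2 ≠ 0
    rw [e02, mul_zero, mul_zero, add_zero, add_zero]
    exact S.m02
  · show ((pm a b c)ᵀ * M * pm a b c) 1 1 ≠ 0
    rw [e11, mul_zero, mul_zero, add_zero, add_zero]
    exact S.m11
  · have e : 1 * (rr τ (3 * C₂ + 1) 0 * rr τ (3 * C₂ + 1) 2) = 3 * C₂ + 1 := by
      show 1 * (τ * ((3 * C₂ + 1) / τ)) = 3 * C₂ + 1
      field_simp
    have := hQM 0 2
    rw [e] at this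
    exact this
  · have e : 1 * (rr τ (3 * C₂ + 1) 1 * rr τ (3 * C₂ + 1) 1) = (3 * C₂ + 1) ^ 2 := by
      show 1 * ((3 * C₂ + 1) * (3 * C₂ + 1)) = (3 * C₂ + 1) ^ 2
      ring
    have := hQM 1 1
    rw [e] at this
    exact this
  · have e : 1 * (rr τ (3 * C₂ + 1) 1 * rr τ (3 * C₂ + 1) 2) = (3 * C₂ + 1) ^ 2 / τ := by
      show 1 * ((3 * C₂ + 1) * ((3 * C₂ + 1) / τ)) = (3 * C₂ + 1) ^ 2 / τ
      ring
    have := hQM 1 2
    rw [e] at this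
    exact this
  · have e : 1 * (rr τ (3 * C₂ + 1) 2 * rr τ (3 * C₂ + 1) 2) = (3 * C₂ + 1) ^ 2 / τ ^ 2 := by
      show 1 * (((3 * C₂ + 1) / τ) * ((3 * C₂ + 1) / τ)) = (3 * C₂ + 1) ^ 2 / τ ^ 2
      field_simp
    have := hQM 2 2
    rw [e] at this
    exact this
  · exact (char_cf hM' hN' (conj_char (pm_det a b c) h.char)).1
  · have e0 : 2 * X * (rr τ (3 * C₂ + 1) 0 * rr τ (3 * C₂ + 1) 0) = tt X τ (3 * C₂ + 1) 0 := by
      show 2 * X * (τ * τ) = 2 * X * τ ^ 2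
      ring
    have e1 : 2 * X * (rr τ (3 * C₂ + 1) 0 * rr τ (3 * C₂ + 1) 1) = tt X τ (3 * C₂ + 1) 1 := by
      show 2 * X * (τ * (3 * C₂ + 1)) = 2 * X * (3 * C₂ + 1) * τ
      ring
    have e2 : 2 * X * (rr τ (3 * C₂ + 1) 0 * rr τ (3 * C₂ + 1) 2) = tt X τ (3 * C₂ + 1) 2 := by
      show 2 * X * (τ * ((3 * C₂ + 1) / τ)) = 2 * X * (3 * C₂ + 1)
      field_simp
    have e3 : 2 * X * (rr τ (3 * C₂ + 1) 1 * rr τ (3 * C₂ + 1) 1) = tt X τ (3 * C₂ + 1) 3 := by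
      show 2 * X * ((3 * C₂ + 1) * (3 * C₂ + 1)) = 2 * X * (3 * C₂ + 1) ^ 2
      ring
    have e4 : 2 * X * (rr τ (3 * C₂ + 1) 1 * rr τ (3 * C₂ + 1) 2) = tt X τ (3 * C₂ + 1) 4 := by
      show 2 * X * ((3 * C₂ + 1) * ((3 * C₂ + 1) / τ)) = 2 * X * (3 * C₂ + 1) ^ 2 / τ
      ring
    have e5 : 2 * X * (rr τ (3 * C₂ + 1) 2 * rr τ (3 * C₂ + 1) 2) = tt X τ (3 * C₂ + 1) 5 := by
      show 2 * X * (((3 * C₂ + 1) / τ) * ((3 * C₂ + 1) / τ)) = 2 * X * (3 * C₂ + 1) ^ 2 / τ ^ 2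
      field_simp
    have f0 := hQN 0 0
    have f1 := hQN 0 1
    have f2 := hQN 0 2
    have f3 := hQN 1 1
    have f4 := hQN 1 2
    have f5 := hQN 2 2
    rw [e0] at f0
    rw [e1] at f1
    rw [e2] at f2
    rw [e3] at f3
    rw [e4] at f4
    rw [e5] at f5
    intro i
    fin_cases i
    · exact f0
    · exact f1
    · exact f2
    · exact f3
    · exact f4
    · exact f5
  · intro v hv hd
    rw [sy_en hM'] at hd ⊢
    rw [sy_en hN']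
    rw [conj_det _ (pm_det a b c)] at hd
    exact Rs_rd_conj (pm_det a b c) (h.res v hv hd)

end H54PP

end S_H54_PP_Bc

section S_H54_PP_Bd

set_option autoImplicit false
open scoped Classical

open NumberField IsDedekindDomain H76PP
open scoped Matrix

namespace H54PP

theorem pm_inv {R : Type*} [CommRing R] (a b c : R) :
    pm a b c * pm (-a) (-b) (a * b - c) = 1 ∧ pm (-a) (-b) (a * b - c) * pm a b c = 1 := by
  constructor
  · ext i j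
    fin_cases i <;> fin_cases j <;> simp [pm, Matrix.mul_apply, Fin.sum_univ_three] <;> ring
  · ext i j
    fin_cases i <;> fin_cases j <;> simp [pm, Matrix.mul_apply, Fin.sum_univ_three] <;> ring

theorem pm_fix {R : Type*} [CommRing R] (a b c : R) :
    (pm a b c).mulVec ![1, 0, 0] = ![1, 0, 0] := by
  ext i
  fin_cases i <;> simp [pm, Matrix.mulVec, dotProduct, Fin.sum_univ_three]

theorem pm_inj {R : Type*} [CommRing R] {a b c a' b' c' : R} (h : pm a b c = pm a' b' c') :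
    a = a' ∧ b = b' ∧ c = c' := by
  have h1 := congrFun (congrFun h 0) 1
  have h2 := congrFun (congrFun h 1) 2
  have h3 := congrFun (congrFun h 0) 2
  exact ⟨h1, h2, h3⟩

variable {K : Type} [Field K] [NumberField K]

theorem same_pair {X C₂ : ℝ} {T : Finset (HeightOneSpectrum (𝓞 K))} {A B A' B' : 𝓞 K}
    {l l' : Fin 3 → ℝ} {M N M' N' : Matrix (Fin 3) (Fin 3) (𝓞 K)} (h : Dat X C₂ T A B l M N)
    (h' : Dat X C₂ T A' B' l' M' N') {a b c a' b' c' : 𝓞 K}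
    (e1 : en ((pm a b c)ᵀ * M * pm a b c) = en ((pm a' b' c')ᵀ * M' * pm a' b' c'))
    (e2 : en ((pm a b c)ᵀ * N * pm a b c) = en ((pm a' b' c')ᵀ * N' * pm a' b' c')) :
    A = A' ∧ B = B' := by
  have s1 : (pm a b c)ᵀ * M * pm a b c = (pm a' b' c')ᵀ * M' * pm a' b' c' := by
    rw [← sy_en (conj_symm h.symM (pm a b c)), e1, sy_en (conj_symm h'.symM (pm a' b' c'))]
  have s2 : (pm a b c)ᵀ * N * pm a b c = (pm a' b' c')ᵀ * N' * pm a' b' c' := by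
    rw [← sy_en (conj_symm h.symN (pm a b c)), e2, sy_en (conj_symm h'.symN (pm a' b' c'))]
  have c1 := conj_char (pm_det a b c) h.char
  have c2 := conj_char (pm_det a' b' c') h'.char
  rw [← s1, ← s2] at c2
  refine char_unique (conj_symm h.symM (pm a b c)) (conj_symm h.symN (pm a b c)) ?_ c1 c2
  rw [conj_det M (pm_det a b c)]
  exact h.detM

theorem Bd_conj {R : Type*} [CommRing R] {M P P' Q : Matrix (Fin 3) (Fin 3) R}
    (hPQ : P * Q = 1) (s : Pᵀ * M * P = P'ᵀ * M * P') : (P' * Q)ᵀ * M * (P' * Q) = M := by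
  have hQP : Qᵀ * Pᵀ = 1 := by rw [← Matrix.transpose_mul, hPQ, Matrix.transpose_one]
  calc (P' * Q)ᵀ * M * (P' * Q) = Qᵀ * (P'ᵀ * M * P') * Q := by
        rw [Matrix.transpose_mul]; simp only [Matrix.mul_assoc]
    _ = Qᵀ * (Pᵀ * M * P) * Q := by rw [s]
    _ = (Qᵀ * Pᵀ) * M * (P * Q) := by simp only [Matrix.mul_assoc]
    _ = M := by rw [hQP, hPQ, Matrix.one_mul, Matrix.mul_one]

theorem same_P {X C₂ : ℝ} {T : Finset (HeightOneSpectrum (𝓞 K))} {A B : 𝓞 K}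
    {l : Fin 3 → ℝ} {M N : Matrix (Fin 3) (Fin 3) (𝓞 K)} (h : Dat X C₂ T A B l M N)
    {a b c a' b' c' : 𝓞 K}
    (e1 : en ((pm a b c)ᵀ * M * pm a b c) = en ((pm a' b' c')ᵀ * M * pm a' b' c'))
    (e2 : en ((pm a b c)ᵀ * N * pm a b c) = en ((pm a' b' c')ᵀ * N * pm a' b' c')) :
    a = a' ∧ b = b' ∧ c = c' := by
  have s1 : (pm a b c)ᵀ * M * pm a b c = (pm a' b' c')ᵀ * M * pm a' b' c' := by
    rw [← sy_en (conj_symm h.symM (pm a b c)), e1, sy_en (conj_symm h.symM (pm a' b' c'))]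
  have s2 : (pm a b c)ᵀ * N * pm a b c = (pm a' b' c')ᵀ * N * pm a' b' c' := by
    rw [← sy_en (conj_symm h.symN (pm a b c)), e2, sy_en (conj_symm h.symN (pm a' b' c'))]
  obtain ⟨i1, i2⟩ := pm_inv a b c
  have hQ : pm a' b' c' * pm (-a) (-b) (a * b - c) = 1 := by
    refine h.fix _ (Bd_conj i1 s1) (Bd_conj i1 s2) ⟨![1, 0, 0], ?_, ?_⟩
    · intro h0
      have h1 := congrFun h0 0
      exact one_ne_zero h1
    · rw [← Matrix.mulVec_mulVec, pm_fix, pm_fix]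
  have hP : pm a' b' c' = pm a b c := by
    calc pm a' b' c' = pm a' b' c' * (pm (-a) (-b) (a * b - c) * pm a b c) := by rw [i2, Matrix.mul_one]
      _ = pm a b c := by rw [← Matrix.mul_assoc, hQ, Matrix.one_mul]
  exact pm_inj hP.symm

end H54PP

end S_H54_PP_Bd

section S_H54_PP_Be

set_option autoImplicit false
open scoped Classical

open NumberField IsDedekindDomain H76PP

namespace H54PP

variable (K : Type) [Field K] [NumberField K]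

def Be_f (m : Fin 6 → 𝓞 K) : 𝓞 K × 𝓞 K × 𝓞 K × 𝓞 K := (m 2, m 3, m 4, m 5)

theorem Be_inj (τ G : ℝ) : Set.InjOn (Be_f K) {m : Fin 6 → 𝓞 K | TgM τ G m} := by
  intro m hm m' hm' h
  have h2 : m 2 = m' 2 := congrArg (fun p => p.1) h
  have h3 : m 3 = m' 3 := congrArg (fun p => p.2.1) h
  have h4 : m 4 = m' 4 := congrArg (fun p => p.2.2.1) h
  have h5 : m 5 = m' 5 := congrArg (fun p => p.2.2.2) h
  funext i
  fin_cases i
  · exact hm.m0.trans hm'.m0.symm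
  · exact hm.m1.trans hm'.m1.symm
  · exact h2
  · exact h3
  · exact h4
  · exact h5

theorem Be_map {τ G : ℝ} (m : Fin 6 → 𝓞 K) (hm : m ∈ {m : Fin 6 → 𝓞 K | TgM τ G m}) :
    Be_f K m ∈ bx K G ×ˢ (bx K (G ^ 2) ×ˢ (bx K (G ^ 2 / τ) ×ˢ bx K (G ^ 2 / τ ^ 2))) :=
  ⟨hm.b2, hm.b3, hm.b4, hm.b5⟩

theorem Be_fin (τ G : ℝ) :
    (bx K G ×ˢ (bx K (G ^ 2) ×ˢ (bx K (G ^ 2 / τ) ×ˢ bx K (G ^ 2 / τ ^ 2)))).Finite :=
  (bx_finite K _).prod ((bx_finite K _).prod ((bx_finite K _).prod (bx_finite K _)))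

theorem TgM_finite (τ G : ℝ) : {m : Fin 6 → 𝓞 K | TgM τ G m}.Finite :=
  Set.Finite.of_injOn (fun m hm => Be_map K m hm) (Be_inj K τ G) (Be_fin K τ G)

theorem cnt_TgM : ∃ C : ℝ, 1 ≤ C ∧ ∀ τ G : ℝ, 0 < τ → τ ≤ 1 → 1 ≤ G →
    ({m : Fin 6 → 𝓞 K | TgM τ G m}.ncard : ℝ) ≤
      C * (G ^ (7 * Module.finrank ℚ K) * (1 / τ) ^ (3 * Module.finrank ℚ K)) := by
  obtain ⟨C, hC1, hC⟩ := bx_upper K
  refine ⟨C ^ 4, one_le_pow₀ hC1, ?_⟩
  intro τ G hτ hτ1 hG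
  have h0 : ({m : Fin 6 → 𝓞 K | TgM τ G m}.ncard : ℝ) ≤
      ((bx K G ×ˢ (bx K (G ^ 2) ×ˢ (bx K (G ^ 2 / τ) ×ˢ bx K (G ^ 2 / τ ^ 2)))).ncard : ℝ) := by
    exact_mod_cast Set.ncard_le_ncard_of_injOn (Be_f K) (fun m hm => Be_map K m hm)
      (Be_inj K τ G) (Be_fin K τ G)
  have hG2 : 1 ≤ G ^ 2 := one_le_pow₀ hG
  have hτ2 : τ ^ 2 ≤ 1 := pow_le_one₀ hτ.le hτ1
  have h1 := hC G hG
  have h2 := hC (G ^ 2) hG2
  have h3 := hC (G ^ 2 / τ) ((one_le_div₀ hτ).2 (hτ1.trans hG2))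
  have h4 := hC (G ^ 2 / τ ^ 2) ((one_le_div₀ (pow_pos hτ 2)).2 (hτ2.trans hG2))
  rw [Set.ncard_prod, Set.ncard_prod, Set.ncard_prod] at h0
  push_cast at h0
  refine h0.trans ?_
  have hC0 : 0 ≤ C := zero_le_one.trans hC1
  have hG0 : 0 ≤ G := zero_le_one.trans hG
  have h5 := mul_le_mul h3 h4 (Nat.cast_nonneg _) (by positivity)
  have h6 := mul_le_mul h2 h5 (by positivity) (by positivity)
  have h7 := mul_le_mul h1 h6 (by positivity) (by positivity)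
  refine h7.trans (le_of_eq ?_)
  have e : G ^ Module.finrank ℚ K * ((G ^ 2) ^ Module.finrank ℚ K *
      ((G ^ 2 / τ) ^ Module.finrank ℚ K * (G ^ 2 / τ ^ 2) ^ Module.finrank ℚ K)) =
      G ^ (7 * Module.finrank ℚ K) * (1 / τ) ^ (3 * Module.finrank ℚ K) := by
    rw [pow_mul G 7, pow_mul (1 / τ) 3, ← mul_pow, ← mul_pow, ← mul_pow, ← mul_pow]
    congr 1
    field_simp
  rw [← e]
  ring

end H54PP

end S_H54_PP_Be

section S_H54_PP_Bh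

set_option autoImplicit false
open scoped Classical

open NumberField IsDedekindDomain H76PP

namespace H54PP

variable (K : Type) [Field K] [NumberField K]

private theorem Bh_alg {Q C x0 x1 x2 x4 x5 : ℝ} (hQ : 0 < Q) (hC : 1 ≤ C) (h0 : 1 ≤ x0)
    (h1 : Q ≤ x1) (h2 : Q ≤ x2) (h4 : Q ≤ x4) (h5 : Q ≤ x5) :
    Q ^ 5 * ((C * (x0 / Q + 1)) * (C * (x1 / Q + 1)) * (C * (x2 / Q + 1)) * (C * (x4 / Q + 1)) *
      (C * (x5 / Q + 1))) ≤ 16 * C ^ 5 * ((x0 * x1 * x2 * x4 * x5) * (1 + Q / x0)) := by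
  have hC0 : 0 < C := by linarith
  have hx0 : 0 < x0 := by linarith
  have key : ∀ x, Q ≤ x → 0 ≤ C * (x / Q + 1) ∧ C * (x / Q + 1) ≤ C * (2 * (x / Q)) := by
    intro x hx
    have h : 1 ≤ x / Q := (one_le_div hQ).2 hx
    refine ⟨by positivity, mul_le_mul_of_nonneg_left (by linarith) hC0.le⟩
  have e0 : C * (x0 / Q + 1) = C * ((x0 / Q) * (1 + Q / x0)) := by
    field_simp
  have h00 : 0 ≤ C * (x0 / Q + 1) := by positivity
  have p1 : 0 < x1 := lt_of_lt_of_le hQ h1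
  have p2 : 0 < x2 := lt_of_lt_of_le hQ h2
  have p4 : 0 < x4 := lt_of_lt_of_le hQ h4
  have p5 : 0 < x5 := lt_of_lt_of_le hQ h5
  obtain ⟨a1, b1⟩ := key x1 h1
  obtain ⟨a2, b2⟩ := key x2 h2
  obtain ⟨a4, b4⟩ := key x4 h4
  obtain ⟨a5, b5⟩ := key x5 h5
  have hp : (C * (x0 / Q + 1)) * (C * (x1 / Q + 1)) * (C * (x2 / Q + 1)) * (C * (x4 / Q + 1)) *
      (C * (x5 / Q + 1)) ≤ (C * (x0 / Q + 1)) * (C * (2 * (x1 / Q))) * (C * (2 * (x2 / Q))) *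
      (C * (2 * (x4 / Q))) * (C * (2 * (x5 / Q))) := by
    gcongr
  calc Q ^ 5 * ((C * (x0 / Q + 1)) * (C * (x1 / Q + 1)) * (C * (x2 / Q + 1)) *
        (C * (x4 / Q + 1)) * (C * (x5 / Q + 1))) ≤
        Q ^ 5 * ((C * (x0 / Q + 1)) * (C * (2 * (x1 / Q))) * (C * (2 * (x2 / Q))) *
      (C * (2 * (x4 / Q))) * (C * (2 * (x5 / Q)))) := mul_le_mul_of_nonneg_left hp (by positivity)
    _ = 16 * C ^ 5 * ((x0 * x1 * x2 * x4 * x5) * (1 + Q / x0)) := by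
        rw [e0]
        field_simp
        ring

theorem cnt_y : ∃ C : ℝ, 1 ≤ C ∧ ∀ (X τ G : ℝ) (T : Finset (HeightOneSpectrum (𝓞 K)))
    (m : Fin 6 → 𝓞 K), 0 < τ → τ ≤ 1 → 1 ≤ G → 1 ≤ 2 * X * τ ^ 2 →
    (∀ v ∈ T, (6 : 𝓞 K) ∉ v.asIdeal ∧ (G ^ 4) ^ (Module.finrank ℚ K) < (Nv v : ℝ)) →
    (∏ v ∈ T, (Nv v : ℝ)) ^ 2 ≤ (2 * X) ^ (Module.finrank ℚ K) → TgM τ G m →
    {y : Fin 6 → 𝓞 K | Tgt X τ G T m y}.Finite ∧
    ({y : Fin 6 → 𝓞 K | Tgt X τ G T m y}.ncard : ℝ) ≤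
      C * (G ^ (6 * Module.finrank ℚ K) * (∏ v ∈ T, rho v) * X ^ (5 * Module.finrank ℚ K) *
        (1 + (∏ v ∈ T, (Nv v : ℝ)) / (2 * X * τ ^ 2) ^ (Module.finrank ℚ K))) := by
  obtain ⟨C, hC1, hC⟩ := cnt_N K
  have hn : 0 < Module.finrank ℚ K := Module.finrank_pos
  obtain ⟨n, hnd⟩ : ∃ n, n = Module.finrank ℚ K := ⟨_, rfl⟩
  rw [← hnd] at hn
  refine ⟨16 * C ^ 5 * 2 ^ (5 * n), ?_, ?_⟩
  · have h1 : (1 : ℝ) ≤ C ^ 5 := one_le_pow₀ hC1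
    have h2 : (1 : ℝ) ≤ 2 ^ (5 * n) := one_le_pow₀ (by norm_num)
    nlinarith
  intro X τ G T m hτ hτ1 hG hXτ hT hQ2 htm
  rw [← hnd] at hT hQ2 ⊢
  have hτ2 : 0 < τ ^ 2 := by positivity
  have hX : 0 < X := by
    by_contra hX
    have h1 : X ≤ 0 := not_lt.1 hX
    have h2 : X * τ ^ 2 ≤ 0 := mul_nonpos_of_nonpos_of_nonneg h1 hτ2.le
    linarith
  have hG0 : 0 < G := by linarith
  have hG2 : 1 ≤ G ^ 2 := one_le_pow₀ hG
  have hτ21 : τ ^ 2 ≤ 1 := pow_le_one₀ hτ.le hτ1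
  have h2X : 1 ≤ 2 * X := by nlinarith
  have hQpos : 0 < ∏ v ∈ T, (Nv v : ℝ) :=
    Finset.prod_pos fun v _ => by
      have := two_le_Nv v
      exact_mod_cast (by omega : 0 < Nv v)
  have htt : ∀ i, 0 ≤ tt X τ G i := by
    intro i
    unfold tt
    fin_cases i
    · change 0 ≤ 2 * X * τ ^ 2
      positivity
    · change 0 ≤ 2 * X * G * τ
      positivity
    · change 0 ≤ 2 * X * G
      positivity
    · change 0 ≤ 2 * X * G ^ 2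
      positivity
    · change 0 ≤ 2 * X * G ^ 2 / τ
      positivity
    · change 0 ≤ 2 * X * G ^ 2 / τ ^ 2
      positivity
  have hcf : cf m 3 ≠ 0 := by
    have h1 : cf m 3 = -(m 2 ^ 2) := by
      change m 0 * m 5 - m 2 ^ 2 = -(m 2 ^ 2)
      rw [htm.m0]
      ring
    rw [h1]
    exact neg_ne_zero.2 (pow_ne_zero 2 htm.n2)
  have hdet : (sy m).det = -(m 2 * m 2 * m 3) := by
    rw [Matrix.det_fin_three]
    change m 0 * m 3 * m 5 - m 0 * m 4 * m 4 - m 1 * m 1 * m 5 + m 1 * m 4 * m 2 + m 2 * m 1 * m 4 -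
      m 2 * m 3 * m 2 = _
    rw [htm.m0, htm.m1]
    ring
  have hdetv : ∀ v ∈ T, (6 : 𝓞 K) ∉ v.asIdeal ∧ (sy m).det ∉ v.asIdeal := by
    intro v hv
    obtain ⟨h6, hv2⟩ := hT v hv
    refine ⟨h6, ?_⟩
    have hb : (sy m).det ∈ bx K (G ^ 4) := by
      rw [hdet]
      have h1 := bx_neg (bx_mul (bx_mul htm.b2 htm.b2) htm.b3)
      have h2 : G * G * G ^ 2 = G ^ 4 := by ring
      rwa [h2] at h1
    have hne : (sy m).det ≠ 0 := by
      rw [hdet]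
      exact neg_ne_zero.2 (mul_ne_zero (mul_ne_zero htm.n2 htm.n2) htm.n3)
    exact not_mem_of_lt hb hne (by rw [← hnd]; exact hv2)
  have hbox : {y : Fin 6 → 𝓞 K | ∀ i, y i ∈ bx K (tt X τ G i)}.Finite :=
    Set.Finite.pi' fun i => bx_finite K _
  have hfin1 : {y : Fin 6 → 𝓞 K | Tgt X τ G T m y}.Finite := hbox.subset fun y hy => hy.bd
  have hfin2 : {y : Fin 6 → 𝓞 K | (∀ i, y i ∈ bx K (tt X τ G i)) ∧ ∑ i, cf m i * y i = 0 ∧
      ∀ v ∈ T, Rs (rd v (sy m)) (rd v (sy y))}.Finite := hbox.subset fun y hy => hy.1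
  refine ⟨hfin1, ?_⟩
  have hle : ({y : Fin 6 → 𝓞 K | Tgt X τ G T m y}.ncard : ℝ) ≤
      ({y : Fin 6 → 𝓞 K | (∀ i, y i ∈ bx K (tt X τ G i)) ∧ ∑ i, cf m i * y i = 0 ∧
      ∀ v ∈ T, Rs (rd v (sy m)) (rd v (sy y))}.ncard : ℝ) := by
    have h1 := Set.ncard_le_ncard (s := {y : Fin 6 → 𝓞 K | Tgt X τ G T m y})
      (t := {y : Fin 6 → 𝓞 K | (∀ i, y i ∈ bx K (tt X τ G i)) ∧ ∑ i, cf m i * y i = 0 ∧
      ∀ v ∈ T, Rs (rd v (sy m)) (rd v (sy y))})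
      (fun y hy => ⟨hy.bd, hy.tr, fun v hv => hy.rs v hv (hdetv v hv).2⟩) hfin2
    exact_mod_cast h1
  have hcn := hC T m 3 (tt X τ G) htt hcf hdetv
  rw [← hnd, Fin.prod_univ_five] at hcn
  have e0 : tt X τ G ((3 : Fin 6).succAbove 0) = 2 * X * τ ^ 2 := rfl
  have e1 : tt X τ G ((3 : Fin 6).succAbove 1) = 2 * X * G * τ := rfl
  have e2 : tt X τ G ((3 : Fin 6).succAbove 2) = 2 * X * G := rfl
  have e3 : tt X τ G ((3 : Fin 6).succAbove 3) = 2 * X * G ^ 2 / τ := rfl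
  have e4 : tt X τ G ((3 : Fin 6).succAbove 4) = 2 * X * G ^ 2 / τ ^ 2 := rfl
  rw [e0, e1, e2, e3, e4] at hcn
  have hbig : ∀ t : ℝ, 0 ≤ t → 2 * X ≤ t ^ 2 → ∏ v ∈ T, (Nv v : ℝ) ≤ t ^ n := by
    intro t ht h1
    have h2 : (2 * X) ^ n ≤ (t ^ 2) ^ n := pow_le_pow_left₀ (by linarith) h1 n
    have h3 : (∏ v ∈ T, (Nv v : ℝ)) ^ 2 ≤ (t ^ n) ^ 2 := by
      rw [← pow_mul, mul_comm n 2, pow_mul]
      exact hQ2.trans h2
    exact (pow_le_pow_iff_left₀ hQpos.le (by positivity) two_ne_zero).1 h3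
  have g1 : 2 * X ≤ (2 * X * G * τ) ^ 2 := by
    have h1 : (2 * X * G * τ) ^ 2 = (2 * X) * ((2 * X * τ ^ 2) * G ^ 2) := by ring
    rw [h1]
    have h2 : 1 ≤ (2 * X * τ ^ 2) * G ^ 2 := one_le_mul_of_one_le_of_one_le hXτ hG2
    exact le_mul_of_one_le_right (by linarith) h2
  have hsq : ∀ t : ℝ, 2 * X ≤ t → 2 * X ≤ t ^ 2 := by
    intro t ht
    nlinarith
  have g2 : 2 * X ≤ 2 * X * G := le_mul_of_one_le_right (by linarith) hG
  have g3 : 2 * X ≤ 2 * X * G ^ 2 / τ := by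
    rw [le_div_iff₀ hτ]
    have h1 : 2 * X * τ ≤ 2 * X * 1 := mul_le_mul_of_nonneg_left hτ1 (by linarith)
    have h2 : 2 * X * 1 ≤ 2 * X * G ^ 2 := mul_le_mul_of_nonneg_left hG2 (by linarith)
    exact h1.trans h2
  have g4 : 2 * X ≤ 2 * X * G ^ 2 / τ ^ 2 := by
    rw [le_div_iff₀ hτ2]
    have h1 : 2 * X * τ ^ 2 ≤ 2 * X * 1 := mul_le_mul_of_nonneg_left hτ21 (by linarith)
    have h2 : 2 * X * 1 ≤ 2 * X * G ^ 2 := mul_le_mul_of_nonneg_left hG2 (by linarith)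
    exact h1.trans h2
  have halg := Bh_alg (Q := ∏ v ∈ T, (Nv v : ℝ)) (C := C) (x0 := (2 * X * τ ^ 2) ^ n)
    (x1 := (2 * X * G * τ) ^ n) (x2 := (2 * X * G) ^ n) (x4 := (2 * X * G ^ 2 / τ) ^ n)
    (x5 := (2 * X * G ^ 2 / τ ^ 2) ^ n) hQpos hC1 (one_le_pow₀ hXτ)
    (hbig _ (by positivity) g1) (hbig _ (by positivity) (hsq _ g2))
    (hbig _ (by positivity) (hsq _ g3)) (hbig _ (by positivity) (hsq _ g4))
  have hrho : 0 ≤ ∏ v ∈ T, rho v := Finset.prod_nonneg fun v _ => by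
    unfold rho
    positivity
  have hprod : (2 * X * τ ^ 2) ^ n * (2 * X * G * τ) ^ n * (2 * X * G) ^ n *
      (2 * X * G ^ 2 / τ) ^ n * (2 * X * G ^ 2 / τ ^ 2) ^ n =
      2 ^ (5 * n) * (G ^ (6 * n) * X ^ (5 * n)) := by
    rw [← mul_pow, ← mul_pow, ← mul_pow, ← mul_pow, pow_mul, pow_mul, pow_mul, ← mul_pow, ← mul_pow]
    congr 1
    field_simp
  rw [hprod] at halg
  refine hle.trans (hcn.trans ?_)
  have h9 := mul_le_mul_of_nonneg_left halg hrho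
  calc (∏ v ∈ T, (Nv v : ℝ)) ^ 5 * (∏ v ∈ T, rho v) *
        (C * ((2 * X * τ ^ 2) ^ n / (∏ v ∈ T, (Nv v : ℝ)) + 1) *
          (C * ((2 * X * G * τ) ^ n / (∏ v ∈ T, (Nv v : ℝ)) + 1)) *
          (C * ((2 * X * G) ^ n / (∏ v ∈ T, (Nv v : ℝ)) + 1)) *
          (C * ((2 * X * G ^ 2 / τ) ^ n / (∏ v ∈ T, (Nv v : ℝ)) + 1)) *
          (C * ((2 * X * G ^ 2 / τ ^ 2) ^ n / (∏ v ∈ T, (Nv v : ℝ)) + 1))) =
      (∏ v ∈ T, rho v) * ((∏ v ∈ T, (Nv v : ℝ)) ^ 5 *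
        (C * ((2 * X * τ ^ 2) ^ n / (∏ v ∈ T, (Nv v : ℝ)) + 1) *
          (C * ((2 * X * G * τ) ^ n / (∏ v ∈ T, (Nv v : ℝ)) + 1)) *
          (C * ((2 * X * G) ^ n / (∏ v ∈ T, (Nv v : ℝ)) + 1)) *
          (C * ((2 * X * G ^ 2 / τ) ^ n / (∏ v ∈ T, (Nv v : ℝ)) + 1)) *
          (C * ((2 * X * G ^ 2 / τ ^ 2) ^ n / (∏ v ∈ T, (Nv v : ℝ)) + 1)))) := by ring
    _ ≤ _ := h9
    _ = 16 * C ^ 5 * 2 ^ (5 * n) * (G ^ (6 * n) * (∏ v ∈ T, rho v) * X ^ (5 * n) *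
        (1 + (∏ v ∈ T, (Nv v : ℝ)) / (2 * X * τ ^ 2) ^ n)) := by ring

end H54PP

end S_H54_PP_Bh

section S_H54_PP_Bi

set_option autoImplicit false
open scoped Classical

open NumberField IsDedekindDomain H76PP

namespace H54PP

variable (K : Type) [Field K] [NumberField K]

theorem cnt_Tgt {G : ℝ} (hG : 1 ≤ G) : ∃ C : ℝ, 0 < C ∧
    ∀ (X τ : ℝ) (T : Finset (HeightOneSpectrum (𝓞 K))), 0 < τ → τ ≤ 1 → 1 ≤ 2 * X * τ ^ 2 →
    (∀ v ∈ T, (6 : 𝓞 K) ∉ v.asIdeal ∧ (G ^ 4) ^ (Module.finrank ℚ K) < (Nv v : ℝ)) →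
    (∏ v ∈ T, (Nv v : ℝ)) ^ 2 ≤ (2 * X) ^ (Module.finrank ℚ K) →
    {p : (Fin 6 → 𝓞 K) × (Fin 6 → 𝓞 K) | Tgt X τ G T p.1 p.2}.Finite ∧
    ({p : (Fin 6 → 𝓞 K) × (Fin 6 → 𝓞 K) | Tgt X τ G T p.1 p.2}.ncard : ℝ) ≤
      C * ((1 / τ) ^ (3 * Module.finrank ℚ K) * (∏ v ∈ T, rho v) *
        X ^ (5 * Module.finrank ℚ K) *
        (1 + (∏ v ∈ T, (Nv v : ℝ)) / (2 * X * τ ^ 2) ^ (Module.finrank ℚ K))) := by
  obtain ⟨C, hC1, hC⟩ := cnt_TgM K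
  obtain ⟨C', hC1', hC'⟩ := cnt_y K
  have hG0 : 0 < G := by linarith
  refine ⟨C' * C * G ^ (13 * Module.finrank ℚ K), by positivity, ?_⟩
  intro X τ T hτ hτ1 hX hT hQ
  have hX0 : 0 < X := by
    by_contra h
    push Not at h
    have h1 : 2 * X * τ ^ 2 ≤ 0 :=
      mul_nonpos_of_nonpos_of_nonneg (by linarith) (by positivity)
    linarith
  have hy := fun m (hm : TgM τ G m) => hC' X τ G T m hτ hτ1 hG hX hT hQ hm
  have hS := TgM_finite K τ G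
  have hfin : {p : (Fin 6 → 𝓞 K) × (Fin 6 → 𝓞 K) | Tgt X τ G T p.1 p.2}.Finite := by
    have h1 : (⋃ m ∈ {m : Fin 6 → 𝓞 K | TgM τ G m},
        (fun y : Fin 6 → 𝓞 K => (m, y)) '' {y | Tgt X τ G T m y}).Finite :=
      hS.biUnion fun m hm => (hy m hm).1.image _
    refine h1.subset ?_
    rintro ⟨m, y⟩ h
    have h2 : Tgt X τ G T m y := h
    exact Set.mem_biUnion (show m ∈ {m : Fin 6 → 𝓞 K | TgM τ G m} from h2.tm) ⟨y, h2, rfl⟩
  refine ⟨hfin, ?_⟩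
  have hρ : 0 ≤ ∏ v ∈ T, rho v := Finset.prod_nonneg fun v _ => by
    unfold rho
    positivity
  have hN : 0 ≤ ∏ v ∈ T, (Nv v : ℝ) := Finset.prod_nonneg fun v _ => Nat.cast_nonneg _
  obtain ⟨W, hW⟩ : ∃ W : ℝ, W = 1 + (∏ v ∈ T, (Nv v : ℝ)) /
    (2 * X * τ ^ 2) ^ (Module.finrank ℚ K) := ⟨_, rfl⟩
  have hW0 : 0 ≤ W := by
    rw [hW]
    positivity
  rw [← hW] at hy ⊢
  obtain ⟨R, hR⟩ : ∃ R : ℝ, R = ∏ v ∈ T, rho v := ⟨_, rfl⟩
  rw [← hR] at hρ hy ⊢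
  obtain ⟨b, hb⟩ : ∃ b : ℝ, b = C' * (G ^ (6 * Module.finrank ℚ K) * R *
    X ^ (5 * Module.finrank ℚ K) * W) := ⟨_, rfl⟩
  rw [← hb] at hy
  have hb0 : 0 ≤ b := by
    rw [hb]
    positivity
  have h1 : hfin.toFinset.card ≤ ⌊b⌋₊ * (hfin.toFinset.image Prod.fst).card := by
    apply Finset.card_le_mul_card_image
    intro m hm
    obtain ⟨p, hp, hpm⟩ := Finset.mem_image.1 hm
    have hp' : Tgt X τ G T p.1 p.2 := (Set.Finite.mem_toFinset hfin).1 hp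
    rw [hpm] at hp'
    apply Nat.le_floor
    refine le_trans ?_ (hy m hp'.tm).2
    rw [Set.ncard_eq_toFinset_card _ (hy m hp'.tm).1]
    have h2 : (hfin.toFinset.filter (fun x => x.1 = m)).card ≤ (hy m hp'.tm).1.toFinset.card := by
      refine Finset.card_le_card_of_injOn Prod.snd ?_ ?_
      · intro q hq
        rw [Finset.mem_coe, Finset.mem_filter, Set.Finite.mem_toFinset] at hq
        rw [Finset.mem_coe, Set.Finite.mem_toFinset]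
        have h3 : Tgt X τ G T q.1 q.2 := hq.1
        rw [hq.2] at h3
        exact h3
      · intro q hq q' hq' h
        rw [Finset.mem_coe, Finset.mem_filter] at hq hq'
        exact Prod.ext (hq.2.trans hq'.2.symm) h
    exact_mod_cast h2
  have h2 : (hfin.toFinset.image Prod.fst).card ≤ {m : Fin 6 → 𝓞 K | TgM τ G m}.ncard := by
    rw [Set.ncard_eq_toFinset_card _ hS]
    apply Finset.card_le_card
    intro m hm
    obtain ⟨p, hp, hpm⟩ := Finset.mem_image.1 hm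
    have hp' : Tgt X τ G T p.1 p.2 := (Set.Finite.mem_toFinset hfin).1 hp
    rw [hpm] at hp'
    exact (Set.Finite.mem_toFinset hS).2 hp'.tm
  rw [Set.ncard_eq_toFinset_card _ hfin]
  calc ((hfin.toFinset.card : ℕ) : ℝ)
      ≤ ((⌊b⌋₊ * (hfin.toFinset.image Prod.fst).card : ℕ) : ℝ) := by exact_mod_cast h1
    _ = (⌊b⌋₊ : ℝ) * ((hfin.toFinset.image Prod.fst).card : ℝ) := by push_cast; ring
    _ ≤ b * (C * (G ^ (7 * Module.finrank ℚ K) * (1 / τ) ^ (3 * Module.finrank ℚ K))) := by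
        refine mul_le_mul (Nat.floor_le hb0) ?_ (Nat.cast_nonneg _) hb0
        refine le_trans ?_ (hC τ G hτ hτ1 hG)
        exact_mod_cast h2
    _ = _ := by
        rw [hb]
        have h3 : G ^ (13 * Module.finrank ℚ K) =
            G ^ (6 * Module.finrank ℚ K) * G ^ (7 * Module.finrank ℚ K) := by
          rw [← pow_add]
          congr 1
          ring
        rw [h3]
        ring

end H54PP

end S_H54_PP_Bi

section S_H54_PP_Bj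

set_option autoImplicit false
open scoped Classical

open NumberField IsDedekindDomain H76PP
open scoped Matrix

namespace H54PP

variable (K : Type) [Field K] [NumberField K]

theorem Bj_card {α β γ : Type*} {S : Set α} {b1 b2 : Set β} {F : Set γ} (hF : F.Finite)
    (f : α × (β × (β × β)) → γ) (hm : ∀ p ∈ S ×ˢ (b1 ×ˢ (b1 ×ˢ b2)), f p ∈ F)
    (hi : Set.InjOn f (S ×ˢ (b1 ×ˢ (b1 ×ˢ b2)))) :
    S.ncard * (b1.ncard * (b1.ncard * b2.ncard)) ≤ F.ncard := by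
  have h := Set.ncard_le_ncard_of_injOn f hm hi hF
  rwa [Set.ncard_prod, Set.ncard_prod, Set.ncard_prod] at h

theorem Bj_real {s b1 b2 c t C W : ℝ} {n : ℕ} (hc : 0 < c) (ht : 0 < t) (hs : 0 ≤ s)
    (h1 : c * (1 / t) ^ n ≤ b1) (h2 : c * (1 / t ^ 2) ^ n ≤ b2)
    (h : s * (b1 * (b1 * b2)) ≤ C * ((1 / t) ^ (3 * n) * W)) :
    s ≤ C / c ^ 3 * (t ^ n * W) := by
  obtain ⟨u, hu⟩ : ∃ u : ℝ, u = t ^ n := ⟨_, rfl⟩
  have hu0 : 0 < u := by rw [hu]; positivity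
  have e1 : (1 / t) ^ n = 1 / u := by rw [hu, div_pow, one_pow]
  have e2 : (1 / t ^ 2) ^ n = 1 / u ^ 2 := by
    rw [hu, div_pow, one_pow, ← pow_mul, ← pow_mul, Nat.mul_comm]
  have e3 : (1 / t) ^ (3 * n) = 1 / u ^ 3 := by
    rw [hu, div_pow, one_pow, ← pow_mul, Nat.mul_comm]
  rw [e1] at h1
  rw [e2] at h2
  rw [e3] at h
  have p1 : 0 ≤ c * (1 / u) := by positivity
  have p2 : 0 ≤ c * (1 / u ^ 2) := by positivity
  have q1 : 0 ≤ b1 := p1.trans h1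
  have q2 : 0 ≤ b2 := p2.trans h2
  have k1 : c * (1 / u) * (c * (1 / u ^ 2)) ≤ b1 * b2 := mul_le_mul h1 h2 p2 q1
  have k2 : c * (1 / u) * (c * (1 / u) * (c * (1 / u ^ 2))) ≤ b1 * (b1 * b2) :=
    mul_le_mul h1 k1 (mul_nonneg p1 p2) q1
  have k3 : s * (c * (1 / u) * (c * (1 / u) * (c * (1 / u ^ 2)))) ≤ C * (1 / u ^ 3 * W) :=
    (mul_le_mul_of_nonneg_left k2 hs).trans h
  have k4 := mul_le_mul_of_nonneg_right k3 (show 0 ≤ u ^ 4 / c ^ 3 by positivity)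
  have k5 : s * (c * (1 / u) * (c * (1 / u) * (c * (1 / u ^ 2)))) * (u ^ 4 / c ^ 3) = s := by
    field_simp
  have k6 : C * (1 / u ^ 3 * W) * (u ^ 4 / c ^ 3) = C / c ^ 3 * (u * W) := by
    field_simp
  rw [k5, k6] at k4
  rw [← hu]
  exact k4


theorem Bd_finite (X C₂ : ℝ) (T : Finset (HeightOneSpectrum (𝓞 K))) (L : ℝ → Prop) :
    (Bd K X C₂ T L).Finite := by
  have h : (Bx K X).Finite := by
    have h1 : Bx K X = bx K (X ^ 2) ×ˢ bx K (X ^ 3) := by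
      ext p
      exact Iff.rfl
    rw [h1]
    exact (bx_finite K _).prod (bx_finite K _)
  exact h.subset fun p hp => hp.1

theorem cnt_Bd {C₂ : ℝ} (hC : 1 ≤ C₂) : ∃ C : ℝ, 0 < C ∧
    ∀ (X τ : ℝ) (T : Finset (HeightOneSpectrum (𝓞 K))), 0 < τ → τ ≤ c5 C₂ → 1 ≤ 2 * X * τ ^ 2 →
    (∀ v ∈ T, (6 : 𝓞 K) ∉ v.asIdeal ∧
      ((3 * C₂ + 1) ^ 4) ^ (Module.finrank ℚ K) < (Nv v : ℝ)) →
    (∏ v ∈ T, (Nv v : ℝ)) ^ 2 ≤ (2 * X) ^ (Module.finrank ℚ K) →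
    ((Bd K X C₂ T (fun x => x < c5 C₂ ∧ τ / 2 < x ∧ x ≤ τ)).ncard : ℝ) ≤
      C * ((∏ v ∈ T, rho v) * X ^ (5 * Module.finrank ℚ K) *
        (τ ^ (Module.finrank ℚ K) *
        (1 + (∏ v ∈ T, (Nv v : ℝ)) / (2 * X * τ ^ 2) ^ (Module.finrank ℚ K)))) := by
  have hG : 1 ≤ 3 * C₂ + 1 := by linarith
  obtain ⟨C, hC0, hCt⟩ := cnt_Tgt K hG
  obtain ⟨c, hc0, hc⟩ := bx_lower K
  refine ⟨C / c ^ 3, by positivity, ?_⟩
  intro X τ T hτ0 hτ h1 hT hW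
  have hτ1 : τ ≤ 1 := by
    have := c5_le hC
    linarith
  obtain ⟨hF, hcard⟩ := hCt X τ T hτ0 hτ1 h1 hT hW
  have hdat : ∀ p : 𝓞 K × 𝓞 K, ∃ D : (Fin 3 → ℝ) × (Matrix (Fin 3) (Fin 3) (𝓞 K) ×
      Matrix (Fin 3) (Fin 3) (𝓞 K)), p ∈ Bd K X C₂ T (fun x => x < c5 C₂ ∧ τ / 2 < x ∧ x ≤ τ) →
      Dat X C₂ T p.1 p.2 D.1 D.2.1 D.2.2 ∧ (D.1 0 < c5 C₂ ∧ τ / 2 < D.1 0 ∧ D.1 0 ≤ τ) := by
    intro p
    by_cases hp : p ∈ Bd K X C₂ T (fun x => x < c5 C₂ ∧ τ / 2 < x ∧ x ≤ τ)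
    · obtain ⟨-, l, M, N, h, hl⟩ := id hp
      exact ⟨(l, (M, N)), fun _ => ⟨h, hl⟩⟩
    · exact ⟨(0, (0, 0)), fun h => absurd h hp⟩
  choose D hD using hdat
  have key := Bj_card (S := Bd K X C₂ T (fun x => x < c5 C₂ ∧ τ / 2 < x ∧ x ≤ τ))
    (b1 := bx K (1 / τ)) (b2 := bx K (1 / τ ^ 2)) hF
    (fun q => (en ((pm q.2.1 q.2.2.1 q.2.2.2)ᵀ * (D q.1).2.1 * pm q.2.1 q.2.2.1 q.2.2.2),
      en ((pm q.2.1 q.2.2.1 q.2.2.2)ᵀ * (D q.1).2.2 * pm q.2.1 q.2.2.1 q.2.2.2)))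
    (by
      rintro ⟨p, a, b, c⟩ ⟨hp, ha, hb, hc⟩
      obtain ⟨h, hl1, hl2, hl3⟩ := hD p hp
      exact to_tgt hC hτ h hl1 hl2 hl3 ha hb hc)
    (by
      rintro ⟨p, a, b, c⟩ ⟨hp, ha, hb, hc⟩ ⟨p', a', b', c'⟩ ⟨hp', ha', hb', hc'⟩ he
      obtain ⟨h, -⟩ := hD p hp
      obtain ⟨h', -⟩ := hD p' hp'
      obtain ⟨e1, e2⟩ := Prod.mk.inj he
      obtain ⟨i1, i2⟩ := same_pair h h' e1 e2
      have i3 : p = p' := Prod.ext i1 i2
      subst i3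
      obtain ⟨j1, j2, j3⟩ := same_P h e1 e2
      exact Prod.ext rfl (Prod.ext j1 (Prod.ext j2 j3)))
  have key2 : ((Bd K X C₂ T (fun x => x < c5 C₂ ∧ τ / 2 < x ∧ x ≤ τ)).ncard : ℝ) *
      (((bx K (1 / τ)).ncard : ℝ) * (((bx K (1 / τ)).ncard : ℝ) *
      ((bx K (1 / τ ^ 2)).ncard : ℝ))) ≤
      ({p : (Fin 6 → 𝓞 K) × (Fin 6 → 𝓞 K) | Tgt X τ (3 * C₂ + 1) T p.1 p.2}.ncard : ℝ) := by
    exact_mod_cast key
  have key3 := key2.trans hcard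
  have e : C * ((1 / τ) ^ (3 * Module.finrank ℚ K) * (∏ v ∈ T, rho v) *
        X ^ (5 * Module.finrank ℚ K) *
        (1 + (∏ v ∈ T, (Nv v : ℝ)) / (2 * X * τ ^ 2) ^ (Module.finrank ℚ K))) =
      C * ((1 / τ) ^ (3 * Module.finrank ℚ K) * ((∏ v ∈ T, rho v) *
        X ^ (5 * Module.finrank ℚ K) *
        (1 + (∏ v ∈ T, (Nv v : ℝ)) / (2 * X * τ ^ 2) ^ (Module.finrank ℚ K)))) := by ring
  rw [e] at key3
  have fin := Bj_real hc0 hτ0 (Nat.cast_nonneg _) (hc (1 / τ) (by positivity))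
    (hc (1 / τ ^ 2) (by positivity)) key3
  refine fin.trans (le_of_eq ?_)
  ring

end H54PP

end S_H54_PP_Bj

section S_H54_PP_Bl

set_option autoImplicit false
open scoped Classical

open NumberField IsDedekindDomain H76PP

namespace H54PP

variable (K : Type) [Field K] [NumberField K]

theorem Bl_rho {K : Type} [Field K] [NumberField K] (T : Finset (HeightOneSpectrum (𝓞 K))) :
    0 ≤ ∏ v ∈ T, rho v := by
  refine Finset.prod_nonneg fun v _ => ?_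
  unfold rho
  positivity

theorem Bl_mono {c X : ℝ} (hc : 0 < c) (hX : 0 ≤ X) {j J : ℕ} (h : j ≤ J)
    (hJ : 1 ≤ 2 * X * (c / 2 ^ J) ^ 2) : 1 ≤ 2 * X * (c / 2 ^ j) ^ 2 := by
  refine hJ.trans (mul_le_mul_of_nonneg_left ?_ (by linarith))
  refine pow_le_pow_left₀ (by positivity) ?_ 2
  exact div_le_div_of_nonneg_left hc.le (by positivity) (pow_le_pow_right₀ (by norm_num) h)

theorem case_two {C₂ : ℝ} (hC : 1 ≤ C₂) : ∃ (C : ℝ) (N₀ : ℕ), 0 < C ∧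
    ∀ T : Finset (HeightOneSpectrum (𝓞 K)),
      (∀ v ∈ T, N₀ ≤ Nv v ∧ (6 : 𝓞 K) ∉ v.asIdeal) → ∃ X₀ : ℝ, ∀ X : ℝ, X₀ ≤ X →
        ((Bd K X C₂ T (fun x => x < c5 C₂)).ncard : ℝ) ≤
          C * (∏ v ∈ T, rho v) * X ^ (5 * Module.finrank ℚ K) := by
  obtain ⟨C, hC0, hcnt⟩ := cnt_Bd K hC
  obtain ⟨n, hn⟩ : ∃ n : ℕ, n = Module.finrank ℚ K := ⟨_, rfl⟩
  rw [← hn] at hcnt ⊢
  have hn1 : 1 ≤ n := by
    rw [hn]
    exact Module.finrank_pos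
  refine ⟨3 * C, ⌈((3 * C₂ + 1) ^ 4) ^ n⌉₊ + 1, by positivity, ?_⟩
  intro T hT
  obtain ⟨Q, hQd⟩ : ∃ Q : ℝ, Q = ∏ v ∈ T, (Nv v : ℝ) := ⟨_, rfl⟩
  have hQ0 : 0 ≤ Q := by
    rw [hQd]
    exact Finset.prod_nonneg fun v _ => Nat.cast_nonneg _
  have hT' : ∀ v ∈ T, (6 : 𝓞 K) ∉ v.asIdeal ∧ ((3 * C₂ + 1) ^ 4) ^ n < (Nv v : ℝ) := by
    intro v hv
    obtain ⟨h1, h2⟩ := hT v hv
    refine ⟨h2, ?_⟩
    have h3 : ((⌈((3 * C₂ + 1) ^ 4) ^ n⌉₊ + 1 : ℕ) : ℝ) ≤ (Nv v : ℝ) := by exact_mod_cast h1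
    have h4 := Nat.le_ceil (((3 * C₂ + 1) ^ 4) ^ n)
    push_cast at h3
    linarith
  refine ⟨Q ^ 2 + 1, fun X hX => ?_⟩
  have hX1 : 1 ≤ X := by
    have : 0 ≤ Q ^ 2 := by positivity
    linarith
  have hQX : Q ^ 2 ≤ (2 * X) ^ n := by
    calc Q ^ 2 ≤ 2 * X := by linarith
      _ ≤ (2 * X) ^ n := le_self_pow₀ (by linarith) (by omega)
  have hc0 := c5_pos hC
  have hc1 := c5_le hC
  have hcnt' := fun τ => hcnt X τ T
  obtain ⟨c, hcd⟩ : ∃ c : ℝ, c = c5 C₂ := ⟨_, rfl⟩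
  rw [← hcd] at hc0 hc1 hcnt' ⊢
  have hW : 0 ≤ (∏ v ∈ T, rho v) * X ^ (5 * n) := mul_nonneg (Bl_rho T) (by positivity)
  by_cases h0 : 1 ≤ 2 * X * c ^ 2
  · obtain ⟨J, hJ, hJ'⟩ := exists_last hc0 h0
    have hsub : Bd K X C₂ T (fun x => x < c) ⊆ ⋃ j ∈ Finset.range (J + 1),
        Bd K X C₂ T (fun x => x < c ∧ c / 2 ^ j / 2 < x ∧ x ≤ c / 2 ^ j) := by
      rintro p ⟨hp, l, M, N, hD, hl⟩
      obtain ⟨j, hj1, hj2⟩ := exists_dyadic hc0 hD.pos hl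
      have hbig := (shape hC hD (by rw [← hcd]; exact hl)).big
      have hj : j ≤ J := by
        refine hJ' j (hbig.trans (mul_le_mul_of_nonneg_left ?_ (by linarith)))
        rw [pow_two]
        exact mul_le_mul hj2 hj2 hD.pos.le (by positivity)
      simp only [Set.mem_iUnion]
      exact ⟨j, Finset.mem_range.2 (Nat.lt_succ_of_le hj), hp, l, M, N, hD, hl, hj1, hj2⟩
    have hfin : (⋃ j ∈ Finset.range (J + 1),
        Bd K X C₂ T (fun x => x < c ∧ c / 2 ^ j / 2 < x ∧ x ≤ c / 2 ^ j)).Finite :=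
      Set.Finite.biUnion (Finset.finite_toSet _) fun j _ => Bd_finite K X C₂ T _
    have h1 := (Set.ncard_le_ncard hsub hfin).trans (Finset.set_ncard_biUnion_le _ _)
    have h2 : ((Bd K X C₂ T (fun x => x < c)).ncard : ℝ) ≤ ∑ j ∈ Finset.range (J + 1),
        ((Bd K X C₂ T (fun x => x < c ∧ c / 2 ^ j / 2 < x ∧ x ≤ c / 2 ^ j)).ncard : ℝ) := by
      exact_mod_cast h1
    refine h2.trans ?_
    have h3 : ∀ j ∈ Finset.range (J + 1),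
        ((Bd K X C₂ T (fun x => x < c ∧ c / 2 ^ j / 2 < x ∧ x ≤ c / 2 ^ j)).ncard : ℝ) ≤
        C * ((∏ v ∈ T, rho v) * X ^ (5 * n)) * ((c / 2 ^ j) ^ n *
          (1 + Q / (2 * X * (c / 2 ^ j) ^ 2) ^ n)) := by
      intro j hj
      have hj' : j ≤ J := Nat.lt_succ_iff.1 (Finset.mem_range.1 hj)
      have h4 := hcnt' (c / 2 ^ j) (by positivity)
        (div_le_self hc0.le (one_le_pow₀ (by norm_num)))
        (Bl_mono hc0 (by linarith) hj' hJ) hT' (by rw [← hQd]; exact hQX)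
      rw [← hQd] at h4
      refine h4.trans (le_of_eq ?_)
      ring
    refine (Finset.sum_le_sum h3).trans ?_
    rw [← Finset.mul_sum]
    have h5 := dyadic hn1 hc0 hc1 hQ0 hQX hJ
    calc C * ((∏ v ∈ T, rho v) * X ^ (5 * n)) * ∑ j ∈ Finset.range (J + 1),
          (c / 2 ^ j) ^ n * (1 + Q / (2 * X * (c / 2 ^ j) ^ 2) ^ n)
        ≤ C * ((∏ v ∈ T, rho v) * X ^ (5 * n)) * 3 :=
          mul_le_mul_of_nonneg_left h5 (mul_nonneg hC0.le hW)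
      _ = 3 * C * (∏ v ∈ T, rho v) * X ^ (5 * n) := by ring
  · have hempty : Bd K X C₂ T (fun x => x < c) = ∅ := by
      ext p
      refine ⟨?_, fun h => absurd h (Set.notMem_empty p)⟩
      rintro ⟨hp, l, M, N, hD, hl⟩
      exfalso
      apply h0
      have hbig := (shape hC hD (by rw [← hcd]; exact hl)).big
      refine hbig.trans (mul_le_mul_of_nonneg_left ?_ (by linarith))
      rw [pow_two]
      exact mul_le_mul hl.le hl.le hD.pos.le hc0.le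
    rw [hempty, Set.ncard_empty, Nat.cast_zero, mul_assoc]
    exact mul_nonneg (by positivity) hW

end H54PP

end S_H54_PP_Bl

section S_H54_PP_Ia

set_option autoImplicit false
open scoped Classical

open NumberField IsDedekindDomain H76PP
open scoped Matrix

namespace H54PP

variable (K : Type) [Field K] [NumberField K]

variable {K}

private theorem Ia_l {X C₂ c : ℝ} (hc : 0 < c) {T : Finset (HeightOneSpectrum (𝓞 K))}
    {A B : 𝓞 K} {l : Fin 3 → ℝ} {M N : Matrix (Fin 3) (Fin 3) (𝓞 K)}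
    (h : Dat X C₂ T A B l M N) (hl : c ≤ l 0) (i j : Fin 3) :
    l i * l j ≤ (C₂ / c ^ 2) ^ 2 + 1 := by
  have h0 := h.pos
  have h01 := h.le01
  have h12 := h.le12
  have hp := h.prod
  have h2 : l 2 ≤ C₂ / c ^ 2 := by
    rw [le_div_iff₀ (by positivity)]
    have h3 : c * c ≤ l 0 * l 1 := mul_le_mul hl (hl.trans h01) hc.le h0.le
    have hl2 : 0 < l 2 := by linarith
    nlinarith
  have hpos : ∀ i, 0 < l i := by
    intro i
    fin_cases i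
    · exact h0
    · show 0 < l 1
      linarith
    · show 0 < l 2
      linarith
  have hle : ∀ i, l i ≤ C₂ / c ^ 2 := by
    intro i
    fin_cases i
    · show l 0 ≤ _
      linarith
    · show l 1 ≤ _
      linarith
    · exact h2
  have h5 := mul_le_mul (hle i) (hle j) (hpos j).le ((hpos i).le.trans (hle i))
  nlinarith

private theorem Ia_det {E : ℝ} {M : Matrix (Fin 3) (Fin 3) (𝓞 K)} (h : ∀ i j, M i j ∈ bx K E) :
    M.det ∈ bx K (6 * E ^ 3) := by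
  rw [Matrix.det_fin_three]
  have e : 6 * E ^ 3 = E * E * E + E * E * E + E * E * E + E * E * E + E * E * E + E * E * E := by
    ring
  rw [e]
  exact bx_sub (bx_add (bx_add (bx_sub (bx_sub (bx_mul (bx_mul (h 0 0) (h 1 1)) (h 2 2))
    (bx_mul (bx_mul (h 0 0) (h 1 2)) (h 2 1))) (bx_mul (bx_mul (h 0 1) (h 1 0)) (h 2 2)))
    (bx_mul (bx_mul (h 0 1) (h 1 2)) (h 2 0))) (bx_mul (bx_mul (h 0 2) (h 1 0)) (h 2 1)))
    (bx_mul (bx_mul (h 0 2) (h 1 1)) (h 2 0))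

omit [NumberField K] in
private theorem Ia_en {S : Set (𝓞 K)} {M : Matrix (Fin 3) (Fin 3) (𝓞 K)} (h : ∀ i j, M i j ∈ S)
    (i : Fin 6) : en M i ∈ S := by
  unfold en
  fin_cases i <;> exact h _ _

variable (K)

private theorem Ia_fib {C t Q R : ℝ} (hC1 : 1 ≤ C) {n : ℕ} (hQ : 0 < Q) (hR : 0 ≤ R)
    (ht : Q ≤ t ^ n) {z : ℝ}
    (h : z ≤ Q ^ 5 * R * ∏ _j : Fin 5, (C * (t ^ n / Q + 1))) :
    z ≤ R * (2 * C) ^ 5 * (t ^ n) ^ 5 := by
  rw [Finset.prod_const, Finset.card_univ, Fintype.card_fin] at h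
  have h1 : 1 ≤ t ^ n / Q := by
    rw [le_div_iff₀ hQ, one_mul]
    exact ht
  have h2 : C * (t ^ n / Q + 1) ≤ 2 * C * (t ^ n / Q) := by nlinarith
  have h3 : 0 ≤ C * (t ^ n / Q + 1) := by positivity
  have h4 := pow_le_pow_left₀ h3 h2 5
  have h5 : Q ^ 5 * R * (C * (t ^ n / Q + 1)) ^ 5 ≤ Q ^ 5 * R * (2 * C * (t ^ n / Q)) ^ 5 :=
    mul_le_mul_of_nonneg_left h4 (by positivity)
  refine (h.trans h5).trans (le_of_eq ?_)
  rw [mul_pow, div_pow]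
  field_simp

theorem case_one {C₂ c : ℝ} (hC : 1 ≤ C₂) (hc : 0 < c) : ∃ (C : ℝ) (N₀ : ℕ), 0 < C ∧
    ∀ T : Finset (HeightOneSpectrum (𝓞 K)),
      (∀ v ∈ T, N₀ ≤ Nv v ∧ (6 : 𝓞 K) ∉ v.asIdeal) → ∃ X₀ : ℝ, ∀ X : ℝ, X₀ ≤ X →
        ((Bd K X C₂ T (fun x => c ≤ x)).ncard : ℝ) ≤
          C * (∏ v ∈ T, rho v) * X ^ (5 * Module.finrank ℚ K) := by
  obtain ⟨n, hn⟩ : ∃ n, n = Module.finrank ℚ K := ⟨_, rfl⟩
  have hn0 : n ≠ 0 := by
    rw [hn]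
    exact Module.finrank_pos.ne'
  obtain ⟨E, hE⟩ : ∃ E : ℝ, E = (C₂ / c ^ 2) ^ 2 + 1 := ⟨_, rfl⟩
  have hE1 : 1 ≤ E := by
    rw [hE]
    nlinarith [sq_nonneg (C₂ / c ^ 2)]
  obtain ⟨C, hC1, hcnt⟩ := cnt_N K
  obtain ⟨C', hC'1, hup⟩ := bx_upper K
  rw [← hn] at hup
  have hC0 : 0 < C := by linarith
  have hC'0 : 0 < C' := by linarith
  have hE0 : 0 < E := by linarith
  refine ⟨(C' * E ^ n) ^ 6 * (2 * C) ^ 5 * (2 * E) ^ (5 * n), Nat.ceil ((6 * E ^ 3) ^ n) + 1,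
    by positivity, ?_⟩
  intro T hT
  obtain ⟨Q, hQ⟩ : ∃ Q : ℝ, Q = ∏ v ∈ T, (Nv v : ℝ) := ⟨_, rfl⟩
  have hQ1 : 1 ≤ Q := by
    rw [hQ]
    refine Finset.prod_induction _ (fun x : ℝ => 1 ≤ x)
      (fun a b ha hb => one_le_mul_of_one_le_of_one_le ha hb) le_rfl ?_
    intro v _
    have := two_le_Nv v
    exact_mod_cast (by omega : 1 ≤ Nv v)
  obtain ⟨R, hR⟩ : ∃ R : ℝ, R = ∏ v ∈ T, rho v := ⟨_, rfl⟩
  have hR0 : 0 ≤ R := by
    rw [hR]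
    refine Finset.prod_nonneg fun v _ => ?_
    unfold rho
    positivity
  refine ⟨Q + 1, fun X hX => ?_⟩
  rw [← hR, ← hn]
  have hX0 : 0 < X := by linarith
  obtain ⟨t, ht⟩ : ∃ t : ℝ, t = 2 * X * E := ⟨_, rfl⟩
  have htX : X ≤ t := by
    rw [ht]
    nlinarith
  have ht1 : 1 ≤ t := by linarith
  have htn : Q ≤ t ^ n := by
    have := le_self_pow₀ ht1 hn0
    linarith
  -- the data
  have hdat : ∀ p : 𝓞 K × 𝓞 K, ∃ (M N : Matrix (Fin 3) (Fin 3) (𝓞 K)),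
      p ∈ Bd K X C₂ T (fun x => c ≤ x) → M.IsSymm ∧ N.IsSymm ∧ M.det ≠ 0 ∧
      (∀ i j, M i j ∈ bx K E) ∧ (∀ i j, N i j ∈ bx K t) ∧
      (∀ x : 𝓞 K, (x • M - N).det = M.det * (x ^ 3 + p.1 * x + p.2)) ∧
      (∀ v ∈ T, M.det ∉ v.asIdeal) ∧ ∀ v ∈ T, Rs (rd v M) (rd v N) := by
    intro p
    by_cases hp : p ∈ Bd K X C₂ T (fun x => c ≤ x)
    · obtain ⟨-, l, M, N, hD, hl⟩ := hp
      have hM : ∀ i j, M i j ∈ bx K E := by
        intro i j s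
        rw [hE]
        exact (hD.bdM s i j).trans (Ia_l hc hD hl i j)
      have hN : ∀ i j, N i j ∈ bx K t := by
        intro i j s
        refine (hD.bdN s i j).trans ?_
        rw [ht, hE]
        exact mul_le_mul_of_nonneg_left (Ia_l hc hD hl i j) (by positivity)
      have hdet : ∀ v ∈ T, M.det ∉ v.asIdeal := by
        intro v hv
        refine not_mem_of_lt (Ia_det hM) hD.detM ?_
        rw [← hn]
        have h1 := (hT v hv).1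
        have h2 : ((Nat.ceil ((6 * E ^ 3) ^ n) + 1 : ℕ) : ℝ) ≤ (Nv v : ℝ) := by exact_mod_cast h1
        have h3 := Nat.le_ceil ((6 * E ^ 3) ^ n)
        push_cast at h2
        linarith
      exact ⟨M, N, fun _ => ⟨hD.symM, hD.symN, hD.detM, hM, hN, hD.char, hdet,
        fun v hv => hD.res v hv (hdet v hv)⟩⟩
    · exact ⟨0, 0, fun h => absurd h hp⟩
  choose M N hMN using hdat
  -- the fibres
  obtain ⟨F, hF⟩ : ∃ F : (Fin 6 → 𝓞 K) → Set (Fin 6 → 𝓞 K), ∀ m, F m =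
      {y : Fin 6 → 𝓞 K | (∀ i, y i ∈ bx K t) ∧ ∑ i, cf m i * y i = 0 ∧
        ∀ v ∈ T, Rs (rd v (sy m)) (rd v (sy y))} := ⟨_, fun _ => rfl⟩
  have hFf : ∀ m, (F m).Finite := by
    intro m
    rw [hF]
    refine Set.Finite.subset (Set.Finite.pi' (fun _ : Fin 6 => bx_finite K t)) ?_
    intro y hy
    exact hy.1
  obtain ⟨Sf, hSf⟩ : ∃ Sf : Finset (Fin 6 → 𝓞 K),
      Sf = Fintype.piFinset (fun _ : Fin 6 => (bx_finite K E).toFinset) := ⟨_, rfl⟩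
  have hSfm : ∀ m, m ∈ Sf ↔ ∀ i, m i ∈ bx K E := by
    intro m
    rw [hSf, Fintype.mem_piFinset]
    simp only [Set.Finite.mem_toFinset]
  have hSfc : (Sf.card : ℝ) ≤ (C' * E ^ n) ^ 6 := by
    rw [hSf, Fintype.card_piFinset, Finset.prod_const, Finset.card_univ, Fintype.card_fin,
      Nat.cast_pow]
    refine pow_le_pow_left₀ (Nat.cast_nonneg _) ?_ 6
    have h1 := hup E hE1
    rwa [Set.ncard_eq_toFinset_card _ (bx_finite K E)] at h1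
  obtain ⟨S', hS'⟩ : ∃ S' : Finset (Fin 6 → 𝓞 K),
      S' = Sf.filter (fun m => (sy m).det ≠ 0 ∧ ∀ v ∈ T, (sy m).det ∉ v.asIdeal) := ⟨_, rfl⟩
  have hfib : ∀ m ∈ S', ((F m).ncard : ℝ) ≤ R * (2 * C) ^ 5 * (t ^ n) ^ 5 := by
    intro m hm
    rw [hS', Finset.mem_filter] at hm
    obtain ⟨i₀, hi₀⟩ := exists_cf hm.2.1
    have h1 := hcnt T m i₀ (fun _ => t) (fun _ => by linarith) hi₀
      (fun v hv => ⟨(hT v hv).2, hm.2.2 v hv⟩)
    rw [← hF, ← hQ, ← hR, ← hn] at h1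
    exact Ia_fib hC1 (by linarith) hR0 htn h1
  -- the map
  obtain ⟨Z, hZ⟩ : ∃ Z : Finset (Σ _ : (Fin 6 → 𝓞 K), Fin 6 → 𝓞 K),
      Z = S'.sigma (fun m => (hFf m).toFinset) := ⟨_, rfl⟩
  have hcard : (Bd K X C₂ T (fun x => c ≤ x)).ncard ≤ Z.card := by
    rw [← Set.ncard_coe_finset]
    refine Set.ncard_le_ncard_of_injOn (fun p => ⟨en (M p), en (N p)⟩) ?_ ?_
      (Finset.finite_toSet _)
    · intro p hp
      obtain ⟨h1, h2, h3, h4, h5, h6, h7, h8⟩ := hMN p hp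
      rw [Finset.mem_coe, hZ, Finset.mem_sigma]
      constructor
      · rw [hS', Finset.mem_filter, hSfm]
        refine ⟨fun i => Ia_en h4 i, ?_⟩
        show (sy (en (M p))).det ≠ 0 ∧ ∀ v ∈ T, (sy (en (M p))).det ∉ v.asIdeal
        rw [sy_en h1]
        exact ⟨h3, h7⟩
      · rw [Set.Finite.mem_toFinset, hF]
        refine ⟨fun i => Ia_en h5 i, (char_cf h1 h2 h6).1, fun v hv => ?_⟩
        show Rs (rd v (sy (en (M p)))) (rd v (sy (en (N p))))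
        rw [sy_en h1, sy_en h2]
        exact h8 v hv
    · intro p hp p' hp' heq
      obtain ⟨h1, h2, h3, h4, h5, h6, h7, h8⟩ := hMN p hp
      obtain ⟨k1, k2, k3, k4, k5, k6, k7, k8⟩ := hMN p' hp'
      simp only [Sigma.mk.injEq, heq_eq_eq] at heq
      have e1 : M p = M p' := by rw [← sy_en h1, ← sy_en k1, heq.1]
      have e2 : N p = N p' := by rw [← sy_en h2, ← sy_en k2, heq.2]
      rw [← e1, ← e2] at k6
      have h9 := char_unique h1 h2 h3 h6 k6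
      exact Prod.ext h9.1 h9.2
  have hZc : (Z.card : ℝ) ≤ (Sf.card : ℝ) * (R * (2 * C) ^ 5 * (t ^ n) ^ 5) := by
    rw [hZ, Finset.card_sigma, Nat.cast_sum]
    have h1 : ∀ m ∈ S', (((hFf m).toFinset.card : ℕ) : ℝ) ≤ R * (2 * C) ^ 5 * (t ^ n) ^ 5 := by
      intro m hm
      rw [← Set.ncard_eq_toFinset_card _ (hFf m)]
      exact hfib m hm
    refine (Finset.sum_le_sum h1).trans ?_
    rw [Finset.sum_const, nsmul_eq_mul]
    refine mul_le_mul_of_nonneg_right ?_ (by positivity)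
    have h2 : S'.card ≤ Sf.card := by
      rw [hS']
      exact Finset.card_filter_le _ _
    exact_mod_cast h2
  have h1 : ((Bd K X C₂ T (fun x => c ≤ x)).ncard : ℝ) ≤ (Z.card : ℝ) := by exact_mod_cast hcard
  refine (h1.trans hZc).trans ?_
  refine (mul_le_mul_of_nonneg_right hSfc (by positivity)).trans (le_of_eq ?_)
  rw [ht]
  have e1 : (((2 * X * E) ^ n) ^ 5 : ℝ) = (2 * E) ^ (5 * n) * X ^ (5 * n) := by
    rw [← pow_mul, mul_comm n 5, ← mul_pow]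
    congr 1
    ring
  rw [e1]
  ring

end H54PP

end S_H54_PP_Ia

section S_H54_PP_Fin

set_option autoImplicit false
open scoped Classical

open NumberField IsDedekindDomain H76PP
open scoped Matrix

namespace H54PP

variable {K : Type} [Field K] [NumberField K]

theorem dat_mono {X C₂ C₂' : ℝ} (h : C₂ ≤ C₂') {T : Finset (HeightOneSpectrum (𝓞 K))}
    {A B : 𝓞 K} {l : Fin 3 → ℝ} {M N : Matrix (Fin 3) (Fin 3) (𝓞 K)}
    (hD : Dat X C₂ T A B l M N) : Dat X C₂' T A B l M N :=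
  { hD with prod := hD.prod.trans h }

variable (K)

theorem dat_count_rho {C₂ : ℝ} (hC : 1 ≤ C₂) : ∃ (C : ℝ) (N₀ : ℕ), 0 < C ∧
    ∀ T : Finset (HeightOneSpectrum (𝓞 K)),
      (∀ v ∈ T, N₀ ≤ Nv v ∧ (6 : 𝓞 K) ∉ v.asIdeal) → ∃ X₀ : ℝ, ∀ X : ℝ, X₀ ≤ X →
        ({p : 𝓞 K × 𝓞 K | p ∈ Bx K X ∧ ∃ (l : Fin 3 → ℝ) (M N : Matrix (Fin 3) (Fin 3) (𝓞 K)),
          Dat X C₂ T p.1 p.2 l M N}.ncard : ℝ) ≤
          C * (∏ v ∈ T, rho v) * X ^ (5 * Module.finrank ℚ K) := by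
  obtain ⟨Ca, Na, hCa, ha⟩ := case_two K hC
  obtain ⟨Cb, Nb, hCb, hb⟩ := case_one K hC (c5_pos hC)
  refine ⟨Ca + Cb, max Na Nb, by linarith, fun T hT => ?_⟩
  obtain ⟨Xa, hXa⟩ := ha T (fun v hv => ⟨(le_max_left _ _).trans (hT v hv).1, (hT v hv).2⟩)
  obtain ⟨Xb, hXb⟩ := hb T (fun v hv => ⟨(le_max_right _ _).trans (hT v hv).1, (hT v hv).2⟩)
  refine ⟨max Xa Xb, fun X hX => ?_⟩
  have h1 := hXa X ((le_max_left _ _).trans hX)
  have h2 := hXb X ((le_max_right _ _).trans hX)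
  have hsub : {p : 𝓞 K × 𝓞 K | p ∈ Bx K X ∧ ∃ (l : Fin 3 → ℝ)
      (M N : Matrix (Fin 3) (Fin 3) (𝓞 K)), Dat X C₂ T p.1 p.2 l M N} ⊆
      Bd K X C₂ T (fun x => x < c5 C₂) ∪ Bd K X C₂ T (fun x => c5 C₂ ≤ x) := by
    rintro p ⟨hp, l, M, N, hD⟩
    rcases lt_or_ge (l 0) (c5 C₂) with h | h
    · exact Or.inl ⟨hp, l, M, N, hD, h⟩
    · exact Or.inr ⟨hp, l, M, N, hD, h⟩
  have h3 := Set.ncard_le_ncard hsub ((Bd_finite K X C₂ T _).union (Bd_finite K X C₂ T _))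
  have h4 := h3.trans (Set.ncard_union_le _ _)
  have h5 : ({p : 𝓞 K × 𝓞 K | p ∈ Bx K X ∧ ∃ (l : Fin 3 → ℝ)
      (M N : Matrix (Fin 3) (Fin 3) (𝓞 K)), Dat X C₂ T p.1 p.2 l M N}.ncard : ℝ) ≤
      ((Bd K X C₂ T (fun x => x < c5 C₂)).ncard : ℝ) +
        ((Bd K X C₂ T (fun x => c5 C₂ ≤ x)).ncard : ℝ) := by
    exact_mod_cast h4
  calc _ ≤ _ := h5
    _ ≤ _ := add_le_add h1 h2
    _ = _ := by ring

theorem dat_count (C₂ : ℝ) : ∃ (C : ℝ) (N₀ : ℕ), 0 < C ∧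
    ∀ T : Finset (HeightOneSpectrum (𝓞 K)),
      (∀ v ∈ T, N₀ ≤ Nv v ∧ (6 : 𝓞 K) ∉ v.asIdeal) → ∃ X₀ : ℝ, ∀ X : ℝ, X₀ ≤ X →
        ({p : 𝓞 K × 𝓞 K | p ∈ Bx K X ∧ ∃ (l : Fin 3 → ℝ) (M N : Matrix (Fin 3) (Fin 3) (𝓞 K)),
          Dat X C₂ T p.1 p.2 l M N}.ncard : ℝ) ≤
          C * (∏ v ∈ T, ((1 + 1 / (Nv v : ℝ)) ^ 2 / 4)) * X ^ (5 * Module.finrank ℚ K) := by
  obtain ⟨C, N₀, hC, h⟩ := dat_count_rho K (C₂ := max C₂ 1) (le_max_right _ _)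
  refine ⟨C, N₀, hC, fun T hT => ?_⟩
  obtain ⟨X₀, hX₀⟩ := h T hT
  refine ⟨X₀, fun X hX => ?_⟩
  have h1 := hX₀ X hX
  refine le_trans ?_ h1
  have hfin : {p : 𝓞 K × 𝓞 K | p ∈ Bx K X ∧ ∃ (l : Fin 3 → ℝ)
      (M N : Matrix (Fin 3) (Fin 3) (𝓞 K)), Dat X (max C₂ 1) T p.1 p.2 l M N}.Finite := by
    refine (Bd_finite K X (max C₂ 1) T (fun _ => True)).subset ?_
    rintro p ⟨hp, l, M, N, hD⟩
    exact ⟨hp, l, M, N, hD, trivial⟩
  have h2 := Set.ncard_le_ncard (s := {p : 𝓞 K × 𝓞 K | p ∈ Bx K X ∧ ∃ (l : Fin 3 → ℝ)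
      (M N : Matrix (Fin 3) (Fin 3) (𝓞 K)), Dat X C₂ T p.1 p.2 l M N}) (by
    rintro p ⟨hp, l, M, N, hD⟩
    exact ⟨hp, l, M, N, dat_mono (le_max_left _ _) hD⟩) hfin
  exact_mod_cast h2

end H54PP

end S_H54_PP_Fin
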