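import Mathlib
import Pool.Agent.H42.PC.BCnt
import Pool.Agent.H76.PM.A1

/-! A positive proportion of elliptic curves, part C1: this file joins several modules to save build time. -/

set_option autoImplicit false

section S_H36_PP_Df

set_option autoImplicit false
set_option linter.unusedSectionVars false

open NumberField IsDedekindDomain H76PP

namespace H36PP

variable (K : Type) [Field K] [NumberField K]

/-- The pairs of height at most `X` for which the discriminant is divisible by the square of a large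
prime. -/
def Tail (M : ℕ) (X : ℝ) : Set (𝓞 K × 𝓞 K) :=
  {p | p ∈ Bx K X ∧ p.1 ≠ 0 ∧ dsc p.1 p.2 ≠ 0 ∧ ∃ v : HeightOneSpectrum (𝓞 K),
    (6 : 𝓞 K) ∉ v.asIdeal ∧ M < Nv v ∧ dsc p.1 p.2 ∈ v.asIdeal ^ 2}

/-- Upper bound for the number of lattice points in residue classes (rows of block L). -/
def LatU (C : ℝ) : Prop :=
  ∀ (b : Ideal (𝓞 K)), b ≠ ⊥ → ∀ (a₀ : 𝓞 K) (T : ℝ), 0 ≤ T →
    ({a : 𝓞 K | a ∈ bx K T ∧ a - a₀ ∈ b}.ncard : ℝ) ≤
      C * (T ^ Module.finrank ℚ K / (Ideal.absNorm b : ℝ) + 1)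

/-- Lower bound for the number of lattice points in residue classes (rows of block L). -/
def LatL (c : ℝ) : Prop :=
  ∀ (b : Ideal (𝓞 K)), b ≠ ⊥ → ∃ T₀ : ℝ, ∀ T : ℝ, T₀ ≤ T → ∀ a₀ : 𝓞 K,
    c * (T ^ Module.finrank ℚ K / (Ideal.absNorm b : ℝ)) ≤
      ({a : 𝓞 K | a ∈ bx K T ∧ a - a₀ ∈ b}.ncard : ℝ)

variable {K}

/-- The pair of residues of a pair. -/
def rs (I : Ideal (𝓞 K)) (p : 𝓞 K × 𝓞 K) : (𝓞 K ⧸ I) × (𝓞 K ⧸ I) :=
  (Ideal.Quotient.mk I p.1, Ideal.Quotient.mk I p.2)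

/-- The set `P` of pairs is a union of residue classes modulo `I`, at least `d (N I)^2` of them. -/
def Dens (I : Ideal (𝓞 K)) (P : Set (𝓞 K × 𝓞 K)) (d : ℝ) : Prop :=
  (∀ p p' : 𝓞 K × 𝓞 K, rs I p = rs I p' → p ∈ P → p' ∈ P) ∧
    d * (Ideal.absNorm I : ℝ) ^ 2 ≤ ((rs I '' P).ncard : ℝ)

/-- The cubic polynomials of the type of the auxiliary primes: a linear factor times an irreducible
one. -/
def SqT (k : Type*) [Field k] : Set (k × k) :=
  {p | ∃ t : k, t ^ 3 + p.1 * t + p.2 = 0 ∧ ¬ IsSquare (-3 * t ^ 2 - 4 * p.1)}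

/-- The pairs with nonzero discriminant. -/
def SqO (R : Type*) [CommRing R] : Set (R × R) := {p | dsc p.1 p.2 ≠ 0}

/-- The condition at `q₀`. -/
def Pq (v : HeightOneSpectrum (𝓞 K)) : Set (𝓞 K × 𝓞 K) :=
  {p | ∀ t : 𝓞 K, t ^ 3 + p.1 * t + p.2 ∉ v.asIdeal}

/-- The condition at the auxiliary primes. -/
def Pt (v : HeightOneSpectrum (𝓞 K)) : Set (𝓞 K × 𝓞 K) :=
  {p | ∃ t : 𝓞 K, t ^ 3 + p.1 * t + p.2 ∈ v.asIdeal ∧
    ∀ s : 𝓞 K, -3 * t ^ 2 - 4 * p.1 - s ^ 2 ∉ v.asIdeal}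

/-- The condition at the primes above `6`. -/
def P6 (v : HeightOneSpectrum (𝓞 K)) : Set (𝓞 K × 𝓞 K) :=
  {p | p.1 - 1 ∈ v.asIdeal ∧ p.2 - 1 ∈ v.asIdeal}

/-- The condition at the other small primes. -/
def Po (v : HeightOneSpectrum (𝓞 K)) : Set (𝓞 K × 𝓞 K) :=
  {p | dsc p.1 p.2 ∉ v.asIdeal ^ 2}

end H36PP

end S_H36_PP_Df

section S_H36_PP_Nb

set_option autoImplicit false
set_option linter.unusedSectionVars false

open NumberField IsDedekindDomain H76PP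

namespace H36PP

variable (K : Type) [Field K] [NumberField K]

theorem bx_finite (T : ℝ) : (bx K T).Finite := by
  have h := NumberField.Embeddings.finite_of_norm_le K ℂ T
  refine (h.preimage (f := fun a : 𝓞 K => (a : K)) ?_).subset ?_
  · intro a _ b _ hab
    exact RingOfIntegers.coe_injective hab
  · intro a ha
    exact ⟨RingOfIntegers.isIntegral_coe a, ha⟩

theorem Bx_finite (X : ℝ) : (Bx K X).Finite := by
  refine ((bx_finite K (X ^ 2)).prod (bx_finite K (X ^ 3))).subset ?_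
  intro p hp
  exact ⟨hp.1, hp.2⟩

variable {K}

theorem norm_bx {T : ℝ} (hT : 0 ≤ T) {a : 𝓞 K} (ha : a ∈ bx K T) :
    |((Algebra.norm ℤ a : ℤ) : ℝ)| ≤ T ^ Module.finrank ℚ K := by
  have h1 : (((Algebra.norm ℤ a : ℤ) : ℚ) : ℂ) = ∏ s : K →ₐ[ℚ] ℂ, s (a : K) := by
    rw [Algebra.coe_norm_int]
    exact Algebra.norm_eq_prod_embeddings ℚ ℂ (a : K)
  have h2 : |((Algebra.norm ℤ a : ℤ) : ℝ)| = ∏ s : K →ₐ[ℚ] ℂ, ‖s (a : K)‖ := by
    rw [← norm_prod, ← h1]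
    push_cast
    rw [Complex.norm_intCast]
  rw [h2]
  have h3 : ∏ s : K →ₐ[ℚ] ℂ, ‖s (a : K)‖ ≤ T ^ (Finset.univ : Finset (K →ₐ[ℚ] ℂ)).card := by
    rw [← Finset.prod_const]
    apply Finset.prod_le_prod
    · intro s _
      exact norm_nonneg _
    · intro s _
      exact ha (s : K →+* ℂ)
  rw [Finset.card_univ, AlgHom.card] at h3
  exact h3

theorem pow_le_of_mem {T : ℝ} (hT : 0 ≤ T) {a : 𝓞 K} (ha : a ∈ bx K T) (h0 : a ≠ 0)
    {v : HeightOneSpectrum (𝓞 K)} {e : ℕ} (hv : a ∈ v.asIdeal ^ e) :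
    (Nv v : ℝ) ^ e ≤ T ^ Module.finrank ℚ K := by
  refine le_trans ?_ (norm_bx hT ha)
  have h1 : Ideal.span {a} ≤ v.asIdeal ^ e := by
    rw [Ideal.span_singleton_le_iff_mem]
    exact hv
  have h2 := Ideal.absNorm_dvd_absNorm_of_le h1
  rw [map_pow, Ideal.absNorm_span_singleton] at h2
  have h3 : 0 < (Algebra.norm ℤ a).natAbs := by
    rw [Int.natAbs_pos]
    exact Algebra.norm_ne_zero_iff.2 h0
  have h4 := Nat.le_of_dvd h3 h2
  have h5 : ((Ideal.absNorm v.asIdeal ^ e : ℕ) : ℝ) ≤ (((Algebra.norm ℤ a).natAbs : ℕ) : ℝ) := by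
    exact_mod_cast h4
  rw [Nat.cast_natAbs, Nat.cast_pow] at h5
  rw [Int.cast_abs] at h5
  exact h5

theorem dsc_bx {X : ℝ} (hX : 0 ≤ X) {p : 𝓞 K × 𝓞 K} (hp : p ∈ Bx K X) :
    dsc p.1 p.2 ∈ bx K (31 * X ^ 6) := by
  intro s
  have h1 := hp.1 s
  have h2 := hp.2 s
  have h3 : s ((dsc p.1 p.2 : 𝓞 K) : K) = 4 * (s (p.1 : K)) ^ 3 + 27 * (s (p.2 : K)) ^ 2 := by
    unfold dsc
    push_cast
    simp only [map_add, map_mul, map_pow, map_ofNat]
  rw [h3]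
  refine (norm_add_le _ _).trans ?_
  rw [norm_mul, norm_mul, norm_pow, norm_pow]
  have e4 : ‖(4 : ℂ)‖ = 4 := by simp
  have e27 : ‖(27 : ℂ)‖ = 27 := by simp
  rw [e4, e27]
  have h4 : ‖s (p.1 : K)‖ ^ 3 ≤ (X ^ 2) ^ 3 := pow_le_pow_left₀ (norm_nonneg _) h1 3
  have h5 : ‖s (p.2 : K)‖ ^ 2 ≤ (X ^ 3) ^ 2 := pow_le_pow_left₀ (norm_nonneg _) h2 2
  nlinarith [h4, h5]

end H36PP

end S_H36_PP_Nb

section S_H36_PP_Bu

set_option autoImplicit false
set_option linter.unusedSectionVars false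

open NumberField IsDedekindDomain H76PP

namespace H36PP

variable (K : Type) [Field K] [NumberField K]

theorem Bx_upper : ∃ C : ℝ, 0 < C ∧ ∀ X : ℝ, 1 ≤ X →
    ((Bx K X).ncard : ℝ) ≤ C * X ^ (5 * Module.finrank ℚ K) := by
  obtain ⟨C, hC, h⟩ := bx_upper K
  refine ⟨C ^ 2, by positivity, fun X hX => ?_⟩
  have h1 : Bx K X = bx K (X ^ 2) ×ˢ bx K (X ^ 3) := by
    ext p
    rfl
  rw [h1, Set.ncard_prod]
  push_cast
  have h2 := h (X ^ 2) (one_le_pow₀ hX)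
  have h3 := h (X ^ 3) (one_le_pow₀ hX)
  have hX0 : 0 ≤ X := by linarith
  calc ((bx K (X ^ 2)).ncard : ℝ) * ((bx K (X ^ 3)).ncard : ℝ)
      ≤ (C * (X ^ 2) ^ (Module.finrank ℚ K)) * (C * (X ^ 3) ^ (Module.finrank ℚ K)) := by
        gcongr
    _ = C ^ 2 * X ^ (5 * Module.finrank ℚ K) := by
        rw [← pow_mul, ← pow_mul]
        have h5 : X ^ (5 * Module.finrank ℚ K) = X ^ (2 * Module.finrank ℚ K) *
            X ^ (3 * Module.finrank ℚ K) := by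
          rw [← pow_add]
          congr 1
          ring
        rw [h5]
        ring

end H36PP

end S_H36_PP_Bu

section S_H36_PP_Lo

set_option autoImplicit false
set_option linter.unusedSectionVars false

open NumberField IsDedekindDomain H76PP

namespace H36PP

variable {K : Type} [Field K] [NumberField K]

theorem Lo_inv {v : HeightOneSpectrum (𝓞 K)} {x : 𝓞 K} (hx : x ∉ v.asIdeal) :
    ∃ z : 𝓞 K, x * z - 1 ∈ v.asIdeal ^ 2 := by
  have hmax := v.isMaximal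
  obtain ⟨y, i, hi, hy⟩ := hmax.exists_inv hx
  refine ⟨y * (2 - y * x), ?_⟩
  have h1 : x * (y * (2 - y * x)) - 1 = -(i * i) := by
    have h2 : i = 1 - y * x := by rw [← hy]; ring
    rw [h2]
    ring
  rw [h1, pow_two]
  exact neg_mem (Ideal.mul_mem_mul hi hi)

theorem Lo_cancel {v : HeightOneSpectrum (𝓞 K)} {x y : 𝓞 K} (hx : x ∉ v.asIdeal)
    (h : x * y ∈ v.asIdeal ^ 2) : y ∈ v.asIdeal ^ 2 := by
  obtain ⟨z, hz⟩ := Lo_inv hx
  have h1 : y = z * (x * y) - y * (x * z - 1) := by ring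
  rw [h1]
  exact sub_mem (Ideal.mul_mem_left _ _ h) (Ideal.mul_mem_left _ _ hz)

theorem Lo_two {v : HeightOneSpectrum (𝓞 K)} (h : (6 : 𝓞 K) ∉ v.asIdeal) :
    (2 : 𝓞 K) ∉ v.asIdeal ∧ (3 : 𝓞 K) ∉ v.asIdeal := by
  constructor
  · intro h2
    apply h
    have : (6 : 𝓞 K) = 3 * 2 := by norm_num
    rw [this]
    exact Ideal.mul_mem_left _ _ h2
  · intro h2
    apply h
    have : (6 : 𝓞 K) = 2 * 3 := by norm_num
    rw [this]
    exact Ideal.mul_mem_left _ _ h2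

theorem Lo_27 {v : HeightOneSpectrum (𝓞 K)} (h : (6 : 𝓞 K) ∉ v.asIdeal) :
    (27 : 𝓞 K) ∉ v.asIdeal := by
  intro h2
  have h3 : (27 : 𝓞 K) = 3 ^ 3 := by norm_num
  rw [h3] at h2
  exact (Lo_two h).2 (v.isPrime.mem_of_pow_mem _ h2)

theorem card_SqO {v : HeightOneSpectrum (𝓞 K)} (h : (6 : 𝓞 K) ∉ v.asIdeal) :
    Nv v ^ 4 ≤ (SqO (𝓞 K ⧸ v.asIdeal ^ 2)).ncard + 3 * Nv v ^ 2 := by
  classical
  have hvne : v.asIdeal ≠ ⊥ := v.ne_bot
  have hle : v.asIdeal ^ 2 ≤ v.asIdeal := Ideal.pow_le_self (by norm_num)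
  have hv2ne : v.asIdeal ^ 2 ≠ ⊥ := pow_ne_zero 2 hvne
  set R := 𝓞 K ⧸ v.asIdeal ^ 2 with hR
  set q := Nv v with hq
  have hcardR : Nat.card R = q ^ 2 := by
    rw [hR, ← Submodule.cardQuot_apply, ← Ideal.absNorm_apply, map_pow]
    rfl
  have hcardk : Nat.card (𝓞 K ⧸ v.asIdeal) = q := by
    rw [← Submodule.cardQuot_apply, ← Ideal.absNorm_apply]
    rfl
  have hfinR : Finite R := Ideal.finiteQuotientOfFreeOfNeBot _ hv2ne
  have hfink : Finite (𝓞 K ⧸ v.asIdeal) := Ideal.finiteQuotientOfFreeOfNeBot _ hvne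
  have hqpos : 0 < q := by
    rw [← hcardk]
    exact Nat.card_pos
  let _ : Fintype R := Fintype.ofFinite R
  let π : R →+* (𝓞 K ⧸ v.asIdeal) := Ideal.Quotient.factor hle
  have hπ : ∀ a : 𝓞 K, π (Ideal.Quotient.mk _ a) = Ideal.Quotient.mk _ a := fun a =>
    Ideal.Quotient.factor_mk hle a
  have hπs : Function.Surjective π := by
    intro y
    obtain ⟨a, rfl⟩ := Ideal.Quotient.mk_surjective y
    exact ⟨Ideal.Quotient.mk _ a, hπ a⟩
  -- the size of the kernel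
  have hP : Nat.card (RingHom.ker π) = q := by
    have h1 := Submodule.card_eq_card_quotient_mul_card (RingHom.ker π)
    have h2 : Nat.card (R ⧸ RingHom.ker π) = q := by
      rw [Nat.card_congr (RingHom.quotientKerEquivOfSurjective hπs).toEquiv, hcardk]
    rw [hcardR, h2, pow_two] at h1
    first
      | exact (Nat.eq_of_mul_eq_mul_right hqpos h1).symm
      | exact (Nat.eq_of_mul_eq_mul_left hqpos h1).symm
  -- units
  have hunit : ∀ x : R, π x ≠ 0 → IsUnit x := by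
    intro x hx
    obtain ⟨a, rfl⟩ := Ideal.Quotient.mk_surjective x
    rw [hπ] at hx
    have ha : a ∉ v.asIdeal := fun h1 => hx (Ideal.Quotient.eq_zero_iff_mem.2 h1)
    obtain ⟨z, hz⟩ := Lo_inv ha
    refine IsUnit.of_mul_eq_one (Ideal.Quotient.mk _ z) ?_
    rw [← sub_eq_zero, ← map_mul, ← map_one (Ideal.Quotient.mk (v.asIdeal ^ 2)), ← map_sub]
    exact Ideal.Quotient.eq_zero_iff_mem.2 hz
  have hnil : ∀ x y : R, π x = 0 → π y = 0 → x * y = 0 := by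
    intro x y hx hy
    obtain ⟨a, rfl⟩ := Ideal.Quotient.mk_surjective x
    obtain ⟨b, rfl⟩ := Ideal.Quotient.mk_surjective y
    rw [hπ, Ideal.Quotient.eq_zero_iff_mem] at hx hy
    rw [← map_mul, Ideal.Quotient.eq_zero_iff_mem, pow_two]
    exact Ideal.mul_mem_mul hx hy
  have hmaxv := v.isMaximal
  have hprimev := v.isPrime
  have hdom : IsDomain (𝓞 K ⧸ v.asIdeal) := Ideal.Quotient.isDomain _
  have hnat : ∀ m : ℕ, (m : 𝓞 K) ∉ v.asIdeal → ((m : ℕ) : 𝓞 K ⧸ v.asIdeal) ≠ 0 := by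
    intro m hm h1
    apply hm
    rw [← Ideal.Quotient.eq_zero_iff_mem, map_natCast]
    exact h1
  have h2k : (2 : 𝓞 K ⧸ v.asIdeal) ≠ 0 := by
    have := hnat 2 (by exact_mod_cast (Lo_two h).1)
    exact_mod_cast this
  have h27k : (27 : 𝓞 K ⧸ v.asIdeal) ≠ 0 := by
    have := hnat 27 (by exact_mod_cast Lo_27 h)
    exact_mod_cast this
  have h4k : (4 : 𝓞 K ⧸ v.asIdeal) ≠ 0 := by
    have h5 : (4 : 𝓞 K ⧸ v.asIdeal) = 2 * 2 := by norm_num
    rw [h5]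
    exact mul_ne_zero h2k h2k
  have hπ27 : π 27 ≠ 0 := by
    rw [map_ofNat]
    exact h27k
  have hu27 : IsUnit (27 : R) := hunit _ hπ27
  -- the zero set
  set Z : Finset (R × R) := Finset.univ.filter (fun p => dsc p.1 p.2 = 0) with hZ
  have hZ1 : (Finset.univ.filter (fun p : R × R => π p.1 = 0 ∧ π p.2 = 0)).card = q ^ 2 := by
    have h1 : (Finset.univ.filter (fun x : R => π x = 0)).card = q := by
      rw [← hP, ← Fintype.card_subtype, ← Nat.card_eq_fintype_card]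
      rfl
    have h2 : Finset.univ.filter (fun p : R × R => π p.1 = 0 ∧ π p.2 = 0) =
        (Finset.univ.filter (fun x : R => π x = 0)) ×ˢ (Finset.univ.filter (fun x : R => π x = 0)) := by
      ext p
      simp only [Finset.mem_filter, Finset.mem_univ, true_and, Finset.mem_product]
    rw [h2, Finset.card_product, h1, pow_two]
  have hZ2 : (Finset.univ.filter (fun p : R × R => dsc p.1 p.2 = 0 ∧ π p.1 ≠ 0)).card ≤
      2 * q ^ 2 := by
    have h1 : (Finset.univ : Finset R).card = q ^ 2 := by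
      rw [Finset.card_univ, ← Nat.card_eq_fintype_card, hcardR]
    rw [← h1]
    apply Finset.card_le_mul_card_image_of_maps_to (f := Prod.fst)
    · intro a _
      exact Finset.mem_univ _
    · intro a _
      by_cases hne : (Finset.filter (fun p : R × R => p.1 = a)
          (Finset.univ.filter (fun p : R × R => dsc p.1 p.2 = 0 ∧ π p.1 ≠ 0))).Nonempty
      · obtain ⟨p, hp⟩ := hne
        simp only [Finset.mem_filter, Finset.mem_univ, true_and] at hp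
        obtain ⟨⟨hp1, hp2⟩, hp3⟩ := hp
        have hsub : (Finset.filter (fun p : R × R => p.1 = a)
          (Finset.univ.filter (fun p : R × R => dsc p.1 p.2 = 0 ∧ π p.1 ≠ 0))) ⊆
            {(a, p.2), (a, -p.2)} := by
          intro r hr
          simp only [Finset.mem_filter, Finset.mem_univ, true_and] at hr
          obtain ⟨⟨hr1, hr2⟩, hr3⟩ := hr
          have hb : π p.2 ≠ 0 := by
            intro hb0
            have h5 := congrArg π hp1
            rw [dsc, map_add, map_mul, map_mul, map_pow, map_pow, hb0, map_zero, map_ofNat] at h5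
            have h6 : (4 : 𝓞 K ⧸ v.asIdeal) * (π p.1) ^ 3 = 0 := by
              rw [← h5]
              ring
            rcases mul_eq_zero.1 h6 with h7 | h7
            · exact h4k h7
            · exact hp2 (eq_zero_of_pow_eq_zero h7)
          have hprod : (r.2 - p.2) * (r.2 + p.2) = 0 := by
            have h5 : (27 : R) * ((r.2 - p.2) * (r.2 + p.2)) = 0 := by
              have h6 : dsc r.1 r.2 - dsc p.1 p.2 = 0 := by rw [hr1, hp1, sub_zero]
              rw [hr3, hp3] at h6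
              rw [← h6]
              simp only [dsc]
              ring
            exact (hu27.mul_right_eq_zero).1 h5
          have hcase : π (r.2 - p.2) ≠ 0 ∨ π (r.2 + p.2) ≠ 0 := by
            by_contra hcon
            push Not at hcon
            have h8 : π (r.2 + p.2) - π (r.2 - p.2) = 0 := by rw [hcon.1, hcon.2, sub_zero]
            rw [map_add, map_sub] at h8
            have h9 : (2 : 𝓞 K ⧸ v.asIdeal) * π p.2 = 0 := by
              rw [← h8]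
              ring
            rcases mul_eq_zero.1 h9 with h10 | h10
            · exact h2k h10
            · exact hb h10
          rw [Finset.mem_insert, Finset.mem_singleton]
          rcases hcase with hc | hc
          · right
            have h11 := ((hunit _ hc).mul_right_eq_zero).1 hprod
            exact Prod.ext hr3 (eq_neg_of_add_eq_zero_left h11)
          · left
            have h11 := ((hunit _ hc).mul_left_eq_zero).1 hprod
            exact Prod.ext hr3 (sub_eq_zero.1 h11)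
        exact (Finset.card_le_card hsub).trans Finset.card_le_two
      · rw [Finset.not_nonempty_iff_eq_empty] at hne
        rw [hne]
        simp
  have hZle : Z.card ≤ 3 * q ^ 2 := by
    have h1 : Z ⊆ (Finset.univ.filter (fun p : R × R => π p.1 = 0 ∧ π p.2 = 0)) ∪
        (Finset.univ.filter (fun p : R × R => dsc p.1 p.2 = 0 ∧ π p.1 ≠ 0)) := by
      intro p hp
      have hp' : dsc p.1 p.2 = 0 := (Finset.mem_filter.1 hp).2
      rw [Finset.mem_union, Finset.mem_filter, Finset.mem_filter]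
      by_cases h5 : π p.1 = 0
      · left
        refine ⟨Finset.mem_univ _, h5, ?_⟩
        have h6 : (27 : 𝓞 K ⧸ v.asIdeal) * (π p.2) ^ 2 = 0 := by
          have h7 := congrArg π hp'
          rw [dsc, map_add, map_mul, map_mul, map_pow, map_pow, h5, map_zero, map_ofNat,
            map_ofNat] at h7
          rw [← h7]
          ring
        rcases mul_eq_zero.1 h6 with h7 | h7
        · exact absurd h7 h27k
        · exact eq_zero_of_pow_eq_zero h7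
      · right
        exact ⟨Finset.mem_univ _, hp', h5⟩
    calc Z.card ≤ _ := Finset.card_le_card h1
      _ ≤ _ := Finset.card_union_le _ _
      _ ≤ q ^ 2 + 2 * q ^ 2 := by
        rw [hZ1]
        exact Nat.add_le_add_left hZ2 _
      _ = 3 * q ^ 2 := by ring
  -- conclusion
  have htot : (SqO R).ncard + Z.card = q ^ 4 := by
    have h1 : (SqO R) = ((Finset.univ.filter (fun p : R × R => ¬ dsc p.1 p.2 = 0) :
        Finset (R × R)) : Set (R × R)) := by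
      ext p
      simp [SqO]
    rw [h1, Set.ncard_coe_finset, add_comm, hZ, Finset.card_filter_add_card_filter_not, Finset.card_univ,
      Fintype.card_prod, ← Nat.card_eq_fintype_card, hcardR]
    ring
  rw [← htot]
  exact Nat.add_le_add_left hZle _

/-- at most two square roots modulo the square of a prime (for the tail) -/
theorem two_classes {v : HeightOneSpectrum (𝓞 K)} (h : (6 : 𝓞 K) ∉ v.asIdeal) {A : 𝓞 K}
    (hA : A ∉ v.asIdeal) : ∃ B₀ : 𝓞 K, ∀ B : 𝓞 K, dsc A B ∈ v.asIdeal ^ 2 →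
      B - B₀ ∈ v.asIdeal ^ 2 ∨ B - (-B₀) ∈ v.asIdeal ^ 2 := by
  have hle : v.asIdeal ^ 2 ≤ v.asIdeal := Ideal.pow_le_self (by norm_num)
  have h2 := (Lo_two h).1
  have hprime := v.isPrime
  by_cases hex : ∃ B₀ : 𝓞 K, dsc A B₀ ∈ v.asIdeal ^ 2
  · obtain ⟨B₀, hB₀⟩ := hex
    refine ⟨B₀, fun B hB => ?_⟩
    have hB₀v : B₀ ∉ v.asIdeal := by
      intro hb
      have h3 : 2 * 2 * A ^ 3 ∈ v.asIdeal := by
        have h4 : 2 * 2 * A ^ 3 = dsc A B₀ - 27 * B₀ * B₀ := by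
          simp only [dsc]
          ring
        rw [h4]
        exact sub_mem (hle hB₀) (Ideal.mul_mem_left _ _ hb)
      rcases hprime.mem_or_mem h3 with h4 | h4
      · rcases hprime.mem_or_mem h4 with h5 | h5 <;> exact h2 h5
      · exact hA (hprime.mem_of_pow_mem _ h4)
    have hprod : (B - B₀) * (B - (-B₀)) ∈ v.asIdeal ^ 2 := by
      refine Lo_cancel (Lo_27 h) ?_
      have h5 : 27 * ((B - B₀) * (B - (-B₀))) = dsc A B - dsc A B₀ := by
        simp only [dsc]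
        ring
      rw [h5]
      exact sub_mem hB hB₀
    by_cases hc : B - B₀ ∈ v.asIdeal
    · left
      have hc2 : B - (-B₀) ∉ v.asIdeal := by
        intro h6
        have h7 : 2 * B₀ ∈ v.asIdeal := by
          have h8 : 2 * B₀ = (B - (-B₀)) - (B - B₀) := by ring
          rw [h8]
          exact sub_mem h6 hc
        rcases hprime.mem_or_mem h7 with h9 | h9
        · exact h2 h9
        · exact hB₀v h9
      rw [mul_comm] at hprod
      exact Lo_cancel hc2 hprod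
    · right
      exact Lo_cancel hc hprod
  · refine ⟨0, fun B hB => absurd ⟨B, hB⟩ hex⟩

end H36PP

end S_H36_PP_Lo

section S_H36_PP_Lt

set_option autoImplicit false
set_option linter.unusedSectionVars false

open NumberField IsDedekindDomain H76PP

namespace H36PP

variable (k : Type*) [Field k] [Finite k]

theorem card_nonsq (h : (2 : k) ≠ 0) : Nat.card k ≤ 2 * {d : k | ¬ IsSquare d}.ncard + 1 := by
  classical
  have hk := Fintype.ofFinite k
  set s : Finset k := Finset.univ.filter (fun x => x ≠ 0) with hs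
  have h1 : 2 * (s.image fun x => x ^ 2).card ≤ s.card := by
    apply Finset.mul_card_image_le_card
    intro a ha
    obtain ⟨x, hx, rfl⟩ := Finset.mem_image.1 ha
    have hx0 : x ≠ 0 := (Finset.mem_filter.1 hx).2
    have hxx : x ≠ -x := by
      intro h2
      apply hx0
      have h3 : (2 : k) * x = 0 := by linear_combination h2
      exact (mul_eq_zero.1 h3).resolve_left h
    have h3 : ({x, -x} : Finset k) ⊆ s.filter (fun y => y ^ 2 = x ^ 2) := by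
      intro y hy
      rw [Finset.mem_insert, Finset.mem_singleton] at hy
      rw [Finset.mem_filter, hs, Finset.mem_filter]
      rcases hy with rfl | rfl
      · exact ⟨⟨Finset.mem_univ _, hx0⟩, rfl⟩
      · exact ⟨⟨Finset.mem_univ _, neg_ne_zero.2 hx0⟩, by ring⟩
    exact (Finset.card_pair hxx).symm.le.trans (Finset.card_le_card h3)
  have h2 : s = Finset.univ.erase 0 := by
    ext x
    simp [hs]
  have h3 : s.card + 1 = Nat.card k := by
    rw [h2, Finset.card_erase_of_mem (Finset.mem_univ _), Finset.card_univ, Nat.card_eq_fintype_card]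
    have := Fintype.card_pos (α := k)
    omega
  have h4 : (Finset.univ : Finset k) ⊆
      insert 0 (s.image fun x => x ^ 2) ∪ Finset.univ.filter fun d => ¬ IsSquare d := by
    intro d _
    rw [Finset.mem_union, Finset.mem_insert, Finset.mem_filter]
    by_cases hd : IsSquare d
    · left
      by_cases hd0 : d = 0
      · exact Or.inl hd0
      · right
        obtain ⟨r, rfl⟩ := hd
        rw [Finset.mem_image]
        refine ⟨r, ?_, by ring⟩
        rw [hs, Finset.mem_filter]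
        refine ⟨Finset.mem_univ _, ?_⟩
        rintro rfl
        exact hd0 (mul_zero _)
    · exact Or.inr ⟨Finset.mem_univ _, hd⟩
  have h5 := (Finset.card_le_card h4).trans (Finset.card_union_le _ _)
  have h6 := Finset.card_insert_le 0 (s.image fun x => x ^ 2)
  have h7 : {d : k | ¬ IsSquare d}.ncard = (Finset.univ.filter fun d : k => ¬ IsSquare d).card := by
    rw [← Set.ncard_coe_finset]
    congr 1
    ext d
    simp
  rw [Finset.card_univ, ← Nat.card_eq_fintype_card] at h5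
  omega

theorem card_SqT (h : (6 : k) ≠ 0) : Nat.card k * (Nat.card k - 1) ≤ 2 * (SqT k).ncard := by
  have h2 : (2 : k) ≠ 0 := by
    intro h3
    apply h
    rw [show (6 : k) = 2 * 3 by norm_num, h3, zero_mul]
  have h4 : (4 : k) ≠ 0 := by
    rw [show (4 : k) = 2 * 2 by norm_num]
    exact mul_ne_zero h2 h2
  have hN := card_nonsq k h2
  set f : k × k → k × k := fun p => (-(p.2 + 3 * p.1 ^ 2) / 4,
    - p.1 ^ 3 - (-(p.2 + 3 * p.1 ^ 2) / 4) * p.1) with hf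
  have hfa : ∀ p : k × k, -3 * p.1 ^ 2 - 4 * (f p).1 = p.2 := by
    intro p
    rw [hf]
    simp only
    field_simp
    ring
  have hfr : ∀ p : k × k, p.1 ^ 3 + (f p).1 * p.1 + (f p).2 = 0 := by
    intro p
    rw [hf]
    simp only
    ring
  have hmaps : f '' ((Set.univ : Set k) ×ˢ {d : k | ¬ IsSquare d}) ⊆ SqT k := by
    rintro _ ⟨p, ⟨-, hp⟩, rfl⟩
    refine ⟨p.1, hfr p, ?_⟩
    rw [hfa p]
    exact hp
  have hinj : Set.InjOn f ((Set.univ : Set k) ×ˢ {d : k | ¬ IsSquare d}) := by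
    rintro p ⟨-, hp⟩ p' ⟨-, hp'⟩ hpp
    have e1 := hfr p
    have e2 := hfr p'
    have e3 := hfa p
    have e4 := hfa p'
    rw [← hpp] at e2 e4
    have ht : p.1 = p'.1 := by
      by_contra hne
      have hne' : p'.1 - p.1 ≠ 0 := sub_ne_zero.2 fun h5 => hne h5.symm
      have e5 : (p'.1 - p.1) * (p'.1 ^ 2 + p.1 * p'.1 + p.1 ^ 2 + (f p).1) = 0 := by
        linear_combination e2 - e1
      have e6 := (mul_eq_zero.1 e5).resolve_left hne'
      apply hp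
      refine ⟨2 * p'.1 + p.1, ?_⟩
      linear_combination (-4) * e6 - e3
    refine Prod.ext ht ?_
    rw [← e3, ← e4, ht]
  have h5 := Set.ncard_le_ncard hmaps (Set.toFinite _)
  rw [Set.InjOn.ncard_image hinj, Set.ncard_prod, Set.ncard_univ] at h5
  have h6 : Nat.card k - 1 ≤ 2 * {d : k | ¬ IsSquare d}.ncard := by omega
  calc Nat.card k * (Nat.card k - 1) ≤ Nat.card k * (2 * {d : k | ¬ IsSquare d}.ncard) :=
        Nat.mul_le_mul_left _ h6
    _ = 2 * (Nat.card k * {d : k | ¬ IsSquare d}.ncard) := by ring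
    _ ≤ 2 * (SqT k).ncard := Nat.mul_le_mul_left _ h5

theorem exists_irr : ∃ a b : k, ∀ t : k, t ^ 3 + a * t + b ≠ 0 := by
  have h1 : ¬ Function.Injective (fun t : k => t ^ 3 - t) := by
    intro h
    have h2 : (fun t : k => t ^ 3 - t) 0 = (fun t : k => t ^ 3 - t) 1 := by
      simp
    exact zero_ne_one (h h2)
  have h3 : ¬ Function.Surjective (fun t : k => t ^ 3 - t) := fun h =>
    h1 (Finite.injective_iff_surjective.2 h)
  rw [Function.Surjective] at h3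
  push Not at h3
  obtain ⟨c, hc⟩ := h3
  refine ⟨-1, -c, fun t h4 => hc t ?_⟩
  linear_combination h4

end H36PP

end S_H36_PP_Lt

section S_H36_PP_Dv

set_option autoImplicit false
set_option linter.unusedSectionVars false

open NumberField IsDedekindDomain H76PP

namespace H36PP

variable {K : Type} [Field K] [NumberField K]

theorem Dv_card (I : Ideal (𝓞 K)) : Ideal.absNorm I = Nat.card (𝓞 K ⧸ I) := by
  rw [Ideal.absNorm_apply, Submodule.cardQuot_apply]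

theorem Dv_fin {I : Ideal (𝓞 K)} (hI : I ≠ ⊥) : Finite (𝓞 K ⧸ I) := by
  apply Nat.finite_of_card_ne_zero
  rw [← Dv_card]
  exact fun h => hI (Ideal.absNorm_eq_zero_iff.1 h)

theorem Dv_one {I : Ideal (𝓞 K)} (hI : I ≠ ⊥) {P : Set (𝓞 K × 𝓞 K)}
    (hper : ∀ p p' : 𝓞 K × 𝓞 K, rs I p = rs I p' → p ∈ P → p' ∈ P) (hne : P.Nonempty) :
    Dens I P (1 / (Ideal.absNorm I : ℝ) ^ 2) := by
  have hfin := Dv_fin hI
  refine ⟨hper, ?_⟩
  have h0 : (Ideal.absNorm I : ℝ) ≠ 0 := by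
    have h1 : Ideal.absNorm I ≠ 0 := fun h => hI (Ideal.absNorm_eq_zero_iff.1 h)
    exact_mod_cast h1
  have h2 : 1 / (Ideal.absNorm I : ℝ) ^ 2 * (Ideal.absNorm I : ℝ) ^ 2 = 1 := by
    field_simp
  rw [h2]
  have h3 : 0 < (rs I '' P).ncard := (Set.ncard_pos (Set.toFinite _)).2 (hne.image _)
  exact_mod_cast h3

theorem Dv_le {I : Ideal (𝓞 K)} (hI : I ≠ ⊥) {P : Set (𝓞 K × 𝓞 K)}
    {S : Set ((𝓞 K ⧸ I) × (𝓞 K ⧸ I))} (h : ∀ p, p ∈ P ↔ rs I p ∈ S) :
    (∀ p p' : 𝓞 K × 𝓞 K, rs I p = rs I p' → p ∈ P → p' ∈ P) ∧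
      S.ncard ≤ (rs I '' P).ncard := by
  have hfin := Dv_fin hI
  constructor
  · intro p p' hpp hp
    rw [h, ← hpp, ← h]
    exact hp
  · refine Set.ncard_le_ncard ?_ (Set.toFinite _)
    rintro ⟨a, b⟩ hab
    obtain ⟨a', ha'⟩ := Ideal.Quotient.mk_surjective a
    obtain ⟨b', hb'⟩ := Ideal.Quotient.mk_surjective b
    have h1 : rs I (a', b') = (a, b) := by
      unfold rs
      rw [ha', hb']
    refine ⟨(a', b'), ?_, h1⟩
    rw [h, h1]
    exact hab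

theorem Dv_Pq (v : HeightOneSpectrum (𝓞 K)) (p : 𝓞 K × 𝓞 K) :
    p ∈ Pq v ↔ rs v.asIdeal p ∈ {r : (𝓞 K ⧸ v.asIdeal) × (𝓞 K ⧸ v.asIdeal) |
      ∀ t : 𝓞 K ⧸ v.asIdeal, t ^ 3 + r.1 * t + r.2 ≠ 0} := by
  constructor
  · intro hp t ht
    obtain ⟨t', rfl⟩ := Ideal.Quotient.mk_surjective t
    apply hp t'
    rw [← Ideal.Quotient.eq_zero_iff_mem, map_add, map_add, map_mul, map_pow]
    exact ht
  · intro hp t ht
    apply hp (Ideal.Quotient.mk v.asIdeal t)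
    rw [← Ideal.Quotient.eq_zero_iff_mem, map_add, map_add, map_mul, map_pow] at ht
    exact ht

theorem Dv_P6 (v : HeightOneSpectrum (𝓞 K)) (p : 𝓞 K × 𝓞 K) :
    p ∈ P6 v ↔ rs v.asIdeal p ∈ {r : (𝓞 K ⧸ v.asIdeal) × (𝓞 K ⧸ v.asIdeal) |
      r.1 - 1 = 0 ∧ r.2 - 1 = 0} := by
  have h1 : ∀ x : 𝓞 K, x - 1 ∈ v.asIdeal ↔ Ideal.Quotient.mk v.asIdeal x - 1 = 0 := by
    intro x
    rw [← Ideal.Quotient.eq_zero_iff_mem, map_sub, map_one]
  exact and_congr (h1 p.1) (h1 p.2)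

theorem Dv_Pt (v : HeightOneSpectrum (𝓞 K)) (p : 𝓞 K × 𝓞 K) :
    p ∈ Pt v ↔ rs v.asIdeal p ∈ SqT (𝓞 K ⧸ v.asIdeal) := by
  constructor
  · rintro ⟨t, ht, hs⟩
    refine ⟨Ideal.Quotient.mk v.asIdeal t, ?_, ?_⟩
    · rw [← Ideal.Quotient.eq_zero_iff_mem, map_add, map_add, map_mul, map_pow] at ht
      exact ht
    · rintro ⟨s, hs'⟩
      obtain ⟨s', rfl⟩ := Ideal.Quotient.mk_surjective s
      apply hs s'
      rw [← Ideal.Quotient.eq_zero_iff_mem, map_sub, map_sub, map_mul, map_mul, map_pow, map_pow,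
        map_neg, map_ofNat, map_ofNat, sub_eq_zero, pow_two (Ideal.Quotient.mk v.asIdeal s')]
      exact hs'
  · rintro ⟨t, ht, hs⟩
    obtain ⟨t', rfl⟩ := Ideal.Quotient.mk_surjective t
    refine ⟨t', ?_, ?_⟩
    · rw [← Ideal.Quotient.eq_zero_iff_mem, map_add, map_add, map_mul, map_pow]
      exact ht
    · intro s hs'
      apply hs
      rw [← Ideal.Quotient.eq_zero_iff_mem, map_sub, map_sub, map_mul, map_mul, map_pow, map_pow,
        map_neg, map_ofNat, map_ofNat, sub_eq_zero, pow_two (Ideal.Quotient.mk v.asIdeal s)] at hs'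
      exact ⟨Ideal.Quotient.mk v.asIdeal s, hs'⟩

theorem Dv_Po (v : HeightOneSpectrum (𝓞 K)) (p : 𝓞 K × 𝓞 K) :
    p ∈ Po v ↔ rs (v.asIdeal ^ 2) p ∈ SqO (𝓞 K ⧸ v.asIdeal ^ 2) := by
  have h1 : dsc (Ideal.Quotient.mk (v.asIdeal ^ 2) p.1) (Ideal.Quotient.mk (v.asIdeal ^ 2) p.2) =
      Ideal.Quotient.mk (v.asIdeal ^ 2) (dsc p.1 p.2) := by
    unfold dsc
    simp only [map_add, map_mul, map_pow, map_ofNat]
  show dsc p.1 p.2 ∉ v.asIdeal ^ 2 ↔
    dsc (Ideal.Quotient.mk (v.asIdeal ^ 2) p.1) (Ideal.Quotient.mk (v.asIdeal ^ 2) p.2) ≠ 0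
  rw [h1, Ne, Ideal.Quotient.eq_zero_iff_mem]

theorem dens_q (v : HeightOneSpectrum (𝓞 K)) : Dens v.asIdeal (Pq v) (1 / (Nv v : ℝ) ^ 2) := by
  have hfin := Dv_fin v.ne_bot
  obtain ⟨a, b, hab⟩ := exists_irr (𝓞 K ⧸ v.asIdeal)
  obtain ⟨a', ha'⟩ := Ideal.Quotient.mk_surjective a
  obtain ⟨b', hb'⟩ := Ideal.Quotient.mk_surjective b
  refine Dv_one v.ne_bot (Dv_le v.ne_bot (Dv_Pq v)).1 ⟨(a', b'), ?_⟩
  rw [Dv_Pq]
  intro t
  have h1 := hab t
  rw [← ha', ← hb'] at h1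
  exact h1

theorem dens_6 (v : HeightOneSpectrum (𝓞 K)) : Dens v.asIdeal (P6 v) (1 / (Nv v : ℝ) ^ 2) := by
  refine Dv_one v.ne_bot (Dv_le v.ne_bot (Dv_P6 v)).1 ⟨(1, 1), ?_⟩
  constructor
  · rw [sub_self]
    exact zero_mem _
  · rw [sub_self]
    exact zero_mem _

theorem dens_t {v : HeightOneSpectrum (𝓞 K)} (h : (6 : 𝓞 K) ∉ v.asIdeal) :
    Dens v.asIdeal (Pt v) (1 / 2 * (1 - 1 / (Nv v : ℝ))) := by
  have hfin := Dv_fin v.ne_bot
  obtain ⟨h1, h2⟩ := Dv_le v.ne_bot (Dv_Pt v)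
  refine ⟨h1, ?_⟩
  have h6 : (6 : 𝓞 K ⧸ v.asIdeal) ≠ 0 := by
    intro h6
    apply h
    rw [← Ideal.Quotient.eq_zero_iff_mem, map_ofNat]
    exact h6
  have h3 := card_SqT (𝓞 K ⧸ v.asIdeal) h6
  rw [← Dv_card] at h3
  have hq0 : Ideal.absNorm v.asIdeal ≠ 0 := fun h => v.ne_bot (Ideal.absNorm_eq_zero_iff.1 h)
  have hq1 : 1 ≤ Ideal.absNorm v.asIdeal := Nat.one_le_iff_ne_zero.2 hq0
  have h4 : Ideal.absNorm v.asIdeal * (Ideal.absNorm v.asIdeal - 1) ≤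
      2 * (rs v.asIdeal '' Pt v).ncard := h3.trans (Nat.mul_le_mul_left 2 h2)
  have h5 : ((Ideal.absNorm v.asIdeal * (Ideal.absNorm v.asIdeal - 1) : ℕ) : ℝ) ≤
      ((2 * (rs v.asIdeal '' Pt v).ncard : ℕ) : ℝ) := by exact_mod_cast h4
  rw [Nat.cast_mul, Nat.cast_sub hq1, Nat.cast_one, Nat.cast_mul, Nat.cast_ofNat] at h5
  have hq : (Ideal.absNorm v.asIdeal : ℝ) ≠ 0 := by exact_mod_cast hq0
  have h7 : 1 / 2 * (1 - 1 / (Nv v : ℝ)) * (Ideal.absNorm v.asIdeal : ℝ) ^ 2 =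
      (Ideal.absNorm v.asIdeal : ℝ) * ((Ideal.absNorm v.asIdeal : ℝ) - 1) / 2 := by
    unfold Nv
    field_simp
  rw [h7]
  linarith

theorem dens_o {v : HeightOneSpectrum (𝓞 K)} (h : (6 : 𝓞 K) ∉ v.asIdeal) :
    Dens (v.asIdeal ^ 2) (Po v) (1 - 3 / (Nv v : ℝ) ^ 2) := by
  have hI : v.asIdeal ^ 2 ≠ ⊥ := pow_ne_zero 2 v.ne_bot
  have hfin := Dv_fin hI
  obtain ⟨h1, h2⟩ := Dv_le hI (Dv_Po v)
  refine ⟨h1, ?_⟩
  have h3 := card_SqO h
  have h4 : Nv v ^ 4 ≤ (rs (v.asIdeal ^ 2) '' Po v).ncard + 3 * Nv v ^ 2 := by omega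
  have h5 : ((Nv v ^ 4 : ℕ) : ℝ) ≤
      (((rs (v.asIdeal ^ 2) '' Po v).ncard + 3 * Nv v ^ 2 : ℕ) : ℝ) := by exact_mod_cast h4
  rw [Nat.cast_add, Nat.cast_mul, Nat.cast_pow, Nat.cast_pow, Nat.cast_ofNat] at h5
  have hq0 : Nv v ≠ 0 := fun h => v.ne_bot (Ideal.absNorm_eq_zero_iff.1 h)
  have hq : (Nv v : ℝ) ≠ 0 := by exact_mod_cast hq0
  have h6 : (Ideal.absNorm (v.asIdeal ^ 2) : ℝ) = (Nv v : ℝ) ^ 2 := by
    rw [map_pow, Nat.cast_pow]
    rfl
  have h7 : (1 - 3 / (Nv v : ℝ) ^ 2) * (Ideal.absNorm (v.asIdeal ^ 2) : ℝ) ^ 2 =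
      (Nv v : ℝ) ^ 4 - 3 * (Nv v : ℝ) ^ 2 := by
    rw [h6]
    field_simp
  rw [h7]
  linarith

end H36PP

end S_H36_PP_Dv

section S_H36_PP_Dn

set_option autoImplicit false
set_option linter.unusedSectionVars false

open NumberField IsDedekindDomain H76PP

namespace H36PP

variable {K : Type} [Field K] [NumberField K]

theorem Dn_rs (I : Ideal (𝓞 K)) (p p' : 𝓞 K × 𝓞 K) :
    rs I p = rs I p' ↔ p.1 - p'.1 ∈ I ∧ p.2 - p'.2 ∈ I := by
  unfold rs
  rw [Prod.mk.injEq, Ideal.Quotient.eq, Ideal.Quotient.eq]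

theorem Dn_fin {I : Ideal (𝓞 K)} (hI : I ≠ ⊥) (S : Set ((𝓞 K ⧸ I) × (𝓞 K ⧸ I))) : S.Finite := by
  haveI : Finite (𝓞 K ⧸ I) := Ideal.finiteQuotientOfFreeOfNeBot I hI
  exact Set.toFinite S

/-- the reduction of pairs of residues -/
def Dn_fac {I I' : Ideal (𝓞 K)} (h : I ≤ I') (z : (𝓞 K ⧸ I) × (𝓞 K ⧸ I)) : (𝓞 K ⧸ I') × (𝓞 K ⧸ I') :=
  (Ideal.Quotient.factor h z.1, Ideal.Quotient.factor h z.2)

theorem Dn_fac_rs {I I' : Ideal (𝓞 K)} (h : I ≤ I') (p : 𝓞 K × 𝓞 K) : Dn_fac h (rs I p) = rs I' p := rfl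

theorem dens_mul {I J : Ideal (𝓞 K)} (hI : I ≠ ⊥) (hJ : J ≠ ⊥) (hIJ : IsCoprime I J)
    {P P' : Set (𝓞 K × 𝓞 K)} {d d' : ℝ} (hd : 0 ≤ d) (hd' : 0 ≤ d') (h : Dens I P d)
    (h' : Dens J P' d') : Dens (I * J) (P ∩ P') (d * d') := by
  have hIJ0 : I * J ≠ ⊥ := mul_ne_zero hI hJ
  have hle1 : I * J ≤ I := Ideal.mul_le_left
  have hle2 : I * J ≤ J := Ideal.mul_le_right
  have hper : ∀ p p' : 𝓞 K × 𝓞 K, rs (I * J) p = rs (I * J) p' → p ∈ P ∩ P' → p' ∈ P ∩ P' := by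
    intro p p' hp hpP
    have h1 := congrArg (Dn_fac hle1) hp
    have h2 := congrArg (Dn_fac hle2) hp
    rw [Dn_fac_rs, Dn_fac_rs] at h1 h2
    exact ⟨h.1 p p' h1 hpP.1, h'.1 p p' h2 hpP.2⟩
  refine ⟨hper, ?_⟩
  have hsub : (rs I '' P) ×ˢ (rs J '' P') ⊆ (fun z => (Dn_fac hle1 z, Dn_fac hle2 z)) '' (rs (I * J) '' (P ∩ P')) := by
    rintro ⟨z, z'⟩ ⟨⟨p, hp, hz⟩, ⟨p', hp', hz'⟩⟩
    simp only at hz hz'
    obtain ⟨a, ha, b, hb, hab⟩ := Ideal.isCoprime_iff_exists.1 hIJ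
    obtain ⟨r, hr⟩ : ∃ r : 𝓞 K × 𝓞 K, r = (b * p.1 + a * p'.1, b * p.2 + a * p'.2) := ⟨_, rfl⟩
    have hr1 : rs I r = rs I p := by
      rw [Dn_rs, hr]
      constructor
      · have : b * p.1 + a * p'.1 - p.1 = a * (p'.1 - p.1) := by
          have e1 : p.1 = (a + b) * p.1 := by rw [hab, one_mul]
          calc b * p.1 + a * p'.1 - p.1 = b * p.1 + a * p'.1 - (a + b) * p.1 := by rw [← e1]
            _ = _ := by ring
        show b * p.1 + a * p'.1 - p.1 ∈ I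
        rw [this]
        exact I.mul_mem_right _ ha
      · have : b * p.2 + a * p'.2 - p.2 = a * (p'.2 - p.2) := by
          have e1 : p.2 = (a + b) * p.2 := by rw [hab, one_mul]
          calc b * p.2 + a * p'.2 - p.2 = b * p.2 + a * p'.2 - (a + b) * p.2 := by rw [← e1]
            _ = _ := by ring
        show b * p.2 + a * p'.2 - p.2 ∈ I
        rw [this]
        exact I.mul_mem_right _ ha
    have hr2 : rs J r = rs J p' := by
      rw [Dn_rs, hr]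
      constructor
      · have : b * p.1 + a * p'.1 - p'.1 = b * (p.1 - p'.1) := by
          have e1 : p'.1 = (a + b) * p'.1 := by rw [hab, one_mul]
          calc b * p.1 + a * p'.1 - p'.1 = b * p.1 + a * p'.1 - (a + b) * p'.1 := by rw [← e1]
            _ = _ := by ring
        show b * p.1 + a * p'.1 - p'.1 ∈ J
        rw [this]
        exact J.mul_mem_right _ hb
      · have : b * p.2 + a * p'.2 - p'.2 = b * (p.2 - p'.2) := by
          have e1 : p'.2 = (a + b) * p'.2 := by rw [hab, one_mul]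
          calc b * p.2 + a * p'.2 - p'.2 = b * p.2 + a * p'.2 - (a + b) * p'.2 := by rw [← e1]
            _ = _ := by ring
        show b * p.2 + a * p'.2 - p'.2 ∈ J
        rw [this]
        exact J.mul_mem_right _ hb
    refine ⟨rs (I * J) r, ⟨r, ⟨h.1 p r hr1.symm hp, h'.1 p' r hr2.symm hp'⟩, rfl⟩, ?_⟩
    show (Dn_fac hle1 (rs (I * J) r), Dn_fac hle2 (rs (I * J) r)) = (z, z')
    rw [Dn_fac_rs, Dn_fac_rs, hr1, hr2, hz, hz']
  have hfin : (rs (I * J) '' (P ∩ P')).Finite := Dn_fin hIJ0 _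
  have h1 : (rs I '' P).ncard * (rs J '' P').ncard ≤ (rs (I * J) '' (P ∩ P')).ncard := by
    rw [← Set.ncard_prod]
    exact (Set.ncard_le_ncard hsub (hfin.image _)).trans (Set.ncard_image_le hfin)
  have h2 : ((rs I '' P).ncard : ℝ) * ((rs J '' P').ncard : ℝ) ≤ ((rs (I * J) '' (P ∩ P')).ncard : ℝ) := by
    exact_mod_cast h1
  refine le_trans ?_ h2
  rw [map_mul, Nat.cast_mul]
  calc d * d' * ((Ideal.absNorm I : ℝ) * (Ideal.absNorm J : ℝ)) ^ 2
      = (d * (Ideal.absNorm I : ℝ) ^ 2) * (d' * (Ideal.absNorm J : ℝ) ^ 2) := by ring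
    _ ≤ _ := mul_le_mul h.2 h'.2 (by positivity) (by positivity)

theorem dens_prod {ι : Type*} (F : Finset ι) (I : ι → Ideal (𝓞 K)) (P : ι → Set (𝓞 K × 𝓞 K))
    (d : ι → ℝ) (hI : ∀ i ∈ F, I i ≠ ⊥) (hc : ∀ i ∈ F, ∀ j ∈ F, i ≠ j → IsCoprime (I i) (I j))
    (hd : ∀ i ∈ F, 0 ≤ d i) (h : ∀ i ∈ F, Dens (I i) (P i) (d i)) :
    Dens (∏ i ∈ F, I i) {p | ∀ i ∈ F, p ∈ P i} (∏ i ∈ F, d i) := by
  classical
  induction F using Finset.induction_on with
  | empty =>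
    rw [Finset.prod_empty, Finset.prod_empty]
    refine ⟨fun p p' _ _ i hi => absurd hi (Finset.notMem_empty i), ?_⟩
    have h1 : (1 : Ideal (𝓞 K)) ≠ ⊥ := one_ne_zero
    rw [map_one, Nat.cast_one, one_pow, mul_one]
    have h2 : 0 < (rs (1 : Ideal (𝓞 K)) '' {p : 𝓞 K × 𝓞 K | ∀ i ∈ (∅ : Finset ι), p ∈ P i}).ncard := by
      rw [Set.ncard_pos (Dn_fin h1 _)]
      exact ⟨rs 1 (0, 0), ⟨(0, 0), fun i hi => absurd hi (Finset.notMem_empty i), rfl⟩⟩
    exact_mod_cast h2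
  | insert a s ha ih =>
    rw [Finset.prod_insert ha, Finset.prod_insert ha]
    have h1 := ih (fun i hi => hI i (Finset.mem_insert_of_mem hi))
      (fun i hi j hj => hc i (Finset.mem_insert_of_mem hi) j (Finset.mem_insert_of_mem hj))
      (fun i hi => hd i (Finset.mem_insert_of_mem hi)) (fun i hi => h i (Finset.mem_insert_of_mem hi))
    have h2 := h a (Finset.mem_insert_self a s)
    have h3 : {p : 𝓞 K × 𝓞 K | ∀ i ∈ insert a s, p ∈ P i} = P a ∩ {p | ∀ i ∈ s, p ∈ P i} := by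
      ext p
      constructor
      · intro hp
        exact ⟨hp a (Finset.mem_insert_self a s), fun i hi => hp i (Finset.mem_insert_of_mem hi)⟩
      · rintro ⟨hp1, hp2⟩ i hi
        rcases Finset.mem_insert.1 hi with rfl | hi
        · exact hp1
        · exact hp2 i hi
    rw [h3]
    refine dens_mul (hI a (Finset.mem_insert_self a s)) ?_ ?_ (hd a (Finset.mem_insert_self a s)) ?_ h2 h1
    · exact Finset.prod_ne_zero_iff.2 fun i hi => hI i (Finset.mem_insert_of_mem hi)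
    · refine IsCoprime.prod_right fun i hi => ?_
      refine hc a (Finset.mem_insert_self a s) i (Finset.mem_insert_of_mem hi) ?_
      rintro rfl
      exact ha hi
    · exact Finset.prod_nonneg fun i hi => hd i (Finset.mem_insert_of_mem hi)

theorem dens_lower {c : ℝ} (hc : 0 ≤ c) (hL : LatL K c) (hf : ∀ X : ℝ, (Bx K X).Finite)
    {I : Ideal (𝓞 K)} (hI : I ≠ ⊥) {P : Set (𝓞 K × 𝓞 K)} {d : ℝ} (h : Dens I P d) :
    ∃ X₀ : ℝ, ∀ X : ℝ, X₀ ≤ X → c ^ 2 * d * X ^ (5 * Module.finrank ℚ K) ≤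
      ({p : 𝓞 K × 𝓞 K | p ∈ Bx K X ∧ p ∈ P}.ncard : ℝ) := by
  classical
  obtain ⟨T₀, hT₀⟩ := hL I hI
  refine ⟨max 1 T₀, fun X hX => ?_⟩
  have hX1 : 1 ≤ X := (le_max_left _ _).trans hX
  have hXT : T₀ ≤ X := (le_max_right _ _).trans hX
  have hX0 : 0 ≤ X := by linarith
  have hX2 : T₀ ≤ X ^ 2 := hXT.trans (le_self_pow₀ hX1 two_ne_zero)
  have hX3 : T₀ ≤ X ^ 3 := hXT.trans (le_self_pow₀ hX1 three_ne_zero)
  obtain ⟨n, hn⟩ : ∃ n, n = Module.finrank ℚ K := ⟨_, rfl⟩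
  obtain ⟨N, hN⟩ : ∃ N : ℝ, N = (Ideal.absNorm I : ℝ) := ⟨_, rfl⟩
  have hN0 : 0 < N := by
    rw [hN]
    have : Ideal.absNorm I ≠ 0 := fun h => hI (Ideal.absNorm_eq_zero_iff.1 h)
    exact_mod_cast Nat.pos_of_ne_zero this
  have hSfin : {p : 𝓞 K × 𝓞 K | p ∈ Bx K X ∧ p ∈ P}.Finite := (hf X).subset fun p hp => hp.1
  have hZfin : (rs I '' P).Finite := Dn_fin hI _
  have hmaps : ((hSfin.toFinset : Finset (𝓞 K × 𝓞 K)) : Set (𝓞 K × 𝓞 K)).MapsTo (rs I) (hZfin.toFinset : Finset ((𝓞 K ⧸ I) × (𝓞 K ⧸ I))) := by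
    intro p hp
    rw [Finset.mem_coe, Set.Finite.mem_toFinset] at hp
    rw [Finset.mem_coe, Set.Finite.mem_toFinset]
    exact ⟨p, hp.2, rfl⟩
  have hcard := Finset.card_eq_sum_card_fiberwise hmaps
  have hfib : ∀ z ∈ hZfin.toFinset, c ^ 2 * X ^ (5 * n) / N ^ 2 ≤ ((hSfin.toFinset.filter fun p => rs I p = z).card : ℝ) := by
    intro z hz
    rw [Set.Finite.mem_toFinset] at hz
    obtain ⟨p, hp, rfl⟩ := hz
    have h1 := hT₀ (X ^ 2) hX2 p.1
    have h2 := hT₀ (X ^ 3) hX3 p.2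
    rw [← hn, ← hN] at h1 h2
    have hsub : {a : 𝓞 K | a ∈ bx K (X ^ 2) ∧ a - p.1 ∈ I} ×ˢ {b : 𝓞 K | b ∈ bx K (X ^ 3) ∧ b - p.2 ∈ I} ⊆
        ((hSfin.toFinset.filter fun r => rs I r = rs I p : Finset (𝓞 K × 𝓞 K)) : Set (𝓞 K × 𝓞 K)) := by
      rintro ⟨a, b⟩ ⟨⟨ha1, ha2⟩, ⟨hb1, hb2⟩⟩
      rw [Finset.mem_coe, Finset.mem_filter, Set.Finite.mem_toFinset]
      have hr : rs I (a, b) = rs I p := (Dn_rs I (a, b) p).2 ⟨ha2, hb2⟩
      exact ⟨⟨⟨ha1, hb1⟩, h.1 p (a, b) hr.symm hp⟩, hr⟩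
    have h3 := Set.ncard_le_ncard hsub (Finset.finite_toSet _)
    rw [Set.ncard_prod, Set.ncard_coe_finset] at h3
    have h4 : ((({a : 𝓞 K | a ∈ bx K (X ^ 2) ∧ a - p.1 ∈ I}.ncard : ℕ) : ℝ) * (({b : 𝓞 K | b ∈ bx K (X ^ 3) ∧ b - p.2 ∈ I}.ncard : ℕ) : ℝ))
        ≤ ((hSfin.toFinset.filter fun r => rs I r = rs I p).card : ℝ) := by exact_mod_cast h3
    refine le_trans ?_ h4
    calc c ^ 2 * X ^ (5 * n) / N ^ 2 = (c * ((X ^ 2) ^ n / N)) * (c * ((X ^ 3) ^ n / N)) := by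
          rw [← pow_mul, ← pow_mul, show 5 * n = 2 * n + 3 * n by ring, pow_add]
          field_simp
      _ ≤ _ := mul_le_mul h1 h2 (by positivity) (Nat.cast_nonneg _)
  have h5 : ((rs I '' P).ncard : ℝ) * (c ^ 2 * X ^ (5 * n) / N ^ 2) ≤ ({p : 𝓞 K × 𝓞 K | p ∈ Bx K X ∧ p ∈ P}.ncard : ℝ) := by
    rw [Set.ncard_eq_toFinset_card _ hSfin, Set.ncard_eq_toFinset_card _ hZfin, hcard, Nat.cast_sum, ← nsmul_eq_mul]
    exact Finset.card_nsmul_le_sum _ _ _ hfib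
  refine le_trans ?_ h5
  rw [← hn]
  have h6 := h.2
  rw [← hN] at h6
  calc c ^ 2 * d * X ^ (5 * n) = (d * N ^ 2) * (c ^ 2 * X ^ (5 * n) / N ^ 2) := by field_simp
    _ ≤ _ := mul_le_mul_of_nonneg_right h6 (by positivity)

end H36PP

end S_H36_PP_Dn

section S_H36_PP_Fm

set_option autoImplicit false
set_option linter.unusedSectionVars false

open NumberField IsDedekindDomain H76PP

namespace H36PP

variable {K : Type} [Field K] [NumberField K]

theorem Fm_ne {v : HeightOneSpectrum (𝓞 K)} (h : (6 : 𝓞 K) ∉ v.asIdeal) :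
    (2 : 𝓞 K) ∉ v.asIdeal ∧ (3 : 𝓞 K) ∉ v.asIdeal := by
  refine ⟨fun h2 => h ?_, fun h3 => h ?_⟩
  · rw [show (6 : 𝓞 K) = 3 * 2 by norm_num]
    exact v.asIdeal.mul_mem_left _ h2
  · rw [show (6 : 𝓞 K) = 2 * 3 by norm_num]
    exact v.asIdeal.mul_mem_left _ h3

theorem Fm_root {k : Type*} [Field k] (h2 : (2 : k) ≠ 0) (h3 : (3 : k) ≠ 0) {a b : k}
    (h : 4 * a ^ 3 + 27 * b ^ 2 = 0) : ∃ t : k, t ^ 3 + a * t + b = 0 := by
  have h27 : (27 : k) ≠ 0 := by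
    rw [show (27 : k) = 3 ^ 3 by norm_num]
    exact pow_ne_zero 3 h3
  have h4 : (4 : k) ≠ 0 := by
    rw [show (4 : k) = 2 ^ 2 by norm_num]
    exact pow_ne_zero 2 h2
  by_cases ha : a = 0
  · have hb : b = 0 := by
      rw [ha] at h
      have h5 : (27 : k) * b ^ 2 = 0 := by linear_combination h
      exact pow_eq_zero_iff two_ne_zero |>.1 ((mul_eq_zero.1 h5).resolve_left h27)
    exact ⟨0, by rw [hb]; ring⟩
  · refine ⟨-3 * b / (2 * a), ?_⟩
    have h5 : (-3 * b / (2 * a)) ^ 3 + a * (-3 * b / (2 * a)) + b =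
        -(b * (4 * a ^ 3 + 27 * b ^ 2)) / (8 * a ^ 3) := by
      have h8 : (8 : k) ≠ 0 := by
        rw [show (8 : k) = 2 ^ 3 by norm_num]
        exact pow_ne_zero 3 h2
      field_simp
      ring
    rw [h5, h, mul_zero, neg_zero, zero_div]

theorem dsc_q {v : HeightOneSpectrum (𝓞 K)} (h : (6 : 𝓞 K) ∉ v.asIdeal) {p : 𝓞 K × 𝓞 K}
    (hp : p ∈ Pq v) : dsc p.1 p.2 ∉ v.asIdeal := by
  intro hd
  obtain ⟨h2, h3⟩ := Fm_ne h
  have h2' : (2 : 𝓞 K ⧸ v.asIdeal) ≠ 0 := by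
    intro h5
    apply h2
    rw [← Ideal.Quotient.eq_zero_iff_mem, map_ofNat]
    exact h5
  have h3' : (3 : 𝓞 K ⧸ v.asIdeal) ≠ 0 := by
    intro h5
    apply h3
    rw [← Ideal.Quotient.eq_zero_iff_mem, map_ofNat]
    exact h5
  have h4 : 4 * (Ideal.Quotient.mk v.asIdeal p.1) ^ 3 +
      27 * (Ideal.Quotient.mk v.asIdeal p.2) ^ 2 = 0 := by
    rw [← Ideal.Quotient.eq_zero_iff_mem] at hd
    unfold dsc at hd
    rw [map_add, map_mul, map_mul, map_pow, map_pow, map_ofNat, map_ofNat] at hd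
    exact hd
  obtain ⟨t, ht⟩ := Fm_root h2' h3' h4
  obtain ⟨t, rfl⟩ := Ideal.Quotient.mk_surjective t
  apply hp t
  rw [← Ideal.Quotient.eq_zero_iff_mem, map_add, map_add, map_pow, map_mul]
  exact ht

theorem dsc_t {v : HeightOneSpectrum (𝓞 K)} (h : (6 : 𝓞 K) ∉ v.asIdeal) {p : 𝓞 K × 𝓞 K}
    (hp : p ∈ Pt v) : dsc p.1 p.2 ∉ v.asIdeal := by
  intro hd
  have hpr := v.isPrime
  obtain ⟨t, ht, hs⟩ := hp
  have h1 : (3 * t ^ 2 + 4 * p.1) * (3 * t ^ 2 + p.1) ^ 2 ∈ v.asIdeal := by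
    have e : (3 * t ^ 2 + 4 * p.1) * (3 * t ^ 2 + p.1) ^ 2 = dsc p.1 p.2 +
        (t ^ 3 + p.1 * t + p.2) * (27 * (t ^ 3 + p.1 * t) - 27 * p.2) := by
      unfold dsc
      ring
    rw [e]
    exact add_mem hd (v.asIdeal.mul_mem_right _ ht)
  rcases hpr.mem_or_mem h1 with h2 | h2
  · apply hs 0
    rw [show -3 * t ^ 2 - 4 * p.1 - 0 ^ 2 = -(3 * t ^ 2 + 4 * p.1) by ring]
    exact neg_mem h2
  · have h3 := hpr.mem_of_pow_mem 2 h2
    apply hs (3 * t)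
    rw [show -3 * t ^ 2 - 4 * p.1 - (3 * t) ^ 2 = (-4) * (3 * t ^ 2 + p.1) by ring]
    exact v.asIdeal.mul_mem_left _ h3

theorem Fm_three : ∃ v : HeightOneSpectrum (𝓞 K), (3 : 𝓞 K) ∈ v.asIdeal := by
  have h1 : Ideal.span {(3 : 𝓞 K)} ≠ ⊤ := by
    intro h
    rw [Ideal.span_singleton_eq_top] at h
    have h2 := h.map (Algebra.norm ℤ)
    have h3 : (Algebra.norm ℤ) (3 : 𝓞 K) = 3 ^ Module.finrank ℤ (𝓞 K) := by
      have h4 := Algebra.norm_algebraMap (R := ℤ) (S := 𝓞 K) 3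
      rwa [map_ofNat] at h4
    rw [h3] at h2
    have hn : Module.finrank ℤ (𝓞 K) ≠ 0 := by
      rw [RingOfIntegers.rank]
      exact Module.finrank_pos.ne'
    rw [isUnit_pow_iff hn, Int.isUnit_iff] at h2
    omega
  obtain ⟨m, hm, hle⟩ := Ideal.exists_le_maximal _ h1
  have h3 : (3 : 𝓞 K) ∈ m := hle (Ideal.mem_span_singleton_self _)
  refine ⟨⟨m, hm.isPrime, ?_⟩, h3⟩
  rintro rfl
  rw [Ideal.mem_bot] at h3
  exact absurd h3 (by norm_num)

theorem fam_of {q₀ : HeightOneSpectrum (𝓞 K)} (h6 : (6 : 𝓞 K) ∉ q₀.asIdeal)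
    {T : Finset (HeightOneSpectrum (𝓞 K))} (hT : ∀ v ∈ T, v ≠ q₀ ∧ (6 : 𝓞 K) ∉ v.asIdeal)
    {M : ℕ} {X : ℝ} {p : 𝓞 K × 𝓞 K} (hp : p ∈ Bx K X) (hq : p ∈ Pq q₀) (hPt : ∀ v ∈ T, p ∈ Pt v)
    (hP6 : ∀ v : HeightOneSpectrum (𝓞 K), (6 : 𝓞 K) ∈ v.asIdeal → p ∈ P6 v)
    (ho : ∀ v : HeightOneSpectrum (𝓞 K), (6 : 𝓞 K) ∉ v.asIdeal → v ≠ q₀ → v ∉ T → Nv v ≤ M →
      p ∈ Po v)
    (ht : p ∉ Tail K M X) : Fam q₀ T p.1 p.2 := by
  have hone : ∀ v : HeightOneSpectrum (𝓞 K), (1 : 𝓞 K) ∉ v.asIdeal := fun v h =>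
    v.isPrime.ne_top ((Ideal.eq_top_iff_one _).2 h)
  have m2 : ∀ v : HeightOneSpectrum (𝓞 K), (2 : 𝓞 K) ∈ v.asIdeal → (6 : 𝓞 K) ∈ v.asIdeal := by
    intro v h
    rw [show (6 : 𝓞 K) = 3 * 2 by norm_num]
    exact v.asIdeal.mul_mem_left _ h
  have m3 : ∀ v : HeightOneSpectrum (𝓞 K), (3 : 𝓞 K) ∈ v.asIdeal → (6 : 𝓞 K) ∈ v.asIdeal := by
    intro v h
    rw [show (6 : 𝓞 K) = 2 * 3 by norm_num]
    exact v.asIdeal.mul_mem_left _ h
  have m1 : ∀ (v : HeightOneSpectrum (𝓞 K)) (x : 𝓞 K), x - 1 ∈ v.asIdeal → x ∉ v.asIdeal := by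
    intro v x h1 h2
    apply hone v
    have h3 := sub_mem h2 h1
    rwa [sub_sub_cancel] at h3
  have hne : p.1 ≠ 0 := by
    obtain ⟨v, hv⟩ := Fm_three (K := K)
    intro h0
    have h1 := m1 v p.1 (hP6 v (m3 v hv)).1
    rw [h0] at h1
    exact h1 v.asIdeal.zero_mem
  have hd0 : dsc p.1 p.2 ≠ 0 := by
    intro h0
    have h1 := dsc_q h6 hq
    rw [h0] at h1
    exact h1 q₀.asIdeal.zero_mem
  refine ⟨hne, hq, hPt, fun v hv => m1 v _ (hP6 v (m2 v hv)).2,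
    fun v hv => m1 v _ (hP6 v (m3 v hv)).1, fun v hv => ?_⟩
  by_cases hvq : v = q₀
  · rw [hvq]
    exact fun h => dsc_q h6 hq (Ideal.pow_le_self two_ne_zero h)
  by_cases hvT : v ∈ T
  · exact fun h => dsc_t hv (hPt v hvT) (Ideal.pow_le_self two_ne_zero h)
  by_cases hvM : Nv v ≤ M
  · exact ho v hv hvq hvT hvM
  · exact fun h => ht ⟨hp, hne, hd0, v, hv, not_le.1 hvM, h⟩

end H36PP

end S_H36_PP_Fm

section S_H36_PP_Pk

set_option autoImplicit false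
set_option linter.unusedSectionVars false

open NumberField IsDedekindDomain H76PP Pool.Agent.H42.PC

namespace H36PP

variable (K : Type) [Field K] [NumberField K]

theorem Pk_sub {Y : ℝ} (hY : 0 ≤ Y) : {v : HeightOneSpectrum (𝓞 K) | (Nv v : ℝ) ≤ Y} ⊆
    {v : HeightOneSpectrum (𝓞 K) | Ideal.absNorm v.asIdeal ≤ ⌊Y⌋₊} := by
  intro v hv
  have h1 : (Nv v : ℝ) ≤ Y := hv
  exact Nat.le_floor h1

theorem nv_finite (Y : ℝ) : {v : HeightOneSpectrum (𝓞 K) | (Nv v : ℝ) ≤ Y}.Finite := by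
  rcases le_or_gt 0 Y with hY | hY
  · exact (prc_finite K ⌊Y⌋₊).subset (Pk_sub K hY)
  · refine Set.Finite.subset Set.finite_empty ?_
    intro v hv
    have h1 : (Nv v : ℝ) ≤ Y := hv
    have h2 : (0 : ℝ) ≤ (Nv v : ℝ) := Nat.cast_nonneg _
    exact absurd h1 (by linarith)

theorem Pk_count (m : ℕ) : {v : HeightOneSpectrum (𝓞 K) | Ideal.absNorm v.asIdeal ≤ m}.ncard ≤
    Module.finrank ℚ K * Nat.primeCounting m := by
  have hs : {p : ℕ | p.Prime ∧ p ≤ m}.Finite := (Set.finite_Iic m).subset fun p hp => hp.2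
  have h1 := BCnt_finite_le hs (n := Module.finrank ℚ K)
    (f := fun p => {v : HeightOneSpectrum (𝓞 K) |
      v.asIdeal ∈ (Ideal.span {(p : ℤ)}).primesOver (𝓞 K)})
    (t := {v | Ideal.absNorm v.asIdeal ≤ m}) (by
      rintro p ⟨hp, -⟩
      have hpr : (Ideal.span {(p : ℤ)}).IsPrime := by
        rw [Ideal.span_singleton_prime (by exact_mod_cast hp.ne_zero)]
        exact Nat.prime_iff_prime_int.1 hp
      obtain ⟨hf, hc⟩ := BCnt_card (S := 𝓞 K) (Ideal.span {(p : ℤ)})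
      rw [RingOfIntegers.rank] at hc
      have hinj : Set.InjOn (fun v : HeightOneSpectrum (𝓞 K) => v.asIdeal)
          {v | v.asIdeal ∈ (Ideal.span {(p : ℤ)}).primesOver (𝓞 K)} :=
        fun v _ v' _ h => HeightOneSpectrum.ext h
      have hsub : (fun v : HeightOneSpectrum (𝓞 K) => v.asIdeal) ''
          {v | v.asIdeal ∈ (Ideal.span {(p : ℤ)}).primesOver (𝓞 K)} ⊆
          (Ideal.span {(p : ℤ)}).primesOver (𝓞 K) := by
        rintro _ ⟨v, hv, rfl⟩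
        exact hv
      refine ⟨Set.Finite.of_finite_image (hf.subset hsub) hinj, ?_⟩
      rw [← Set.ncard_image_of_injOn hinj]
      exact (Set.ncard_le_ncard hsub hf).trans hc) (by
      rintro v hv
      obtain ⟨p, hp, hmem, hle⟩ := BCnt_prime v
      rw [Set.mem_iUnion₂]
      exact ⟨p, ⟨hp, hle.trans hv⟩, BCnt_over v hp hmem⟩)
  refine h1.2.trans (Nat.mul_le_mul_left _ ?_)
  have h2 : {p : ℕ | p.Prime ∧ p ≤ m} = ((Finset.range (m + 1)).filter Nat.Prime : Finset ℕ) := by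
    ext p
    simp only [Set.mem_setOf_eq, Finset.coe_filter, Finset.mem_range, Nat.lt_succ_iff]
    tauto
  rw [h2, Set.ncard_coe_finset, Nat.primeCounting, Nat.primeCounting', Nat.count_eq_card_filter_range]

theorem nv_little (ε : ℝ) (hε : 0 < ε) : ∃ Y₀ : ℝ, ∀ Y : ℝ, Y₀ ≤ Y →
    ({v : HeightOneSpectrum (𝓞 K) | (Nv v : ℝ) ≤ Y}.ncard : ℝ) ≤ ε * Y := by
  set n : ℝ := (Module.finrank ℚ K : ℝ) with hn
  have hn0 : 0 ≤ n := Nat.cast_nonneg _
  have e1 := Chebyshev.eventually_primeCounting_le (ε := 1) one_pos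
  have e2 : ∀ᶠ Y : ℝ in Filter.atTop, n * (Real.log 4 + 1) / ε ≤ Real.log Y :=
    Real.tendsto_log_atTop.eventually_ge_atTop _
  have e3 : ∀ᶠ Y : ℝ in Filter.atTop, (1 : ℝ) < Y := Filter.eventually_gt_atTop 1
  obtain ⟨Y₀, h0⟩ := Filter.eventually_atTop.1 (e1.and (e2.and e3))
  refine ⟨Y₀, fun Y hY => ?_⟩
  obtain ⟨h1, h2, h3⟩ := h0 Y hY
  have hlog : 0 < Real.log Y := Real.log_pos h3
  have h4 : ({v : HeightOneSpectrum (𝓞 K) | (Nv v : ℝ) ≤ Y}.ncard : ℝ) ≤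
      n * (Nat.primeCounting ⌊Y⌋₊ : ℝ) := by
    have h5 := (Set.ncard_le_ncard (Pk_sub K (by linarith : (0 : ℝ) ≤ Y)) (prc_finite K _)).trans
      (Pk_count K ⌊Y⌋₊)
    have h6 : ((({v : HeightOneSpectrum (𝓞 K) | (Nv v : ℝ) ≤ Y}.ncard : ℕ)) : ℝ) ≤
        ((Module.finrank ℚ K * Nat.primeCounting ⌊Y⌋₊ : ℕ) : ℝ) := by exact_mod_cast h5
    rw [Nat.cast_mul] at h6
    exact h6
  refine h4.trans ?_
  have h7 : n * (Nat.primeCounting ⌊Y⌋₊ : ℝ) ≤ n * ((Real.log 4 + 1) * Y / Real.log Y) := by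
    apply mul_le_mul_of_nonneg_left _ hn0
    exact h1
  refine h7.trans ?_
  have h8 : n * (Real.log 4 + 1) ≤ ε * Real.log Y := by
    have := (div_le_iff₀ hε).1 h2
    linarith
  have h9 : n * ((Real.log 4 + 1) * Y / Real.log Y) = (n * (Real.log 4 + 1)) / Real.log Y * Y := by
    ring
  rw [h9]
  apply mul_le_mul_of_nonneg_right _ (by linarith)
  rw [div_le_iff₀ hlog]
  exact h8

end H36PP

end S_H36_PP_Pk

section S_H36_PP_Sm

set_option autoImplicit false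
set_option linter.unusedSectionVars false

open NumberField IsDedekindDomain H76PP Pool.Agent.H42.PC

namespace H36PP

variable (K : Type) [Field K] [NumberField K]

theorem Sm_fib (m : ℕ) (hm : m.Prime) (G : Finset (HeightOneSpectrum (𝓞 K)))
    (hG : ∀ v ∈ G, (m : 𝓞 K) ∈ v.asIdeal) : G.card ≤ Module.finrank ℚ K := by
  have hpr : (Ideal.span {(m : ℤ)}).IsPrime := by
    rw [Ideal.span_singleton_prime (by exact_mod_cast hm.ne_zero)]
    exact Nat.prime_iff_prime_int.1 hm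
  obtain ⟨hf, hc⟩ := BCnt_card (S := 𝓞 K) (Ideal.span {(m : ℤ)})
  rw [RingOfIntegers.rank] at hc
  have hinj : Set.InjOn (fun v : HeightOneSpectrum (𝓞 K) => v.asIdeal) (G : Set (HeightOneSpectrum (𝓞 K))) :=
    fun v _ v' _ h => HeightOneSpectrum.ext h
  have hsub : (fun v : HeightOneSpectrum (𝓞 K) => v.asIdeal) '' (G : Set (HeightOneSpectrum (𝓞 K))) ⊆
      (Ideal.span {(m : ℤ)}).primesOver (𝓞 K) := by
    rintro _ ⟨v, hv, rfl⟩
    exact BCnt_over v hm (hG v hv)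
  rw [← Set.ncard_coe_finset, ← Set.ncard_image_of_injOn hinj]
  exact (Set.ncard_le_ncard hsub hf).trans hc

theorem summable_Nv : Summable (fun v : HeightOneSpectrum (𝓞 K) => (1 : ℝ) / (Nv v : ℝ) ^ 2) := by
  classical
  choose p hp hmem hle using fun v : HeightOneSpectrum (𝓞 K) => BCnt_prime v
  have hsum : Summable (fun m : ℕ => (1 : ℝ) / (m : ℝ) ^ 2) :=
    Real.summable_one_div_nat_pow.2 (by norm_num)
  refine summable_of_sum_le (c := (Module.finrank ℚ K : ℝ) * ∑' m : ℕ, (1 : ℝ) / (m : ℝ) ^ 2)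
    (fun v => by positivity) ?_
  intro F
  have h1 : ∑ v ∈ F, (1 : ℝ) / (Nv v : ℝ) ^ 2 ≤ ∑ v ∈ F, (1 : ℝ) / (p v : ℝ) ^ 2 := by
    refine Finset.sum_le_sum fun v _ => ?_
    have h2 : (0 : ℝ) < p v := by exact_mod_cast (hp v).pos
    have h3 : (p v : ℝ) ≤ Nv v := by exact_mod_cast hle v
    exact one_div_le_one_div_of_le (by positivity) (pow_le_pow_left₀ h2.le h3 2)
  refine h1.trans ?_
  rw [Finset.sum_comp (fun m : ℕ => (1 : ℝ) / (m : ℝ) ^ 2) p]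
  calc ∑ m ∈ F.image p, (F.filter (fun v => p v = m)).card • ((1 : ℝ) / (m : ℝ) ^ 2)
      ≤ ∑ m ∈ F.image p, (Module.finrank ℚ K : ℝ) * ((1 : ℝ) / (m : ℝ) ^ 2) := by
        refine Finset.sum_le_sum fun m hm => ?_
        obtain ⟨v0, -, hv0⟩ := Finset.mem_image.1 hm
        rw [nsmul_eq_mul]
        refine mul_le_mul_of_nonneg_right ?_ (by positivity)
        have := Sm_fib K m (hv0 ▸ hp v0) (F.filter (fun v => p v = m)) (fun v hv => by
          have h5 := (Finset.mem_filter.1 hv).2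
          rw [← h5]
          exact hmem v)
        exact_mod_cast this
    _ = (Module.finrank ℚ K : ℝ) * ∑ m ∈ F.image p, ((1 : ℝ) / (m : ℝ) ^ 2) := by rw [Finset.mul_sum]
    _ ≤ _ := mul_le_mul_of_nonneg_left (hsum.sum_le_tsum _ fun m _ => by positivity) (Nat.cast_nonneg _)

variable {K}

theorem Sm_pos (v : HeightOneSpectrum (𝓞 K)) : Nv v ≠ 0 := by
  unfold Nv
  rw [Ne, Ideal.absNorm_eq_zero_iff]
  exact v.ne_bot

variable (K)

theorem five_le {v : HeightOneSpectrum (𝓞 K)} (h : (6 : 𝓞 K) ∉ v.asIdeal) : 5 ≤ Nv v := by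
  have hp := v.isPrime
  have h0 := Sm_pos v
  have h1 : Nv v ≠ 1 := by
    unfold Nv
    rw [Ne, Ideal.absNorm_eq_one_iff]
    exact hp.ne_top
  have hm : ((Nv v : ℕ) : 𝓞 K) ∈ v.asIdeal := Ideal.absNorm_mem _
  have e2 : (2 : 𝓞 K) ∈ v.asIdeal → False := fun h2 => h (by
    have := v.asIdeal.mul_mem_right 3 h2
    have e : (2 : 𝓞 K) * 3 = 6 := by norm_num
    rwa [e] at this)
  have e3 : (3 : 𝓞 K) ∈ v.asIdeal → False := fun h2 => h (by
    have := v.asIdeal.mul_mem_right 2 h2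
    have e : (3 : 𝓞 K) * 2 = 6 := by norm_num
    rwa [e] at this)
  by_contra hlt
  have h5 : Nv v = 2 ∨ Nv v = 3 ∨ Nv v = 4 := by omega
  rcases h5 with h5 | h5 | h5
  · rw [h5] at hm
    exact e2 (by exact_mod_cast hm)
  · rw [h5] at hm
    exact e3 (by exact_mod_cast hm)
  · rw [h5] at hm
    have h6 : (2 : 𝓞 K) * 2 ∈ v.asIdeal := by
      have e : (2 : 𝓞 K) * 2 = ((4 : ℕ) : 𝓞 K) := by norm_num
      rw [e]
      exact hm
    rcases hp.mem_or_mem h6 with h7 | h7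
    · exact e2 h7
    · exact e2 h7

theorem prod_lower : ∃ c : ℝ, 0 < c ∧ ∀ F : Finset (HeightOneSpectrum (𝓞 K)),
    (∀ v ∈ F, (6 : 𝓞 K) ∉ v.asIdeal) → c ≤ ∏ v ∈ F, (1 - 3 / (Nv v : ℝ) ^ 2) := by
  refine ⟨Real.exp (-6 * ∑' v : HeightOneSpectrum (𝓞 K), (1 : ℝ) / (Nv v : ℝ) ^ 2), Real.exp_pos _, ?_⟩
  intro F hF
  have h1 : ∀ v ∈ F, Real.exp (-6 * ((1 : ℝ) / (Nv v : ℝ) ^ 2)) ≤ 1 - 3 / (Nv v : ℝ) ^ 2 := by
    intro v hv
    have h2 : (5 : ℝ) ≤ Nv v := by exact_mod_cast five_le K (hF v hv)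
    obtain ⟨x, hx⟩ : ∃ x : ℝ, x = 3 / (Nv v : ℝ) ^ 2 := ⟨_, rfl⟩
    have h3 : (25 : ℝ) ≤ (Nv v : ℝ) ^ 2 := by nlinarith
    have hx0 : 0 ≤ x := by rw [hx]; positivity
    have hx1 : x ≤ 1 / 2 := by
      rw [hx, div_le_iff₀ (by linarith)]
      linarith
    have e1 : -6 * ((1 : ℝ) / (Nv v : ℝ) ^ 2) = -(2 * x) := by rw [hx]; ring
    rw [e1, ← hx, Real.exp_neg]
    have h4 : 1 + 2 * x ≤ Real.exp (2 * x) := by
      have := Real.add_one_le_exp (2 * x)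
      linarith
    have h5 : 1 ≤ (1 - x) * Real.exp (2 * x) := by
      have h6 : (1 - x) * (1 + 2 * x) ≤ (1 - x) * Real.exp (2 * x) :=
        mul_le_mul_of_nonneg_left h4 (by linarith)
      have h7 : 0 ≤ x * (1 - 2 * x) := mul_nonneg hx0 (by linarith)
      have h8 : (1 - x) * (1 + 2 * x) = 1 + x * (1 - 2 * x) := by ring
      linarith
    rw [inv_le_iff_one_le_mul₀ (Real.exp_pos _)]
    exact h5
  have h2 : ∏ v ∈ F, Real.exp (-6 * ((1 : ℝ) / (Nv v : ℝ) ^ 2)) ≤ ∏ v ∈ F, (1 - 3 / (Nv v : ℝ) ^ 2) :=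
    Finset.prod_le_prod (fun v _ => (Real.exp_pos _).le) h1
  refine le_trans ?_ h2
  rw [← Real.exp_sum, ← Finset.mul_sum]
  apply Real.exp_le_exp.2
  have h3 : ∑ v ∈ F, (1 : ℝ) / (Nv v : ℝ) ^ 2 ≤ ∑' v : HeightOneSpectrum (𝓞 K), (1 : ℝ) / (Nv v : ℝ) ^ 2 :=
    (summable_Nv K).sum_le_tsum F fun v _ => by positivity
  linarith

end H36PP

end S_H36_PP_Sm
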