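import Mathlib
import Pool.Agent.H42.PC.BCnt
import Pool.Agent.H76.PM.A1
import Pool.Agent.H76.PM.A3
import Pool.Agent.H76.PM.C1

/-! A positive proportion of elliptic curves, part C2: this file joins several modules to save build time. -/

set_option autoImplicit false

section S_H36_PP_Pr

set_option autoImplicit false
set_option linter.unusedSectionVars false

open WithZero NumberField IsDedekindDomain H76PP

namespace H36PP

variable (K : Type) [Field K] [NumberField K]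

theorem inf_primes : {v : HeightOneSpectrum (𝓞 K) | (6 : 𝓞 K) ∉ v.asIdeal}.Infinite := by
  classical
  have hex : ∀ l : ℕ, l.Prime → ∃ v : HeightOneSpectrum (𝓞 K), ((l : ℕ) : 𝓞 K) ∈ v.asIdeal := by
    intro l hl
    have hne : Ideal.span {((l : ℕ) : 𝓞 K)} ≠ ⊤ := by
      intro h
      rw [Ideal.span_singleton_eq_top] at h
      have h1 : IsUnit (Algebra.norm ℤ ((l : ℕ) : 𝓞 K)) := h.map (Algebra.norm ℤ)
      have h2 : Algebra.norm ℤ ((l : ℕ) : 𝓞 K) = (l : ℤ) ^ Module.finrank ℤ (𝓞 K) := by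
        have := Algebra.norm_algebraMap (S := 𝓞 K) ((l : ℕ) : ℤ)
        rw [← this]
        congr 1
        simp
      rw [h2, isUnit_pow_iff (Module.finrank_pos (R := ℤ) (M := 𝓞 K)).ne'] at h1
      rw [Int.isUnit_iff] at h1
      rcases h1 with h1 | h1
      · have : l = 1 := by exact_mod_cast h1
        exact hl.one_lt.ne' this
      · have : (0 : ℤ) ≤ l := Int.natCast_nonneg l
        omega
    obtain ⟨M, hM, hle⟩ := Ideal.exists_le_maximal _ hne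
    have hl0 : ((l : ℕ) : 𝓞 K) ≠ 0 := by
      exact_mod_cast hl.ne_zero
    have hMem : ((l : ℕ) : 𝓞 K) ∈ M := hle (Ideal.mem_span_singleton_self _)
    refine ⟨⟨M, hM.isPrime, ?_⟩, hMem⟩
    rintro rfl
    exact hl0 (by simpa using hMem)
  haveI : Nonempty (HeightOneSpectrum (𝓞 K)) := ⟨(hex 2 Nat.prime_two).choose⟩
  choose! f hf using hex
  have hcop : ∀ (v : HeightOneSpectrum (𝓞 K)) (m n : ℕ), m.Coprime n → ((m : ℕ) : 𝓞 K) ∈ v.asIdeal →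
      ((n : ℕ) : 𝓞 K) ∈ v.asIdeal → False := by
    intro v m n hmn hm hn
    have h1 : IsCoprime (m : ℤ) (n : ℤ) := Nat.isCoprime_iff_coprime.mpr hmn
    obtain ⟨a, b, hab⟩ := h1
    have h2 : (a : 𝓞 K) * (m : 𝓞 K) + (b : 𝓞 K) * (n : 𝓞 K) = 1 := by
      exact_mod_cast congrArg (fun t : ℤ => (t : 𝓞 K)) hab
    apply v.isPrime.ne_top
    rw [Ideal.eq_top_iff_one, ← h2]
    exact Ideal.add_mem _ (Ideal.mul_mem_left _ _ hm) (Ideal.mul_mem_left _ _ hn)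
  have hS : {l : ℕ | l.Prime ∧ 5 ≤ l}.Infinite := by
    have h := Nat.infinite_setOf_prime
    have : {l : ℕ | l.Prime ∧ 5 ≤ l} = {p | Nat.Prime p} \ {l | l < 5} := by
      ext l
      simp [not_lt]
    rw [this]
    exact h.diff (Set.finite_lt_nat 5)
  refine Set.infinite_of_injOn_mapsTo (f := f) (s := {l : ℕ | l.Prime ∧ 5 ≤ l}) ?_ ?_ hS
  · intro l hl l' hl' heq
    by_contra hne
    have hc : l.Coprime l' := (Nat.coprime_primes hl.1 hl'.1).mpr hne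
    refine hcop (f l) l l' hc (hf l hl.1) ?_
    rw [heq]
    exact hf l' hl'.1
  · intro l hl h6
    have hc : l.Coprime 6 := by
      rw [Nat.Prime.coprime_iff_not_dvd hl.1]
      intro hd
      have : l ∣ 2 * 3 := by simpa using hd
      rcases (Nat.Prime.dvd_mul hl.1).mp this with h | h
      · have := Nat.le_of_dvd (by norm_num) h
        have := hl.2
        omega
      · have := Nat.le_of_dvd (by norm_num) h
        have := hl.2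
        omega
    exact hcop (f l) l 6 hc (hf l hl.1) (by exact_mod_cast h6)

variable {K}

theorem Pr_exists_notMem {v q : HeightOneSpectrum (𝓞 K)} (h : v ≠ q) :
    ∃ z ∈ q.asIdeal, z ∉ v.asIdeal := by
  by_contra hcon
  push Not at hcon
  have hle : q.asIdeal ≤ v.asIdeal := fun z hz => hcon z hz
  have hq : q.asIdeal.IsMaximal := q.isPrime.isMaximal q.ne_bot
  have := hq.eq_of_le v.isPrime.ne_top hle
  exact h (HeightOneSpectrum.ext this.symm)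

theorem Pr_val_le (v : HeightOneSpectrum (𝓞 K)) (x : 𝓞 K) : v.valuation K (x : K) ≤ 1 :=
  v.valuation_le_one x

theorem Pr_val_one {v : HeightOneSpectrum (𝓞 K)} {x : 𝓞 K} (h : x ∉ v.asIdeal) :
    v.valuation K (x : K) = 1 := by
  have h2 : v.valuation K (x : K) = v.intValuation x := v.valuation_of_algebraMap x
  have h3 : ¬ v.intValuation x < 1 := fun h4 => h ((v.intValuation_lt_one_iff_mem x).mp h4)
  rw [h2]
  exact le_antisymm (v.intValuation_le_one x) (not_lt.mp h3)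

theorem Pr_val_mem {v : HeightOneSpectrum (𝓞 K)} {x : 𝓞 K} (h : x ∈ v.asIdeal) :
    v.valuation K (x : K) ≤ exp (-1) := by
  have h1 := (v.intValuation_le_pow_iff_mem x 1).mpr (by simpa using h)
  have h2 : v.valuation K (x : K) = v.intValuation x := v.valuation_of_algebraMap x
  rw [h2]
  simpa using h1

/-- the key relations -/
theorem Pr_key {p q : HeightOneSpectrum (𝓞 K)} {I : Ideal (𝓞 K)}
    {a b : 𝓞 K} (ha : p.asIdeal * I = Ideal.span {a}) (hb : q.asIdeal * I = Ideal.span {b})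
    {z : 𝓞 K} (hz : z ∈ q.asIdeal) : ∃ w ∈ p.asIdeal, z * a = b * w := by
  have h1 : z * a ∈ q.asIdeal * (p.asIdeal * I) := by
    rw [ha]
    exact Ideal.mul_mem_mul hz (Ideal.mem_span_singleton_self a)
  have h2 : q.asIdeal * (p.asIdeal * I) = Ideal.span {b} * p.asIdeal := by
    rw [← hb]
    ring
  rw [h2, Ideal.mem_span_singleton_mul] at h1
  obtain ⟨w, hw, hwe⟩ := h1
  exact ⟨w, hw, hwe.symm⟩

theorem Pr_ne_zero {p : HeightOneSpectrum (𝓞 K)} {I : Ideal (𝓞 K)} (hI : I ≠ ⊥)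
    {a : 𝓞 K} (ha : p.asIdeal * I = Ideal.span {a}) : a ≠ 0 := by
  rintro rfl
  rw [Ideal.span_singleton_eq_bot.mpr rfl, Ideal.mul_eq_bot] at ha
  rcases ha with h | h
  · exact p.ne_bot h
  · exact hI h

/-- at `v ≠ q`: `v a ≤ v b` -/
theorem Pr_le_of_ne {p q v : HeightOneSpectrum (𝓞 K)} {I : Ideal (𝓞 K)}
    {a b : 𝓞 K} (ha : p.asIdeal * I = Ideal.span {a}) (hb : q.asIdeal * I = Ideal.span {b})
    (hv : v ≠ q) : v.valuation K (a : K) ≤ v.valuation K (b : K) := by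
  obtain ⟨z, hz, hzv⟩ := Pr_exists_notMem hv
  obtain ⟨w, hw, hwe⟩ := Pr_key ha hb hz
  have h1 : v.valuation K ((z : K) * (a : K)) = v.valuation K ((b : K) * (w : K)) := by
    congr 1
    exact_mod_cast congrArg (fun t : 𝓞 K => (t : K)) hwe
  rw [map_mul, map_mul, Pr_val_one hzv, one_mul] at h1
  rw [h1]
  exact mul_le_of_le_one_right' (Pr_val_le v w)

/-- at `p ≠ q`: `p a = p b * exp (-1)` -/
theorem Pr_at {p q : HeightOneSpectrum (𝓞 K)} (hpq : p ≠ q) {I : Ideal (𝓞 K)}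
    {a b : 𝓞 K} (ha : p.asIdeal * I = Ideal.span {a}) (hb : q.asIdeal * I = Ideal.span {b}) :
    p.valuation K (a : K) = p.valuation K (b : K) * exp (-1) := by
  apply le_antisymm
  · obtain ⟨z, hz, hzv⟩ := Pr_exists_notMem hpq
    obtain ⟨w, hw, hwe⟩ := Pr_key ha hb hz
    have h1 : p.valuation K ((z : K) * (a : K)) = p.valuation K ((b : K) * (w : K)) := by
      congr 1
      exact_mod_cast congrArg (fun t : 𝓞 K => (t : K)) hwe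
    rw [map_mul, map_mul, Pr_val_one hzv, one_mul] at h1
    rw [h1]
    exact mul_le_mul_right (Pr_val_mem hw) _
  · obtain ⟨w, hw⟩ := p.valuation_exists_uniformizer' K
    have hwp : w ∈ p.asIdeal := by
      rw [← HeightOneSpectrum.valuation_lt_one_iff_mem (K := K)]
      rw [hw, ← exp_zero]
      exact exp_lt_exp.mpr (by norm_num)
    obtain ⟨z, hz, hwe⟩ := Pr_key hb ha hwp
    have h1 : p.valuation K ((w : K) * (b : K)) = p.valuation K ((a : K) * (z : K)) := by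
      congr 1
      exact_mod_cast congrArg (fun t : 𝓞 K => (t : K)) hwe
    rw [map_mul, map_mul] at h1
    have hw' : p.valuation K (w : K) = exp (-1) := hw
    rw [hw', mul_comm] at h1
    rw [h1]
    exact mul_le_of_le_one_right' (Pr_val_le p z)

theorem quot_val {p q : HeightOneSpectrum (𝓞 K)} (hpq : p ≠ q) {I : Ideal (𝓞 K)} (hI : I ≠ ⊥)
    {a b : 𝓞 K} (ha : p.asIdeal * I = Ideal.span {a}) (hb : q.asIdeal * I = Ideal.span {b}) :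
    a ≠ 0 ∧ b ≠ 0 ∧ p.valuation K ((a : K) / (b : K)) = exp (-1) ∧
      q.valuation K ((a : K) / (b : K)) = exp 1 ∧
      ∀ v : HeightOneSpectrum (𝓞 K), v ≠ p → v ≠ q → v.valuation K ((a : K) / (b : K)) = 1 := by
  have ha0 : a ≠ 0 := Pr_ne_zero hI ha
  have hb0 : b ≠ 0 := Pr_ne_zero hI hb
  have hva : ∀ v : HeightOneSpectrum (𝓞 K), v.valuation K (a : K) ≠ 0 := fun v =>
    (Valuation.ne_zero_iff _).2 (by simpa using ha0)
  have hvb : ∀ v : HeightOneSpectrum (𝓞 K), v.valuation K (b : K) ≠ 0 := fun v =>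
    (Valuation.ne_zero_iff _).2 (by simpa using hb0)
  refine ⟨ha0, hb0, ?_, ?_, ?_⟩
  · rw [map_div₀, Pr_at hpq ha hb, mul_comm, mul_div_assoc, div_self (hvb p), mul_one]
  · rw [map_div₀, Pr_at hpq.symm hb ha, div_mul_eq_div_div, div_self (hva q), one_div, ← exp_neg]
    simp
  · intro v hvp hvq
    have h1 := Pr_le_of_ne ha hb hvq
    have h2 := Pr_le_of_ne hb ha hvp
    rw [map_div₀, le_antisymm h1 h2, div_self (hvb v)]

theorem quot_two {q : HeightOneSpectrum (𝓞 K)} (h6 : (6 : 𝓞 K) ∉ q.asIdeal) {I : Ideal (𝓞 K)}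
    (hI : I ≠ ⊥) {a b : 𝓞 K} (hb : q.asIdeal * I = Ideal.span {b})
    (hab : a - b ∈ Ideal.span {(8 : 𝓞 K)} * I) {v : HeightOneSpectrum (𝓞 K)}
    (hv : v.valuation K 2 < 1) : v.valuation K ((a : K) / (b : K) - 1) ≤ v.valuation K 8 := by
  have hb0 : b ≠ 0 := Pr_ne_zero hI hb
  have hbK : (b : K) ≠ 0 := by simpa using hb0
  have hvb : v.valuation K (b : K) ≠ 0 := (Valuation.ne_zero_iff _).2 hbK
  have h2 : (2 : 𝓞 K) ∈ v.asIdeal := by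
    have e : ((2 : 𝓞 K) : K) = 2 := map_ofNat (algebraMap (𝓞 K) K) 2
    have h3 : v.valuation K ((2 : 𝓞 K) : K) < 1 := by
      rw [e]
      exact hv
    exact (HeightOneSpectrum.valuation_lt_one_iff_mem (K := K) v 2).mp h3
  have h6v : (6 : 𝓞 K) ∈ v.asIdeal := by
    have : (6 : 𝓞 K) = 3 * 2 := by norm_num
    rw [this]
    exact Ideal.mul_mem_left _ _ h2
  have hvq : v ≠ q := by
    rintro rfl
    exact h6 h6v
  rw [Ideal.mem_span_singleton_mul] at hab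
  obtain ⟨y, hy, hye⟩ := hab
  obtain ⟨z, hz, hzv⟩ := Pr_exists_notMem hvq
  have h3 : z * y ∈ Ideal.span {b} := by
    rw [← hb]
    exact Ideal.mul_mem_mul hz hy
  rw [Ideal.mem_span_singleton] at h3
  obtain ⟨c, hc⟩ := h3
  have h4 : v.valuation K (y : K) ≤ v.valuation K (b : K) := by
    have h1 : v.valuation K ((z : K) * (y : K)) = v.valuation K ((b : K) * (c : K)) := by
      congr 1
      exact_mod_cast congrArg (fun t : 𝓞 K => (t : K)) hc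
    rw [map_mul, map_mul, Pr_val_one hzv, one_mul] at h1
    rw [h1]
    exact mul_le_of_le_one_right' (Pr_val_le v c)
  have h5 : (a : K) / (b : K) - 1 = 8 * (y : K) / (b : K) := by
    have : (a : K) - (b : K) = 8 * (y : K) := by
      have h8 := congrArg (algebraMap (𝓞 K) K) hye
      rw [map_mul, map_sub, map_ofNat] at h8
      exact h8.symm
    rw [← this, sub_div, div_self hbK]
  rw [h5, map_div₀, map_mul, mul_div_assoc]
  apply mul_le_of_le_one_right'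
  rw [div_le_iff₀ (zero_lt_iff.mpr hvb), one_mul]
  exact h4

end H36PP

end S_H36_PP_Pr

section S_H36_PP_Ta

set_option autoImplicit false
set_option linter.unusedSectionVars false

open NumberField IsDedekindDomain H76PP

namespace H36PP

variable {K : Type} [Field K] [NumberField K]

lemma Ta_pos (v : HeightOneSpectrum (𝓞 K)) : (0 : ℝ) < (Nv v : ℝ) := by
  have h1 : Nv v ≠ 0 := fun h => v.ne_bot (Ideal.absNorm_eq_zero_iff.1 h)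
  exact_mod_cast Nat.pos_of_ne_zero h1

theorem tail_a {C : ℝ} (hC : 0 ≤ C) (hU : LatU K C) {X : ℝ} (hX : 1 ≤ X)
    (v : HeightOneSpectrum (𝓞 K)) :
    ({p : 𝓞 K × 𝓞 K | p ∈ Bx K X ∧ p.1 ≠ 0 ∧ p.1 ∈ v.asIdeal ∧ p.2 ∈ v.asIdeal}.ncard : ℝ) ≤
      4 * C ^ 2 * (X ^ (5 * Module.finrank ℚ K) * (1 / (Nv v : ℝ) ^ 2)) := by
  obtain ⟨n, hn⟩ : ∃ n : ℕ, n = Module.finrank ℚ K := ⟨_, rfl⟩
  obtain ⟨q, hq⟩ : ∃ q : ℝ, q = (Nv v : ℝ) := ⟨_, rfl⟩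
  have hq0 : 0 < q := by rw [hq]; exact Ta_pos v
  have hX0 : 0 ≤ X := by linarith
  have hR : 0 ≤ 4 * C ^ 2 * (X ^ (5 * n) * (1 / q ^ 2)) := by positivity
  rw [← hn, ← hq]
  rcases Set.eq_empty_or_nonempty
    {p : 𝓞 K × 𝓞 K | p ∈ Bx K X ∧ p.1 ≠ 0 ∧ p.1 ∈ v.asIdeal ∧ p.2 ∈ v.asIdeal} with hS | hS
  · rw [hS, Set.ncard_empty, Nat.cast_zero]
    exact hR
  · obtain ⟨p, hp, hp0, hpv, -⟩ := hS
    have h1 := pow_le_of_mem (e := 1) (sq_nonneg X) hp.1 hp0 (by rw [pow_one]; exact hpv)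
    rw [pow_one, ← hn, ← hq, ← pow_mul] at h1
    have h2 : X ^ (2 * n) ≤ X ^ (3 * n) := pow_le_pow_right₀ hX (by omega)
    have hsub : {p : 𝓞 K × 𝓞 K | p ∈ Bx K X ∧ p.1 ≠ 0 ∧ p.1 ∈ v.asIdeal ∧ p.2 ∈ v.asIdeal} ⊆
        {a : 𝓞 K | a ∈ bx K (X ^ 2) ∧ a - 0 ∈ v.asIdeal} ×ˢ
          {a : 𝓞 K | a ∈ bx K (X ^ 3) ∧ a - 0 ∈ v.asIdeal} := by
      rintro p ⟨hp, -, h3, h4⟩
      exact ⟨⟨hp.1, by rwa [sub_zero]⟩, ⟨hp.2, by rwa [sub_zero]⟩⟩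
    have hf1 : {a : 𝓞 K | a ∈ bx K (X ^ 2) ∧ a - 0 ∈ v.asIdeal}.Finite :=
      (bx_finite K (X ^ 2)).subset fun a ha => ha.1
    have hf2 : {a : 𝓞 K | a ∈ bx K (X ^ 3) ∧ a - 0 ∈ v.asIdeal}.Finite :=
      (bx_finite K (X ^ 3)).subset fun a ha => ha.1
    have h3 := Set.ncard_le_ncard hsub (hf1.prod hf2)
    rw [Set.ncard_prod] at h3
    have h4 := hU v.asIdeal v.ne_bot 0 (X ^ 2) (by positivity)
    have h5 := hU v.asIdeal v.ne_bot 0 (X ^ 3) (by positivity)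
    have hN : (Ideal.absNorm v.asIdeal : ℝ) = q := hq.symm
    rw [hN, ← hn, ← pow_mul] at h4 h5
    have h6 : C * (X ^ (2 * n) / q + 1) ≤ 2 * C * (X ^ (2 * n) / q) := by
      have : 1 ≤ X ^ (2 * n) / q := (one_le_div hq0).2 h1
      nlinarith
    have h7 : C * (X ^ (3 * n) / q + 1) ≤ 2 * C * (X ^ (3 * n) / q) := by
      have : 1 ≤ X ^ (3 * n) / q := (one_le_div hq0).2 (h1.trans h2)
      nlinarith
    have h8 : (({p : 𝓞 K × 𝓞 K | p ∈ Bx K X ∧ p.1 ≠ 0 ∧ p.1 ∈ v.asIdeal ∧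
        p.2 ∈ v.asIdeal}.ncard : ℕ) : ℝ) ≤
        ({a : 𝓞 K | a ∈ bx K (X ^ 2) ∧ a - 0 ∈ v.asIdeal}.ncard : ℝ) *
          ({a : 𝓞 K | a ∈ bx K (X ^ 3) ∧ a - 0 ∈ v.asIdeal}.ncard : ℝ) := by
      exact_mod_cast h3
    refine h8.trans ((mul_le_mul (h4.trans h6) (h5.trans h7) (Nat.cast_nonneg _)
      (by positivity)).trans (le_of_eq ?_))
    have h9 : 5 * n = 2 * n + 3 * n := by ring
    rw [h9, pow_add]
    field_simp
    ring

theorem tail_b {C : ℝ} (hC : 0 ≤ C) (hU : LatU K C) {X : ℝ} (hX : 1 ≤ X)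
    {v : HeightOneSpectrum (𝓞 K)} (h : (6 : 𝓞 K) ∉ v.asIdeal) :
    ({p : 𝓞 K × 𝓞 K | p ∈ Bx K X ∧ p.1 ∉ v.asIdeal ∧ dsc p.1 p.2 ∈ v.asIdeal ^ 2}.ncard : ℝ) ≤
      4 * C ^ 2 * (X ^ (5 * Module.finrank ℚ K) * (1 / (Nv v : ℝ) ^ 2) +
        X ^ (2 * Module.finrank ℚ K)) := by
  obtain ⟨n, hn⟩ : ∃ n : ℕ, n = Module.finrank ℚ K := ⟨_, rfl⟩
  obtain ⟨q, hq⟩ : ∃ q : ℝ, q = (Nv v : ℝ) := ⟨_, rfl⟩
  have hq0 : 0 < q := by rw [hq]; exact Ta_pos v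
  have hX0 : 0 ≤ X := by linarith
  rw [← hn, ← hq]
  obtain ⟨b, hb⟩ : ∃ b : ℝ, b = C * (X ^ (3 * n) / q ^ 2 + 1) := ⟨_, rfl⟩
  have hb0 : 0 ≤ b := by rw [hb]; positivity
  have hv2 : v.asIdeal ^ 2 ≠ ⊥ := pow_ne_zero 2 v.ne_bot
  have hcl : ∀ B₀ : 𝓞 K, ({a : 𝓞 K | a ∈ bx K (X ^ 3) ∧ a - B₀ ∈ v.asIdeal ^ 2}.ncard : ℝ) ≤ b := by
    intro B₀
    have h1 := hU (v.asIdeal ^ 2) hv2 B₀ (X ^ 3) (by positivity)
    have hN : (Ideal.absNorm (v.asIdeal ^ 2) : ℝ) = q ^ 2 := by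
      rw [map_pow, Nat.cast_pow, hq]
      rfl
    rw [hN, ← hn, ← pow_mul] at h1
    rw [hb]
    exact h1
  have hfin : ∀ B₀ : 𝓞 K, {a : 𝓞 K | a ∈ bx K (X ^ 3) ∧ a - B₀ ∈ v.asIdeal ^ 2}.Finite :=
    fun B₀ => (bx_finite K (X ^ 3)).subset fun a ha => ha.1
  have hs : {A : 𝓞 K | A ∈ bx K (X ^ 2) ∧ A ∉ v.asIdeal}.Finite :=
    (bx_finite K (X ^ 2)).subset fun a ha => ha.1
  have hpiece : ∀ A ∈ {A : 𝓞 K | A ∈ bx K (X ^ 2) ∧ A ∉ v.asIdeal},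
      ({p : 𝓞 K × 𝓞 K | p.1 = A ∧ p.2 ∈ bx K (X ^ 3) ∧ dsc A p.2 ∈ v.asIdeal ^ 2}).Finite ∧
      ({p : 𝓞 K × 𝓞 K | p.1 = A ∧ p.2 ∈ bx K (X ^ 3) ∧ dsc A p.2 ∈ v.asIdeal ^ 2}).ncard ≤
        ⌊2 * b⌋₊ := by
    rintro A ⟨-, hA⟩
    obtain ⟨B₀, hB⟩ := two_classes h hA
    have hsub : {p : 𝓞 K × 𝓞 K | p.1 = A ∧ p.2 ∈ bx K (X ^ 3) ∧ dsc A p.2 ∈ v.asIdeal ^ 2} ⊆
        (fun B => (A, B)) '' ({a : 𝓞 K | a ∈ bx K (X ^ 3) ∧ a - B₀ ∈ v.asIdeal ^ 2} ∪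
          {a : 𝓞 K | a ∈ bx K (X ^ 3) ∧ a - (-B₀) ∈ v.asIdeal ^ 2}) := by
      rintro ⟨A', B⟩ ⟨h1, h2, h3⟩
      have h1' : A' = A := h1
      refine ⟨B, ?_, by rw [h1']⟩
      rcases hB B h3 with h4 | h4
      · exact Or.inl ⟨h2, h4⟩
      · exact Or.inr ⟨h2, h4⟩
    have hfu := (hfin B₀).union (hfin (-B₀))
    refine ⟨(hfu.image _).subset hsub, Nat.le_floor ?_⟩
    have h1 := Set.ncard_le_ncard hsub (hfu.image _)
    have h2 := Set.ncard_image_le (f := fun B => (A, B)) hfu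
    have h3 := Set.ncard_union_le {a : 𝓞 K | a ∈ bx K (X ^ 3) ∧ a - B₀ ∈ v.asIdeal ^ 2}
      {a : 𝓞 K | a ∈ bx K (X ^ 3) ∧ a - (-B₀) ∈ v.asIdeal ^ 2}
    have h4 := h1.trans (h2.trans h3)
    have h5 : (({p : 𝓞 K × 𝓞 K | p.1 = A ∧ p.2 ∈ bx K (X ^ 3) ∧
        dsc A p.2 ∈ v.asIdeal ^ 2}.ncard : ℕ) : ℝ) ≤
        ({a : 𝓞 K | a ∈ bx K (X ^ 3) ∧ a - B₀ ∈ v.asIdeal ^ 2}.ncard : ℝ) +
          ({a : 𝓞 K | a ∈ bx K (X ^ 3) ∧ a - (-B₀) ∈ v.asIdeal ^ 2}.ncard : ℝ) := by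
      exact_mod_cast h4
    have h6 := hcl B₀
    have h7 := hcl (-B₀)
    linarith
  have hS := (Pool.Agent.H42.PC.BCnt_finite_le hs hpiece (t := {p : 𝓞 K × 𝓞 K | p ∈ Bx K X ∧
    p.1 ∉ v.asIdeal ∧ dsc p.1 p.2 ∈ v.asIdeal ^ 2}) (by
      rintro p ⟨hp, h1, h2⟩
      exact Set.mem_biUnion (x := p.1) ⟨hp.1, h1⟩ ⟨rfl, hp.2, h2⟩)).2
  have h1 := hU ⊤ top_ne_bot 0 (X ^ 2) (by positivity)
  rw [Ideal.absNorm_top, Nat.cast_one, div_one, ← hn, ← pow_mul] at h1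
  have h2 : ({A : 𝓞 K | A ∈ bx K (X ^ 2) ∧ A ∉ v.asIdeal}.ncard : ℝ) ≤ 2 * C * X ^ (2 * n) := by
    have h3 := Set.ncard_le_ncard (s := {A : 𝓞 K | A ∈ bx K (X ^ 2) ∧ A ∉ v.asIdeal})
      (t := {a : 𝓞 K | a ∈ bx K (X ^ 2) ∧ a - 0 ∈ (⊤ : Ideal (𝓞 K))})
      (fun a ha => ⟨ha.1, Submodule.mem_top⟩) ((bx_finite K (X ^ 2)).subset fun a ha => ha.1)
    have h4 : ({A : 𝓞 K | A ∈ bx K (X ^ 2) ∧ A ∉ v.asIdeal}.ncard : ℝ) ≤
        ({a : 𝓞 K | a ∈ bx K (X ^ 2) ∧ a - 0 ∈ (⊤ : Ideal (𝓞 K))}.ncard : ℝ) := by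
      exact_mod_cast h3
    have h5 : 1 ≤ X ^ (2 * n) := one_le_pow₀ hX
    have h6 : C * (X ^ (2 * n) + 1) ≤ 2 * C * X ^ (2 * n) := by nlinarith
    linarith
  have h3 : (({p : 𝓞 K × 𝓞 K | p ∈ Bx K X ∧ p.1 ∉ v.asIdeal ∧
      dsc p.1 p.2 ∈ v.asIdeal ^ 2}.ncard : ℕ) : ℝ) ≤
      (⌊2 * b⌋₊ : ℝ) * ({A : 𝓞 K | A ∈ bx K (X ^ 2) ∧ A ∉ v.asIdeal}.ncard : ℝ) := by
    exact_mod_cast hS
  have h4 : (⌊2 * b⌋₊ : ℝ) ≤ 2 * b := Nat.floor_le (by linarith)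
  refine h3.trans ((mul_le_mul h4 h2 (Nat.cast_nonneg _) (by linarith)).trans (le_of_eq ?_))
  have h9 : 5 * n = 2 * n + 3 * n := by ring
  rw [h9, pow_add, hb]
  field_simp
  ring

end H36PP

end S_H36_PP_Ta

section S_H36_PP_Tl

set_option autoImplicit false
set_option linter.unusedSectionVars false

open NumberField IsDedekindDomain H76PP

namespace H36PP

variable (K : Type) [Field K] [NumberField K]

variable {K}

theorem Tl_nv {X : ℝ} (hX : 1 ≤ X) {p : 𝓞 K × 𝓞 K} (hp : p ∈ Bx K X)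
    (h0 : dsc p.1 p.2 ≠ 0) {v : HeightOneSpectrum (𝓞 K)} (hv : dsc p.1 p.2 ∈ v.asIdeal ^ 2) :
    (Nv v : ℝ) ≤ 6 ^ Module.finrank ℚ K * X ^ (3 * Module.finrank ℚ K) := by
  have hX0 : 0 ≤ X := by linarith
  have h1 := pow_le_of_mem (by positivity) (dsc_bx hX0 hp) h0 hv
  have h2 : (31 * X ^ 6) ^ Module.finrank ℚ K ≤ (36 * X ^ 6) ^ Module.finrank ℚ K := by
    refine pow_le_pow_left₀ (by positivity) ?_ _
    have : 0 ≤ X ^ 6 := by positivity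
    linarith
  have h3 : (36 * X ^ 6) ^ Module.finrank ℚ K =
      (6 ^ Module.finrank ℚ K * X ^ (3 * Module.finrank ℚ K)) ^ 2 := by
    rw [pow_mul X 3, ← mul_pow, ← pow_mul, mul_comm (Module.finrank ℚ K) 2, pow_mul]
    congr 1
    ring
  rw [h3] at h2
  exact (pow_le_pow_iff_left₀ (Nat.cast_nonneg _) (by positivity) two_ne_zero).1 (h1.trans h2)

theorem Tl_sub {X : ℝ} (hX : 1 ≤ X) (M : ℕ) {V : Finset (HeightOneSpectrum (𝓞 K))}
    (hV : ∀ v : HeightOneSpectrum (𝓞 K), (6 : 𝓞 K) ∉ v.asIdeal → M < Nv v →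
      (Nv v : ℝ) ≤ 6 ^ Module.finrank ℚ K * X ^ (3 * Module.finrank ℚ K) → v ∈ V) :
    Tail K M X ⊆ ⋃ v ∈ V, ({p : 𝓞 K × 𝓞 K | p ∈ Bx K X ∧ p.1 ≠ 0 ∧ p.1 ∈ v.asIdeal ∧
      p.2 ∈ v.asIdeal} ∪ {p : 𝓞 K × 𝓞 K | p ∈ Bx K X ∧ p.1 ∉ v.asIdeal ∧
      dsc p.1 p.2 ∈ v.asIdeal ^ 2}) := by
  rintro p ⟨hp, h1, h2, v, h6, hM, hd⟩
  rw [Set.mem_iUnion₂]
  refine ⟨v, hV v h6 hM (Tl_nv hX hp h2 hd), ?_⟩
  by_cases ha : p.1 ∈ v.asIdeal
  · left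
    refine ⟨hp, h1, ha, ?_⟩
    have hpr := v.isPrime
    have h3 : dsc p.1 p.2 ∈ v.asIdeal := Ideal.pow_le_self two_ne_zero hd
    have h4 : (27 : 𝓞 K) * p.2 ^ 2 ∈ v.asIdeal := by
      have h5 : (27 : 𝓞 K) * p.2 ^ 2 = dsc p.1 p.2 - 4 * p.1 ^ 2 * p.1 := by
        unfold dsc
        ring
      rw [h5]
      exact sub_mem h3 (v.asIdeal.mul_mem_left _ ha)
    have h27 : (27 : 𝓞 K) ∉ v.asIdeal := by
      intro h5
      have h7 : (3 : 𝓞 K) ^ 3 ∈ v.asIdeal := by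
        rw [show (3 : 𝓞 K) ^ 3 = 27 by norm_num]
        exact h5
      have h8 := hpr.mem_of_pow_mem 3 h7
      apply h6
      rw [show (6 : 𝓞 K) = 2 * 3 by norm_num]
      exact v.asIdeal.mul_mem_left _ h8
    exact hpr.mem_of_pow_mem 2 ((hpr.mem_or_mem h4).resolve_left h27)
  · right
    exact ⟨hp, ha, hd⟩

variable (K)

theorem tail_bound {C : ℝ} (hC : 0 ≤ C) (hU : LatU K C) {ε : ℝ} (hε : 0 < ε) :
    ∃ (M : ℕ) (X₀ : ℝ), ∀ X : ℝ, X₀ ≤ X →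
      ((Tail K M X).ncard : ℝ) ≤ ε * X ^ (5 * Module.finrank ℚ K) := by
  classical
  obtain ⟨n, hn⟩ : ∃ n, n = Module.finrank ℚ K := ⟨_, rfl⟩
  have hn0 : 0 < n := by
    rw [hn]
    exact Module.finrank_pos
  have hC2 : 0 ≤ C ^ 2 := sq_nonneg C
  obtain ⟨s, hs⟩ := summable_iff_vanishing_norm.1 (summable_Nv K) (ε / (16 * (C ^ 2 + 1)))
    (by positivity)
  obtain ⟨Y₀, hY₀⟩ := nv_little K (ε / (8 * (C ^ 2 + 1) * 6 ^ n)) (by positivity)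
  refine ⟨s.sup Nv, max 1 Y₀, fun X hX => ?_⟩
  have hX1 : 1 ≤ X := (le_max_left _ _).trans hX
  have hXY : Y₀ ≤ X := (le_max_right _ _).trans hX
  have hX0 : 0 ≤ X := by linarith
  have hY : X ≤ 6 ^ n * X ^ (3 * n) := by
    have h1 : (1 : ℝ) ≤ 6 ^ n := one_le_pow₀ (by norm_num)
    have h2 : X ^ 1 ≤ X ^ (3 * n) := pow_le_pow_right₀ hX1 (by omega)
    rw [pow_one] at h2
    nlinarith
  have hfin := nv_finite K (6 ^ n * X ^ (3 * n))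
  have hcnt := hY₀ _ (hXY.trans hY)
  obtain ⟨V, hVdef⟩ : ∃ V : Finset (HeightOneSpectrum (𝓞 K)), V = hfin.toFinset.filter
      (fun v => (6 : 𝓞 K) ∉ v.asIdeal ∧ s.sup Nv < Nv v) := ⟨_, rfl⟩
  have hsub := Tl_sub (K := K) hX1 (s.sup Nv) (V := V) (by
    intro v h6 hM hv
    rw [hVdef, Finset.mem_filter, Set.Finite.mem_toFinset]
    rw [← hn] at hv
    exact ⟨hv, h6, hM⟩)
  have hf1 : ∀ v : HeightOneSpectrum (𝓞 K), ({p : 𝓞 K × 𝓞 K | p ∈ Bx K X ∧ p.1 ≠ 0 ∧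
      p.1 ∈ v.asIdeal ∧ p.2 ∈ v.asIdeal} ∪ {p : 𝓞 K × 𝓞 K | p ∈ Bx K X ∧ p.1 ∉ v.asIdeal ∧
      dsc p.1 p.2 ∈ v.asIdeal ^ 2}).Finite := fun v =>
    (Bx_finite K X).subset (by
      rintro p (hp | hp)
      · exact hp.1
      · exact hp.1)
  have h1 := (Set.ncard_le_ncard hsub (V.finite_toSet.biUnion fun v _ => hf1 v)).trans
    (Finset.set_ncard_biUnion_le V _)
  have h2 : ((Tail K (s.sup Nv) X).ncard : ℝ) ≤ ∑ v ∈ V,
      (8 * C ^ 2 * X ^ (5 * n) * (1 / (Nv v : ℝ) ^ 2) + 4 * C ^ 2 * X ^ (2 * n)) := by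
    have h3 : ((Tail K (s.sup Nv) X).ncard : ℝ) ≤ ∑ v ∈ V,
        ((({p : 𝓞 K × 𝓞 K | p ∈ Bx K X ∧ p.1 ≠ 0 ∧ p.1 ∈ v.asIdeal ∧
      p.2 ∈ v.asIdeal} ∪ {p : 𝓞 K × 𝓞 K | p ∈ Bx K X ∧ p.1 ∉ v.asIdeal ∧
      dsc p.1 p.2 ∈ v.asIdeal ^ 2}).ncard : ℕ) : ℝ) := by exact_mod_cast h1
    refine h3.trans (Finset.sum_le_sum fun v hv => ?_)
    rw [hVdef, Finset.mem_filter] at hv
    have h4 := tail_a hC hU hX1 v
    have h5 := tail_b hC hU hX1 hv.2.1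
    rw [← hn] at h4 h5
    have h6 : ((({p : 𝓞 K × 𝓞 K | p ∈ Bx K X ∧ p.1 ≠ 0 ∧ p.1 ∈ v.asIdeal ∧
      p.2 ∈ v.asIdeal} ∪ {p : 𝓞 K × 𝓞 K | p ∈ Bx K X ∧ p.1 ∉ v.asIdeal ∧
      dsc p.1 p.2 ∈ v.asIdeal ^ 2}).ncard : ℕ) : ℝ) ≤
      ({p : 𝓞 K × 𝓞 K | p ∈ Bx K X ∧ p.1 ≠ 0 ∧ p.1 ∈ v.asIdeal ∧ p.2 ∈ v.asIdeal}.ncard : ℝ) +
      ({p : 𝓞 K × 𝓞 K | p ∈ Bx K X ∧ p.1 ∉ v.asIdeal ∧
      dsc p.1 p.2 ∈ v.asIdeal ^ 2}.ncard : ℝ) := by exact_mod_cast Set.ncard_union_le _ _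
    have h7 : 0 ≤ C ^ 2 * (X ^ (5 * n) * (1 / (Nv v : ℝ) ^ 2)) := by positivity
    calc _ ≤ _ := h6
      _ ≤ _ := add_le_add h4 h5
      _ = _ := by ring
  rw [Finset.sum_add_distrib, ← Finset.mul_sum, Finset.sum_const, nsmul_eq_mul] at h2
  have h3 : ∑ v ∈ V, (1 : ℝ) / (Nv v : ℝ) ^ 2 ≤ ε / (16 * (C ^ 2 + 1)) := by
    have h4 := hs V (by
      rw [Finset.disjoint_left]
      intro v hv hv'
      rw [hVdef, Finset.mem_filter] at hv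
      exact absurd (Finset.le_sup (f := Nv) hv') (not_le.2 hv.2.2))
    exact (le_abs_self _).trans h4.le
  have h4 : (V.card : ℝ) ≤ ε / (8 * (C ^ 2 + 1) * 6 ^ n) * (6 ^ n * X ^ (3 * n)) := by
    refine le_trans ?_ hcnt
    have h5 : V.card ≤ hfin.toFinset.card := by
      rw [hVdef]
      exact Finset.card_filter_le _ _
    rw [← Set.ncard_eq_toFinset_card _ hfin] at h5
    exact_mod_cast h5
  rw [← hn]
  have e5 : 0 ≤ X ^ (5 * n) := by positivity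
  have e2 : 0 ≤ X ^ (2 * n) := by positivity
  have hq : C ^ 2 / (C ^ 2 + 1) ≤ 1 := by
    rw [div_le_one (by positivity)]
    linarith
  have k1 : 8 * C ^ 2 * X ^ (5 * n) * ∑ v ∈ V, (1 : ℝ) / (Nv v : ℝ) ^ 2 ≤ ε / 2 * X ^ (5 * n) := by
    calc 8 * C ^ 2 * X ^ (5 * n) * ∑ v ∈ V, (1 : ℝ) / (Nv v : ℝ) ^ 2
        ≤ 8 * C ^ 2 * X ^ (5 * n) * (ε / (16 * (C ^ 2 + 1))) :=
          mul_le_mul_of_nonneg_left h3 (by positivity)
      _ = ε / 2 * X ^ (5 * n) * (C ^ 2 / (C ^ 2 + 1)) := by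
          field_simp
          ring
      _ ≤ ε / 2 * X ^ (5 * n) * 1 := mul_le_mul_of_nonneg_left hq (by positivity)
      _ = ε / 2 * X ^ (5 * n) := mul_one _
  have k2 : (V.card : ℝ) * (4 * C ^ 2 * X ^ (2 * n)) ≤ ε / 2 * X ^ (5 * n) := by
    have h8 : X ^ (3 * n) * X ^ (2 * n) = X ^ (5 * n) := by
      rw [← pow_add]
      congr 1
      omega
    calc (V.card : ℝ) * (4 * C ^ 2 * X ^ (2 * n))
        ≤ (ε / (8 * (C ^ 2 + 1) * 6 ^ n) * (6 ^ n * X ^ (3 * n))) * (4 * C ^ 2 * X ^ (2 * n)) :=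
          mul_le_mul_of_nonneg_right h4 (by positivity)
      _ = ε / 2 * (X ^ (3 * n) * X ^ (2 * n)) * (C ^ 2 / (C ^ 2 + 1)) := by
          field_simp
          ring
      _ = ε / 2 * X ^ (5 * n) * (C ^ 2 / (C ^ 2 + 1)) := by rw [h8]
      _ ≤ ε / 2 * X ^ (5 * n) * 1 := mul_le_mul_of_nonneg_left hq (by positivity)
      _ = ε / 2 * X ^ (5 * n) := mul_one _
  calc _ ≤ _ := h2
    _ ≤ ε / 2 * X ^ (5 * n) + ε / 2 * X ^ (5 * n) := add_le_add k1 k2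
    _ = ε * X ^ (5 * n) := by ring

end H36PP

end S_H36_PP_Tl

section S_H36_PP_Fl

set_option autoImplicit false
set_option linter.unusedSectionVars false

open NumberField IsDedekindDomain H76PP

namespace H36PP

variable (K : Type) [Field K] [NumberField K]

private theorem Fl_cop {v w : HeightOneSpectrum (𝓞 K)} (h : v ≠ w) (a b : ℕ) :
    IsCoprime (v.asIdeal ^ a) (w.asIdeal ^ b) := by
  apply IsCoprime.pow
  rw [Ideal.isCoprime_iff_sup_eq]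
  exact Ideal.IsMaximal.coprime_of_ne v.isMaximal w.isMaximal fun h' => h (HeightOneSpectrum.ext h')

private theorem Fl_cop1 {v w : HeightOneSpectrum (𝓞 K)} (h : v ≠ w) :
    IsCoprime v.asIdeal w.asIdeal := by
  have h1 := Fl_cop K h 1 1
  rwa [pow_one, pow_one] at h1

private theorem Fl_cop2 {v w : HeightOneSpectrum (𝓞 K)} (h : v ≠ w) :
    IsCoprime v.asIdeal (w.asIdeal ^ 2) := by
  have h1 := Fl_cop K h 1 2
  rwa [pow_one] at h1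

private theorem Fl_six : {v : HeightOneSpectrum (𝓞 K) | (6 : 𝓞 K) ∈ v.asIdeal}.Finite := by
  refine (nv_finite K ((Ideal.absNorm (Ideal.span {(6 : 𝓞 K)}) : ℕ) : ℝ)).subset ?_
  intro v hv
  have h1 : Ideal.span {(6 : 𝓞 K)} ≤ v.asIdeal := (Ideal.span_singleton_le_iff_mem _).2 hv
  have h2 := Ideal.absNorm_dvd_absNorm_of_le h1
  have h3 : Ideal.absNorm (Ideal.span {(6 : 𝓞 K)}) ≠ 0 := by
    rw [Ne, Ideal.absNorm_eq_zero_iff, Ideal.span_singleton_eq_bot]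
    norm_num
  have h4 := Nat.le_of_dvd (Nat.pos_of_ne_zero h3) h2
  show ((Nv v : ℕ) : ℝ) ≤ _
  exact_mod_cast h4

private theorem Fl_pos (v : HeightOneSpectrum (𝓞 K)) : (0 : ℝ) < (Nv v : ℝ) := by
  have h := Sm_pos v
  exact_mod_cast Nat.pos_of_ne_zero h

theorem fam_lower (q₀ : HeightOneSpectrum (𝓞 K)) (h6 : (6 : 𝓞 K) ∉ q₀.asIdeal) :
    ∃ c : ℝ, 0 < c ∧ ∀ T : Finset (HeightOneSpectrum (𝓞 K)),
      (∀ v ∈ T, v ≠ q₀ ∧ (6 : 𝓞 K) ∉ v.asIdeal) → ∃ X₀ : ℝ, ∀ X : ℝ, X₀ ≤ X →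
        c * (∏ v ∈ T, (1 / 2 * (1 - 1 / (Nv v : ℝ)))) * X ^ (5 * Module.finrank ℚ K) ≤
          ({p : 𝓞 K × 𝓞 K | p ∈ Bx K X ∧ Fam q₀ T p.1 p.2}.ncard : ℝ) := by
  classical
  obtain ⟨C, hC1, hU⟩ := coset_upper K
  obtain ⟨c₁, hc₁, hL⟩ := coset_lower K
  obtain ⟨c₀, hc₀, hP⟩ := prod_lower K
  obtain ⟨F6, hF6⟩ : ∃ F6 : Finset (HeightOneSpectrum (𝓞 K)), ∀ v, v ∈ F6 ↔ (6 : 𝓞 K) ∈ v.asIdeal :=
    ⟨(Fl_six K).toFinset, fun v => (Fl_six K).mem_toFinset⟩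
  obtain ⟨d1, hd1⟩ : ∃ d1 : ℝ, d1 = 1 / (Nv q₀ : ℝ) ^ 2 := ⟨_, rfl⟩
  obtain ⟨d3, hd3⟩ : ∃ d3 : ℝ, d3 = ∏ v ∈ F6, (1 / (Nv v : ℝ) ^ 2) := ⟨_, rfl⟩
  have hd1p : 0 < d1 := by
    rw [hd1]
    exact div_pos one_pos (pow_pos (Fl_pos K q₀) 2)
  have hd3p : 0 < d3 := by
    rw [hd3]
    exact Finset.prod_pos fun v _ => div_pos one_pos (pow_pos (Fl_pos K v) 2)
  refine ⟨c₁ ^ 2 * (d1 * d3 * c₀) / 2, by positivity, fun T hT => ?_⟩
  obtain ⟨d2, hd2⟩ : ∃ d2 : ℝ, d2 = ∏ v ∈ T, (1 / 2 * (1 - 1 / (Nv v : ℝ))) := ⟨_, rfl⟩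
  rw [← hd2]
  have hT5 : ∀ v ∈ T, 0 < 1 / 2 * (1 - 1 / (Nv v : ℝ)) := by
    intro v hv
    have h1 : (5 : ℝ) ≤ (Nv v : ℝ) := by exact_mod_cast five_le K (hT v hv).2
    have h2 : 1 / (Nv v : ℝ) < 1 := by
      rw [div_lt_one (by linarith)]
      linarith
    linarith
  have hd2p : 0 < d2 := by
    rw [hd2]
    exact Finset.prod_pos hT5
  obtain ⟨c, hc⟩ : ∃ c, c = c₁ ^ 2 * (d1 * d3 * c₀) / 2 := ⟨_, rfl⟩
  rw [← hc]
  have hcp : 0 < c := by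
    rw [hc]
    positivity
  obtain ⟨M, X₁, hM⟩ := tail_bound K (zero_le_one.trans hC1) hU (mul_pos hcp hd2p)
  have hfin : {v : HeightOneSpectrum (𝓞 K) | (6 : 𝓞 K) ∉ v.asIdeal ∧ v ≠ q₀ ∧ v ∉ T ∧
      Nv v ≤ M}.Finite := by
    refine (nv_finite K (M : ℝ)).subset ?_
    rintro v ⟨-, -, -, h⟩
    show ((Nv v : ℕ) : ℝ) ≤ (M : ℝ)
    exact_mod_cast h
  obtain ⟨FM, hFM⟩ : ∃ FM : Finset (HeightOneSpectrum (𝓞 K)), ∀ v, v ∈ FM ↔
      ((6 : 𝓞 K) ∉ v.asIdeal ∧ v ≠ q₀ ∧ v ∉ T ∧ Nv v ≤ M) :=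
    ⟨hfin.toFinset, fun v => hfin.mem_toFinset⟩
  obtain ⟨d4, hd4⟩ : ∃ d4 : ℝ, d4 = ∏ v ∈ FM, (1 - 3 / (Nv v : ℝ) ^ 2) := ⟨_, rfl⟩
  have hM5 : ∀ v ∈ FM, 0 ≤ 1 - 3 / (Nv v : ℝ) ^ 2 := by
    intro v hv
    have h1 : (5 : ℝ) ≤ (Nv v : ℝ) := by exact_mod_cast five_le K ((hFM v).1 hv).1
    have h2 : (25 : ℝ) ≤ (Nv v : ℝ) ^ 2 := by nlinarith
    have h3 : 3 / (Nv v : ℝ) ^ 2 ≤ 1 := by
      rw [div_le_one (by linarith)]
      linarith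
    linarith
  have hd4c : c₀ ≤ d4 := by
    rw [hd4]
    exact hP FM fun v hv => ((hFM v).1 hv).1
  have D1 := dens_q q₀
  rw [← hd1] at D1
  have D2 := dens_prod T (fun v => v.asIdeal) Pt (fun v => 1 / 2 * (1 - 1 / (Nv v : ℝ)))
    (fun v _ => v.ne_bot) (fun v _ w _ h => Fl_cop1 K h) (fun v hv => (hT5 v hv).le)
    (fun v hv => dens_t (hT v hv).2)
  rw [← hd2] at D2
  have D3 := dens_prod F6 (fun v => v.asIdeal) P6 (fun v => 1 / (Nv v : ℝ) ^ 2)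
    (fun v _ => v.ne_bot) (fun v _ w _ h => Fl_cop1 K h)
    (fun v _ => (div_pos one_pos (pow_pos (Fl_pos K v) 2)).le) (fun v _ => dens_6 v)
  rw [← hd3] at D3
  have D4 := dens_prod FM (fun v => v.asIdeal ^ 2) Po (fun v => 1 - 3 / (Nv v : ℝ) ^ 2)
    (fun v _ => pow_ne_zero 2 v.ne_bot) (fun v _ w _ h => Fl_cop K h 2 2) hM5
    (fun v hv => dens_o ((hFM v).1 hv).1)
  rw [← hd4] at D4
  have b2 : (∏ v ∈ T, v.asIdeal) ≠ (⊥ : Ideal (𝓞 K)) :=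
    Finset.prod_ne_zero_iff.2 fun v _ => v.ne_bot
  have b3 : (∏ v ∈ F6, v.asIdeal) ≠ (⊥ : Ideal (𝓞 K)) :=
    Finset.prod_ne_zero_iff.2 fun v _ => v.ne_bot
  have b4 : (∏ v ∈ FM, v.asIdeal ^ 2) ≠ (⊥ : Ideal (𝓞 K)) :=
    Finset.prod_ne_zero_iff.2 fun v _ => pow_ne_zero 2 v.ne_bot
  have n6 : ∀ v ∈ F6, v ≠ q₀ := by
    rintro v hv rfl
    exact h6 ((hF6 _).1 hv)
  have n7 : ∀ v ∈ F6, ∀ t ∈ T, t ≠ v := by
    rintro v hv t ht rfl
    exact (hT _ ht).2 ((hF6 _).1 hv)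
  have n8 : ∀ v ∈ FM, ∀ t ∈ T, t ≠ v := by
    rintro v hv t ht rfl
    exact ((hFM _).1 hv).2.2.1 ht
  have n9 : ∀ v ∈ FM, ∀ t ∈ F6, t ≠ v := by
    rintro v hv t ht rfl
    exact ((hFM _).1 hv).1 ((hF6 _).1 ht)
  have D12 := dens_mul q₀.ne_bot b2 (IsCoprime.prod_right fun v hv =>
    Fl_cop1 K (hT v hv).1.symm) hd1p.le hd2p.le D1 D2
  have b12 : q₀.asIdeal * (∏ v ∈ T, v.asIdeal) ≠ (⊥ : Ideal (𝓞 K)) := mul_ne_zero q₀.ne_bot b2
  have D123 := dens_mul b12 b3 (IsCoprime.prod_right fun v hv => IsCoprime.mul_left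
    (Fl_cop1 K (n6 v hv).symm) (IsCoprime.prod_left fun t ht => Fl_cop1 K (n7 v hv t ht)))
    (mul_pos hd1p hd2p).le hd3p.le D12 D3
  have b123 : q₀.asIdeal * (∏ v ∈ T, v.asIdeal) * (∏ v ∈ F6, v.asIdeal) ≠ (⊥ : Ideal (𝓞 K)) :=
    mul_ne_zero b12 b3
  have D := dens_mul b123 b4 (IsCoprime.prod_right fun v hv => IsCoprime.mul_left (IsCoprime.mul_left
    (Fl_cop2 K ((hFM v).1 hv).2.1.symm)
    (IsCoprime.prod_left fun t ht => Fl_cop2 K (n8 v hv t ht)))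
    (IsCoprime.prod_left fun t ht => Fl_cop2 K (n9 v hv t ht)))
    (mul_pos (mul_pos hd1p hd2p) hd3p).le (hc₀.le.trans hd4c) D123 D4
  obtain ⟨X₂, hX₂⟩ := dens_lower hc₁.le hL (Bx_finite K) (mul_ne_zero b123 b4) D
  refine ⟨max (max X₁ X₂) 0, fun X hX => ?_⟩
  have hX1 : X₁ ≤ X := ((le_max_left _ _).trans (le_max_left _ _)).trans hX
  have hX2 : X₂ ≤ X := ((le_max_right _ _).trans (le_max_left _ _)).trans hX
  have hX0 : 0 ≤ X := (le_max_right _ _).trans hX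
  have e1 := hX₂ X hX2
  have e2 := hM X hX1
  have hS : {p : 𝓞 K × 𝓞 K | p ∈ Bx K X ∧ Fam q₀ T p.1 p.2}.Finite :=
    (Bx_finite K X).subset fun p hp => hp.1
  have hTl : (Tail K M X).Finite := (Bx_finite K X).subset fun p hp => hp.1
  have hsub : {p : 𝓞 K × 𝓞 K | p ∈ Bx K X ∧ p ∈ Pq q₀ ∩ {p | ∀ v ∈ T, p ∈ Pt v} ∩
      {p | ∀ v ∈ F6, p ∈ P6 v} ∩ {p | ∀ v ∈ FM, p ∈ Po v}} ⊆
      {p : 𝓞 K × 𝓞 K | p ∈ Bx K X ∧ Fam q₀ T p.1 p.2} ∪ Tail K M X := by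
    rintro p ⟨hp, ⟨⟨hp1, hp2⟩, hp3⟩, hp4⟩
    by_cases ht : p ∈ Tail K M X
    · exact Or.inr ht
    · exact Or.inl ⟨hp, fam_of h6 hT hp hp1 hp2 (fun v hv => hp3 v ((hF6 v).2 hv))
        (fun v a1 a2 a3 a4 => hp4 v ((hFM v).2 ⟨a1, a2, a3, a4⟩)) ht⟩
  have e3 := (Set.ncard_le_ncard hsub (hS.union hTl)).trans (Set.ncard_union_le _ _)
  have e4 : ({p : 𝓞 K × 𝓞 K | p ∈ Bx K X ∧ p ∈ Pq q₀ ∩ {p | ∀ v ∈ T, p ∈ Pt v} ∩
      {p | ∀ v ∈ F6, p ∈ P6 v} ∩ {p | ∀ v ∈ FM, p ∈ Po v}}.ncard : ℝ) ≤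
      ({p : 𝓞 K × 𝓞 K | p ∈ Bx K X ∧ Fam q₀ T p.1 p.2}.ncard : ℝ) + ((Tail K M X).ncard : ℝ) := by
    exact_mod_cast e3
  obtain ⟨Z, hZ⟩ : ∃ Z, Z = X ^ (5 * Module.finrank ℚ K) := ⟨_, rfl⟩
  have hZ0 : 0 ≤ Z := by
    rw [hZ]
    exact pow_nonneg hX0 _
  rw [← hZ] at e1 e2 ⊢
  have e5 : c₁ ^ 2 * (d1 * d2 * d3 * c₀) * Z ≤ c₁ ^ 2 * (d1 * d2 * d3 * d4) * Z := by
    refine mul_le_mul_of_nonneg_right (mul_le_mul_of_nonneg_left ?_ (by positivity)) hZ0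
    exact mul_le_mul_of_nonneg_left hd4c (by positivity)
  have e6 : c₁ ^ 2 * (d1 * d2 * d3 * c₀) * Z = 2 * (c * d2 * Z) := by
    rw [hc]
    ring
  linarith

end H36PP

end S_H36_PP_Fl

section S_H36_PP_Ax

set_option autoImplicit false
set_option linter.unusedSectionVars false
open scoped Classical

open WithZero NumberField IsDedekindDomain H76PP

namespace H36PP

variable (K : Type) [Field K] [NumberField K]

theorem aux_primes : ∃ q₀ : HeightOneSpectrum (𝓞 K), (6 : 𝓞 K) ∉ q₀.asIdeal ∧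
    {p : HeightOneSpectrum (𝓞 K) | AuxP q₀ p}.Infinite := by
  have hI : ∀ c : ClassGroup (𝓞 K), ∃ I : (nonZeroDivisors (Ideal (𝓞 K))),
      ClassGroup.mk0 I = c⁻¹ := fun c => ClassGroup.mk0_surjective c⁻¹
  choose I hI using hI
  have hI0 : ∀ c, (I c : Ideal (𝓞 K)) ≠ ⊥ := fun c => by
    have := nonZeroDivisors.ne_zero (I c).2
    simpa using this
  obtain ⟨N, hN0, hNI⟩ : ∃ N : ℕ, N ≠ 0 ∧ ∀ c, (N : 𝓞 K) ∈ (I c : Ideal (𝓞 K)) := by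
    refine ⟨∏ c, Ideal.absNorm (I c : Ideal (𝓞 K)), ?_, ?_⟩
    · refine Finset.prod_ne_zero_iff.2 fun c _ => ?_
      rw [Ne, Ideal.absNorm_eq_zero_iff]
      exact hI0 c
    · intro c
      obtain ⟨k, hk⟩ : Ideal.absNorm (I c : Ideal (𝓞 K)) ∣
          ∏ c, Ideal.absNorm (I c : Ideal (𝓞 K)) := Finset.dvd_prod_of_mem _ (Finset.mem_univ c)
      rw [hk]
      push_cast
      exact Ideal.mul_mem_right _ _ (Ideal.absNorm_mem _)
  let cl : HeightOneSpectrum (𝓞 K) → ClassGroup (𝓞 K) := fun v =>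
    ClassGroup.mk0 ⟨v.asIdeal, mem_nonZeroDivisors_iff_ne_zero.2 v.ne_bot⟩
  have hg : ∀ v : HeightOneSpectrum (𝓞 K), ∃ g : 𝓞 K,
      v.asIdeal * (I (cl v) : Ideal (𝓞 K)) = Ideal.span {g} := by
    intro v
    have h1 : ClassGroup.mk0 (⟨v.asIdeal, mem_nonZeroDivisors_iff_ne_zero.2 v.ne_bot⟩ *
        I (cl v)) = 1 := by
      rw [map_mul, hI]
      exact mul_inv_cancel _
    rw [ClassGroup.mk0_eq_one_iff] at h1
    obtain ⟨g, hg⟩ := h1.principal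
    exact ⟨g, hg⟩
  choose g hg using hg
  haveI : Finite (K →+* ℝ) := by
    refine Finite.of_injective (fun s : K →+* ℝ => (Complex.ofRealHom.comp s : K →+* ℂ)) ?_
    intro s t hst
    ext x
    have := congrArg (fun f : K →+* ℂ => f x) hst
    simpa using this
  have h8N : (8 * N : 𝓞 K) ≠ 0 := by
    refine mul_ne_zero (by norm_num) ?_
    exact_mod_cast hN0
  haveI : Finite (𝓞 K ⧸ Ideal.span {(8 * N : 𝓞 K)}) :=
    Ideal.finiteQuotientOfFreeOfNeBot _ (by simpa using h8N)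
  haveI : Infinite {v : HeightOneSpectrum (𝓞 K) | (6 : 𝓞 K) ∉ v.asIdeal} :=
    (inf_primes K).to_subtype
  let f : {v : HeightOneSpectrum (𝓞 K) | (6 : 𝓞 K) ∉ v.asIdeal} →
      ClassGroup (𝓞 K) × (𝓞 K ⧸ Ideal.span {(8 * N : 𝓞 K)}) × Set (K →+* ℝ) := fun v =>
    (cl v.1, Ideal.Quotient.mk _ (g v.1), {s | 0 < s (g v.1 : K)})
  obtain ⟨y, hy⟩ := Finite.exists_infinite_fiber f
  haveI := hy
  obtain ⟨q⟩ : Nonempty (f ⁻¹' {y}) := inferInstance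
  refine ⟨q.1.1, q.1.2, ?_⟩
  have hinf : (Set.range (fun p : f ⁻¹' {y} => p.1.1)).Infinite := by
    refine Set.infinite_range_of_injective ?_
    intro a b hab
    exact Subtype.ext (Subtype.ext hab)
  refine (hinf.sdiff (Set.finite_singleton q.1.1)).mono ?_
  rintro _ ⟨⟨p, rfl⟩, hpq⟩
  have hpq' : p.1.1 ≠ q.1.1 := by simpa using hpq
  have hfe : f p.1 = f q.1 := by
    have h1 : f p.1 = y := p.2
    have h2 : f q.1 = y := q.2
    rw [h1, h2]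
  have e1 : cl p.1.1 = cl q.1.1 := congrArg Prod.fst hfe
  have e2 : Ideal.Quotient.mk (Ideal.span {(8 * N : 𝓞 K)}) (g p.1.1) =
      Ideal.Quotient.mk _ (g q.1.1) := congrArg (fun z => z.2.1) hfe
  have e3 : {s : K →+* ℝ | 0 < s (g p.1.1 : K)} = {s | 0 < s (g q.1.1 : K)} :=
    congrArg (fun z => z.2.2) hfe
  have ha := hg p.1.1
  have hb := hg q.1.1
  rw [e1] at ha
  obtain ⟨ha0, hb0, hv1, hv2, hv3⟩ := quot_val hpq' (hI0 _) ha hb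
  have ha0' : (g p.1.1 : K) ≠ 0 := by
    intro h
    exact ha0 (by exact_mod_cast h)
  have hb0' : (g q.1.1 : K) ≠ 0 := by
    intro h
    exact hb0 (by exact_mod_cast h)
  refine ⟨p.1.2, hpq', (g p.1.1 : K) / (g q.1.1 : K), div_ne_zero ha0' hb0', hv1, hv2, hv3,
    ?_, ?_⟩
  · intro v hv
    refine quot_two q.1.2 (hI0 _) hb ?_ hv
    have h1 := Ideal.Quotient.eq.1 e2
    obtain ⟨k, hk⟩ := Ideal.mem_span_singleton.1 h1
    rw [hk, mul_assoc]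
    exact Ideal.mul_mem_mul (Ideal.mem_span_singleton_self _)
      (Ideal.mul_mem_right _ _ (hNI _))
  · intro s
    rw [map_div₀]
    have hsa : s (g p.1.1 : K) ≠ 0 := by
      rw [Ne, map_eq_zero]
      exact ha0'
    have hsb : s (g q.1.1 : K) ≠ 0 := by
      rw [Ne, map_eq_zero]
      exact hb0'
    have hiff : 0 < s (g p.1.1 : K) ↔ 0 < s (g q.1.1 : K) := by
      have := Set.ext_iff.1 e3 s
      simpa using this
    rcases lt_or_gt_of_ne hsa with h | h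
    · have hb' : s (g q.1.1 : K) < 0 := by
        rcases lt_or_gt_of_ne hsb with h' | h'
        · exact h'
        · exact absurd (hiff.2 h') (not_lt.2 h.le)
      exact div_pos_of_neg_of_neg h hb'
    · exact div_pos h (hiff.1 h)

end H36PP

end S_H36_PP_Ax

section S_H36_PP_Tw

set_option autoImplicit false
set_option linter.unusedSectionVars false
open scoped Classical

open WithZero NumberField IsDedekindDomain H38RT H76PP

namespace H36PP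

variable {K : Type} [Field K] [NumberField K]

theorem prod_two (v : HeightOneSpectrum (𝓞 K)) {ι : Type*} (J : Finset ι) (d : ι → K)
    (h : ∀ i ∈ J, v.valuation K (d i - 1) ≤ v.valuation K 8) :
    v.valuation K (∏ i ∈ J, d i - 1) ≤ v.valuation K 8 := by
  have h8 : v.valuation K (8 : K) ≤ 1 := by
    rw [← map_ofNat (algebraMap (𝓞 K) K) 8]
    exact v.valuation_le_one (K := K) (8 : 𝓞 K)
  induction J using Finset.induction_on with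
  | empty => simp
  | insert a J ha ih =>
    rw [Finset.prod_insert ha]
    have h1 := h a (Finset.mem_insert_self a J)
    have h2 := ih (fun i hi => h i (Finset.mem_insert_of_mem hi))
    have h3 : v.valuation K (∏ i ∈ J, d i) ≤ 1 := by
      have e : ∏ i ∈ J, d i = (∏ i ∈ J, d i - 1) + 1 := by ring
      rw [e]
      refine (Valuation.map_add _ _ _).trans ?_
      rw [map_one]
      exact max_le (h2.trans h8) le_rfl
    have e : d a * ∏ i ∈ J, d i - 1 = (d a - 1) * ∏ i ∈ J, d i + (∏ i ∈ J, d i - 1) := by ring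
    rw [e]
    refine (Valuation.map_add _ _ _).trans (max_le ?_ h2)
    rw [map_mul]
    calc _ ≤ v.valuation K 8 * 1 := mul_le_mul' h1 h3
      _ = _ := mul_one _

theorem exists_twist {q₀ : HeightOneSpectrum (𝓞 K)} {J : Finset (HeightOneSpectrum (𝓞 K))}
    (hJ : ∀ p ∈ J, AuxP q₀ p) : ∃ D : 𝓞 K, TwD q₀ J (D : K) := by
  have hex : ∀ p : HeightOneSpectrum (𝓞 K), ∃ D : K, p ∈ J → (D ≠ 0 ∧
      p.valuation K D = exp (-1) ∧ q₀.valuation K D = exp 1 ∧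
    (∀ v : HeightOneSpectrum (𝓞 K), v ≠ p → v ≠ q₀ → v.valuation K D = 1) ∧
    (∀ v : HeightOneSpectrum (𝓞 K), v.valuation K 2 < 1 →
      v.valuation K (D - 1) ≤ v.valuation K 8) ∧ ∀ s : K →+* ℝ, 0 < s D) := by
    intro p
    by_cases hp : p ∈ J
    · obtain ⟨_, _, D, hD⟩ := hJ p hp
      exact ⟨D, fun _ => hD⟩
    · exact ⟨1, fun h => absurd h hp⟩
  choose d hd using hex
  set E : K := ∏ p ∈ J, d p with hE
  have hE0 : E ≠ 0 := Finset.prod_ne_zero_iff.2 fun p hp => (hd p hp).1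
  obtain ⟨x, y, hy, hxy⟩ := IsFractionRing.div_surjective (A := 𝓞 K) E
  have hy0 : (y : K) ≠ 0 := by
    have := nonZeroDivisors.ne_zero hy
    intro h
    exact this (by exact_mod_cast h)
  have hDE : ((x * y : 𝓞 K) : K) = (y : K) ^ 2 * E := by
    have : E = (x : K) / (y : K) := hxy.symm
    rw [this]
    push_cast
    field_simp
  have hv1 : ∀ v : HeightOneSpectrum (𝓞 K), v ∉ J → v ≠ q₀ → v.valuation K E = 1 := by
    intro v hv hq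
    rw [hE, map_prod]
    refine Finset.prod_eq_one fun p hp => ?_
    exact (hd p hp).2.2.2.1 v (fun h => hv (h ▸ hp)) hq
  have hv2 : ∀ v ∈ J, v.valuation K E = exp (-1) := by
    intro v hv
    rw [hE, map_prod, Finset.prod_eq_single v]
    · exact (hd v hv).2.1
    · intro p hp hpv
      exact (hd p hp).2.2.2.1 v (Ne.symm hpv) (hJ v hv).2.1
    · intro h
      exact absurd hv h
  have hyv : ∀ v : HeightOneSpectrum (𝓞 K), v.valuation K (y : K) ≠ 0 := by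
    intro v
    rw [Valuation.ne_zero_iff]
    exact hy0
  refine ⟨x * y, ?_, ?_, ?_, ?_, ?_⟩
  · rw [hDE]
    exact mul_ne_zero (pow_ne_zero _ hy0) hE0
  · intro v hv
    rw [hDE, ord, map_mul, map_pow, hv2 v hv, log_mul (pow_ne_zero _ (hyv v)) (by simp),
      log_pow, log_exp]
    refine ⟨- log (v.valuation K (y : K)), ?_⟩
    simp only [nsmul_eq_mul]
    push_cast
    ring
  · intro v hv hq
    rw [hDE, ord, map_mul, map_pow, hv1 v hv hq, mul_one, log_pow]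
    refine ⟨- log (v.valuation K (y : K)), ?_⟩
    simp only [nsmul_eq_mul]
    push_cast
    ring
  · intro v hv
    refine ⟨1 / (y : K), by simpa using hy0, ?_⟩
    have e : ((x * y : 𝓞 K) : K) * (1 / (y : K)) ^ 2 = E := by
      rw [hDE]
      field_simp
    rw [e]
    exact prod_two v J d fun p hp => (hd p hp).2.2.2.2.1 v hv
  · intro s
    rw [hDE, map_mul, map_pow, hE, map_prod]
    have : s (y : K) ≠ 0 := by
      rw [Ne, map_eq_zero]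
      exact hy0
    refine mul_pos (by positivity) (Finset.prod_pos fun p hp => (hd p hp).2.2.2.2.2 s)

end H36PP

end S_H36_PP_Tw
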