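import Mathlib
import Pool.Agent.H10.Descent
import Pool.Agent.H10.Func6
import Pool.Agent.H10.Func7
import Pool.Agent.H10.GrHen
import Pool.Agent.H10.Hasse
import Pool.Agent.H10.RealPl
import Pool.Agent.H11.Divis2
import Pool.Agent.H11.MW
import Pool.Agent.H73.IS.I1
import Pool.Agent.H76.PM.A3

/-! A positive proportion of elliptic curves, part D1: this file joins several modules to save build time. -/

set_option autoImplicit false

section S_H24_PD_Df

set_option autoImplicit false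
open scoped Classical

open WeierstrassCurve Pool.Agent.H10

namespace H24PD

section

variable {k : Type*} [Field k] {E : WeierstrassCurve k}

/-- The Weil pairing of a two-torsion point with the two-torsion point of abscissa `e`. -/
noncomputable def wp (e : k) : E.toAffine.Point → ℤˣ
  | 0 => 1
  | .some x _ _ => if x = e then 1 else -1

/-- The function whose square is `x (2 P) - e` (`c` is the derivative of the cubic at its root
`e`). -/
noncomputable def hx (e c : k) : E.toAffine.Point → k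
  | 0 => 0
  | .some x y _ => ((x - e) ^ 2 - c) / (2 * y)

end

/-- Evaluation. -/
def E3 {M : Type*} [CommRing M] (e : M) (u : Fin 3 → M) : M := u 0 + u 1 * e + u 2 * e ^ 2

end H24PD

end S_H24_PD_Df

section S_H24_PD_Em

set_option autoImplicit false
open scoped Classical

open WeierstrassCurve Pool.Agent.H10 H76PP

namespace H24PD

section

variable {K L Ω : Type} [Field K] [Field L] [Field Ω] [Algebra K L] [Algebra K Ω] {a b : K} {θ : L}

lemma Em_li (hL : Cub K L a b θ) : LinearIndependent K ![(1 : L), θ, θ ^ 2] := by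
  refine Fintype.linearIndependent_iff.2 (fun g hg => ?_)
  rw [Fin.sum_univ_three] at hg
  simp only [Matrix.cons_val_zero, Matrix.cons_val_one, Matrix.cons_val, Algebra.smul_def,
    mul_one] at hg
  obtain ⟨h0, h1, h2⟩ := hL.li _ _ _ hg
  intro i
  fin_cases i
  · exact h0
  · exact h1
  · exact h2

lemma Em_sp (hL : Cub K L a b θ) : ⊤ ≤ Submodule.span K (Set.range ![(1 : L), θ, θ ^ 2]) := by
  intro x _
  obtain ⟨c₀, c₁, c₂, rfl⟩ := hL.sp x
  have m : ∀ i : Fin 3, ![(1 : L), θ, θ ^ 2] i ∈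
      Submodule.span K (Set.range ![(1 : L), θ, θ ^ 2]) := fun i =>
    Submodule.subset_span ⟨i, rfl⟩
  have m0 : (1 : L) ∈ Submodule.span K (Set.range ![(1 : L), θ, θ ^ 2]) := m 0
  have m1 : θ ∈ Submodule.span K (Set.range ![(1 : L), θ, θ ^ 2]) := m 1
  have m2 : θ ^ 2 ∈ Submodule.span K (Set.range ![(1 : L), θ, θ ^ 2]) := m 2
  have e0 : algebraMap K L c₀ = c₀ • (1 : L) := Algebra.algebraMap_eq_smul_one c₀
  rw [e0, ← Algebra.smul_def, ← Algebra.smul_def]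
  exact Submodule.add_mem _ (Submodule.add_mem _ (Submodule.smul_mem _ _ m0)
    (Submodule.smul_mem _ _ m1)) (Submodule.smul_mem _ _ m2)

theorem fin3 (hL : Cub K L a b θ) : FiniteDimensional K L ∧ Module.finrank K L = 3 := by
  have B := Module.Basis.mk (Em_li hL) (Em_sp hL)
  refine ⟨Module.Finite.of_basis B, ?_⟩
  rw [Module.finrank_eq_card_basis B, Fintype.card_fin]

theorem emb_ext (hL : Cub K L a b θ) {φ ψ : L →ₐ[K] Ω} (h : φ θ = ψ θ) : φ = ψ := by
  refine AlgHom.ext (fun x => ?_)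
  obtain ⟨c₀, c₁, c₂, rfl⟩ := hL.sp x
  simp only [map_add, map_mul, map_pow, AlgHom.commutes, h]

theorem emb_root (hL : Cub K L a b θ) (φ : L →ₐ[K] Ω) :
    φ θ ^ 3 + algebraMap K Ω a * φ θ + algebraMap K Ω b = 0 := by
  have h := congrArg φ hL.root
  simpa only [map_add, map_mul, map_pow, AlgHom.commutes, map_zero] using h

theorem emb3 [CharZero K] [IsAlgClosed Ω] (hL : Cub K L a b θ) : ∃ φ₁ φ₂ φ₃ : L →ₐ[K] Ω,
    φ₁ ≠ φ₂ ∧ φ₁ ≠ φ₃ ∧ φ₂ ≠ φ₃ ∧ ∀ φ, φ = φ₁ ∨ φ = φ₂ ∨ φ = φ₃ := by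
  obtain ⟨hf, hr⟩ := fin3 hL
  have hc : (Finset.univ : Finset (L →ₐ[K] Ω)).card = 3 := by
    rw [Finset.card_univ, AlgHom.card K L Ω, hr]
  obtain ⟨x, y, z, hxy, hxz, hyz, hu⟩ := Finset.card_eq_three.1 hc
  refine ⟨x, y, z, hxy, hxz, hyz, fun φ => ?_⟩
  have hm : φ ∈ (Finset.univ : Finset (L →ₐ[K] Ω)) := Finset.mem_univ φ
  rw [hu] at hm
  simpa only [Finset.mem_insert, Finset.mem_singleton] using hm

end

lemma Em_rel {M : Type*} [Field M] {a b e₁ e₂ e₃ : M} (r1 : e₁ ^ 3 + a * e₁ + b = 0)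
    (r2 : e₂ ^ 3 + a * e₂ + b = 0) (r3 : e₃ ^ 3 + a * e₃ + b = 0) (h12 : e₁ ≠ e₂)
    (h13 : e₁ ≠ e₃) (h23 : e₂ ≠ e₃) :
    e₁ + e₂ + e₃ = 0 ∧ e₁ * e₂ + e₁ * e₃ + e₂ * e₃ = a ∧ -(e₁ * e₂ * e₃) = b := by
  have q1 : e₁ ^ 2 + e₁ * e₂ + e₂ ^ 2 + a = 0 := by
    refine mul_left_cancel₀ (sub_ne_zero.2 h12) ?_
    linear_combination r1 - r2
  have q2 : e₁ ^ 2 + e₁ * e₃ + e₃ ^ 2 + a = 0 := by
    refine mul_left_cancel₀ (sub_ne_zero.2 h13) ?_
    linear_combination r1 - r3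
  have q3 : e₁ + e₂ + e₃ = 0 := by
    refine mul_left_cancel₀ (sub_ne_zero.2 h23) ?_
    linear_combination q1 - q2
  have q4 : e₃ = -(e₁ + e₂) := by linear_combination q3
  refine ⟨q3, ?_, ?_⟩
  · rw [q4]
    linear_combination -q1
  · rw [q4]
    linear_combination -r1 + e₁ * q1

theorem isCub_of {M : Type*} [Field M] {E : WeierstrassCurve M} {a b e₁ e₂ e₃ : M}
    (h1 : E.a₁ = 0) (h2 : E.a₂ = 0) (h3 : E.a₃ = 0) (h4 : E.a₄ = a) (h6 : E.a₆ = b)
    (two : (2 : M) ≠ 0) (r1 : e₁ ^ 3 + a * e₁ + b = 0) (r2 : e₂ ^ 3 + a * e₂ + b = 0)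
    (r3 : e₃ ^ 3 + a * e₃ + b = 0) (h12 : e₁ ≠ e₂) (h13 : e₁ ≠ e₃) (h23 : e₂ ≠ e₃) :
    IsCub E e₁ e₂ e₃ := by
  obtain ⟨q1, q2, q3⟩ := Em_rel r1 r2 r3 h12 h13 h23
  exact
    { a₁ := h1
      a₂ := by rw [h2, q1, neg_zero]
      a₃ := h3
      a₄ := by rw [h4, q2]
      a₆ := by rw [h6, q3]
      h12 := h12
      h13 := h13
      h23 := h23
      two := two }

theorem c_eq {M : Type*} [Field M] {E : WeierstrassCurve M} {a e₁ e₂ e₃ : M}
    (h : IsCub E e₁ e₂ e₃) (h2 : E.a₂ = 0) (h4 : E.a₄ = a) :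
    (e₁ - e₂) * (e₁ - e₃) = 3 * e₁ ^ 2 + a := by
  have q1 := h.a₂
  have q2 := h.a₄
  rw [h2] at q1
  rw [h4] at q2
  rw [q2]
  linear_combination (-2 * e₁) * q1

theorem elliptic {K L : Type} [Field K] [CharZero K] [Field L] [Algebra K L] {a b : K} {θ : L}
    (hL : Cub K L a b θ) : (⟨0, 0, 0, a, b⟩ : WeierstrassCurve K).IsElliptic := by
  obtain ⟨φ₁, φ₂, φ₃, h12, h13, h23, -⟩ := emb3 (Ω := AlgebraicClosure K) hL
  have n12 : φ₁ θ ≠ φ₂ θ := fun h => h12 (emb_ext hL h)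
  have n13 : φ₁ θ ≠ φ₃ θ := fun h => h13 (emb_ext hL h)
  have n23 : φ₂ θ ≠ φ₃ θ := fun h => h23 (emb_ext hL h)
  obtain ⟨q1, q2, q3⟩ := Em_rel (emb_root hL φ₁) (emb_root hL φ₂) (emb_root hL φ₃) n12 n13 n23
  have hD : (⟨0, 0, 0, a, b⟩ : WeierstrassCurve K).Δ = -16 * (4 * a ^ 3 + 27 * b ^ 2) := by
    simp only [WeierstrassCurve.Δ, WeierstrassCurve.b₂, WeierstrassCurve.b₄,
      WeierstrassCurve.b₆, WeierstrassCurve.b₈]
    ring
  refine ⟨?_⟩
  rw [isUnit_iff_ne_zero, hD]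
  intro h0
  have h1 : (4 * a ^ 3 + 27 * b ^ 2 : K) = 0 := by
    rcases mul_eq_zero.1 h0 with h | h
    · exact absurd h (by norm_num)
    · exact h
  have h2 := congrArg (algebraMap K (AlgebraicClosure K)) h1
  simp only [map_add, map_mul, map_pow, map_ofNat, map_zero] at h2
  rw [← q2, ← q3] at h2
  have h3 : ((φ₁ θ - φ₂ θ) * (φ₁ θ - φ₃ θ) * (φ₂ θ - φ₃ θ)) ^ 2 = 0 := by
    have q4 : φ₃ θ = -(φ₁ θ + φ₂ θ) := by linear_combination q1
    rw [q4] at h2 ⊢
    linear_combination -h2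
  have h4 := pow_eq_zero_iff (two_ne_zero) |>.1 h3
  exact mul_ne_zero (mul_ne_zero (sub_ne_zero.2 n12) (sub_ne_zero.2 n13)) (sub_ne_zero.2 n23) h4

end H24PD

end S_H24_PD_Em

section S_H24_PD_Hx

set_option autoImplicit false
open scoped Classical

open WeierstrassCurve Pool.Agent.H10

namespace H24PD

variable {k : Type*} [Field k] {E : WeierstrassCurve k} {e₁ e₂ e₃ : k}

lemma Hx_half (h : IsCub E e₁ e₂ e₃) {x s₁ s₂ s₃ : k} (h1 : s₁ ^ 2 = x - e₁)
    (h2 : s₂ ^ 2 = x - e₂) (h3 : s₃ ^ 2 = x - e₃) :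
    hx e₁ ((e₁ - e₂) * (e₁ - e₃)) (h.half x s₁ s₂ s₃ h1 h2 h3) = s₁ := by
  have n12 : s₁ + s₂ ≠ 0 := by
    intro H
    apply h.h12
    linear_combination (s₁ - s₂) * (-H) + h1 - h2
  have n13 : s₁ + s₃ ≠ 0 := by
    intro H
    apply h.h13
    linear_combination (s₁ - s₃) * (-H) + h1 - h3
  have n23 : s₂ + s₃ ≠ 0 := by
    intro H
    apply h.h23
    linear_combination (s₂ - s₃) * (-H) + h2 - h3
  have hY : (s₁ + s₂) * (s₁ + s₃) * (s₂ + s₃) ≠ 0 := mul_ne_zero (mul_ne_zero n12 n13) n23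
  have e0 : hx e₁ ((e₁ - e₂) * (e₁ - e₃)) (h.half x s₁ s₂ s₃ h1 h2 h3) =
      ((x + s₁ * s₂ + s₁ * s₃ + s₂ * s₃ - e₁) ^ 2 - (e₁ - e₂) * (e₁ - e₃)) /
        (2 * ((s₁ + s₂) * (s₁ + s₃) * (s₂ + s₃))) := rfl
  rw [e0, div_eq_iff (mul_ne_zero h.two hY)]
  have E1 : e₁ = x - s₁ ^ 2 := by linear_combination h1
  have E2 : e₂ = x - s₂ ^ 2 := by linear_combination h2
  have E3 : e₃ = x - s₃ ^ 2 := by linear_combination h3
  rw [E1, E2, E3]
  ring

lemma Hx_exists (h : IsCub E e₁ e₂ e₃) (P : E.toAffine.Point) (hP : P + P ≠ 0) :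
    ∃ (x s₁ s₂ s₃ : k) (h1 : s₁ ^ 2 = x - e₁) (h2 : s₂ ^ 2 = x - e₂) (h3 : s₃ ^ 2 = x - e₃),
      P = h.half x s₁ s₂ s₃ h1 h2 h3 := by
  rcases P with _ | ⟨X, Y, hns⟩
  · exact absurd (add_zero _) hP
  · have hY : Y ≠ 0 := by
      intro hY
      apply hP
      apply Affine.Point.add_self_of_Y_eq
      rw [h.negY_eq, hY, neg_zero]
    obtain ⟨x, s₁, s₂, s₃, h1, h2, h3, hh, -⟩ := h.exists_half hns hY
    exact ⟨x, s₁, s₂, s₃, h1, h2, h3, hh⟩

lemma Hx_wp (h : IsCub E e₁ e₂ e₃) (a : ℤˣ × ℤˣ) : wp e₁ (h.tau a) = a.1 * a.2 := by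
  have hm : ((-1 : ℤˣ) = 1) = False := by decide
  have w1 : wp e₁ h.T₁ = 1 := if_pos rfl
  have w2 : wp e₁ h.T₂ = -1 := if_neg h.h12.symm
  have w3 : wp e₁ h.T₃ = -1 := if_neg h.h13.symm
  have w0 : wp e₁ (0 : E.toAffine.Point) = 1 := rfl
  rcases a with ⟨u, v⟩
  rcases Int.units_eq_one_or u with rfl | rfl <;> rcases Int.units_eq_one_or v with rfl | rfl <;>
  simp [IsCub.tau, hm, w0, w1, w2, w3]

lemma Hx_unit_sq {F : Type*} [Field F] (u : ℤˣ) : (((u : ℤˣ) : ℤ) : F) ^ 2 = 1 := by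
  rcases Int.units_eq_one_or u with rfl | rfl <;> simp

theorem hx_sq (h : IsCub E e₁ e₂ e₃) {P : E.toAffine.Point} {X Y : k}
    {hXY : E.toAffine.Nonsingular X Y} (hP : P + P = .some X Y hXY) :
    hx e₁ ((e₁ - e₂) * (e₁ - e₃)) P ^ 2 = X - e₁ := by
  have hP0 : P + P ≠ 0 := by
    rw [hP]
    exact Affine.Point.some_ne_zero _
  obtain ⟨x, s₁, s₂, s₃, h1, h2, h3, rfl⟩ := Hx_exists h P hP0
  have hns : E.toAffine.Nonsingular x (s₁ * s₂ * s₃) := by
    apply h.nonsingular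
    rw [← h1, ← h2, ← h3]
    ring
  rw [h.half_add_half h1 h2 h3 hns, Affine.Point.some.injEq] at hP
  rw [Hx_half h h1 h2 h3, h1, hP.1]

theorem hx_add (h : IsCub E e₁ e₂ e₃) {P : E.toAffine.Point} (hP : P + P ≠ 0)
    {S : E.toAffine.Point} (hS : S + S = 0) :
    hx e₁ ((e₁ - e₂) * (e₁ - e₃)) (P + S) =
      ((wp e₁ S : ℤ) : k) * hx e₁ ((e₁ - e₂) * (e₁ - e₃)) P := by
  obtain ⟨x, s₁, s₂, s₃, h1, h2, h3, rfl⟩ := Hx_exists h P hP
  obtain ⟨a, rfl⟩ := h.exists_tau S hS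
  have k1 : ((((a.1 * a.2 : ℤˣ) : ℤ) : k) * s₁) ^ 2 = x - e₁ := by
    rw [mul_pow, Hx_unit_sq, one_mul, h1]
  have k2 : (((a.1 : ℤ) : k) * s₂) ^ 2 = x - e₂ := by
    rw [mul_pow, Hx_unit_sq, one_mul, h2]
  have k3 : (((a.2 : ℤ) : k) * s₃) ^ 2 = x - e₃ := by
    rw [mul_pow, Hx_unit_sq, one_mul, h3]
  rw [h.half_add_tau h1 h2 h3 a k1 k2 k3 rfl rfl rfl, Hx_half h k1 k2 k3, Hx_half h h1 h2 h3,
    Hx_wp h a]

theorem hx_pm {k' : Type*} [Field k'] {E' : WeierstrassCurve k'} (φ : k →+* k')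
    (hE : E.map φ = E') (e c : k) (P : E.toAffine.Point) :
    hx (φ e) (φ c) (pm φ hE P) = φ (hx e c P) := by
  rcases P with _ | ⟨X, Y, hns⟩
  · show hx (φ e) (φ c) (pm φ hE 0) = φ (hx e c 0)
    rw [map_zero]
    exact (map_zero φ).symm
  · rw [pm_some]
    show ((φ X - φ e) ^ 2 - φ c) / (2 * φ Y) = φ (((X - e) ^ 2 - c) / (2 * Y))
    rw [map_div₀, map_sub, map_pow, map_sub, map_mul, map_ofNat]

end H24PD

end S_H24_PD_Hx

section S_H24_PD_Ip

set_option autoImplicit false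
open scoped Classical

open Pool.Agent.H10 H76PP

namespace H24PD

theorem E3_m3 {M : Type*} [CommRing M] {a b e : M} (he : e ^ 3 + a * e + b = 0)
    (u v : Fin 3 → M) : E3 e (m3 a b u v) = E3 e u * E3 e v := by
  have h0 : m3 a b u v 0 = u 0 * v 0 - b * (u 1 * v 2 + u 2 * v 1) := rfl
  have h1 : m3 a b u v 1 = u 0 * v 1 + u 1 * v 0 - a * (u 1 * v 2 + u 2 * v 1) - b * (u 2 * v 2) := rfl
  have h2 : m3 a b u v 2 = u 0 * v 2 + u 1 * v 1 + u 2 * v 0 - a * (u 2 * v 2) := rfl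
  unfold E3
  rw [h0, h1, h2]
  linear_combination (-(u 1 * v 2 + u 2 * v 1) - u 2 * v 2 * e) * he

theorem E3_inj {M : Type*} [Field M] {e : Fin 3 → M} (h01 : e 0 ≠ e 1) (h02 : e 0 ≠ e 2)
    (h12 : e 1 ≠ e 2) {u v : Fin 3 → M} (h : ∀ i, E3 (e i) u = E3 (e i) v) : u = v := by
  have g0 := h 0
  have g1 := h 1
  have g2 := h 2
  unfold E3 at g0 g1 g2
  have a1 : (u 1 - v 1) + (u 2 - v 2) * (e 0 + e 1) = 0 := by
    have h1 : (e 0 - e 1) * ((u 1 - v 1) + (u 2 - v 2) * (e 0 + e 1)) = 0 := by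
      linear_combination g0 - g1
    exact (mul_eq_zero.1 h1).resolve_left (sub_ne_zero.2 h01)
  have a2 : (u 1 - v 1) + (u 2 - v 2) * (e 0 + e 2) = 0 := by
    have h1 : (e 0 - e 2) * ((u 1 - v 1) + (u 2 - v 2) * (e 0 + e 2)) = 0 := by
      linear_combination g0 - g2
    exact (mul_eq_zero.1 h1).resolve_left (sub_ne_zero.2 h02)
  have a3 : u 2 - v 2 = 0 := by
    have h1 : (e 1 - e 2) * (u 2 - v 2) = 0 := by
      linear_combination a1 - a2
    exact (mul_eq_zero.1 h1).resolve_left (sub_ne_zero.2 h12)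
  have a4 : u 1 - v 1 = 0 := by
    rw [a3, zero_mul, add_zero] at a1
    exact a1
  have a5 : u 0 - v 0 = 0 := by
    linear_combination g0 - a4 * e 0 - a3 * e 0 ^ 2
  funext i
  fin_cases i
  · exact sub_eq_zero.1 a5
  · exact sub_eq_zero.1 a4
  · exact sub_eq_zero.1 a3

theorem E3_ex {M : Type*} [Field M] {e : Fin 3 → M} (h01 : e 0 ≠ e 1) (h02 : e 0 ≠ e 2)
    (h12 : e 1 ≠ e 2) (z : Fin 3 → M) : ∃ u : Fin 3 → M, ∀ i, E3 (e i) u = z i := by
  obtain ⟨L, hL⟩ : ∃ L : (Fin 3 → M) →ₗ[M] (Fin 3 → M), ∀ u i, L u i = E3 (e i) u := by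
    refine ⟨{ toFun := fun u i => E3 (e i) u, map_add' := fun u v => ?_, map_smul' := fun c u => ?_ }, fun u i => rfl⟩
    · funext i
      show E3 (e i) (u + v) = E3 (e i) u + E3 (e i) v
      unfold E3
      simp only [Pi.add_apply]
      ring
    · funext i
      show E3 (e i) (c • u) = c • E3 (e i) u
      unfold E3
      simp only [Pi.smul_apply, smul_eq_mul]
      ring
  have hinj : Function.Injective L := by
    intro u v huv
    refine E3_inj h01 h02 h12 fun i => ?_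
    rw [← hL u i, ← hL v i, huv]
  obtain ⟨u, hu⟩ := LinearMap.injective_iff_surjective.1 hinj z
  exact ⟨u, fun i => by rw [← hL u i, hu]⟩

theorem ip {F M : Type*} [Field F] [Field M] [Algebra F M] [IsGalois F M] {e z : Fin 3 → M}
    (h01 : e 0 ≠ e 1) (h02 : e 0 ≠ e 2) (h12 : e 1 ≠ e 2)
    (H : ∀ τ : M ≃ₐ[F] M, ∃ π : Fin 3 → Fin 3, ∀ i, τ (e i) = e (π i) ∧ τ (z i) = z (π i)) :
    ∃ u : Fin 3 → F, ∀ i, E3 (e i) (fun j => algebraMap F M (u j)) = z i := by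
  obtain ⟨u, hu⟩ := E3_ex h01 h02 h12 z
  have hei : Function.Injective e := by
    intro i j hij
    fin_cases i <;> fin_cases j
    · rfl
    · exact absurd hij h01
    · exact absurd hij h02
    · exact absurd hij.symm h01
    · rfl
    · exact absurd hij h12
    · exact absurd hij.symm h02
    · exact absurd hij.symm h12
    · rfl
  have hfix : ∀ (τ : M ≃ₐ[F] M), (fun j => τ (u j)) = u := by
    intro τ
    obtain ⟨π, hπ⟩ := H τ
    have hπi : Function.Injective π := by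
      intro i j hij
      apply hei
      apply τ.injective
      rw [(hπ i).1, (hπ j).1, hij]
    have hπs : Function.Surjective π := Finite.surjective_of_injective hπi
    refine E3_inj h01 h02 h12 fun i => ?_
    obtain ⟨j, rfl⟩ := hπs i
    rw [hu (π j), ← (hπ j).2, ← hu j, ← (hπ j).1]
    unfold E3
    simp only [map_add, map_mul, map_pow]
  have hex : ∀ j, ∃ c : F, algebraMap F M c = u j := fun j =>
    fixed_of_galois (u j) fun τ => congrFun (hfix τ) j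
  choose c hc using hex
  refine ⟨c, fun i => ?_⟩
  have : (fun j => algebraMap F M (c j)) = u := funext hc
  rw [this, hu i]

end H24PD

end S_H24_PD_Ip

section S_H24_PD_Ku

set_option autoImplicit false
open scoped Classical

open WeierstrassCurve Pool.Agent.H10

namespace H24PD

variable {K L Ω : Type*} [Field K] [Field L] [Field Ω] [Algebra K L] [Algebra K Ω]

theorem tr [Normal K Ω] (φ ψ : L →ₐ[K] Ω) : ∃ σ : Ω ≃ₐ[K] Ω, mv σ φ = ψ := by
  letI : Algebra L Ω := φ.toRingHom.toAlgebra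
  haveI : IsScalarTower K L Ω := IsScalarTower.of_algebraMap_eq fun x => (φ.commutes x).symm
  obtain ⟨s, hs⟩ := Pool.Agent.H10.exists_lift ψ
  exact ⟨s, AlgHom.ext hs⟩

private theorem ku_fix (φ₀ : L →ₐ[K] Ω) (τ : Ω ≃ₐ[φ₀.fieldRange] Ω) :
    mv (τ.restrictScalars K) φ₀ = φ₀ := by
  apply AlgHom.ext
  intro x
  exact τ.commutes ⟨φ₀ x, ⟨x, rfl⟩⟩

private theorem ku_ext (φ₀ : L →ₐ[K] Ω) (σ : Ω ≃ₐ[K] Ω) (h : mv σ φ₀ = φ₀) :
    ∃ τ : Ω ≃ₐ[φ₀.fieldRange] Ω, τ.restrictScalars K = σ := by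
  refine ⟨{ σ with commutes' := ?_ }, ?_⟩
  · rintro ⟨y, hy⟩
    obtain ⟨x, hx⟩ := hy
    subst hx
    exact DFunLike.congr_fun h x
  · apply AlgEquiv.ext
    intro x
    rfl

theorem ku [IsGalois K Ω] (c : (Ω ≃ₐ[K] Ω) → (L →ₐ[K] Ω) → ℤˣ)
    (hc : ∀ φ, IsLocallyConstant fun σ => c σ φ)
    (hm : ∀ σ τ φ, c (σ * τ) (mv σ φ) = c σ (mv σ φ) * c τ φ) (φ₀ : L →ₐ[K] Ω) :
    ∃ r : (L →ₐ[K] Ω) → Ω, (∀ φ, r φ ≠ 0) ∧
      ∀ σ φ, σ (r φ) = ((c σ (mv σ φ) : ℤ) : Ω) * r (mv σ φ) := by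
  have hloc : IsLocallyConstant
      (fun τ : Ω ≃ₐ[φ₀.fieldRange] Ω => c (τ.restrictScalars K) φ₀) := by
    rw [lc_iff]
    intro τ₀
    obtain ⟨E, hE⟩ := (lc_iff _).mp (hc φ₀) (τ₀.restrictScalars K)
    exact ⟨E, fun τ hτ => hE (τ.restrictScalars K) hτ⟩
  obtain ⟨r₀, hr0, hr⟩ := exists_kummer
    (fun τ : Ω ≃ₐ[φ₀.fieldRange] Ω => c (τ.restrictScalars K) φ₀) hloc (by
      intro τ₁ τ₂
      have h1 := hm (τ₁.restrictScalars K) (τ₂.restrictScalars K) φ₀
      rw [ku_fix] at h1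
      exact h1)
  have hstab : ∀ σ : Ω ≃ₐ[K] Ω, mv σ φ₀ = φ₀ → σ r₀ = ((c σ φ₀ : ℤ) : Ω) * r₀ := by
    intro σ hσ
    obtain ⟨τ, rfl⟩ := ku_ext φ₀ σ hσ
    exact hr τ
  choose s hs using fun φ => tr φ₀ φ
  have hsq : ∀ u : ℤˣ, ((u : ℤ) : Ω) * ((u : ℤ) : Ω) = 1 := by
    intro u
    rw [← Int.cast_mul, ← Units.val_mul, Int.units_mul_self, Units.val_one, Int.cast_one]
  have hne : ∀ u : ℤˣ, ((u : ℤ) : Ω) ≠ 0 := by
    intro u h0
    have h1 := hsq u
    rw [h0, mul_zero] at h1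
    exact zero_ne_one h1
  have claim : ∀ (σ : Ω ≃ₐ[K] Ω) (φ : L →ₐ[K] Ω), mv σ φ₀ = φ →
      ((c (s φ) φ : ℤ) : Ω) * (s φ) r₀ = ((c σ φ : ℤ) : Ω) * σ r₀ := by
    intro σ φ hσ
    have h1 : mv ((s φ)⁻¹ * σ) φ₀ = φ₀ := by
      rw [mv_mul, hσ]
      conv_lhs => rw [← hs φ, hs φ]
      have h2 : mv (s φ)⁻¹ (mv (s φ) φ₀) = φ₀ := by
        rw [← mv_mul, inv_mul_cancel, mv_one]
      rw [hs φ] at h2
      exact h2
    have h2 : σ = s φ * ((s φ)⁻¹ * σ) := by group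
    have h3 := hstab _ h1
    have h4 : c σ φ = c (s φ) φ * c ((s φ)⁻¹ * σ) φ₀ := by
      have h5 := hm (s φ) ((s φ)⁻¹ * σ) φ₀
      rw [hs φ, ← h2] at h5
      exact h5
    have h5 : σ r₀ = ((c ((s φ)⁻¹ * σ) φ₀ : ℤ) : Ω) * (s φ) r₀ := by
      conv_lhs => rw [h2]
      rw [AlgEquiv.mul_apply, h3, map_mul, map_intCast]
    rw [h4, h5, Units.val_mul, Int.cast_mul]
    have h6 := hsq (c ((s φ)⁻¹ * σ) φ₀)
    linear_combination (-(((c (s φ) φ : ℤ) : Ω) * (s φ) r₀)) * h6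
  refine ⟨fun φ => ((c (s φ) φ : ℤ) : Ω) * (s φ) r₀, ?_, ?_⟩
  · intro φ
    exact mul_ne_zero (hne _) ((map_ne_zero (s φ)).2 hr0)
  · intro σ φ
    have h1 : mv (σ * s φ) φ₀ = mv σ φ := by rw [mv_mul, hs φ]
    have h2 := claim (σ * s φ) (mv σ φ) h1
    beta_reduce
    rw [h2, hm σ (s φ) φ, map_mul, map_intCast, Units.val_mul, Int.cast_mul, AlgEquiv.mul_apply]
    have h6 := hsq (c σ (mv σ φ))
    linear_combination (-(((c (s φ) φ : ℤ) : Ω) * σ ((s φ) r₀))) * h6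

theorem fd [IsGalois K Ω] (z : (L →ₐ[K] Ω) → Ω) (hz : ∀ σ φ, σ (z φ) = z (mv σ φ))
    (φ₀ : L →ₐ[K] Ω) : ∃ x : L, ∀ φ, z φ = φ x := by
  obtain ⟨y, hy⟩ := fixed_of_galois (k := φ₀.fieldRange) (z φ₀) (by
    intro τ
    have h1 := hz (τ.restrictScalars K) φ₀
    rw [ku_fix] at h1
    exact h1)
  obtain ⟨x, hx⟩ := y.2
  have hx' : z φ₀ = φ₀ x := by
    rw [← hy]
    exact hx.symm
  refine ⟨x, fun φ => ?_⟩
  obtain ⟨σ, hσ⟩ := tr φ₀ φ
  rw [← hσ, ← hz, hx']
  rfl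

end H24PD

end S_H24_PD_Ku

section S_H24_PD_L1

set_option autoImplicit false
open scoped Classical

open WeierstrassCurve Pool.Agent.H10

namespace H24PD

theorem lo1 {F M : Type*} [Field F] [Field M] [CharZero M] [IsAlgClosed M] [Algebra F M]
    {E : WeierstrassCurve M} [E.IsElliptic] (hinv : Inv F E) {VF : WeierstrassCurve F}
    (hVF : VF.map (algebraMap F M) = E) (hinf : Infinite VF.toAffine.Point)
    (P : E.toAffine.Point) : ∃ P' : E.toAffine.Point, P' + P' + (P' + P') ≠ 0 ∧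
      ∀ τ : M ≃ₐ[F] M, act hinv τ P' - P' = act hinv τ P - P := by
  have hfin : {Q : E.toAffine.Point | 4 • Q = 0}.Finite :=
    Pool.Agent.H11.finite_torsion E 4 (by norm_num)
  have hfix : ∀ (τ : M ≃ₐ[F] M) (Q : VF.toAffine.Point),
      act hinv τ (pm (algebraMap F M) hVF Q) = pm (algebraMap F M) hVF Q := by
    intro τ Q
    unfold act
    rw [pm_pm]
    exact pm_congr _ _ (fun x => τ.commutes x) Q
  have hex : ∃ Q₀ : VF.toAffine.Point, P + pm (algebraMap F M) hVF Q₀ ∉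
      {Q : E.toAffine.Point | 4 • Q = 0} := by
    by_contra hcon
    push Not at hcon
    have : Finite VF.toAffine.Point := by
      have hf : Finite {Q : E.toAffine.Point | 4 • Q = 0} := hfin
      refine Finite.of_injective (fun Q₀ => (⟨P + pm (algebraMap F M) hVF Q₀, hcon Q₀⟩ :
        {Q : E.toAffine.Point | 4 • Q = 0})) ?_
      intro a b hab
      have h1 := congrArg Subtype.val hab
      exact pm_injective _ hVF (add_left_cancel h1)
    exact not_finite VF.toAffine.Point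
  obtain ⟨Q₀, hQ₀⟩ := hex
  refine ⟨P + pm (algebraMap F M) hVF Q₀, ?_, ?_⟩
  · intro h
    apply hQ₀
    rw [Set.mem_setOf_eq, ← h]
    abel
  · intro τ
    rw [map_add, hfix τ Q₀]
    abel

end H24PD

end S_H24_PD_L1

section S_H24_PD_Wp

set_option autoImplicit false
open scoped Classical

open WeierstrassCurve Pool.Agent.H10

namespace H24PD

variable {k : Type*} [Field k] {E : WeierstrassCurve k} {e₁ e₂ e₃ : k}

theorem Wp_zero (e : k) : wp e (0 : E.toAffine.Point) = 1 := rfl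

theorem Wp_some (e x y : k) (hxy : E.toAffine.Nonsingular x y) :
    wp e (Affine.Point.some x y hxy) = if x = e then 1 else -1 := rfl

theorem Wp_tau (h : IsCub E e₁ e₂ e₃) (a : ℤˣ × ℤˣ) :
    wp e₁ (h.tau a) = a.1 * a.2 ∧ wp e₂ (h.tau a) = a.1 ∧ wp e₃ (h.tau a) = a.2 := by
  have hm : ((-1 : ℤˣ) = 1) = False := by decide
  have h12 := h.h12
  have h13 := h.h13
  have h23 := h.h23
  rcases a with ⟨u, v⟩
  rcases Int.units_eq_one_or u with rfl | rfl <;> rcases Int.units_eq_one_or v with rfl | rfl <;>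
    simp [IsCub.tau, hm, IsCub.T₁, IsCub.T₂, IsCub.T₃, Wp_zero, Wp_some, h12, h13, h23, h12.symm,
      h13.symm, h23.symm]

theorem wp_add (h : IsCub E e₁ e₂ e₃) {e : k} (he : e = e₁ ∨ e = e₂ ∨ e = e₃)
    {S S' : E.toAffine.Point} (hS : S + S = 0) (hS' : S' + S' = 0) :
    wp e (S + S') = wp e S * wp e S' := by
  obtain ⟨a, rfl⟩ := h.exists_tau S hS
  obtain ⟨b, rfl⟩ := h.exists_tau S' hS'
  rw [← h.tau_add]
  obtain ⟨a1, a2, a3⟩ := Wp_tau h a
  obtain ⟨b1, b2, b3⟩ := Wp_tau h b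
  obtain ⟨c1, c2, c3⟩ := Wp_tau h (a * b)
  rcases he with rfl | rfl | rfl
  · rw [a1, b1, c1, Prod.fst_mul, Prod.snd_mul]
    exact mul_mul_mul_comm _ _ _ _
  · rw [a2, b2, c2, Prod.fst_mul]
  · rw [a3, b3, c3, Prod.snd_mul]

theorem wp_prod (h : IsCub E e₁ e₂ e₃) {S : E.toAffine.Point} (hS : S + S = 0) :
    wp e₁ S * wp e₂ S * wp e₃ S = 1 := by
  obtain ⟨a, rfl⟩ := h.exists_tau S hS
  obtain ⟨a1, a2, a3⟩ := Wp_tau h a
  rw [a1, a2, a3]
  rcases a with ⟨u, v⟩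
  rcases Int.units_eq_one_or u with rfl | rfl <;> rcases Int.units_eq_one_or v with rfl | rfl <;>
    simp

theorem wp_ext (h : IsCub E e₁ e₂ e₃) {S S' : E.toAffine.Point} (hS : S + S = 0)
    (hS' : S' + S' = 0) (h1 : wp e₁ S = wp e₁ S') (h2 : wp e₂ S = wp e₂ S')
    (h3 : wp e₃ S = wp e₃ S') : S = S' := by
  obtain ⟨a, rfl⟩ := h.exists_tau S hS
  obtain ⟨b, rfl⟩ := h.exists_tau S' hS'
  obtain ⟨a1, a2, a3⟩ := Wp_tau h a
  obtain ⟨b1, b2, b3⟩ := Wp_tau h b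
  rw [a2, b2] at h2
  rw [a3, b3] at h3
  rw [Prod.ext h2 h3]

theorem wp_ex (h : IsCub E e₁ e₂ e₃) {ε₁ ε₂ ε₃ : ℤˣ} (hε : ε₁ * ε₂ * ε₃ = 1) :
    ∃ S : E.toAffine.Point, S + S = 0 ∧ wp e₁ S = ε₁ ∧ wp e₂ S = ε₂ ∧ wp e₃ S = ε₃ := by
  obtain ⟨a1, a2, a3⟩ := Wp_tau h (ε₂, ε₃)
  refine ⟨h.tau (ε₂, ε₃), h.tau_add_self _, ?_, a2, a3⟩
  rw [a1]
  change ε₂ * ε₃ = ε₁
  rcases Int.units_eq_one_or ε₁ with rfl | rfl <;> rcases Int.units_eq_one_or ε₂ with rfl | rfl <;>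
    rcases Int.units_eq_one_or ε₃ with rfl | rfl <;> revert hε <;> decide

theorem wp_pm {k' : Type*} [Field k'] {E' : WeierstrassCurve k'} (φ : k →+* k')
    (hE : E.map φ = E') (e : k) (S : E.toAffine.Point) : wp (φ e) (pm φ hE S) = wp e S := by
  rcases S with _ | ⟨x, y, hxy⟩
  · rw [← Affine.Point.zero_def, map_zero, Wp_zero, Wp_zero]
  · rw [pm_some, Wp_some, Wp_some]
    simp only [φ.injective.eq_iff]

end H24PD

end S_H24_PD_Wp

section S_H24_PD_L2

set_option autoImplicit false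
open scoped Classical

open WeierstrassCurve Pool.Agent.H10 H76PP

namespace H24PD

theorem L2_m3 {F M : Type*} [Field F] [Field M] [Algebra F M] (a b : F) (u v : Fin 3 → F) :
    (fun j => algebraMap F M (m3 a b u v j)) = m3 (algebraMap F M a) (algebraMap F M b)
      (fun j => algebraMap F M (u j)) (fun j => algebraMap F M (v j)) := by
  funext j
  fin_cases j
  · simp [m3]
  · simp [m3]
  · simp [m3]

theorem L2_key {M : Type*} [Field M] {E : WeierstrassCurve M} {e : Fin 3 → M}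
    (h : IsCub E (e 0) (e 1) (e 2)) (i : Fin 3) : ∃ j k : Fin 3, IsCub E (e i) (e j) (e k) := by
  fin_cases i
  · exact ⟨1, 2, h⟩
  · exact ⟨0, 2, h.swap12⟩
  · exact ⟨1, 0, h.swap13⟩

theorem lo2 {F M : Type*} [Field F] [Field M] [Algebra F M] [IsGalois F M] {a b : F}
    {E : WeierstrassCurve M} (hinv : Inv F E) {e : Fin 3 → M} (h : IsCub E (e 0) (e 1) (e 2))
    (h1 : E.a₁ = 0) (h2 : E.a₂ = 0) (h3 : E.a₃ = 0) (h4 : E.a₄ = algebraMap F M a)
    (h6 : E.a₆ = algebraMap F M b)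
    {s : Fin 3 → M} (hs0 : ∀ i, s i ≠ 0) {d : Fin 3 → F}
    (hs : ∀ i, s i ^ 2 = E3 (e i) (fun j => algebraMap F M (d j))) (P : E.toAffine.Point)
    (hP : P + P + (P + P) ≠ 0)
    (H : ∀ τ : M ≃ₐ[F] M, ∃ (π : Fin 3 → Fin 3) (S : E.toAffine.Point), S + S = 0 ∧
      act hinv τ P = P + S ∧
      ∀ i, τ (e i) = e (π i) ∧ τ (s i) = ((wp (e (π i)) S : ℤ) : M) * s (π i)) :
    ∃ (x y : F) (z : Fin 3 → F), y ≠ 0 ∧ y ^ 2 = x ^ 3 + a * x + b ∧
      m3 a b d ![x, -1, 0] = m3 a b z z := by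
  obtain ⟨A, hA⟩ : ∃ A, A = algebraMap F M a := ⟨_, rfl⟩
  obtain ⟨B, hB⟩ : ∃ B, B = algebraMap F M b := ⟨_, rfl⟩
  have hP2 : P + P ≠ 0 := by
    intro h0
    rw [h0, add_zero] at hP
    exact hP rfl
  obtain ⟨X, Y, hXY, hR⟩ : ∃ X Y, ∃ hXY : E.toAffine.Nonsingular X Y, P + P = .some X Y hXY := by
    rcases hR : P + P with _ | ⟨X, Y, n⟩
    · exact absurd hR hP2
    · exact ⟨X, Y, n, rfl⟩
  -- the double is fixed
  have hfix : ∀ τ : M ≃ₐ[F] M, τ X = X ∧ τ Y = Y := by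
    intro τ
    obtain ⟨π, S, hS, hact, -⟩ := H τ
    have h7 : act hinv τ (P + P) = P + P := by
      rw [map_add, hact]
      calc P + S + (P + S) = P + P + (S + S) := by abel
        _ = P + P := by rw [hS, add_zero]
    rw [hR] at h7
    unfold act at h7
    rw [pm_some, Affine.Point.some.injEq] at h7
    exact h7
  obtain ⟨x, hx'⟩ := fixed_of_galois (k := F) X (fun τ => (hfix τ).1)
  obtain ⟨y, hy'⟩ := fixed_of_galois (k := F) Y (fun τ => (hfix τ).2)
  have hY0 : Y ≠ 0 := by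
    rintro h0
    apply hP
    rw [hR]
    apply Affine.Point.add_self_of_Y_eq
    rw [h.negY_eq, h0, neg_zero]
  have hy0 : y ≠ 0 := by
    rintro rfl
    rw [map_zero] at hy'
    exact hY0 hy'.symm
  have heq : Y ^ 2 = X ^ 3 + A * X + B := by
    have h7 := (Affine.equation_iff X Y).1 hXY.1
    rw [h1, h2, h3, h4, h6, ← hA, ← hB] at h7
    linear_combination h7
  have heq' : y ^ 2 = x ^ 3 + a * x + b := by
    apply (algebraMap F M).injective
    rw [map_add, map_add, map_mul, map_pow, map_pow, hx', hy', ← hA, ← hB]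
    exact heq
  -- the three functions
  have hroot : ∀ i, e i ^ 3 + A * e i + B = 0 := by
    intro i
    obtain ⟨j, k, hi⟩ := L2_key h i
    have q2 := hi.a₂
    have q4 := hi.a₄
    have q6 := hi.a₆
    rw [h2] at q2
    rw [h4, ← hA] at q4
    rw [h6, ← hB] at q6
    rw [q4, q6]
    linear_combination (e i) ^ 2 * q2
  have hc : ∀ i, ∃ j k : Fin 3, IsCub E (e i) (e j) (e k) ∧
      (e i - e j) * (e i - e k) = 3 * e i ^ 2 + A := by
    intro i
    obtain ⟨j, k, hi⟩ := L2_key h i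
    exact ⟨j, k, hi, c_eq hi h2 (h4.trans hA.symm)⟩
  obtain ⟨g, hg⟩ : ∃ g : Fin 3 → M, g = fun i => hx (e i) (3 * e i ^ 2 + A) P := ⟨_, rfl⟩
  have hgs : ∀ i, g i ^ 2 = X - e i := by
    intro i
    obtain ⟨j, k, hi, hci⟩ := hc i
    rw [hg]
    change hx (e i) (3 * e i ^ 2 + A) P ^ 2 = X - e i
    rw [← hci]
    exact hx_sq hi hR
  have hga : ∀ (i : Fin 3) (S : E.toAffine.Point), S + S = 0 →
      hx (e i) (3 * e i ^ 2 + A) (P + S) = ((wp (e i) S : ℤ) : M) * g i := by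
    intro i S hS
    obtain ⟨j, k, hi, hci⟩ := hc i
    rw [hg]
    change hx (e i) (3 * e i ^ 2 + A) (P + S) = ((wp (e i) S : ℤ) : M) *
      hx (e i) (3 * e i ^ 2 + A) P
    rw [← hci]
    exact hx_add hi hP2 hS
  have hgal : ∀ τ : M ≃ₐ[F] M, ∃ π : Fin 3 → Fin 3, ∀ i, τ (e i) = e (π i) ∧
      τ (g i / s i) = g (π i) / s (π i) := by
    intro τ
    obtain ⟨π, S, hS, hact, hi⟩ := H τ
    refine ⟨π, fun i => ⟨(hi i).1, ?_⟩⟩
    have hA' : τ A = A := by
      rw [hA]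
      exact τ.commutes a
    have h7 : τ (g i) = ((wp (e (π i)) S : ℤ) : M) * g (π i) := by
      have h8 := hx_pm (τ : M →+* M) (hinv τ) (e i) (3 * e i ^ 2 + A) P
      have h9 : (τ : M →+* M) (3 * e i ^ 2 + A) = 3 * e (π i) ^ 2 + A := by
        change τ (3 * e i ^ 2 + A) = 3 * e (π i) ^ 2 + A
        rw [map_add, map_mul, map_pow, map_ofNat, hA', (hi i).1]
      have h10 : (τ : M →+* M) (e i) = e (π i) := (hi i).1
      have h11 : pm (τ : M →+* M) (hinv τ) P = P + S := hact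
      rw [h9, h10, h11, hga (π i) S hS] at h8
      have h12 : g i = hx (e i) (3 * e i ^ 2 + A) P := by
        rw [hg]
      rw [h12]
      exact h8.symm
    have hw : ((wp (e (π i)) S : ℤ) : M) ≠ 0 := by
      have h8 : (((wp (e (π i)) S : ℤˣ) : ℤ) : M) * (((wp (e (π i)) S : ℤˣ) : ℤ) : M) = 1 := by
        rw [← Int.cast_mul, ← Units.val_mul, Int.units_mul_self, Units.val_one, Int.cast_one]
      exact left_ne_zero_of_mul_eq_one h8
    rw [map_div₀, h7, (hi i).2, mul_div_mul_left _ _ hw]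
  obtain ⟨u, hu⟩ := ip h.h12 h.h13 h.h23 hgal
  refine ⟨x, y, m3 a b u d, hy0, heq', ?_⟩
  have hE3 : (fun j => algebraMap F M (m3 a b d ![x, -1, 0] j)) =
      fun j => algebraMap F M (m3 a b (m3 a b u d) (m3 a b u d) j) := by
    apply E3_inj h.h12 h.h13 h.h23
    intro i
    rw [L2_m3, L2_m3, L2_m3, ← hA, ← hB, E3_m3 (hroot i), E3_m3 (hroot i), E3_m3 (hroot i), hu i,
      ← hs i]
    have h7 : E3 (e i) (fun j => algebraMap F M ((![x, -1, 0] : Fin 3 → F) j)) = X - e i := by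
      simp [E3, hx']
      ring
    rw [h7, ← hgs i]
    have h8 : g i / s i * s i ^ 2 = g i * s i := by
      field_simp [hs0 i]
    rw [h8]
    ring
  funext j
  apply (algebraMap F M).injective
  exact congrFun hE3 j

end H24PD

end S_H24_PD_L2

section S_H24_PD_Lf

set_option autoImplicit false
open scoped Classical

open WeierstrassCurve NumberField IsDedekindDomain Pool.Agent.H10

namespace H24PD

theorem inf_fin {K : Type} [Field K] [NumberField K] (v : HeightOneSpectrum (𝓞 K))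
    (A B : v.adicCompletion K) :
    Infinite (⟨0, 0, 0, A, B⟩ : WeierstrassCurve (v.adicCompletion K)).toAffine.Point := by
  have hchar : CharZero (v.adicCompletion K) :=
    charZero_of_injective_algebraMap (algebraMap K (v.adicCompletion K)).injective
  have h2 : (2 : v.adicCompletion K) ≠ 0 := by norm_num
  have h4 : (4 : v.adicCompletion K) ≠ 0 := by norm_num
  obtain ⟨π, hπ⟩ := v.valuation_exists_uniformizer K
  set p : v.adicCompletion K := (π : v.adicCompletion K) with hp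
  have hvp : Valued.v p = WithZero.exp (-1 : ℤ) := by
    rw [hp, HeightOneSpectrum.valuedAdicCompletion_eq_valuation', hπ]
  have hvp1 : Valued.v p < 1 := by
    rw [hvp, ← WithZero.exp_zero, WithZero.exp_lt_exp]
    norm_num
  have hvp0 : 0 < Valued.v p := by
    rw [hvp]
    exact WithZero.exp_pos
  have hp0 : p ≠ 0 := by
    intro h
    rw [h, map_zero] at hvp0
    exact lt_irrefl _ hvp0
  set M : WithZero (Multiplicative ℤ) := max 1 (max (Valued.v A) (Valued.v B)) with hM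
  have hM0 : 0 < M := lt_of_lt_of_le zero_lt_one (le_max_left _ _)
  set g : WithZero (Multiplicative ℤ) := min (Valued.v (4 : v.adicCompletion K)) 1 with hg
  have hg0 : 0 < g := lt_min (zero_lt_iff.2 ((Valuation.ne_zero_iff _).2 h4)) zero_lt_one
  have hgM : g / M ≠ 0 := div_ne_zero hg0.ne' hM0.ne'
  obtain ⟨n₀, hn₀⟩ := exists_pow_lt₀ hvp1 (Units.mk0 (g / M) hgM)
  rw [Units.val_mk0, lt_div_iff₀ hM0] at hn₀
  -- the small elements
  have hz : ∀ n : ℕ, Valued.v (A * (p ^ (n₀ + n)) ^ 4 + B * (p ^ (n₀ + n)) ^ 6) < g := by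
    intro n
    have hs1 : Valued.v (p ^ (n₀ + n)) ≤ 1 := by
      rw [map_pow]
      exact pow_le_one' hvp1.le _
    have hs : Valued.v (p ^ (n₀ + n)) * M < g := by
      refine lt_of_le_of_lt ?_ hn₀
      rw [map_pow, pow_add]
      have h5 : (Valued.v p) ^ n ≤ 1 := pow_le_one' hvp1.le _
      calc (Valued.v p) ^ n₀ * (Valued.v p) ^ n * M ≤ (Valued.v p) ^ n₀ * 1 * M := by gcongr
        _ = (Valued.v p) ^ n₀ * M := by rw [mul_one]
    have hA : Valued.v (A * (p ^ (n₀ + n)) ^ 4) < g := by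
      refine lt_of_le_of_lt ?_ hs
      rw [map_mul, map_pow _ _ 4, mul_comm]
      have h6 : Valued.v A ≤ M := (le_max_left _ _).trans (le_max_right _ _)
      have h7 : (Valued.v (p ^ (n₀ + n))) ^ 4 ≤ Valued.v (p ^ (n₀ + n)) := by
        calc (Valued.v (p ^ (n₀ + n))) ^ 4 = Valued.v (p ^ (n₀ + n)) *
              (Valued.v (p ^ (n₀ + n))) ^ 3 := by rw [← pow_succ']
          _ ≤ Valued.v (p ^ (n₀ + n)) * 1 := by
              gcongr
              exact pow_le_one' hs1 3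
          _ = _ := mul_one _
      exact mul_le_mul' h7 h6
    have hB : Valued.v (B * (p ^ (n₀ + n)) ^ 6) < g := by
      refine lt_of_le_of_lt ?_ hs
      rw [map_mul, map_pow _ _ 6, mul_comm]
      have h6 : Valued.v B ≤ M := (le_max_right _ _).trans (le_max_right _ _)
      have h7 : (Valued.v (p ^ (n₀ + n))) ^ 6 ≤ Valued.v (p ^ (n₀ + n)) := by
        calc (Valued.v (p ^ (n₀ + n))) ^ 6 = Valued.v (p ^ (n₀ + n)) *
              (Valued.v (p ^ (n₀ + n))) ^ 5 := by rw [← pow_succ']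
          _ ≤ Valued.v (p ^ (n₀ + n)) * 1 := by
              gcongr
              exact pow_le_one' hs1 5
          _ = _ := mul_one _
      exact mul_le_mul' h7 h6
    exact lt_of_le_of_lt (Valuation.map_add _ _ _) (max_lt hA hB)
  have hsq : ∀ n : ℕ, ∃ t : v.adicCompletion K, t ≠ 0 ∧
      1 + (A * (p ^ (n₀ + n)) ^ 4 + B * (p ^ (n₀ + n)) ^ 6) = t * t := by
    intro n
    obtain ⟨t, ht⟩ := isSquare_one_add h2 (lt_of_lt_of_le (hz n) (min_le_left _ _))
    refine ⟨t, ?_, ht⟩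
    rintro rfl
    rw [mul_zero] at ht
    have h5 : A * (p ^ (n₀ + n)) ^ 4 + B * (p ^ (n₀ + n)) ^ 6 = -1 := by
      linear_combination ht
    have h6 := lt_of_lt_of_le (hz n) (min_le_right _ _)
    rw [h5, Valuation.map_neg, map_one] at h6
    exact lt_irrefl _ h6
  choose t ht0 ht using hsq
  have hns : ∀ n : ℕ, (⟨0, 0, 0, A, B⟩ : WeierstrassCurve (v.adicCompletion K)).toAffine.Nonsingular
      (((p ^ (n₀ + n)) ^ 2)⁻¹) (t n * ((p ^ (n₀ + n)) ^ 3)⁻¹) := by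
    intro n
    have hs0 : p ^ (n₀ + n) ≠ 0 := pow_ne_zero _ hp0
    rw [WeierstrassCurve.Affine.nonsingular_iff, WeierstrassCurve.Affine.equation_iff]
    constructor
    · have h5 := ht n
      generalize p ^ (n₀ + n) = s at hs0 h5
      field_simp
      linear_combination -h5
    · right
      intro h6
      have h7 : 2 * (t n * ((p ^ (n₀ + n)) ^ 3)⁻¹) = 0 := by
        simp only [WeierstrassCurve.Affine.negY] at h6
        linear_combination h6
      exact (mul_ne_zero h2 (mul_ne_zero (ht0 n) (inv_ne_zero (pow_ne_zero _ hs0)))) h7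
  refine Infinite.of_injective (fun n : ℕ => WeierstrassCurve.Affine.Point.some _ _ (hns n)) ?_
  intro m n hmn
  simp only [WeierstrassCurve.Affine.Point.some.injEq] at hmn
  have h5 := hmn.1
  rw [inv_inj, ← pow_mul, ← pow_mul] at h5
  have h6 := congrArg Valued.v h5
  rw [map_pow, map_pow] at h6
  have h7 : (n₀ + m) * 2 = (n₀ + n) * 2 := by
    rcases lt_trichotomy ((n₀ + m) * 2) ((n₀ + n) * 2) with h8 | h8 | h8
    · exact absurd h6 (pow_lt_pow_right_of_lt_one₀ hvp0 hvp1 h8).ne'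
    · exact h8
    · exact absurd h6 (pow_lt_pow_right_of_lt_one₀ hvp0 hvp1 h8).ne
  omega

theorem inf_real (A B : ℝ) : Infinite (⟨0, 0, 0, A, B⟩ : WeierstrassCurve ℝ).toAffine.Point := by
  have hpos : ∀ n : ℕ, 0 < ((n : ℝ) + 1 + |A| + |B|) ^ 3 + A * ((n : ℝ) + 1 + |A| + |B|) + B := by
    intro n
    have hA := neg_abs_le A
    have hB := neg_abs_le B
    have hA0 := abs_nonneg A
    have hB0 := abs_nonneg B
    have hn : (0 : ℝ) ≤ n := Nat.cast_nonneg n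
    set x : ℝ := (n : ℝ) + 1 + |A| + |B| with hx
    have hx1 : 1 ≤ x := by linarith
    have hx2 : 1 + |A| + |B| ≤ x := by linarith
    have h3 : x * (1 + |A| + |B|) ≤ x ^ 2 := by nlinarith
    have h4 : x ^ 2 ≤ x ^ 3 := by nlinarith [sq_nonneg x]
    have h5 : -|A| * x ≤ A * x := by nlinarith
    nlinarith
  have hns : ∀ n : ℕ, (⟨0, 0, 0, A, B⟩ : WeierstrassCurve ℝ).toAffine.Nonsingular
      ((n : ℝ) + 1 + |A| + |B|)
      (Real.sqrt (((n : ℝ) + 1 + |A| + |B|) ^ 3 + A * ((n : ℝ) + 1 + |A| + |B|) + B)) := by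
    intro n
    rw [WeierstrassCurve.Affine.nonsingular_iff, WeierstrassCurve.Affine.equation_iff]
    constructor
    · have h5 := Real.sq_sqrt (hpos n).le
      linear_combination h5
    · right
      intro h6
      have h7 := Real.sqrt_pos.2 (hpos n)
      simp only [WeierstrassCurve.Affine.negY] at h6
      linarith
  refine Infinite.of_injective (fun n : ℕ => WeierstrassCurve.Affine.Point.some _ _ (hns n)) ?_
  intro m n hmn
  simp only [WeierstrassCurve.Affine.Point.some.injEq] at hmn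
  have h5 := hmn.1
  have h6 : (m : ℝ) = n := by linarith
  exact_mod_cast h6

end H24PD

end S_H24_PD_Lf

section S_H24_PD_Lo

set_option autoImplicit false
open scoped Classical

open WeierstrassCurve Pool.Agent.H10 H76PP

namespace H24PD

theorem lo {K L : Type} [Field K] [NumberField K] [Field L] [Algebra K L] {a b : K} {θ : L}
    (hL : Cub K L a b θ) {F : Type} [Field F] [Algebra K F]
    (hinf : Infinite ((⟨0, 0, 0, a, b⟩ : WeierstrassCurve K).baseChange F).toAffine.Point)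
    {f : Coch K (⟨0, 0, 0, a, b⟩ : WeierstrassCurve K)} (h2 : ∀ σ, f σ + f σ = 0)
    {r : (L →ₐ[K] AlgebraicClosure K) → AlgebraicClosure K} (hr : ∀ φ, r φ ≠ 0)
    (he : ∀ σ φ, σ (r φ) = ((wp (mv σ φ θ) (f σ) : ℤ) : AlgebraicClosure K) * r (mv σ φ))
    {d : Fin 3 → K} (hd : ∀ φ, r φ ^ 2 = φ (ev θ d))
    (ι : AlgebraicClosure K →ₐ[K] AlgebraicClosure F)
    (ht : TrivAt (F := F) (inv_bc' (⟨0, 0, 0, a, b⟩ : WeierstrassCurve K))
      (ι : AlgebraicClosure K →+* AlgebraicClosure F) (map_bc _ ι) f) :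
    LC (algebraMap K F) a b d := by
  have : CharZero F := charZero_of_alg (K := K)
  have hell : (⟨0, 0, 0, a, b⟩ : WeierstrassCurve K).IsElliptic := elliptic hL
  have hE : ((⟨0, 0, 0, a, b⟩ : WeierstrassCurve K).baseChange
      (AlgebraicClosure F)).IsElliptic := by
    rw [WeierstrassCurve.baseChange]
    infer_instance
  obtain ⟨φ₁, φ₂, φ₃, n12, n13, n23, hall⟩ := emb3 (Ω := AlgebraicClosure K) hL
  obtain ⟨q, q0, q1, q2⟩ : ∃ q : Fin 3 → (L →ₐ[K] AlgebraicClosure K),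
      q 0 = φ₁ ∧ q 1 = φ₂ ∧ q 2 = φ₃ := ⟨![φ₁, φ₂, φ₃], rfl, rfl, rfl⟩
  have hq : ∀ φ : L →ₐ[K] AlgebraicClosure K, ∃ i, φ = q i := by
    intro φ
    rcases hall φ with h | h | h
    · exact ⟨0, by rw [h, q0]⟩
    · exact ⟨1, by rw [h, q1]⟩
    · exact ⟨2, by rw [h, q2]⟩
  have hal : ∀ c : K, ι (algebraMap K (AlgebraicClosure K) c) =
      algebraMap F (AlgebraicClosure F) (algebraMap K F c) := by
    intro c
    rw [ι.commutes, IsScalarTower.algebraMap_apply K F (AlgebraicClosure F)]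
  have hroot : ∀ i, ι (q i θ) ^ 3 + algebraMap F (AlgebraicClosure F) (algebraMap K F a) *
      ι (q i θ) + algebraMap F (AlgebraicClosure F) (algebraMap K F b) = 0 := by
    intro i
    have h := congrArg ι (emb_root hL (q i))
    rw [map_add, map_add, map_mul, map_pow, map_zero, hal, hal] at h
    exact h
  have hne : ∀ {φ ψ : L →ₐ[K] AlgebraicClosure K}, φ ≠ ψ → ι (φ θ) ≠ ι (ψ θ) := by
    intro φ ψ h h'
    exact h (emb_ext hL (ι.toRingHom.injective h'))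
  have hV : ((⟨0, 0, 0, a, b⟩ : WeierstrassCurve K).baseChange F).map
      (algebraMap F (AlgebraicClosure F)) =
      (⟨0, 0, 0, a, b⟩ : WeierstrassCurve K).baseChange (AlgebraicClosure F) := by
    rw [WeierstrassCurve.baseChange, WeierstrassCurve.baseChange, WeierstrassCurve.map_map,
      ← IsScalarTower.algebraMap_eq K F (AlgebraicClosure F)]
  have c1 : ((⟨0, 0, 0, a, b⟩ : WeierstrassCurve K).baseChange (AlgebraicClosure F)).a₁ = 0 :=
    map_zero (algebraMap K (AlgebraicClosure F))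
  have c2 : ((⟨0, 0, 0, a, b⟩ : WeierstrassCurve K).baseChange (AlgebraicClosure F)).a₂ = 0 :=
    map_zero (algebraMap K (AlgebraicClosure F))
  have c3 : ((⟨0, 0, 0, a, b⟩ : WeierstrassCurve K).baseChange (AlgebraicClosure F)).a₃ = 0 :=
    map_zero (algebraMap K (AlgebraicClosure F))
  have c4 : ((⟨0, 0, 0, a, b⟩ : WeierstrassCurve K).baseChange (AlgebraicClosure F)).a₄ =
      algebraMap F (AlgebraicClosure F) (algebraMap K F a) :=
    IsScalarTower.algebraMap_apply K F (AlgebraicClosure F) a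
  have c6 : ((⟨0, 0, 0, a, b⟩ : WeierstrassCurve K).baseChange (AlgebraicClosure F)).a₆ =
      algebraMap F (AlgebraicClosure F) (algebraMap K F b) :=
    IsScalarTower.algebraMap_apply K F (AlgebraicClosure F) b
  have hcub : IsCub ((⟨0, 0, 0, a, b⟩ : WeierstrassCurve K).baseChange (AlgebraicClosure F))
      (ι (q 0 θ)) (ι (q 1 θ)) (ι (q 2 θ)) := by
    refine isCub_of c1 c2 c3 c4 c6 two_ne_zero (hroot 0) (hroot 1) (hroot 2) (hne ?_) (hne ?_)
      (hne ?_)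
    · rw [q0, q1]
      exact n12
    · rw [q0, q2]
      exact n13
    · rw [q1, q2]
      exact n23
  obtain ⟨P, hP⟩ := ht
  obtain ⟨P', hP', hPP⟩ := lo1 (F := F) (inv_bc' (⟨0, 0, 0, a, b⟩ : WeierstrassCurve K)) hV hinf P
  have hs0 : ∀ i, ι (r (q i)) ≠ 0 := by
    intro i h
    exact hr (q i) (ι.toRingHom.injective (h.trans (map_zero ι).symm))
  have hs : ∀ i, ι (r (q i)) ^ 2 = E3 (ι (q i θ)) (fun j =>
      algebraMap F (AlgebraicClosure F) (algebraMap K F (d j))) := by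
    intro i
    rw [← map_pow, hd]
    unfold ev E3
    rw [map_add, map_add, map_mul, map_mul, map_pow, map_add, map_add, map_mul, map_mul, map_pow,
      (q i).commutes, (q i).commutes, (q i).commutes, hal, hal, hal]
  refine lo2 (a := algebraMap K F a) (b := algebraMap K F b)
    (inv_bc' (⟨0, 0, 0, a, b⟩ : WeierstrassCurve K)) (e := fun i => ι (q i θ)) hcub c1 c2 c3 c4 c6
    (s := fun i => ι (r (q i))) hs0 (d := fun j => algebraMap K F (d j)) hs P' hP' ?_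
  intro τ
  obtain ⟨σ, hσ⟩ := exists_restrict (F := F) ι τ
  have hx : ∀ x, τ (ι x) = ι (σ x) := fun x =>
    congrArg (fun φ : AlgebraicClosure K →ₐ[K] AlgebraicClosure F => φ x) hσ
  choose π hπ using fun i => hq (mv σ (q i))
  refine ⟨π, pm (ι : AlgebraicClosure K →+* AlgebraicClosure F) (map_bc _ ι) (f σ), ?_, ?_,
    fun i => ⟨?_, ?_⟩⟩
  · rw [← map_add, h2, map_zero]
  · rw [hP τ σ hx, ← hPP τ, add_sub_cancel]
  · change τ (ι (q i θ)) = ι (q (π i) θ)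
    rw [hx, ← hπ i]
    rfl
  · change τ (ι (r (q i))) = ((wp (ι (q (π i) θ))
      (pm (ι : AlgebraicClosure K →+* AlgebraicClosure F) (map_bc _ ι) (f σ)) : ℤ) :
        AlgebraicClosure F) * ι (r (q (π i)))
    rw [hx, he, map_mul, map_intCast, hπ i]
    congr 3
    exact (wp_pm (ι : AlgebraicClosure K →+* AlgebraicClosure F)
      (map_bc _ ι) (q (π i) θ) (f σ)).symm

end H24PD

end S_H24_PD_Lo

section S_H24_PD_Lr

set_option autoImplicit false
open scoped Classical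

open WeierstrassCurve NumberField IsDedekindDomain Pool.Agent.H10 H76PP

namespace H24PD

private lemma Lr_bc {K F : Type} [Field K] [Field F] [Algebra K F] (a b : K) :
    (⟨0, 0, 0, a, b⟩ : WeierstrassCurve K).baseChange F =
      ⟨0, 0, 0, algebraMap K F a, algebraMap K F b⟩ := by
  unfold WeierstrassCurve.baseChange WeierstrassCurve.map
  simp only [map_zero]

private theorem Lr_real {K L : Type} [Field K] [NumberField K] [Field L] [Algebra K L]
    [Algebra K ℝ] {a b : K} {θ : L}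
    (hL : Cub K L a b θ) {f : Coch K (⟨0, 0, 0, a, b⟩ : WeierstrassCurve K)}
    (hc : IsCocycle K _ f) (hl : IsLocTriv K _ f) (h2 : ∀ σ, f σ + f σ = 0)
    {r : (L →ₐ[K] AlgebraicClosure K) → AlgebraicClosure K} (hr : ∀ φ, r φ ≠ 0)
    (he : ∀ σ φ, σ (r φ) = ((wp (mv σ φ θ) (f σ) : ℤ) : AlgebraicClosure K) * r (mv σ φ))
    {d : Fin 3 → K} (hd : ∀ φ, r φ ^ 2 = φ (ev θ d)) :
    LC (algebraMap K ℝ) a b d := by
  obtain ⟨v, ψ, hψ⟩ := exists_completion (algebraMap K ℝ)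
  have hc' := (isCocycle_iff f).1 hc
  have hc0 : CharZero v.Completion := charZero_of_alg (K := K)
  obtain ⟨ι₀⟩ := exists_embedding K v.Completion
  obtain ⟨ι'⟩ := exists_embedding K ℝ
  have H := ((isLocTriv_iff f).1 hl).2 v ι₀
  have H' : TrivAt (F := ℝ) (inv_bc' (⟨0, 0, 0, a, b⟩ : WeierstrassCurve K))
      (ι' : AlgebraicClosure K →+* AlgebraicClosure ℝ) (map_bc _ ι') f :=
    H.trans hc' (V := (⟨0, 0, 0, a, b⟩ : WeierstrassCurve K)) rfl (k := ψ)
      (j := algebraMap K v.Completion)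
      (fun x => by
        change ι₀ (algebraMap K (AlgebraicClosure K) x) = _
        rw [ι₀.commutes, IsScalarTower.algebraMap_apply K v.Completion
          (AlgebraicClosure v.Completion)])
      (inv_bc' (⟨0, 0, 0, a, b⟩ : WeierstrassCurve K)) ι' (map_bc _ ι')
      (fun x => by
        change ι' (algebraMap K (AlgebraicClosure K) x) = _
        rw [ι'.commutes, hψ, IsScalarTower.algebraMap_apply K ℝ (AlgebraicClosure ℝ)])
  have hinf : Infinite ((⟨0, 0, 0, a, b⟩ : WeierstrassCurve K).baseChange ℝ).toAffine.Point := by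
    rw [Lr_bc]
    exact inf_real _ _
  exact lo hL hinf h2 hr he hd ι' H'

theorem lr {K L : Type} [Field K] [NumberField K] [Field L] [Algebra K L] {a b : K} {θ : L}
    (hL : Cub K L a b θ) {f : Coch K (⟨0, 0, 0, a, b⟩ : WeierstrassCurve K)}
    (hc : IsCocycle K _ f) (hl : IsLocTriv K _ f) (h2 : ∀ σ, f σ + f σ = 0)
    {r : (L →ₐ[K] AlgebraicClosure K) → AlgebraicClosure K} (hr : ∀ φ, r φ ≠ 0)
    (he : ∀ σ φ, σ (r φ) = ((wp (mv σ φ θ) (f σ) : ℤ) : AlgebraicClosure K) * r (mv σ φ))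
    {d : Fin 3 → K} (hd : ∀ φ, r φ ^ 2 = φ (ev θ d)) :
    (∀ v : HeightOneSpectrum (𝓞 K), LC (algebraMap K (v.adicCompletion K)) a b d) ∧
      ∀ s : K →+* ℝ, LC s a b d := by
  constructor
  · intro v
    obtain ⟨ι⟩ := exists_embedding K (v.adicCompletion K)
    have H := ((isLocTriv_iff f).1 hl).1 v ι
    have hinf : Infinite ((⟨0, 0, 0, a, b⟩ : WeierstrassCurve K).baseChange
        (v.adicCompletion K)).toAffine.Point := by
      rw [Lr_bc]
      exact inf_fin v _ _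
    exact lo hL hinf h2 hr he hd ι H
  · intro s
    exact @Lr_real K L _ _ _ _ s.toAlgebra a b θ hL f hc hl h2 r hr he d hd

end H24PD

end S_H24_PD_Lr

section S_H24_PD_Sd

set_option autoImplicit false
open scoped Classical

open WeierstrassCurve Pool.Agent.H10

namespace H24PD

variable {K L Ω : Type*} [Field K] [Field L] [Field Ω] [Algebra K L] [Algebra K Ω]

theorem prod_mv' {M : Type*} [CommMonoid M] [Fintype (L →ₐ[K] Ω)] (σ : Ω ≃ₐ[K] Ω)
    (g : (L →ₐ[K] Ω) → M) :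
    ∏ φ : L →ₐ[K] Ω, g (mv σ φ) = ∏ φ : L →ₐ[K] Ω, g φ := by
  apply Fintype.prod_bijective (mv σ)
  · constructor
    · intro φ ψ hφψ
      ext x
      have := congrArg (fun θ : L →ₐ[K] Ω => θ x) hφψ
      exact σ.injective this
    · intro φ
      refine ⟨mv σ⁻¹ φ, ?_⟩
      rw [← mv_mul, mul_inv_cancel, mv_one]
  · intro _; rfl

theorem units_cast_sq {R : Type*} [CommRing R] (u : ℤˣ) : ((u : ℤ) : R) ^ 2 = 1 := by
  rw [← Int.cast_pow, ← Units.val_pow_eq_pow_val, Int.units_sq, Units.val_one, Int.cast_one]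

theorem units_cast_prod {R ι : Type*} [CommRing R] [Fintype ι] (f : ι → ℤˣ) :
    ∏ i, (((f i : ℤˣ) : ℤ) : R) = (((∏ i, f i : ℤˣ) : ℤ) : R) := by
  rw [Units.coe_prod, Int.cast_prod]

theorem sd [CharZero K] [FiniteDimensional K L] [IsAlgClosed Ω] [IsGalois K Ω]
    (c : (Ω ≃ₐ[K] Ω) → (L →ₐ[K] Ω) → ℤˣ) (hc : ∀ φ, IsLocallyConstant fun σ => c σ φ)
    (hm : ∀ σ τ φ, c (σ * τ) (mv σ φ) = c σ (mv σ φ) * c τ φ) (hp : ∀ σ, ∏ φ, c σ φ = 1) :
    ∃ (r : (L →ₐ[K] Ω) → Ω) (δ : L), (∀ φ, r φ ≠ 0) ∧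
      (∀ σ φ, σ (r φ) = ((c σ (mv σ φ) : ℤ) : Ω) * r (mv σ φ)) ∧ (∀ φ, r φ ^ 2 = φ δ) ∧ δ ≠ 0 ∧
      IsSquare (Algebra.norm K δ) := by
  let φ₀ : L →ₐ[K] Ω := IsAlgClosed.lift
  obtain ⟨r, hr0, hr⟩ := ku c hc hm φ₀
  have hz : ∀ (σ : Ω ≃ₐ[K] Ω) (φ : L →ₐ[K] Ω), σ (r φ ^ 2) = r (mv σ φ) ^ 2 := by
    intro σ φ
    rw [map_pow, hr, mul_pow, units_cast_sq, one_mul]
  obtain ⟨δ, hδ⟩ := fd (fun φ => r φ ^ 2) hz φ₀
  have hδ0 : δ ≠ 0 := by
    rintro rfl
    have h := hδ φ₀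
    simp only [map_zero] at h
    exact hr0 φ₀ (pow_eq_zero_iff (two_ne_zero) |>.1 h)
  have hfix : ∀ σ : Ω ≃ₐ[K] Ω, σ (∏ φ, r φ) = ∏ φ, r φ := by
    intro σ
    rw [map_prod]
    simp_rw [hr]
    rw [Finset.prod_mul_distrib, prod_mv' σ (fun φ => r φ),
      prod_mv' σ (fun φ => ((c σ φ : ℤ) : Ω)), units_cast_prod, hp, Units.val_one, Int.cast_one,
      one_mul]
  obtain ⟨t, ht⟩ := fixed_of_galois _ hfix
  refine ⟨r, δ, hr0, hr, hδ, hδ0, t, ?_⟩
  apply (algebraMap K Ω).injective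
  rw [Algebra.norm_eq_prod_embeddings K Ω, map_mul, ht, ← pow_two, ← Finset.prod_pow]
  exact Finset.prod_congr rfl (fun φ _ => (hδ φ).symm)

/-- If the class is a square, the family of signs is a coboundary of a family of product one. -/
theorem sq_family [CharZero K] [FiniteDimensional K L] [IsAlgClosed Ω] [IsGalois K Ω]
    (h3 : Odd (Module.finrank K L)) {c : (Ω ≃ₐ[K] Ω) → (L →ₐ[K] Ω) → ℤˣ}
    {r : (L →ₐ[K] Ω) → Ω} {δ : L} (hr : ∀ φ, r φ ≠ 0)
    (he : ∀ σ φ, σ (r φ) = ((c σ (mv σ φ) : ℤ) : Ω) * r (mv σ φ)) (hd : ∀ φ, r φ ^ 2 = φ δ)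
    (hs : IsSquare δ) : ∃ ε : (L →ₐ[K] Ω) → ℤˣ, ∏ φ, ε φ = 1 ∧
      ∀ σ φ, c σ (mv σ φ) = ε φ * ε (mv σ φ) := by
  -- δ = t * t, r φ = ± φ t =: ε φ * φ t (t ≠ 0). σ (r φ) = ε φ * (mv σ φ) t, and it is
  -- c σ (mv σ φ) * ε (mv σ φ) * (mv σ φ) t, hence ε φ = c σ (mv σ φ) * ε (mv σ φ).
  -- If ∏ ε = -1 replace ε by -ε (the number of embeddings is finrank K L, odd:
  -- AlgHom.card K L Ω, separable as CharZero).
  have : CharZero Ω := charZero_of_injective_algebraMap (algebraMap K Ω).injective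
  obtain ⟨t, ht⟩ := hs
  have h1 : ∀ φ : L →ₐ[K] Ω, ∃ e : ℤˣ, r φ = ((e : ℤ) : Ω) * φ t := by
    intro φ
    have h2 : (r φ) ^ 2 = (φ t) ^ 2 := by rw [hd, ht, map_mul, pow_two]
    rcases sq_eq_sq_iff_eq_or_eq_neg.1 h2 with h | h
    · exact ⟨1, by rw [h]; simp⟩
    · exact ⟨-1, by rw [h]; simp⟩
  choose ε hε using h1
  have ht0 : ∀ φ : L →ₐ[K] Ω, φ t ≠ 0 := by
    intro φ h
    apply hr φ
    rw [hε, h, mul_zero]
  have key : ∀ (σ : Ω ≃ₐ[K] Ω) (φ : L →ₐ[K] Ω), c σ (mv σ φ) = ε φ * ε (mv σ φ) := by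
    intro σ φ
    have h2 := he σ φ
    rw [hε, hε (mv σ φ), map_mul, map_intCast, mv_apply, ← mul_assoc] at h2
    have h3 : σ (φ t) ≠ 0 := by
      intro h
      exact ht0 φ (σ.injective (by rw [h, map_zero]))
    have h4 := mul_right_cancel₀ h3 h2
    have h5 : (((ε φ : ℤˣ) : ℤ)) = ((c σ (mv σ φ) : ℤˣ) : ℤ) * ((ε (mv σ φ) : ℤˣ) : ℤ) := by
      exact_mod_cast h4
    have h6 : ε φ = c σ (mv σ φ) * ε (mv σ φ) := by
      apply Units.ext
      rw [h5, Units.val_mul]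
    rw [h6, mul_assoc, Int.units_mul_self, mul_one]
  rcases Int.units_eq_one_or (∏ φ, ε φ) with h | h
  · exact ⟨ε, h, key⟩
  · refine ⟨fun φ => -ε φ, ?_, ?_⟩
    · have h2 : ∏ φ : L →ₐ[K] Ω, (-ε φ) = (-1) ^ (Fintype.card (L →ₐ[K] Ω)) * ∏ φ, ε φ := by
        rw [← Finset.card_univ, ← Finset.prod_const, ← Finset.prod_mul_distrib]
        exact Finset.prod_congr rfl (fun φ _ => by rw [neg_one_mul])
      rw [h2, h, AlgHom.card K L Ω, h3.neg_one_pow]
      rfl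
    · intro σ φ
      rw [neg_mul_neg]
      exact key σ φ

end H24PD

end S_H24_PD_Sd

section S_H24_PD_Cu

set_option autoImplicit false
open scoped Classical

open NumberField H76PP

namespace H24PD

open Polynomial in
private theorem cu_aux {K : Type} [Field K] [NumberField K] {A B : K}
    (h : ∀ t : K, t ^ 3 + A * t + B ≠ 0) (p : K[X]) (hp : p = X ^ 3 + C A * X + C B) :
    ∃ (L : Type) (_ : Field L) (_ : NumberField L) (_ : Algebra K L) (θ : L), Cub K L A B θ := by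
  have hdeg : p.natDegree = 3 := by
    rw [hp]
    compute_degree!
  have hmon : p.Monic := by
    rw [hp]
    monicity!
  have hirr : Irreducible p := by
    rw [hmon.irreducible_iff_roots_eq_zero_of_degree_le_three (by omega) (by omega)]
    apply Multiset.eq_zero_of_forall_notMem
    intro t ht
    rw [mem_roots hmon.ne_zero, IsRoot.def, hp] at ht
    simp only [eval_add, eval_pow, eval_X, eval_mul, eval_C] at ht
    exact h t ht
  haveI : Fact (Irreducible p) := ⟨hirr⟩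
  haveI : Module.Finite K (AdjoinRoot p) := (AdjoinRoot.powerBasis' hmon).finite
  refine ⟨AdjoinRoot p, inferInstance, NumberField.of_module_finite K _, inferInstance,
    AdjoinRoot.root p, ?_, ?_, ?_⟩
  · have h1 : AdjoinRoot.mk p (X ^ 3 + C A * X + C B) = 0 := by
      rw [← hp]
      exact AdjoinRoot.mk_self
    rw [map_add, map_add, map_mul, map_pow, AdjoinRoot.mk_X, AdjoinRoot.mk_C,
      AdjoinRoot.mk_C] at h1
    exact h1
  · intro c₀ c₁ c₂ hc
    have h1 : AdjoinRoot.mk p (C c₀ + C c₁ * X + C c₂ * X ^ 2) = 0 := by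
      rw [map_add, map_add, map_mul, map_mul, map_pow, AdjoinRoot.mk_X, AdjoinRoot.mk_C,
        AdjoinRoot.mk_C, AdjoinRoot.mk_C]
      exact hc
    rw [AdjoinRoot.mk_eq_zero] at h1
    have h2 : C c₀ + C c₁ * X + C c₂ * X ^ 2 = 0 := by
      apply Polynomial.eq_zero_of_dvd_of_natDegree_lt h1
      rw [hdeg]
      have h3 : (C c₀ + C c₁ * X + C c₂ * X ^ 2).natDegree ≤ 2 := by compute_degree
      omega
    have e0 := congrArg (fun f => coeff f 0) h2
    have e1 := congrArg (fun f => coeff f 1) h2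
    have e2 := congrArg (fun f => coeff f 2) h2
    simp [coeff_X, coeff_C] at e0 e1 e2
    exact ⟨e0, e1, e2⟩
  · intro x
    obtain ⟨f, rfl⟩ := AdjoinRoot.mk_surjective x
    have h1 : AdjoinRoot.mk p f = AdjoinRoot.mk p (f %ₘ p) := by
      conv_lhs => rw [← modByMonic_add_div f p]
      rw [map_add, map_mul, AdjoinRoot.mk_self, zero_mul, add_zero]
    have h2 : (f %ₘ p).natDegree < 3 := by
      rw [← hdeg]
      apply natDegree_modByMonic_lt f hmon
      intro h3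
      rw [h3, natDegree_one] at hdeg
      omega
    refine ⟨(f %ₘ p).coeff 0, (f %ₘ p).coeff 1, (f %ₘ p).coeff 2, ?_⟩
    rw [h1]
    conv_lhs => rw [as_sum_range' (f %ₘ p) 3 h2]
    rw [Finset.sum_range_succ, Finset.sum_range_succ, Finset.sum_range_succ,
      Finset.sum_range_zero, zero_add, ← C_mul_X_pow_eq_monomial, ← C_mul_X_pow_eq_monomial,
      ← C_mul_X_pow_eq_monomial, pow_zero, mul_one, pow_one, map_add, map_add, map_mul, map_mul,
      map_pow, AdjoinRoot.mk_X, AdjoinRoot.mk_C, AdjoinRoot.mk_C, AdjoinRoot.mk_C]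
    rfl

theorem cu {K : Type} [Field K] [NumberField K] {A B : K} (h : ∀ t : K, t ^ 3 + A * t + B ≠ 0) :
    ∃ (L : Type) (_ : Field L) (_ : NumberField L) (_ : Algebra K L) (θ : L), Cub K L A B θ :=
  cu_aux h _ rfl

end H24PD

end S_H24_PD_Cu

section S_H24_PD_Fi

set_option autoImplicit false
open scoped Classical

open WeierstrassCurve NumberField IsDedekindDomain Pool.Agent.H10

namespace H24PD

theorem Fi_cob {K : Type} [Field K] [NumberField K] (V : WeierstrassCurve K)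
    (Q : (V.baseChange (AlgebraicClosure K)).toAffine.Point) :
    (fun σ => act (inv_bc K V) σ Q - Q) ∈ ShaZ K V :=
  shaB_le K V ((isCobound_iff _).2 ⟨Q, fun _ => rfl⟩)

theorem Fi_base {K : Type} [Field K] [NumberField K] (V : WeierstrassCurve K) [V.IsElliptic]
    (H : ∀ f : Coch K V, H73IS.Sl K V f →
      ∃ S : (V.baseChange (AlgebraicClosure K)).toAffine.Point, S + S = 0 ∧
        ∀ σ, f σ = act (inv_bc K V) σ S - S) (R : (V.baseChange K).toAffine.Point) :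
    ∃ R' : (V.baseChange K).toAffine.Point, R = R' + R' := by
  obtain ⟨P, hP⟩ : ∃ P : (V.baseChange (AlgebraicClosure K)).toAffine.Point,
      P = WeierstrassCurve.Affine.Point.map (Algebra.ofId K (AlgebraicClosure K)) R := ⟨_, rfl⟩
  have hact : ∀ (σ : AlgebraicClosure K ≃ₐ[K] AlgebraicClosure K)
      (X : (V.baseChange (AlgebraicClosure K)).toAffine.Point),
      Pool.Agent.H11.act V σ X = act (inv_bc K V) σ X := by
    intro σ X
    unfold Pool.Agent.H11.act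
    rw [map_eq_pm]
    rfl
  have hPfix : ∀ σ : AlgebraicClosure K ≃ₐ[K] AlgebraicClosure K,
      act (inv_bc K V) σ P = P := by
    intro σ
    rw [← hact, hP]
    exact Pool.Agent.H11.act_of_K V R σ
  obtain ⟨Q, hQ⟩ := Pool.Agent.H11.smul_surjective (V.baseChange (AlgebraicClosure K)) 2
    (by norm_num) P
  rw [two_nsmul] at hQ
  obtain ⟨S, hS, hS'⟩ := H (fun σ => act (inv_bc K V) σ Q - Q)
    ⟨(Fi_cob V Q).1, (Fi_cob V Q).2, fun σ => by
      have h1 : act (inv_bc K V) σ Q - Q + (act (inv_bc K V) σ Q - Q) =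
          act (inv_bc K V) σ (Q + Q) - (Q + Q) := by
        rw [map_add]
        abel
      rw [h1, hQ, hPfix, sub_self]⟩
  obtain ⟨R', hR'⟩ := Pool.Agent.H11.exists_of_act_eq V (Q - S) (by
    intro σ
    rw [hact, map_sub]
    have h1 : act (inv_bc K V) σ Q - Q = act (inv_bc K V) σ S - S := hS' σ
    rw [sub_eq_sub_iff_sub_eq_sub.mp h1])
  refine ⟨R', ?_⟩
  apply WeierstrassCurve.Affine.Point.map_injective (f := Algebra.ofId K (AlgebraicClosure K))
  rw [map_add, hR', ← hP, ← hQ]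
  have h2 : Q - S + (Q - S) = Q + Q - (S + S) := by abel
  rw [h2, hS, sub_zero]

theorem fi_div {K : Type} [Field K] [NumberField K] {V : WeierstrassCurve K} [V.IsElliptic]
    (H : ∀ f : Coch K V, H73IS.Sl K V f →
      ∃ S : (V.baseChange (AlgebraicClosure K)).toAffine.Point, S + S = 0 ∧
        ∀ σ, f σ = act (inv_bc K V) σ S - S) (R : V.toAffine.Point) :
    ∃ R' : V.toAffine.Point, R = R' + R' := by
  exact Fi_base V H R

theorem fin_of_div {G : Type*} [AddCommGroup G] (hG : AddGroup.FG G)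
    (h : ∀ x : G, ∃ y : G, x = y + y) : Finite G := by
  have hfin : Module.Finite ℤ G := Module.Finite.iff_addGroup_fg.mpr hG
  obtain ⟨r, hr, hr0⟩ := Submodule.exists_sub_one_mem_and_smul_eq_zero_of_fg_of_le_smul
    (Ideal.span {(2 : ℤ)}) (⊤ : Submodule ℤ G) hfin.fg_top (by
      intro x _
      obtain ⟨y, hy⟩ := h x
      have h1 : x = (2 : ℤ) • y := by rw [hy, two_smul]
      rw [h1]
      exact Submodule.smul_mem_smul (Ideal.mem_span_singleton_self _) Submodule.mem_top)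
  have hrn : r ≠ 0 := by
    rintro rfl
    rw [Ideal.mem_span_singleton] at hr
    omega
  apply Module.finite_of_fg_torsion
  intro x
  exact ⟨⟨r, mem_nonZeroDivisors_of_ne_zero hrn⟩, hr0 x Submodule.mem_top⟩

theorem fi {K : Type} [Field K] [NumberField K] {V : WeierstrassCurve K} [V.IsElliptic]
    (H : ∀ f : Coch K V, H73IS.Sl K V f →
      ∃ S : (V.baseChange (AlgebraicClosure K)).toAffine.Point, S + S = 0 ∧
        ∀ σ, f σ = act (inv_bc K V) σ S - S) :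
    Finite V.toAffine.Point ∧ Sha2Trivial K V := by
  refine ⟨fin_of_div (Pool.Agent.H11.mordell_weil V) (fi_div H), ?_⟩
  have key : ∀ f, IsCocycle K V f → IsLocTriv K V f → IsCobound K V (fun σ => f σ + f σ) →
      IsCobound K V f := by
    intro f hf hl h2
    obtain ⟨Q, hQ⟩ := (isCobound_iff _).1 h2
    obtain ⟨R, hR⟩ := Pool.Agent.H11.smul_surjective (V.baseChange (AlgebraicClosure K)) 2
      (by norm_num) Q
    rw [two_nsmul] at hR
    have hmem := (ShaZ K V).sub_mem (x := f) (y := fun σ => act (inv_bc K V) σ R - R) ⟨hf, hl⟩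
      (Fi_cob V R)
    obtain ⟨S, hS, hS'⟩ := H (f - fun σ => act (inv_bc K V) σ R - R)
      ⟨hmem.1, hmem.2, fun σ => by
        have h1 : (f - fun σ => act (inv_bc K V) σ R - R) σ +
            (f - fun σ => act (inv_bc K V) σ R - R) σ =
            (f σ + f σ) - (act (inv_bc K V) σ (R + R) - (R + R)) := by
          rw [Pi.sub_apply, map_add]
          abel
        rw [h1, hR]
        have h3 : f σ + f σ = act (inv_bc K V) σ Q - Q := hQ σ
        rw [h3, sub_self]⟩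
    refine (isCobound_iff _).2 ⟨R + S, fun σ => ?_⟩
    have h1 := hS' σ
    rw [Pi.sub_apply, sub_eq_iff_eq_add] at h1
    rw [h1, map_add]
    abel
  have hmul : ∀ (m : ℕ) (f : (AlgebraicClosure K ≃ₐ[K] AlgebraicClosure K) →
      (V.baseChange (AlgebraicClosure K)).toAffine.Point), IsCocycle K V f → IsLocTriv K V f →
      IsCocycle K V (fun σ => m • f σ) ∧ IsLocTriv K V (fun σ => m • f σ) := by
    intro m f hf hl
    have h1 := (ShaZ K V).nsmul_mem (x := f) ⟨hf, hl⟩ m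
    exact h1
  rintro f hf hl ⟨m, hm⟩
  induction m with
  | zero => simpa using hm
  | succ m ih =>
    apply ih
    obtain ⟨h1, h2⟩ := hmul (2 ^ m) f hf hl
    apply key _ h1 h2
    have h3 : (fun σ => (2 ^ m) • f σ + (2 ^ m) • f σ) = (fun σ => (2 ^ (m + 1)) • f σ) := by
      funext σ
      rw [← two_nsmul, ← mul_nsmul, pow_succ]
    rw [h3]
    exact hm

end H24PD

end S_H24_PD_Fi

section S_H24_PD_Sc

set_option autoImplicit false
open scoped Classical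

open WeierstrassCurve NumberField IsDedekindDomain Pool.Agent.H10 H76PP

namespace H24PD

section

variable {K L : Type} [Field K] [Field L] [Algebra K L] {V : WeierstrassCurve K} {θ : L}

private theorem Sc_act (σ : AlgebraicClosure K ≃ₐ[K] AlgebraicClosure K)
    {P : (V.baseChange (AlgebraicClosure K)).toAffine.Point} (hP : P + P = 0) :
    act (inv_bc K V) σ P + act (inv_bc K V) σ P = 0 := by
  rw [← map_add, hP, map_zero]

private theorem Sc_mv (σ : AlgebraicClosure K ≃ₐ[K] AlgebraicClosure K)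
    (φ : L →ₐ[K] AlgebraicClosure K) (P : (V.baseChange (AlgebraicClosure K)).toAffine.Point) :
    wp (mv σ φ θ) (act (inv_bc K V) σ P) = wp (φ θ) P :=
  wp_pm (σ : AlgebraicClosure K →+* AlgebraicClosure K) (inv_bc K V σ) (φ θ) P

private theorem Sc_prod [Fintype (L →ₐ[K] AlgebraicClosure K)]
    {φ₁ φ₂ φ₃ : L →ₐ[K] AlgebraicClosure K} (h12 : φ₁ ≠ φ₂) (h13 : φ₁ ≠ φ₃) (h23 : φ₂ ≠ φ₃)
    (hall : ∀ φ, φ = φ₁ ∨ φ = φ₂ ∨ φ = φ₃) (F : (L →ₐ[K] AlgebraicClosure K) → ℤˣ) :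
    ∏ φ, F φ = F φ₁ * F φ₂ * F φ₃ := by
  have huniv : (Finset.univ : Finset (L →ₐ[K] AlgebraicClosure K)) = {φ₁, φ₂, φ₃} := by
    ext φ
    simp only [Finset.mem_univ, Finset.mem_insert, Finset.mem_singleton, true_iff]
    exact hall φ
  rw [huniv, Finset.prod_insert, Finset.prod_insert, Finset.prod_singleton, mul_assoc]
  · simp only [Finset.mem_singleton]
    exact h23
  · simp only [Finset.mem_insert, Finset.mem_singleton, not_or]
    exact ⟨h12, h13⟩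

private theorem Sc_th {φ₁ φ₂ φ₃ : L →ₐ[K] AlgebraicClosure K}
    (hall : ∀ φ, φ = φ₁ ∨ φ = φ₂ ∨ φ = φ₃) (φ : L →ₐ[K] AlgebraicClosure K) :
    φ θ = φ₁ θ ∨ φ θ = φ₂ θ ∨ φ θ = φ₃ θ := by
  rcases hall φ with h | h | h
  · exact Or.inl (by rw [h])
  · exact Or.inr (Or.inl (by rw [h]))
  · exact Or.inr (Or.inr (by rw [h]))

private theorem Sc_one [CharZero K] [FiniteDimensional K L] {φ₁ φ₂ φ₃ : L →ₐ[K] AlgebraicClosure K}
    (h12 : φ₁ ≠ φ₂) (h13 : φ₁ ≠ φ₃) (h23 : φ₂ ≠ φ₃) (hall : ∀ φ, φ = φ₁ ∨ φ = φ₂ ∨ φ = φ₃)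
    (hE : IsCub (V.baseChange (AlgebraicClosure K)) (φ₁ θ) (φ₂ θ) (φ₃ θ)) {f : Coch K V}
    (hcoc : IsCoc (inv_bc K V) f) (hfa : ∀ σ, f σ + f σ = 0) :
    ∃ (r : (L →ₐ[K] AlgebraicClosure K) → AlgebraicClosure K) (δ : L), (∀ φ, r φ ≠ 0) ∧
      (∀ (σ : AlgebraicClosure K ≃ₐ[K] AlgebraicClosure K) (φ : L →ₐ[K] AlgebraicClosure K),
        σ (r φ) = ((wp (mv σ φ θ) (f σ) : ℤ) : AlgebraicClosure K) * r (mv σ φ)) ∧
      (∀ φ, r φ ^ 2 = φ δ) ∧ δ ≠ 0 ∧ IsSquare (Algebra.norm K δ) := by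
  refine sd (K := K) (L := L) (Ω := AlgebraicClosure K) (fun σ φ => wp (φ θ) (f σ))
    (fun φ => hcoc.1.comp (wp (φ θ))) (fun σ τ φ => ?_) (fun σ => ?_)
  · rw [hcoc.2 σ τ, wp_add hE (Sc_th hall _) (hfa σ) (Sc_act σ (hfa τ)), Sc_mv]
  · rw [Sc_prod h12 h13 h23 hall]
    exact wp_prod hE (hfa σ)

private theorem Sc_two [FiniteDimensional K L] {φ₁ φ₂ φ₃ : L →ₐ[K] AlgebraicClosure K}
    (h12 : φ₁ ≠ φ₂) (h13 : φ₁ ≠ φ₃) (h23 : φ₂ ≠ φ₃) (hall : ∀ φ, φ = φ₁ ∨ φ = φ₂ ∨ φ = φ₃)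
    (hE : IsCub (V.baseChange (AlgebraicClosure K)) (φ₁ θ) (φ₂ θ) (φ₃ θ)) {f : Coch K V}
    (hfa : ∀ σ, f σ + f σ = 0) {ε : (L →ₐ[K] AlgebraicClosure K) → ℤˣ} (hε1 : ∏ φ, ε φ = 1)
    (hε2 : ∀ (σ : AlgebraicClosure K ≃ₐ[K] AlgebraicClosure K) (φ : L →ₐ[K] AlgebraicClosure K),
      wp (mv σ φ θ) (f σ) = ε φ * ε (mv σ φ)) :
    ∃ S : (V.baseChange (AlgebraicClosure K)).toAffine.Point,
      S + S = 0 ∧ ∀ σ, f σ = act (inv_bc K V) σ S - S := by
  rw [Sc_prod h12 h13 h23 hall] at hε1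
  obtain ⟨S, hS2, s1, s2, s3⟩ := wp_ex hE hε1
  have hwS : ∀ φ : L →ₐ[K] AlgebraicClosure K, wp (φ θ) S = ε φ := by
    intro φ
    rcases hall φ with h | h | h
    · rw [h, s1]
    · rw [h, s2]
    · rw [h, s3]
  refine ⟨S, hS2, fun σ => ?_⟩
  have hneg : -S = S := neg_eq_of_add_eq_zero_right hS2
  rw [sub_eq_add_neg, hneg]
  have key : ∀ φ' : L →ₐ[K] AlgebraicClosure K, wp (φ' θ) (f σ) =
      wp (φ' θ) (act (inv_bc K V) σ S + S) := by
    intro φ'
    have h1 : mv σ (mv σ⁻¹ φ') = φ' := by rw [← mv_mul, mul_inv_cancel, mv_one]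
    have h2 := hε2 σ (mv σ⁻¹ φ')
    have h3 := Sc_mv (V := V) (θ := θ) σ (mv σ⁻¹ φ') S
    rw [h1] at h2 h3
    rw [wp_add hE (Sc_th hall φ') (Sc_act σ hS2) hS2, h3, hwS, hwS]
    exact h2
  have h2t : (act (inv_bc K V) σ S + S) + (act (inv_bc K V) σ S + S) = 0 := by
    rw [add_add_add_comm, Sc_act σ hS2, hS2, add_zero]
  exact wp_ext hE (hfa σ) h2t (key φ₁) (key φ₂) (key φ₃)

end

private theorem Sc_cub {K L : Type} [Field K] [NumberField K] [Field L] [Algebra K L] {a b : K}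
    {θ : L} (hL : Cub K L a b θ) {φ₁ φ₂ φ₃ : L →ₐ[K] AlgebraicClosure K}
    (h12 : φ₁ ≠ φ₂) (h13 : φ₁ ≠ φ₃) (h23 : φ₂ ≠ φ₃) :
    IsCub ((⟨0, 0, 0, a, b⟩ : WeierstrassCurve K).baseChange (AlgebraicClosure K))
      (φ₁ θ) (φ₂ θ) (φ₃ θ) :=
  isCub_of (a := algebraMap K (AlgebraicClosure K) a) (b := algebraMap K (AlgebraicClosure K) b)
    (map_zero (algebraMap K (AlgebraicClosure K))) (map_zero (algebraMap K (AlgebraicClosure K)))
    (map_zero (algebraMap K (AlgebraicClosure K))) rfl rfl two_ne_zero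
    (emb_root hL φ₁) (emb_root hL φ₂) (emb_root hL φ₃) (fun h => h12 (emb_ext hL h))
    (fun h => h13 (emb_ext hL h)) (fun h => h23 (emb_ext hL h))

theorem sc {K L : Type} [Field K] [NumberField K] [Field L] [NumberField L] [Algebra K L] {a b : K}
    {θ : L} (hL : Cub K L a b θ) (hS : SelTriv K L a b θ)
    {f : Coch K (⟨0, 0, 0, a, b⟩ : WeierstrassCurve K)}
    (hf : H73IS.Sl K (⟨0, 0, 0, a, b⟩ : WeierstrassCurve K) f) :
    ∃ S : ((⟨0, 0, 0, a, b⟩ : WeierstrassCurve K).baseChange (AlgebraicClosure K)).toAffine.Point,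
      S + S = 0 ∧ ∀ σ, f σ = act (inv_bc K _) σ S - S := by
  obtain ⟨hfd, hfr⟩ := fin3 hL
  have hfd' : FiniteDimensional K L := hfd
  obtain ⟨φ₁, φ₂, φ₃, h12, h13, h23, hall⟩ := emb3 (Ω := AlgebraicClosure K) hL
  have hE := Sc_cub hL h12 h13 h23
  obtain ⟨r, δ, hr, he, hd, hδ, hsq⟩ := Sc_one h12 h13 h23 hall hE ((isCocycle_iff f).1 hf.1) hf.2.2
  obtain ⟨c₀, c₁, c₂, hδe⟩ := hL.sp δ
  have hev : ev θ ![c₀, c₁, c₂] = δ := hδe.symm
  have hd' : ∀ φ : L →ₐ[K] AlgebraicClosure K, r φ ^ 2 = φ (ev θ ![c₀, c₁, c₂]) := by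
    intro φ
    rw [hev, hd]
  obtain ⟨l1, l2⟩ := lr hL hf.1 hf.2.1 hf.2.2 hr he hd'
  have hs : IsSquare δ := by
    have h1 := hS ![c₀, c₁, c₂] (by rw [hev]; exact hδ) (by rw [hev]; exact hsq) l1 l2
    rwa [hev] at h1
  obtain ⟨ε, hε1, hε2⟩ := sq_family (K := K) (L := L) (Ω := AlgebraicClosure K)
    (c := fun σ φ => wp (φ θ) (f σ)) (by rw [hfr]; decide) hr he hd hs
  exact Sc_two h12 h13 h23 hall hE hf.2.2 hε1 hε2

end H24PD

end S_H24_PD_Sc

section S_H24_PD_Main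

set_option autoImplicit false
open scoped Classical

open WeierstrassCurve NumberField IsDedekindDomain Pool.Agent.H10 H76PP

namespace H24PD

/-- Two-descent on the Tate-Shafarevich group. -/
theorem descent {K : Type} [Field K] [NumberField K] {L : Type} [Field L] [NumberField L]
    [Algebra K L] {a b : K} {θ : L} (hL : Cub K L a b θ) (hS : SelTriv K L a b θ) :
    Finite (⟨0, 0, 0, a, b⟩ : WeierstrassCurve K).toAffine.Point ∧
      Pool.Agent.H10.Sha2Trivial K (⟨0, 0, 0, a, b⟩ : WeierstrassCurve K) := by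
  haveI := elliptic hL
  exact fi fun f hf => sc hL hS hf

/-- Existence of the cubic extension. -/
theorem exists_cub {K : Type} [Field K] [NumberField K] {A B : K}
    (h : ∀ t : K, t ^ 3 + A * t + B ≠ 0) :
    ∃ (L : Type) (_ : Field L) (_ : NumberField L) (_ : Algebra K L) (θ : L), Cub K L A B θ :=
  cu h

end H24PD

end S_H24_PD_Main
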