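import Mathlib
import Pool.Agent.H76.PM.A4
import Pool.Agent.H76.PM.C1
import Pool.Agent.H76.PM.C2
import Pool.Agent.H76.PM.D1
import Pool.Agent.H76.PM.R1
import Pool.Agent.H76.PM.R2
import Pool.Agent.H76.PM.Z1

/-! A positive proportion of elliptic curves, part Z2: this file joins several modules to save build time. -/

set_option autoImplicit false

section S_H36_PP_Mn

set_option autoImplicit false
set_option linter.unusedSectionVars false
open scoped Classical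

open WithZero NumberField IsDedekindDomain H38RT H76PP

namespace H36PP.Check

variable (K : Type) [Field K] [NumberField K]

example (X : ℝ) : (Bx K X).Finite := H36PP.Bx_finite K X

example : ∃ C : ℝ, 0 < C ∧ ∀ X : ℝ, 1 ≤ X →
    ((Bx K X).ncard : ℝ) ≤ C * X ^ (5 * Module.finrank ℚ K) := H36PP.Bx_upper K

example (q₀ : HeightOneSpectrum (𝓞 K)) (h6 : (6 : 𝓞 K) ∉ q₀.asIdeal) :
    ∃ c : ℝ, 0 < c ∧ ∀ T : Finset (HeightOneSpectrum (𝓞 K)),
      (∀ v ∈ T, v ≠ q₀ ∧ (6 : 𝓞 K) ∉ v.asIdeal) → ∃ X₀ : ℝ, ∀ X : ℝ, X₀ ≤ X →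
        c * (∏ v ∈ T, (1 / 2 * (1 - 1 / (Nv v : ℝ)))) * X ^ (5 * Module.finrank ℚ K) ≤
          ({p : 𝓞 K × 𝓞 K | p ∈ Bx K X ∧ Fam q₀ T p.1 p.2}.ncard : ℝ) := H36PP.fam_lower K q₀ h6

example : ∃ q₀ : HeightOneSpectrum (𝓞 K), (6 : 𝓞 K) ∉ q₀.asIdeal ∧
    {p : HeightOneSpectrum (𝓞 K) | AuxP q₀ p}.Infinite := H36PP.aux_primes K

example {q₀ : HeightOneSpectrum (𝓞 K)} {J : Finset (HeightOneSpectrum (𝓞 K))}
    (hJ : ∀ p ∈ J, AuxP q₀ p) : ∃ D : 𝓞 K, TwD q₀ J (D : K) := H36PP.exists_twist hJ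

end H36PP.Check

end S_H36_PP_Mn

section S_H76_PP_Zd

set_option autoImplicit false
set_option linter.unusedSectionVars false
open scoped Classical

open WithZero NumberField IsDedekindDomain H38RT
open H38T1 (SC sc scu rep eo la si Pri OddP tp unif)

namespace H76PP

/-- The statements of all blocks from those of block R2. -/
theorem blocks_of_HR2 (K : Type) [Field K] [NumberField K]
    (hR : ∀ {A B : 𝓞 K} {L : Type} [Field L] [NumberField L] [Algebra K L] {θ : L},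
      Cub K L (A : K) (B : K) θ → 4 * (A : K) ^ 3 + 27 * (B : K) ^ 2 ≠ 0 → HR2 K L A B θ) :
    Blocks K where
  fin := H36PP.Bx_finite K
  up := H36PP.Bx_upper K
  fam := H36PP.fam_lower K
  aux := H36PP.aux_primes K
  tw := fun hJ => H36PP.exists_twist hJ
  bad := bad_count K (H36PP.Bx_finite K)
  sel := by
    intro q₀ T _ hT A B hF hB L _ _ _ θ hL
    exact sel_of_HR2 hT hF hB hL (hR hL hF.dsc_ne)
  desc := fun hL hS => H24PD.descent hL hS
  cub := fun h => H24PD.exists_cub h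
  nr := fun hF x => hF.no_root x
  dn := fun hF => hF.dsc_ne

/-- The final theorem from the statements of block R2. -/
theorem result_of_HR2 (K : Type) [Field K] [NumberField K]
    (hR : ∀ {A B : 𝓞 K} {L : Type} [Field L] [NumberField L] [Algebra K L] {θ : L},
      Cub K L (A : K) (B : K) θ → 4 * (A : K) ^ 3 + 27 * (B : K) ^ 2 ≠ 0 → HR2 K L A B θ) :
    ∃ (c X₀ : ℝ), 0 < c ∧ ∀ X : ℝ, X₀ ≤ X →
    c * ((Bx K X).ncard : ℝ) ≤
      ({p : 𝓞 K × 𝓞 K | p ∈ Bx K X ∧ 4 * p.1 ^ 3 + 27 * p.2 ^ 2 ≠ 0 ∧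
        Finite (⟨0, 0, 0, (p.1 : K), (p.2 : K)⟩ : WeierstrassCurve K).toAffine.Point ∧
        Pool.Agent.H10.Sha2Trivial K (⟨0, 0, 0, (p.1 : K), (p.2 : K)⟩ :
          WeierstrassCurve K)}.ncard : ℝ) :=
  (blocks_of_HR2 K hR).result

end H76PP

end S_H76_PP_Zd

section S_H76_PP_Ze

set_option autoImplicit false
set_option linter.unusedSectionVars false
open scoped Classical

open WithZero NumberField IsDedekindDomain H38RT
open H38T1 (SC sc scu rep eo la si Pri OddP tp unif)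

namespace H76PP

/-- The statements of block R2. -/
theorem hr2 {K L : Type} [Field K] [NumberField K] [Field L] [NumberField L] [Algebra K L]
    {A B : 𝓞 K} {θ : L} (h : Cub K L (A : K) (B : K) θ)
    (hd : 4 * (A : K) ^ 3 + 27 * (B : K) ^ 2 ≠ 0) : HR2 K L A B θ where
  proj := fun hv _ hu _ hc => proj_tame hv hu hc h hd
  iso := by
    intro d d' hd0 hd0' _ _ h2 hr
    exact H54PR.iso_sum' (fun x y hx hy h8 hs => rec_tame hx hy h8 hs)
      (fun x y hx hy h8 hs => rec_tame hx hy h8 hs)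
      (fun v hv u hu c hc => proj_tame hv hu hc h hd) h hd0 hd0' h2 hr

/-- Finiteness of the box. -/
theorem Bx_fin (K : Type) [Field K] [NumberField K] (X : ℝ) : (Bx K X).Finite :=
  H36PP.Bx_finite K X

/-- The final theorem. -/
theorem main (K : Type) [Field K] [NumberField K] : ∃ (c X₀ : ℝ), 0 < c ∧ ∀ X : ℝ, X₀ ≤ X →
    ∃ G : Finset (𝓞 K × 𝓞 K), (∀ p ∈ G, p ∈ Bx K X ∧ GoodE K p) ∧
      (∀ p ∈ G, ∀ q ∈ G, p.1 ^ 3 * q.2 ^ 2 = q.1 ^ 3 * p.2 ^ 2 → p = q) ∧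
      c * ((Bx K X).ncard : ℝ) ≤ (G.card : ℝ) :=
  (blocks_of_HR2 K fun h hd => hr2 h hd).result2

end H76PP

end S_H76_PP_Ze
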